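import Pool.Agent.CTM.Defs

/-!
# CTM, basic lemmas B: normalisers, products and closures
-/

set_option autoImplicit false

namespace Pool.Agent.CTM

universe u

open scoped commutatorElement Pointwise

section alg

variable {G : Type u} [Group G]

private def prodS {A B : Subgroup G} (h : Nm B A) : Subgroup G where
  carrier := {x | ∃ a ∈ A, ∃ b ∈ B, x = a * b}
  one_mem' := ⟨1, A.one_mem, 1, B.one_mem, by simp⟩
  mul_mem' := by
    rintro x y ⟨a, ha, b, hb, rfl⟩ ⟨a', ha', b', hb', rfl⟩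
    refine ⟨a * cj a' b⁻¹, A.mul_mem ha (h _ (B.inv_mem hb) _ ha'), b * b', B.mul_mem hb hb', ?_⟩
    unfold cj
    group
  inv_mem' := by
    rintro x ⟨a, ha, b, hb, rfl⟩
    refine ⟨cj a⁻¹ b, h _ hb _ (A.inv_mem ha), b⁻¹, B.inv_mem hb, ?_⟩
    unfold cj
    group

/-- size 1.  If `B` normalises `A`, the elements of `A ⊔ B` are the products `a * b`. -/
theorem mem_sup_nm {A B : Subgroup G} (h : Nm B A) {x : G} : x ∈ A ⊔ B ↔ ∃ a ∈ A, ∃ b ∈ B, x = a * b := by
  constructor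
  · intro hx
    have h1 : A ⊔ B ≤ prodS h := by
      refine sup_le ?_ ?_
      · intro a ha
        exact ⟨a, ha, 1, B.one_mem, by simp⟩
      · intro b hb
        exact ⟨1, A.one_mem, b, hb, by simp⟩
    exact h1 hx
  · rintro ⟨a, ha, b, hb, rfl⟩
    exact (A ⊔ B).mul_mem (Subgroup.mem_sup_left ha) (Subgroup.mem_sup_right hb)

/-- size 1.  ... and also the products `b * a`. -/
theorem mem_sup_nm' {A B : Subgroup G} (h : Nm B A) {x : G} : x ∈ A ⊔ B ↔ ∃ b ∈ B, ∃ a ∈ A, x = b * a := by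
  rw [mem_sup_nm h]
  constructor
  · rintro ⟨a, ha, b, hb, rfl⟩
    refine ⟨b, hb, cj a b, h _ hb _ ha, ?_⟩
    unfold cj
    group
  · rintro ⟨b, hb, a, ha, rfl⟩
    refine ⟨cj a b⁻¹, h _ (B.inv_mem hb) _ ha, b, hb, ?_⟩
    unfold cj
    group

/-- size 1.  The elements normalising `Y` on both sides form a subgroup. -/
theorem nm_closure_of {S : Set G} {Y : Subgroup G} (h : ∀ s ∈ S, ∀ y ∈ Y, cj y s ∈ Y ∧ cj y s⁻¹ ∈ Y) :
    Nm (Subgroup.closure S) Y := by
  have key : ∀ a ∈ Subgroup.closure S, ∀ y ∈ Y, cj y a ∈ Y ∧ cj y a⁻¹ ∈ Y := by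
    intro a ha
    induction ha using Subgroup.closure_induction with
    | mem x hx => exact h x hx
    | one =>
      intro y hy
      simp only [inv_one, cj_one]
      exact ⟨hy, hy⟩
    | mul x y _ _ hx hy =>
      intro z hz
      refine ⟨?_, ?_⟩
      · rw [← cj_cj]
        exact (hy _ (hx z hz).1).1
      · rw [mul_inv_rev, ← cj_cj]
        exact (hx _ (hy z hz).2).2
    | inv x _ hx =>
      intro z hz
      rw [inv_inv]
      exact ⟨(hx z hz).2, (hx z hz).1⟩
  exact fun a ha y hy => (key a ha y hy).1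

/-- size 1.  If every `a ∈ A` maps the generators `S` into `Subgroup.closure S`. -/
theorem nm_of_closure {A : Subgroup G} {S : Set G} (h : ∀ a ∈ A, ∀ s ∈ S, cj s a ∈ Subgroup.closure S) :
    Nm A (Subgroup.closure S) := by
  intro a ha y hy
  induction hy using Subgroup.closure_induction with
  | mem x hx => exact h a ha x hx
  | one =>
    rw [one_cj]
    exact Subgroup.one_mem _
  | mul x y _ _ hx hy =>
    rw [mul_cj]
    exact Subgroup.mul_mem _ hx hy
  | inv x _ hx =>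
    rw [inv_cj]
    exact Subgroup.inv_mem _ hx

/-- size 1. -/
theorem nm_sup_left {A B Y : Subgroup G} (h : Nm A Y) (h' : Nm B Y) : Nm (A ⊔ B) Y := by
  rw [Subgroup.sup_eq_closure]
  refine nm_closure_of ?_
  rintro s (hs | hs) y hy
  · exact ⟨h s hs y hy, h _ (A.inv_mem hs) y hy⟩
  · exact ⟨h' s hs y hy, h' _ (B.inv_mem hs) y hy⟩

/-- size 1.  `A` normalises `Y` and `Y'`, so also `Y ⊔ Y'`. -/
theorem nm_sup {A Y Y' : Subgroup G} (h : Nm A Y) (h' : Nm A Y') : Nm A (Y ⊔ Y') := by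
  rw [Subgroup.sup_eq_closure]
  refine nm_of_closure ?_
  rintro a ha s (hs | hs)
  · exact Subgroup.subset_closure (Or.inl (h a ha s hs))
  · exact Subgroup.subset_closure (Or.inr (h' a ha s hs))

/-- size 1.  `A` normalises `Y` and `Y'`, so also `⁅Y, Y'⁆` (`cm_cj`). -/
theorem nm_comm {A Y Y' : Subgroup G} (h : Nm A Y) (h' : Nm A Y') : Nm A ⁅Y, Y'⁆ := by
  rw [Subgroup.commutator_def]
  refine nm_of_closure ?_
  rintro a ha s ⟨g₁, h₁, g₂, h₂, rfl⟩
  refine Subgroup.subset_closure ⟨cj g₁ a, h a ha _ h₁, cj g₂ a, h' a ha _ h₂, ?_⟩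
  simp only [commutatorElement_def]
  unfold cj
  group

/-- size 1.  `⁅A, B⁆` is normalised by `A` and by `B` (Mathlib: `Subgroup.commutator_...`; `[x, y] ^ a = [x, a]⁻¹ ... `: for `x, a ∈ A`,
`y ∈ B`: `cm (x * a) y = cj (cm x y) a * cm a y`). -/
theorem nm_comm_self {A B : Subgroup G} : Nm A ⁅A, B⁆ ∧ Nm B ⁅A, B⁆ := by
  constructor
  · rw [Subgroup.commutator_def]
    refine nm_of_closure ?_
    rintro a ha s ⟨x, hx, y, hy, rfl⟩
    have h1 : ⁅a⁻¹ * x, y⁆ ∈ Subgroup.closure {g | ∃ g₁ ∈ A, ∃ g₂ ∈ B, ⁅g₁, g₂⁆ = g} :=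
      Subgroup.subset_closure ⟨_, A.mul_mem (A.inv_mem ha) hx, _, hy, rfl⟩
    have h2 : ⁅a⁻¹, y⁆ ∈ Subgroup.closure {g | ∃ g₁ ∈ A, ∃ g₂ ∈ B, ⁅g₁, g₂⁆ = g} :=
      Subgroup.subset_closure ⟨_, A.inv_mem ha, _, hy, rfl⟩
    have h3 : cj ⁅x, y⁆ a = ⁅a⁻¹ * x, y⁆ * ⁅a⁻¹, y⁆⁻¹ := by
      simp only [commutatorElement_def]
      unfold cj
      group
    rw [h3]
    exact Subgroup.mul_mem _ h1 (Subgroup.inv_mem _ h2)
  · rw [Subgroup.commutator_def]
    refine nm_of_closure ?_
    rintro b hb s ⟨x, hx, y, hy, rfl⟩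
    have h1 : ⁅x, b⁻¹ * y⁆ ∈ Subgroup.closure {g | ∃ g₁ ∈ A, ∃ g₂ ∈ B, ⁅g₁, g₂⁆ = g} :=
      Subgroup.subset_closure ⟨_, hx, _, B.mul_mem (B.inv_mem hb) hy, rfl⟩
    have h2 : ⁅x, b⁻¹⁆ ∈ Subgroup.closure {g | ∃ g₁ ∈ A, ∃ g₂ ∈ B, ⁅g₁, g₂⁆ = g} :=
      Subgroup.subset_closure ⟨_, hx, _, B.inv_mem hb, rfl⟩
    have h3 : cj ⁅x, y⁆ b = ⁅x, b⁻¹⁆⁻¹ * ⁅x, b⁻¹ * y⁆ := by
      simp only [commutatorElement_def]
      unfold cj
      group
    rw [h3]
    exact Subgroup.mul_mem _ (Subgroup.inv_mem _ h2) h1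

/-- size 1.  Subgroups normalised by `A`, `B ≤ A`: `c ≤ B` normalised by `A` implies `⁅c, B⁆ ≤ c`. -/
theorem comm_le_left {c B : Subgroup G} (h : Nm B c) : (⁅c, B⁆ : Subgroup G) ≤ c := by
  refine comm_le fun x hx y hy => ?_
  rw [cm_eq]
  exact c.mul_mem (c.inv_mem hx) (h y hy x hx)

end alg

section topo

variable {G : Type u} [Group G] [TopologicalSpace G] [IsTopologicalGroup G]

/-- size 1.  The closure of `A` normalises the closed subgroup `Y`. -/
theorem nm_topClosure_left {A Y : Subgroup G} (hY : IsClosed (Y : Set G)) (h : Nm A Y) :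
    Nm A.topologicalClosure Y := by
  intro a ha y hy
  have hc : Continuous fun a : G => cj y a := by
    unfold cj
    fun_prop
  have h1 : a ∈ closure (A : Set G) := by
    rw [← Subgroup.topologicalClosure_coe]
    exact ha
  have h2 := map_mem_closure hc h1 (t := (Y : Set G)) fun a ha => h a ha y hy
  rw [hY.closure_eq] at h2
  exact h2

/-- size 1.  `A` normalises the closure of `Y`. -/
theorem nm_topClosure_right {A Y : Subgroup G} (h : Nm A Y) : Nm A Y.topologicalClosure := by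
  intro a ha y hy
  have hc : Continuous fun y : G => cj y a := by
    unfold cj
    fun_prop
  have h1 : y ∈ closure (Y : Set G) := by
    rw [← Subgroup.topologicalClosure_coe]
    exact hy
  have h2 := map_mem_closure hc h1 (t := (Y : Set G)) fun y hy => h a ha y hy
  rw [← Subgroup.topologicalClosure_coe] at h2
  exact h2

/-- size 1.  Commutators of closures. -/
theorem cm_closure {S S' Z : Set G} (hZ : IsClosed Z) (h : ∀ x ∈ S, ∀ y ∈ S', cm x y ∈ Z) :
    ∀ x ∈ closure S, ∀ y ∈ closure S', cm x y ∈ Z := by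
  intro x hx y hy
  have hc : Continuous (Function.uncurry fun x y : G => cm x y) := by
    unfold cm Function.uncurry
    fun_prop
  have h2 := map_mem_closure₂ hc hx hy (u := Z) h
  rw [hZ.closure_eq] at h2
  exact h2

omit [TopologicalSpace G] [IsTopologicalGroup G] in
private theorem coe_sup_nm {A B : Subgroup G} (h : Nm B A) :
    ((A ⊔ B : Subgroup G) : Set G) = (A : Set G) * (B : Set G) := by
  ext x
  rw [Set.mem_mul]
  constructor
  · intro hx
    obtain ⟨a, ha, b, hb, rfl⟩ := (mem_sup_nm h).1 hx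
    exact ⟨a, ha, b, hb, rfl⟩
  · rintro ⟨a, ha, b, hb, rfl⟩
    exact (mem_sup_nm h).2 ⟨a, ha, b, hb, rfl⟩

/-- size 1.  The product of two compact subgroups, one normalised by the other, is a compact subgroup. -/
theorem cpt_sup {A B : Subgroup G} (hA : IsCompact (A : Set G)) (hB : IsCompact (B : Set G)) (h : Nm B A) :
    IsCompact ((A ⊔ B : Subgroup G) : Set G) := by
  rw [coe_sup_nm h]
  exact hA.mul hB

/-- size 1.  The product of a closed and a compact subgroup (`IsClosed.mul_right_of_isCompact` or so). -/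
theorem cl_sup {A B : Subgroup G} (hA : IsClosed (A : Set G)) (hB : IsCompact (B : Set G)) (h : Nm B A) :
    IsClosed ((A ⊔ B : Subgroup G) : Set G) := by
  rw [coe_sup_nm h]
  exact hA.mul_right_of_isCompact hB

/-- size 1.  The same with the roles exchanged (`A` closed normalises the compact `B`). -/
theorem cl_sup' {A B : Subgroup G} (hA : IsClosed (A : Set G)) (hB : IsCompact (B : Set G)) (h : Nm A B) :
    IsClosed ((A ⊔ B : Subgroup G) : Set G) := by
  rw [sup_comm, coe_sup_nm h]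
  exact hA.mul_left_of_isCompact hB

end topo

end Pool.Agent.CTM
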