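import Pool.Agent.CTM.Defs

/-!
# CTM: a discrete abelian minimal group is finite
-/

set_option autoImplicit false

namespace Pool.Agent.CTM

universe u

/-- the embedding of `ℚ / ℤ` in `ℝ / ℤ` -/
private noncomputable def Daf_j : AddCircle (1 : ℚ) →+ AddCircle (1 : ℝ) :=
  QuotientAddGroup.map (AddSubgroup.zmultiples (1 : ℚ)) (AddSubgroup.zmultiples (1 : ℝ)) ((Rat.castHom ℝ).toAddMonoidHom) (by
    rw [AddSubgroup.zmultiples_le]
    exact ⟨1, by simp⟩)

private theorem Daf_j_coe (q : ℚ) : Daf_j (q : AddCircle (1 : ℚ)) = ((q : ℝ) : AddCircle (1 : ℝ)) := rfl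

private theorem Daf_j_inj : Function.Injective Daf_j := by
  rw [injective_iff_map_eq_zero]
  intro a
  induction a using QuotientAddGroup.induction_on with
  | H q =>
    intro h
    have h1 : ((q : ℝ) : AddCircle (1 : ℝ)) = 0 := (Daf_j_coe q).symm.trans h
    rw [AddCircle.coe_eq_zero_iff] at h1
    obtain ⟨n, hn⟩ := h1
    have h2 : (n : ℚ) = q := by
      have : ((n : ℚ) : ℝ) = (q : ℝ) := by
        rw [← hn]; simp
      exact_mod_cast this
    change ((q : ℚ) : AddCircle (1 : ℚ)) = 0
    rw [AddCircle.coe_eq_zero_iff]
    exact ⟨n, by rw [← h2]; simp⟩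

private theorem Daf_sep {A : Type u} [AddCommGroup A] {a : A} (ha : a ≠ 0) :
    ∃ χ : A →+ AddCircle (1 : ℝ), χ a ≠ 0 := by
  obtain ⟨c, hc⟩ := CharacterModule.exists_character_apply_ne_zero_of_ne_zero ha
  refine ⟨Daf_j.comp c, ?_⟩
  intro h
  apply hc
  apply Daf_j_inj
  rw [map_zero]
  exact h

private abbrev Daf_P (A : Type u) [AddCommGroup A] : Type u :=
  Multiplicative ((A →+ AddCircle (1 : ℝ)) → AddCircle (1 : ℝ))

private instance (A : Type u) [AddCommGroup A] : T2Space (Daf_P A) :=
  inferInstanceAs (T2Space ((A →+ AddCircle (1 : ℝ)) → AddCircle (1 : ℝ)))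

private theorem Daf_main {D : Type u} [gD : Group D] [tD : TopologicalSpace D] [dD : DiscreteTopology D]
    (hc : ∀ a b : D, a * b = b * a) (h : IsMinimalGroup D) : Finite D := by
  let iC : CommGroup D := { gD with mul_comm := hc }
  have : Fact ((0 : ℝ) < 1) := ⟨one_pos⟩
  let f : D →* Daf_P (Additive D) :=
    { toFun := fun d => Multiplicative.ofAdd (fun χ => χ (Additive.ofMul d))
      map_one' := by
        apply Multiplicative.toAdd.injective
        funext χ
        exact map_zero χ
      map_mul' := by
        intro x y
        apply Multiplicative.toAdd.injective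
        funext χ
        exact (congrArg χ (ofMul_mul x y)).trans (map_add χ _ _) }
  have hf : Function.Injective f := by
    rw [injective_iff_map_eq_one]
    intro a ha
    by_contra hne
    obtain ⟨χ, hχ⟩ := Daf_sep (A := Additive D) (a := Additive.ofMul a) (by
      intro h0
      exact hne (by simpa using h0))
    apply hχ
    exact congrFun (congrArg Multiplicative.toAdd ha) χ
  have hg : @IsTopologicalGroup D (TopologicalSpace.induced f inferInstance) _ := topologicalGroup_induced f
  have hT : @T2Space D (TopologicalSpace.induced f inferInstance) :=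
    @T2Space.of_injective_continuous D _ (TopologicalSpace.induced f inferInstance) _ _ f hf continuous_induced_dom
  have hle : tD ≤ TopologicalSpace.induced f inferInstance := by
    rw [dD.eq_bot]
    exact bot_le
  have heq : TopologicalSpace.induced f inferInstance = tD := h _ hg hT hle
  have hind : Topology.IsInducing f := ⟨heq.symm⟩
  have hemb : Topology.IsEmbedding f := ⟨hind, hf⟩
  have hdis : DiscreteTopology f.range := by
    have h1 := hemb.toHomeomorph
    exact h1.symm.isEmbedding.discreteTopology
  have hcl : IsClosed (f.range : Set (Daf_P (Additive D))) := Subgroup.isClosed_of_discrete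
  have hcpt : IsCompact (f.range : Set (Daf_P (Additive D))) := hcl.isCompact
  have : CompactSpace f.range := isCompact_iff_compactSpace.1 hcpt
  have : Finite f.range := finite_of_compact_of_discrete
  exact Finite.of_injective f.rangeRestrict (fun x y hxy => hf (by
    have := congrArg Subtype.val hxy
    simpa using this))

/-- size 3.  PROOF.  `A := Additive D` (commutative by `hc`, so an `AddCommGroup`).  For every `a ≠ 0` there is a homomorphism
`χ : A →+ AddCircle (1 : ℚ)` with `χ a ≠ 0` (Mathlib: `CharacterModule.exists_character_apply_ne_zero_of_ne_zero`), and `ℚ / ℤ` embeds in the compact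
Hausdorff group `AddCircle (1 : ℝ)` (map induced by the cast `ℚ → ℝ`, injective: a rational number which is an integer real number is an integer).
So `A` embeds by an injective homomorphism `ι` in the compact Hausdorff group `P = (A →+ AddCircle (1 : ℝ)) → AddCircle (1 : ℝ)` (all homomorphisms to
`AddCircle (1 : ℝ)`).  The topology on `D` induced by `ι` is a Hausdorff group topology, coarser than the discrete one, so equal to it by `h`.
So the range of `ι` is a discrete subgroup of `P`, hence closed (Mathlib: `AddSubgroup.isClosed_of_discrete` or so), so compact and discrete, so finite. -/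
theorem finite_of_discrete_minimal {D : Type u} [Group D] [TopologicalSpace D] [DiscreteTopology D]
    (hc : ∀ a b : D, a * b = b * a) (h : IsMinimalGroup D) : Finite D :=
  Daf_main hc h

end Pool.Agent.CTM
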