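import Pool.Agent.CTM.BasA
import Pool.Agent.CTM.BasB
import Pool.Agent.CTM.Daf

/-!
# CTM: the property `AB`
-/

set_option autoImplicit false

namespace Pool.Agent.CTM

universe u

variable {G : Type u} [Group G] [TopologicalSpace G] [IsTopologicalGroup G] [T2Space G]

/-- size 3.  PROOF.  Given `A`, `C` as in `AB`.  `C` is normalised by `A` (`cj c a = c * cm c a`, `c ∈ A`).  `U ⊓ A` is a compact subgroup, open in `A`.
`B := C ⊔ (U ⊓ A)` (products: `mem_sup_nm`) is compact (`cpt_sup`), contained in `A`, contains the commutators of `A`, so `B.subgroupOf A` is a normal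
subgroup of `A`; it is open in `A` (it contains `U ⊓ A`), so closed.  `A ⧸ B.subgroupOf A` is discrete, commutative, and minimal by `h`; so it is finite
(`finite_of_discrete_minimal`).  So `A` is a finite union of cosets `a B`, which are compact. -/
theorem ab_of_ctm (h : IsCTotallyMinimalGroup G) (U : Subgroup G) (hUo : IsOpen (U : Set G))
    (hUc : IsCompact (U : Set G)) : AB G := by
  intro A C hA hC hCA hcm
  have hn : Nm A C := fun a ha c hc => by
    rw [cj_eq]; exact C.mul_mem hc (hcm c (hCA hc) a ha)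
  have hUA : IsCompact ((U ⊓ A : Subgroup G) : Set G) := by
    rw [Subgroup.coe_inf]; exact hUc.inter_right hA
  obtain ⟨B, hBdef⟩ : ∃ B : Subgroup G, B = C ⊔ (U ⊓ A) := ⟨_, rfl⟩
  have hB : IsCompact (B : Set G) := by
    rw [hBdef]; exact cpt_sup hC hUA (nm_mono inf_le_right hn)
  have hBA : B ≤ A := by rw [hBdef]; exact sup_le hCA inf_le_right
  have hCB : C ≤ B := by rw [hBdef]; exact le_sup_left
  have hUB : U ⊓ A ≤ B := by rw [hBdef]; exact le_sup_right
  have hN : (B.subgroupOf A).Normal := by
    refine ⟨fun x hx a => ?_⟩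
    rw [Subgroup.mem_subgroupOf] at hx ⊢
    have h1 : (↑(a * x * a⁻¹) : G) = x * cm (x : G) (a : G)⁻¹ := by
      simp only [Subgroup.coe_mul, Subgroup.coe_inv, cm]; group
    rw [h1]
    exact B.mul_mem hx (hCB (hcm _ x.2 _ (A.inv_mem a.2)))
  have hop : IsOpen ((B.subgroupOf A : Subgroup A) : Set A) := by
    refine Subgroup.isOpen_mono (H₁ := U.subgroupOf A) (fun x hx => ?_) ?_
    · rw [Subgroup.mem_subgroupOf] at hx ⊢
      exact hUB ⟨hx, x.2⟩
    · exact hUo.preimage continuous_subtype_val
  have hcl : IsClosed ((B.subgroupOf A : Subgroup A) : Set A) := Subgroup.isClosed_of_isOpen _ hop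
  have hd : DiscreteTopology (A ⧸ B.subgroupOf A) := QuotientGroup.discreteTopology hop
  have hcomm : ∀ a b : A ⧸ B.subgroupOf A, a * b = b * a := by
    intro a b
    induction a using QuotientGroup.induction_on with
    | H a =>
      induction b using QuotientGroup.induction_on with
      | H b =>
        rw [← QuotientGroup.mk_mul, ← QuotientGroup.mk_mul, QuotientGroup.eq, Subgroup.mem_subgroupOf]
        have h1 : (↑((a * b)⁻¹ * (b * a)) : G) = cm (b : G) (a : G) := by
          simp only [Subgroup.coe_mul, Subgroup.coe_inv, cm]; group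
        rw [h1]
        exact hCB (hcm _ b.2 _ a.2)
  have hfin : Finite (A ⧸ B.subgroupOf A) :=
    finite_of_discrete_minimal hcomm (h A hA (B.subgroupOf A) hcl)
  have hU : (A : Set G) = ⋃ q : A ⧸ B.subgroupOf A, (fun b : G => ((q.out : A) : G) * b) '' (B : Set G) := by
    ext x
    simp only [SetLike.mem_coe, Set.mem_iUnion, Set.mem_image]
    constructor
    · intro hx
      refine ⟨((⟨x, hx⟩ : A) : A ⧸ B.subgroupOf A), _, ?_, mul_inv_cancel_left _ x⟩
      have h1 : ((((⟨x, hx⟩ : A) : A ⧸ B.subgroupOf A).out : A) : A ⧸ B.subgroupOf A)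
          = ((⟨x, hx⟩ : A) : A ⧸ B.subgroupOf A) := QuotientGroup.out_eq' _
      rw [QuotientGroup.eq, Subgroup.mem_subgroupOf] at h1
      simpa using h1
    · rintro ⟨q, b, hb, rfl⟩
      exact A.mul_mem q.out.2 (hBA hb)
  rw [hU]
  exact isCompact_iUnion fun q => hB.image (continuous_const.mul continuous_id)

end Pool.Agent.CTM
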