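import Pool.Agent.CTM.BasC

/-!
# CTM: powers
-/

set_option autoImplicit false

namespace Pool.Agent.CTM

universe u

/-- size 1.  PROOF.  `Nat.Coprime j p`: Bezout: `b = (b ^ j) ^ s * (b ^ p) ^ t` with integers `s t`. -/
theorem pow_mem_of_prime {G : Type u} [Group G] {L : Subgroup G} {p : ℕ} (hp : p.Prime) {b : G} (hb : b ^ p ∈ L)
    {j : ℕ} (hj : 0 < j) (hj' : j < p) (h : b ^ j ∈ L) : b ∈ L := by
  have hc : Nat.Coprime j p := ((Nat.Prime.coprime_iff_not_dvd hp).2 (fun h => absurd (Nat.le_of_dvd hj h) (by omega))).symm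
  have h1 := Nat.gcd_eq_gcd_ab j p
  rw [Nat.Coprime.gcd_eq_one hc] at h1
  have h2 : b = (b ^ j) ^ (Nat.gcdA j p) * (b ^ p) ^ (Nat.gcdB j p) := by
    rw [← zpow_natCast b j, ← zpow_natCast b p, ← zpow_mul, ← zpow_mul, ← zpow_add, ← h1]
    simp
  rw [h2]
  exact L.mul_mem (L.zpow_mem h _) (L.zpow_mem hb _)

variable {G : Type u} [Group G] [TopologicalSpace G] [IsTopologicalGroup G] [T2Space G]

/-- size 1.  PROOF.  `(b ^ s)⁻¹ * b ^ t = b ^ (t - s)` or its inverse; `0 < |t - s| < p`; `pow_mem_of_prime` with a level `K m'`, `m' ≥ m, m₀` (`mono`). -/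
theorem far_pow {K : ℕ → Subgroup G} (T : Tow K) {p : ℕ} (hp : p.Prime) {m₀ : ℕ} {b : ℕ → G}
    (hb : ∀ i, b i ^ p ∈ K m₀) (hinf : ∀ m, Ev (fun i => b i ∉ K m)) (s t : Fin p) (hst : s ≠ t) (m : ℕ) :
    Ev (fun i => (b i ^ (s : ℕ))⁻¹ * b i ^ (t : ℕ) ∉ K m) := by
  refine (hinf (max m m₀)).mono ?_
  intro i hi hmem
  apply hi
  have hm : K m ≤ K (max m m₀) := T.mono (le_max_left _ _)
  have hm0 : K m₀ ≤ K (max m m₀) := T.mono (le_max_right _ _)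
  have hp' : b i ^ p ∈ K (max m m₀) := hm0 (hb i)
  have h1 := hm hmem
  have hne : (s : ℕ) ≠ (t : ℕ) := fun h => hst (Fin.ext h)
  rcases lt_or_gt_of_ne hne with h | h
  · have h2 : (b i ^ (s : ℕ))⁻¹ * b i ^ (t : ℕ) = b i ^ ((t : ℕ) - (s : ℕ)) := by
      rw [inv_mul_eq_iff_eq_mul, ← pow_add]
      congr 1
      omega
    rw [h2] at h1
    exact pow_mem_of_prime hp hp' (by omega) (by have := t.isLt; omega) h1
  · have h2 : ((b i ^ (s : ℕ))⁻¹ * b i ^ (t : ℕ))⁻¹ = b i ^ ((s : ℕ) - (t : ℕ)) := by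
      rw [mul_inv_rev, inv_inv, inv_mul_eq_iff_eq_mul, ← pow_add]
      congr 1
      omega
    have h3 := (K (max m m₀)).inv_mem h1
    rw [h2] at h3
    exact pow_mem_of_prime hp hp' (by omega) (by have := s.isLt; omega) h3

private theorem mul_pow_aux {G : Type u} [Group G] (y u : G) (k : ℕ) :
    (y ^ (k + 1))⁻¹ * (y * u) ^ (k + 1) = cj u (y ^ k) * ((y ^ k)⁻¹ * (y * u) ^ k) := by
  rw [pow_succ' (y * u) k, pow_succ' y k, cj_def, mul_inv_rev]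
  simp only [mul_assoc, mul_inv_cancel_left, inv_mul_cancel_left]

private theorem mul_pow_mem {G : Type u} [Group G] {V : Subgroup G} {y u : G} (k : ℕ)
    (h : ∀ s, s < k → cj u (y ^ s) ∈ V) : (y ^ k)⁻¹ * (y * u) ^ k ∈ V := by
  induction k with
  | zero => simp
  | succ k ih =>
    rw [mul_pow_aux]
    exact V.mul_mem (h k (Nat.lt_succ_self k)) (ih (fun s hs => h s (Nat.lt_succ_of_lt hs)))

/-- size 1.  `(y u) ^ p = y ^ p * u ^ (y ^ (p-1)) * ... * u ^ y * u`.  In the form: if `cj u (y ^ s) ∈ V` for all `s < p` then `(y ^ p)⁻¹ * (y * u) ^ p ∈ V`; and the version with the first factor: if `cj u (y ^ s) ∈ V` for `s < p - 1` and `q * cj u (y ^ (p-1)) ∈ V` then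
`q * ((y ^ p)⁻¹ * (y * u) ^ p) ∈ V`.  (Induction: `(y ^ (k+1))⁻¹ * (y * u) ^ (k+1) = cj ((y ^ k)⁻¹ ...)`; easiest: `(y * u) ^ (k+1) = y ^ (k+1) * (cj u (y ^ k)) * ((y ^ k)⁻¹ * (y * u) ^ k)`.) -/
theorem mul_pow_cj {G : Type u} [Group G] {V : Subgroup G} {y u q : G} {p : ℕ} (hp : 1 ≤ p)
    (h : ∀ s, s + 1 < p → cj u (y ^ s) ∈ V) (hq : q * cj u (y ^ (p - 1)) ∈ V) :
    q * ((y ^ p)⁻¹ * (y * u) ^ p) ∈ V := by
  obtain ⟨k, rfl⟩ : ∃ k, p = k + 1 := ⟨p - 1, by omega⟩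
  rw [mul_pow_aux, ← mul_assoc]
  simp only [Nat.add_sub_cancel] at hq
  exact V.mul_mem hq (mul_pow_mem k (fun s hs => h s (by omega)))

end Pool.Agent.CTM
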