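import Pool.Agent.CTM.JmB

/-!
# CTM: joint mixing
-/

set_option autoImplicit false

namespace Pool.Agent.CTM

universe u

variable {G : Type u} [Group G] [TopologicalSpace G] [IsTopologicalGroup G] [T2Space G]

/-- size 3.  JOINT MIXING.  PROOF.  For `t` and `J = univ.erase t`: `x ∈ Dl` with `x s = 1` for `s ≠ t`, `x t = b` is `Pi.mulSingle t b`.  The set of `b` with `Pi.mulSingle t b ∈ Dl N z` is closed (`Dl_closed`, continuity of `Pi.mulSingle t`), so contains `N` by `jm_dense`.  By induction on
the finset `J`: the tuple equal to `a` on `J` and to `1` elsewhere is in `Dl N z` (multiply by `Pi.mulSingle t (a t)`).  `J = univ`: `a ∈ Dl N z`; `mem_Dl`. -/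
theorem jm {K : ℕ → Subgroup G} (T : Tow K) {A N : Subgroup G} (h : MinN A N) {ι : Type} [Fintype ι]
    (z : ι → ℕ → G) (hz : ∀ s i, z s i ∈ N)
    (hinf : ∀ s t, s ≠ t → ∀ m, Ev (fun i => (z s i)⁻¹ * z t i ∉ K m)) (a : ι → G) (ha : ∀ s, a s ∈ N)
    {V : Subgroup G} (hV : IsOpen (V : Set G)) :
    Ev (fun i => ∃ u ∈ N, ∀ s, (a s)⁻¹ * cj u (z s i) ∈ V) := by
  classical
  have hcl := Dl_closed N z
  have hsingle : ∀ t, ∀ b ∈ N, (Pi.mulSingle t b : ι → G) ∈ Dl N z := by
    intro t b hb
    have hd := jm_dense T h hz hinf (Finset.univ.erase t) t (Finset.notMem_erase t _) hb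
    have hcont : Continuous (fun b : G => (Pi.mulSingle t b : ι → G)) := by
      refine continuous_pi fun s => ?_
      by_cases hs : s = t
      · subst hs; simpa using continuous_id'
      · simp only [Pi.mulSingle_eq_of_ne hs]; exact continuous_const
    have hclosed : IsClosed {b : G | (Pi.mulSingle t b : ι → G) ∈ (Dl N z : Set (ι → G))} :=
      hcl.preimage hcont
    refine closure_minimal ?_ hclosed hd
    rintro b' ⟨x, hx, h1, h2⟩
    have hxe : x = Pi.mulSingle t b' := by
      funext s
      by_cases hs : s = t
      · subst hs; simp [h2]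
      · rw [Pi.mulSingle_eq_of_ne hs]
        exact h1 s (Finset.mem_erase.mpr ⟨hs, Finset.mem_univ _⟩)
    change (Pi.mulSingle t b' : ι → G) ∈ (Dl N z : Set (ι → G))
    rw [← hxe]
    exact hx
  have hall : ∀ J : Finset ι, (fun s => if s ∈ J then a s else 1) ∈ Dl N z := by
    intro J
    induction J using Finset.induction_on with
    | empty =>
      have := (Dl N z).one_mem
      convert this using 1
      funext s
      simp
    | insert t J ht ih =>
      have hm := (Dl N z).mul_mem ih (hsingle t (a t) (ha t))
      convert hm using 1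
      funext s
      by_cases hs : s = t
      · subst hs; simp [ht]
      · simp [hs, Finset.mem_insert]
  have hu := hall Finset.univ
  have hua : (fun s => if s ∈ (Finset.univ : Finset ι) then a s else 1) = a := by
    funext s; simp
  rw [hua] at hu
  exact hu V hV

end Pool.Agent.CTM
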