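import Pool.Agent.CTM.Alp
import Pool.Agent.CTM.JmD

/-!
# CTM: case alpha, part 1
-/

set_option autoImplicit false

namespace Pool.Agent.CTM

universe u

variable {G : Type u} [Group G] [TopologicalSpace G] [IsTopologicalGroup G] [T2Space G]

/-- size 3.  PROOF.  Choose `y k ∈ N`, `y k ∉ K k`, `y k ^ p ∈ K m`; `Ev (y i ∉ K l)` for all `l` (`Ev.of_ge`, `mono`).  `q ∈ K m` with `Lm (fun i => y i ^ p) q` (`Lm.exists`); `q ∈ N` (`Lm.mem`).  `V' ≤ V` open normalised by `K m` (`core_exists`), and `V' ≤ K l` too (replace `V` by `V ⊓ K l`).  `jm` for `z s i = y i ^ s` (`s : Fin p`; `far_pow`), `a s = if s = p - 1 then q⁻¹ else 1`: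
eventually there is `u ∈ N` with `cj u (y i ^ s) ∈ V'` for `s < p - 1` and `q * cj u (y i ^ (p-1)) ∈ V'`; eventually also `q⁻¹ * y i ^ p ∈ V'` (`Lm.coset`) and `y i ∉ K l`.  `b := y i * u`: `q * ((y i ^ p)⁻¹ * b ^ p) ∈ V'` (`mul_pow_cj`), so `b ^ p = y i ^ p * q⁻¹ * v`, and `y i ^ p * q⁻¹ = q * (q⁻¹ * y i ^ p) * q⁻¹ ∈ V'` (`q ∈ K m` normalises `V'`).
`u ∈ V'` (`s = 0 < p - 1`), so `b ∉ K l`. -/
theorem alp_seq {K : ℕ → Subgroup G} (T : Tow K) {A N : Subgroup G} (h : MinN A N) {p : ℕ} (hp : p.Prime) {m : ℕ}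
    (hunb : ∀ l, ∃ y ∈ N, y ∉ K l ∧ y ^ p ∈ K m) {V : Subgroup G} (hV : IsOpen (V : Set G)) (l : ℕ) :
    ∃ b ∈ N, b ∉ K l ∧ b ^ p ∈ V := by
  classical
  choose y hyN hyK hyp using hunb
  have hinf : ∀ l', Ev (fun i => y i ∉ K l') := fun l' =>
    Ev.of_ge l' fun i hi hmem => hyK i (T.mono hi hmem)
  obtain ⟨q, hqK, hq⟩ := Lm.exists (T.cpt m) (x := fun i => y i ^ p)
    (Ev.of_forall fun i => hyp i)
  have hqN : q ∈ N := Lm.mem h.cl hq (Ev.of_forall fun i => N.pow_mem (hyN i) p)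
  have hV0 : IsOpen ((V ⊓ K l : Subgroup G) : Set G) := hV.inter (T.opn l)
  obtain ⟨V', hV', hle, hnm⟩ := core_exists (T.cpt m) hV0
  have hp2 : 2 ≤ p := hp.two_le
  have hjm := jm T h (ι := Fin p) (fun s i => y i ^ (s : ℕ)) (fun s i => N.pow_mem (hyN i) _)
    (fun s t hst m' => far_pow T hp hyp hinf s t hst m')
    (fun s => if (s : ℕ) = p - 1 then q⁻¹ else 1)
    (fun s => by
      show (if (s : ℕ) = p - 1 then q⁻¹ else 1) ∈ N
      split_ifs
      · exact N.inv_mem hqN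
      · exact N.one_mem) hV'
  obtain ⟨i, ⟨⟨u, huN, hu⟩, hco⟩, hyl⟩ := ((hjm.and (Lm.coset hV' hq)).and (hinf l)).exists
  have h1 : ∀ s, s + 1 < p → cj u (y i ^ s) ∈ V' := by
    intro s hs
    have h2 := hu ⟨s, by omega⟩
    have h3 : ¬ (s = p - 1) := by omega
    simp only [h3, if_false, inv_one, one_mul] at h2
    exact h2
  have h2 : q * cj u (y i ^ (p - 1)) ∈ V' := by
    have h3 := hu ⟨p - 1, by omega⟩
    simp only [if_true, inv_inv] at h3
    exact h3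
  have h3 := mul_pow_cj (V := V') (y := y i) (u := u) (q := q) hp.one_le h1 h2
  have h4 : y i ^ p * q⁻¹ ∈ V' := by
    have h5 := hnm q⁻¹ ((K m).inv_mem hqK) _ hco
    have h6 : cj (q⁻¹ * y i ^ p) q⁻¹ = y i ^ p * q⁻¹ := by
      unfold cj
      group
    rw [h6] at h5
    exact h5
  have hu0 : u ∈ V' := by
    have h5 := h1 0 (by omega)
    rw [pow_zero, cj_one] at h5
    exact h5
  refine ⟨y i * u, N.mul_mem (hyN i) huN, ?_, ?_⟩
  · intro hmem
    apply hyl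
    have h5 : y i = y i * u * u⁻¹ := by group
    rw [h5]
    exact (K l).mul_mem hmem ((K l).inv_mem (hle hu0).2)
  · have h5 : (y i * u) ^ p = (y i ^ p * q⁻¹) * (q * ((y i ^ p)⁻¹ * (y i * u) ^ p)) := by group
    have h6 : (y i * u) ^ p ∈ V' := by
      rw [h5]
      exact V'.mul_mem h4 h3
    exact (hle h6).1

end Pool.Agent.CTM
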