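import Pool.Agent.CTM.Defs

/-!
# CTM, basic lemmas C: the ultrafilter, limits, compactness
-/

set_option autoImplicit false

namespace Pool.Agent.CTM

universe u

/-! ### `Ev` (all size 1) -/

theorem Ev.mono {P Q : ℕ → Prop} (h : Ev P) (hPQ : ∀ i, P i → Q i) : Ev Q :=
  Filter.Eventually.mono h hPQ

theorem Ev.and {P Q : ℕ → Prop} (h : Ev P) (h' : Ev Q) : Ev (fun i => P i ∧ Q i) :=
  Filter.Eventually.and h h'

theorem Ev.of_forall {P : ℕ → Prop} (h : ∀ i, P i) : Ev P :=
  Filter.Eventually.of_forall h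

theorem Ev.exists {P : ℕ → Prop} (h : Ev P) : ∃ i, P i :=
  Filter.Eventually.exists h

/-- an ultrafilter: `P` or its negation holds eventually -/
theorem Ev.not_iff {P : ℕ → Prop} : ¬ Ev P ↔ Ev (fun i => ¬ P i) :=
  Ultrafilter.eventually_not.symm

/-- the ultrafilter is not principal -/
theorem Ev.of_ge {P : ℕ → Prop} (m : ℕ) (h : ∀ i, m ≤ i → P i) : Ev P := by
  have h1 : ∀ᶠ i in (Filter.cofinite : Filter ℕ), P i := by
    rw [Nat.cofinite_eq_atTop]
    exact (Filter.eventually_ge_atTop m).mono h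
  exact Filter.hyperfilter_le_cofinite h1

theorem Ev.finset {ι : Type*} {T : Finset ι} {P : ι → ℕ → Prop} (h : ∀ t ∈ T, Ev (P t)) :
    Ev (fun i => ∀ t ∈ T, P t i) :=
  (Filter.eventually_all_finset T).2 h

theorem Ev.fintype {ι : Type*} [Fintype ι] {P : ι → ℕ → Prop} (h : ∀ t, Ev (P t)) :
    Ev (fun i => ∀ t, P t i) :=
  Filter.eventually_all.2 h

/-- PIGEONHOLE: a map into a finite type is constant on a set of the ultrafilter. -/
theorem Ev.pigeon {α : Type*} [Finite α] (f : ℕ → α) : ∃ a, Ev (fun i => f i = a) := by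
  by_contra hcon
  push Not at hcon
  have h1 : ∀ a, Ev (fun i => ¬ f i = a) := fun a => Ev.not_iff.1 (hcon a)
  have h2 : Ev (fun i => ∀ a, ¬ f i = a) := Filter.eventually_all.2 h1
  obtain ⟨i, hi⟩ := h2.exists
  exact hi (f i) rfl

/-! ### limits along the ultrafilter -/

/-- size 1.  A sequence in a compact set (eventually) has a limit in it.  (`IsCompact.ultrafilter_le_nhds` for the
map of the hyperfilter.) -/
theorem Lm.exists {X : Type*} [TopologicalSpace X] {C : Set X} (hC : IsCompact C) {x : ℕ → X}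
    (h : Ev (fun i => x i ∈ C)) : ∃ b ∈ C, Lm x b := by
  have h1 : ((Filter.hyperfilter ℕ).map x : Filter X) ≤ Filter.principal C := by
    rw [Filter.le_principal_iff]
    exact h
  obtain ⟨b, hb, hb'⟩ := hC.ultrafilter_le_nhds ((Filter.hyperfilter ℕ).map x) h1
  exact ⟨b, hb, hb'⟩

/-- size 1.  Closed conditions pass to the limit. -/
theorem Lm.mem {X : Type*} [TopologicalSpace X] {S : Set X} (hS : IsClosed S) {x : ℕ → X} {b : X} (hb : Lm x b)
    (h : Ev (fun i => x i ∈ S)) : b ∈ S :=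
  hS.mem_of_tendsto hb h

/-- size 1.  Open conditions on the limit hold eventually. -/
theorem Lm.ev {X : Type*} [TopologicalSpace X] {S : Set X} (hS : IsOpen S) {x : ℕ → X} {b : X} (hb : Lm x b)
    (h : b ∈ S) : Ev (fun i => x i ∈ S) :=
  hb.eventually (hS.mem_nhds h)

section group

variable {G : Type u} [Group G] [TopologicalSpace G] [IsTopologicalGroup G]

/-- size 1. -/
theorem Lm.coset {V : Subgroup G} (hV : IsOpen (V : Set G)) {x : ℕ → G} {b : G} (hb : Lm x b) :
    Ev (fun i => b⁻¹ * x i ∈ V) := by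
  have hO : IsOpen {y : G | b⁻¹ * y ∈ V} := hV.preimage (continuous_const_mul b⁻¹)
  exact Lm.ev hO hb (by simp [V.one_mem])

/-- size 1.  (base of open subgroups) -/
theorem Hyp.lm (H : Hyp G) {x : ℕ → G} {b : G}
    (h : ∀ V : Subgroup G, IsOpen (V : Set G) → Ev (fun i => b⁻¹ * x i ∈ V)) : Lm x b := by
  have h1 : Lm (fun i => b⁻¹ * x i) 1 := by
    intro O hO
    obtain ⟨V, hVo, -, hV⟩ := H.base O hO
    exact Filter.mem_of_superset (h V hVo) (fun i hi => hV hi)
  have h2 : Lm (fun i => b * (b⁻¹ * x i)) (b * 1) := h1.const_mul b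
  simpa using h2

/-- size 2.  COMPACTNESS: closed sets `S V` decreasing with the open subgroup `V`, each meeting the compact set `C`, have a common
point in `C`.  (`IsCompact.nonempty_iInter_of_directed_nonempty_isCompact_isClosed` or the finite intersection property; the index
type is the type of open subgroups, directed by `⊓`, nonempty by `⊤`.) -/
theorem fam_inter {X : Type*} [TopologicalSpace X] {C : Set X} (hC : IsCompact C) (S : Subgroup G → Set X)
    (hcl : ∀ V : Subgroup G, IsOpen (V : Set G) → IsClosed (S V))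
    (hne : ∀ V : Subgroup G, IsOpen (V : Set G) → (S V ∩ C).Nonempty)
    (hmono : ∀ V V' : Subgroup G, IsOpen (V : Set G) → IsOpen (V' : Set G) → V ≤ V' → S V ⊆ S V') :
    ∃ b ∈ C, ∀ V : Subgroup G, IsOpen (V : Set G) → b ∈ S V := by
  have hinf : ∀ V V' : Subgroup G, IsOpen (V : Set G) → IsOpen (V' : Set G) →
      IsOpen ((V ⊓ V' : Subgroup G) : Set G) := fun V V' h h' => by
    rw [Subgroup.coe_inf]; exact h.inter h'
  have hfin : ∀ u : Finset {V : Subgroup G // IsOpen (V : Set G)},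
      ∃ W : Subgroup G, IsOpen (W : Set G) ∧ ∀ V ∈ u, W ≤ V.1 := by
    classical
    intro u
    induction u using Finset.induction_on with
    | empty => exact ⟨⊤, by simp, by simp⟩
    | insert a u ha ih =>
      obtain ⟨W, hW, hWu⟩ := ih
      refine ⟨a.1 ⊓ W, hinf _ _ a.2 hW, ?_⟩
      intro V hV
      rcases Finset.mem_insert.1 hV with rfl | hV
      · exact inf_le_left
      · exact inf_le_right.trans (hWu V hV)
  have key : (C ∩ ⋂ V : {V : Subgroup G // IsOpen (V : Set G)}, S V.1).Nonempty := by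
    refine hC.inter_iInter_nonempty (fun V : {V : Subgroup G // IsOpen (V : Set G)} => S V.1)
      (fun V => hcl V.1 V.2) ?_
    intro u
    obtain ⟨W, hW, hWu⟩ := hfin u
    obtain ⟨b, hb, hbC⟩ := hne W hW
    refine ⟨b, hbC, ?_⟩
    simp only [Set.mem_iInter]
    intro V hV
    exact hmono W V.1 hW V.2 (hWu V hV) hb
  obtain ⟨b, hb, hb'⟩ := key
  exact ⟨b, hb, fun V hV => Set.mem_iInter.1 hb' ⟨V, hV⟩⟩

/-- size 2.  The same for a nonempty directed family of closed sets (a set of closed sets). -/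
theorem fam_inter' {X : Type*} [TopologicalSpace X] {C : Set X} (hC : IsCompact C) (F : Set (Set X))
    (hF : F.Nonempty) (hcl : ∀ S ∈ F, IsClosed S) (hne : ∀ S ∈ F, (S ∩ C).Nonempty)
    (hdir : ∀ S ∈ F, ∀ S' ∈ F, ∃ S'' ∈ F, S'' ⊆ S ∩ S') : ∃ b ∈ C, ∀ S ∈ F, b ∈ S := by
  have hfin : ∀ u : Finset F, ∃ W ∈ F, ∀ V ∈ u, W ⊆ V.1 := by
    classical
    intro u
    induction u using Finset.induction_on with
    | empty => exact ⟨hF.some, hF.some_mem, by simp⟩
    | insert a u ha ih =>
      obtain ⟨W, hW, hWu⟩ := ih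
      obtain ⟨W', hW', hs⟩ := hdir a.1 a.2 W hW
      refine ⟨W', hW', ?_⟩
      intro V hV
      rcases Finset.mem_insert.1 hV with rfl | hV
      · exact hs.trans Set.inter_subset_left
      · exact (hs.trans Set.inter_subset_right).trans (hWu V hV)
  have key : (C ∩ ⋂ V : F, (V.1 : Set X)).Nonempty := by
    refine hC.inter_iInter_nonempty (fun V : F => (V.1 : Set X)) (fun V => hcl V.1 V.2) ?_
    intro u
    obtain ⟨W, hW, hWu⟩ := hfin u
    obtain ⟨b, hb, hbC⟩ := hne W hW
    refine ⟨b, hbC, ?_⟩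
    simp only [Set.mem_iInter]
    intro V hV
    exact hWu V hV hb
  obtain ⟨b, hb, hb'⟩ := key
  exact ⟨b, hb, fun V hV => Set.mem_iInter.1 hb' ⟨V, hV⟩⟩

/-- size 2.  The closed set `x V` etc.: a set which is a union of left cosets of an open subgroup is closed and open. -/
theorem clopen_of_coset {V : Subgroup G} (hV : IsOpen (V : Set G)) {S : Set G}
    (h : ∀ x ∈ S, ∀ v ∈ V, x * v ∈ S) : IsClosed S ∧ IsOpen S := by
  have hco : ∀ x : G, IsOpen {y : G | x⁻¹ * y ∈ V} := fun x => hV.preimage (continuous_const_mul x⁻¹)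
  have hopen : ∀ T : Set G, (∀ x ∈ T, ∀ v ∈ V, x * v ∈ T) → IsOpen T := by
    intro T hT
    rw [isOpen_iff_forall_mem_open]
    intro x hx
    refine ⟨{y : G | x⁻¹ * y ∈ V}, ?_, hco x, by simp [V.one_mem]⟩
    intro y hy
    have := hT x hx _ hy
    simpa using this
  refine ⟨?_, hopen S h⟩
  rw [← isOpen_compl_iff]
  refine hopen Sᶜ ?_
  intro x hx v hv hxv
  apply hx
  have := h (x * v) hxv v⁻¹ (V.inv_mem hv)
  simpa using this

end group

end Pool.Agent.CTM
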