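import Pool.Agent.CTM.BasA
import Pool.Agent.CTM.BasB
import Pool.Agent.CTM.BasC

/-!
# CTM: Lemma Z: the property `(*)`
-/

set_option autoImplicit false

namespace Pool.Agent.CTM

universe u

variable {G : Type u} [Group G] [TopologicalSpace G] [IsTopologicalGroup G]

/-- property `(*)` of `N` -/
def StarP (K : ℕ → Subgroup G) (N : Subgroup G) : Prop :=
  ∀ (r : ℕ) (x : ℕ → G), (∀ h < r, x h ∈ N) → ∀ W V : Subgroup G, IsOpen (W : Set G) → IsOpen (V : Set G) →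
    ∀ l : ℕ, ∃ z ∈ N, z ∉ K l ∧ ∃ n : ℕ, 1 ≤ n ∧ z ^ n ∈ V ∧ (∀ j, 0 < j → j < n → z ^ j ∉ K l) ∧
      ∃ u : ℕ → G, ∀ h < r, u h ∈ N ∧ (x h)⁻¹ * u h ∈ W ∧ ∀ j < n, (u h)⁻¹ * cj (u h) (z ^ j) ∈ V

/-- the conditions on `x i` (and `x h`, `h < i`) -/
def Cz (K : ℕ → Subgroup G) (N : Subgroup G) (Vc : ℕ → Subgroup G) (L n : ℕ → ℕ) (x : ℕ → G) (i : ℕ) : Prop :=
  x i ∈ N ∧ x i ∈ K (L (i + 1)) ∧ x i ∉ K (L i) ∧ 1 ≤ n i ∧ x i ^ n i ∈ Vc (L i) ∧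
    (∀ j, 0 < j → j < n i → x i ^ j ∉ K (L i)) ∧
    ∀ h < i, ∀ j < n i, (x h)⁻¹ * cj (x h) (x i ^ j) ∈ Vc (L i)

/-- size 2.  `Cz ... i` depends only on `x h`, `h ≤ i`, on `L i`, `L (i+1)`, `n i`. -/
theorem Cz_congr {K : ℕ → Subgroup G} {N : Subgroup G} {Vc : ℕ → Subgroup G} {L n L' n' : ℕ → ℕ} {x x' : ℕ → G}
    {i : ℕ} (hx : ∀ h ≤ i, x h = x' h) (hL : L i = L' i) (hL' : L (i + 1) = L' (i + 1)) (hn : n i = n' i)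
    (h : Cz K N Vc L n x i) : Cz K N Vc L' n' x' i := by
  obtain ⟨h1, h2, h3, h4, h5, h6, h7⟩ := h
  have hxi : x i = x' i := hx i le_rfl
  refine ⟨?_, ?_, ?_, ?_, ?_, ?_, ?_⟩
  · rw [← hxi]; exact h1
  · rw [← hxi, ← hL']; exact h2
  · rw [← hxi, ← hL]; exact h3
  · rw [← hn]; exact h4
  · rw [← hxi, ← hn, ← hL]; exact h5
  · intro j hj hjn
    rw [← hxi, ← hL]
    exact h6 j hj (by rw [hn]; exact hjn)
  · intro g hg j hj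
    rw [← hxi, ← hL, ← hx g hg.le]
    exact h7 g hg j (by rw [hn]; exact hj)

end Pool.Agent.CTM
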