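import Pool.Agent.CTM.Alp
import Pool.Agent.CTM.JmD
import Pool.Agent.CTM.ZmA

/-!
# CTM: case alpha, part 2
-/

set_option autoImplicit false

namespace Pool.Agent.CTM

universe u

variable {G : Type u} [Group G] [TopologicalSpace G] [IsTopologicalGroup G] [T2Space G]

/-- size 3.  PROOF.  Given `r x W V l` as in `StarP`.  `V' := V ⊓ W ⊓ K l` open.  By `hb` choose `b i ∈ N`, `b i ∉ K i`, `b i ^ p ∈ V'`.  `b i → ∞` (`Ev.of_ge`, `mono`).  For each `h < r`: `jm` for `z s i = b i ^ s` (`s : Fin p`, `far_pow` with `m₀ = l`), the constant tuple `a s = x h` and `V'`: eventually there is `u ∈ N` with `(x h)⁻¹ * cj u (b i ^ s) ∈ V'` for all `s < p`.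
Take an `i` good for all `h < r` (`Ev.finset`) with `b i ∉ K l`: `z = b i`, `n = p`, `u h` chosen.  `s = 0`: `(x h)⁻¹ * u h ∈ V'`; so `(u h)⁻¹ * cj (u h) (z ^ j) ∈ V'`.  `z ^ j ∉ K l` for `0 < j < p` by `pow_mem_of_prime` (`z ^ p ∈ V' ≤ K l`). -/
theorem alp_star {K : ℕ → Subgroup G} (T : Tow K) {A N : Subgroup G} (h : MinN A N) {p : ℕ} (hp : p.Prime)
    (hb : ∀ V : Subgroup G, IsOpen (V : Set G) → ∀ l, ∃ b ∈ N, b ∉ K l ∧ b ^ p ∈ V) : StarP K N := by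
  classical
  intro r x hx W V hW hV l
  have hV' : IsOpen ((V ⊓ W ⊓ K l : Subgroup G) : Set G) := (hV.inter hW).inter (T.opn l)
  choose b hbN hbK hbp using fun i => hb (V ⊓ W ⊓ K l) hV' i
  have hinf : ∀ m, Ev (fun i => b i ∉ K m) := fun m =>
    Ev.of_ge m fun i hi hmem => hbK i (T.mono hi hmem)
  have hjm : ∀ h' ∈ Finset.range r, Ev (fun i => ∃ u ∈ N, ∀ s : Fin p,
      (x h')⁻¹ * cj u (b i ^ (s : ℕ)) ∈ V ⊓ W ⊓ K l) := by
    intro h' hh'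
    exact jm T h (ι := Fin p) (fun s i => b i ^ (s : ℕ)) (fun s i => N.pow_mem (hbN i) _)
      (fun s t hst m' => far_pow T hp (m₀ := l) (fun i => (hbp i).2) hinf s t hst m')
      (fun _ => x h') (fun _ => hx h' (Finset.mem_range.1 hh')) hV'
  obtain ⟨i, hi, hil⟩ := ((Ev.finset hjm).and (hinf l)).exists
  have hch : ∀ h' : ℕ, ∃ u : G, h' < r → u ∈ N ∧ ∀ s : Fin p,
      (x h')⁻¹ * cj u (b i ^ (s : ℕ)) ∈ V ⊓ W ⊓ K l := by
    intro h'
    by_cases hh' : h' < r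
    · obtain ⟨u, hu, hu'⟩ := hi h' (Finset.mem_range.2 hh')
      exact ⟨u, fun _ => ⟨hu, hu'⟩⟩
    · exact ⟨1, fun hc => absurd hc hh'⟩
  choose u hu using hch
  refine ⟨b i, hbN i, hil, p, hp.one_le, (hbp i).1.1, ?_, u, ?_⟩
  · intro j hj hj' hmem
    exact hil (pow_mem_of_prime hp (hbp i).2 hj hj' hmem)
  · intro h' hh'
    obtain ⟨h1, h2⟩ := hu h' hh'
    have h3 : (x h')⁻¹ * u h' ∈ V ⊓ W ⊓ K l := by
      have h4 := h2 ⟨0, hp.pos⟩
      simp only [pow_zero, cj_one] at h4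
      exact h4
    refine ⟨h1, h3.1.2, ?_⟩
    intro j hj
    have h5 := h2 ⟨j, hj⟩
    have h6 : (u h')⁻¹ * cj (u h') (b i ^ j)
        = ((x h')⁻¹ * u h')⁻¹ * ((x h')⁻¹ * cj (u h') (b i ^ j)) := by group
    rw [h6]
    exact ((V ⊓ W ⊓ K l).mul_mem ((V ⊓ W ⊓ K l).inv_mem h3) h5).1.1

end Pool.Agent.CTM
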