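import Pool.Agent.CTM.Bta

/-!
# CTM: case beta: boundedness
-/

set_option autoImplicit false

namespace Pool.Agent.CTM

universe u

variable {G : Type u} [Group G] [TopologicalSpace G] [IsTopologicalGroup G] [T2Space G]

/-- size 4.  PROOF.  Fix `q`.  `m' i`: `m' 0 = 0`, `m' (i+1) ≥ m' i` with: `y ∈ N`, `y ^ q ∈ K (m' i)` implies `y ∈ K (m' (i+1))` (hypothesis for `p = q`).  Suppose the conclusion fails: for every `k` there are `w k ∈ N`, `w k ∉ K k` and `e` with `w k ^ (q ^ e) ∈ K 0`; let `e k` be minimal.  If `e k ≤ i` then `w k ∈ K (m' i)` (induction), so `e k > i` when `k ≥ m' i`: `e k → ∞`.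
For `i ≤ e k` put `v k i := w k ^ (q ^ (e k - i))`; then `v k (i+1) ^ q = v k i`, `v k 0 ∈ K 0`, `v k 1 ∉ K 0` (minimality), `v k i ∈ K (m' i)` (induction on `i`), `v k i ∈ N`.  For each `i` let `v i` be a limit of `v k i` along `k` (`Lm.exists`, compact `K (m' i)`; the conditions hold eventually in `k`: `Ev.of_ge`): `v (i+1) ^ q = v i`
(uniqueness of limits), `v 0 ∈ K 0`, `v 1 ∉ K 0` (complement of an open set is closed).  `no_div`. -/
theorem bd_of_pow {K : ℕ → Subgroup G} (T : Tow K) {N : Subgroup G} (hN : IsClosed (N : Set G))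
    (h : ∀ p : ℕ, p.Prime → ∀ m, ∃ m', ∀ y ∈ N, y ^ p ∈ K m → y ∈ K m') : Bd K N := by
  classical
  intro q hq
  by_contra hcon
  push Not at hcon
  choose f hf using h q hq
  -- the sequence `m'`
  let M : ℕ → ℕ := fun i => Nat.rec 0 (fun _ r => max r (f r)) i
  have M0 : M 0 = 0 := rfl
  have MS : ∀ i, M (i + 1) = max (M i) (f (M i)) := fun i => rfl
  have Mmono : Monotone M := monotone_nat_of_le_succ fun i => by rw [MS]; exact le_max_left _ _
  have lemA : ∀ e, ∀ y ∈ N, y ^ (q ^ e) ∈ K 0 → y ∈ K (M e) := by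
    intro e
    induction e with
    | zero =>
      intro y _ hy
      rw [pow_zero, pow_one] at hy
      exact hy
    | succ e ih =>
      intro y hyN hy
      have h1 : y ^ q ∈ K (M e) := by
        apply ih (y ^ q) (N.pow_mem hyN q)
        rw [← pow_mul, ← pow_succ']
        exact hy
      have h2 := hf (M e) y hyN h1
      rw [MS]
      exact T.mono (le_max_right _ _) h2
  -- the choices of `w k` and `e k`
  have hw : ∀ k, ∃ y ∈ N, y ∉ K k ∧ ∃ e, y ^ (q ^ e) ∈ K 0 := by
    intro k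
    obtain ⟨y, hyN, e, he, hyk⟩ := hcon k
    exact ⟨y, hyN, hyk, e, he⟩
  choose w hwN hwk hwe using hw
  let e : ℕ → ℕ := fun k => Nat.find (hwe k)
  have he : ∀ k, w k ^ (q ^ e k) ∈ K 0 := fun k => Nat.find_spec (hwe k)
  have hmin : ∀ k, ∀ j < e k, w k ^ (q ^ j) ∉ K 0 := fun k j hj => Nat.find_min (hwe k) hj
  have hlarge : ∀ i k, M i ≤ k → i < e k := by
    intro i k hk
    by_contra hle
    push Not at hle
    exact hwk k (T.mono ((Mmono hle).trans hk) (lemA (e k) (w k) (hwN k) (he k)))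
  let v : ℕ → ℕ → G := fun k i => w k ^ (q ^ (e k - i))
  have hvN : ∀ k i, v k i ∈ N := fun k i => N.pow_mem (hwN k) _
  have hvK : ∀ i, Ev (fun k => v k i ∈ (K (M i) : Set G)) := by
    intro i
    refine Ev.of_ge (M i) fun k hk => ?_
    have hi := hlarge i k hk
    apply lemA i (v k i) (hvN k i)
    change (w k ^ (q ^ (e k - i))) ^ (q ^ i) ∈ K 0
    rw [← pow_mul, ← pow_add, Nat.sub_add_cancel hi.le]
    exact he k
  have hlim : ∀ i, ∃ b ∈ (K (M i) : Set G), Lm (fun k => v k i) b := fun i => Lm.exists (T.cpt (M i)) (hvK i)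
  choose b hb hbl using hlim
  have hpow : ∀ i, b (i + 1) ^ q = b i := by
    intro i
    have h1 : Lm (fun k => v k (i + 1) ^ q) (b (i + 1) ^ q) := (hbl (i + 1)).pow q
    have h2 : Ev (fun k => v k (i + 1) ^ q = v k i) := by
      refine Ev.of_ge (M (i + 1)) fun k hk => ?_
      have hi := hlarge (i + 1) k hk
      change (w k ^ (q ^ (e k - (i + 1)))) ^ q = w k ^ (q ^ (e k - i))
      rw [← pow_mul, ← pow_succ]
      congr 2
      omega
    have h3 : Lm (fun k => v k i) (b (i + 1) ^ q) := Filter.Tendsto.congr' h2 h1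
    exact tendsto_nhds_unique h3 (hbl i)
  have hK0 : IsOpen (K 0 : Set G) := T.opn 0
  have h0 : b 0 ∈ K 0 := by
    have := Lm.mem (Subgroup.isClosed_of_isOpen (K 0) hK0) (hbl 0)
      (Ev.of_ge 0 fun k _ => he k)
    exact this
  have h1 : b 1 ∉ K 0 := by
    have := Lm.mem hK0.isClosed_compl (hbl 1) (Ev.of_ge (M 0) fun k hk => by
      have hi := hlarge 0 k hk
      exact hmin k (e k - 1) (by omega))
    exact this
  exact no_div T hq hpow h0 h1

end Pool.Agent.CTM
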