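import Pool.Agent.CTM.Cnd

/-!
# CTM: the group generated by the compact normal subgroups
-/

set_option autoImplicit false

namespace Pool.Agent.CTM

universe u

variable {G : Type u} [Group G] [TopologicalSpace G] [IsTopologicalGroup G] [T2Space G]

/-- the union of the compact normal subgroups -/
private def Cne_R (G : Type u) [Group G] [TopologicalSpace G] [IsTopologicalGroup G] : Subgroup G where
  carrier := {x | ∃ N : Subgroup G, IsCompact (N : Set G) ∧ Nm ⊤ N ∧ x ∈ N}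
  mul_mem' := by
    rintro x y ⟨N, hN, hn, hx⟩ ⟨N', hN', hn', hy⟩
    exact ⟨N ⊔ N', cpt_sup hN hN' (nm_mono le_top hn), nm_sup hn hn',
      Subgroup.mul_mem _ ((le_sup_left : N ≤ N ⊔ N') hx) ((le_sup_right : N' ≤ N ⊔ N') hy)⟩
  one_mem' := by
    refine ⟨⊥, ?_, ?_, Subgroup.one_mem _⟩
    · rw [Subgroup.coe_bot]; exact isCompact_singleton
    · intro a _ y hy
      rw [Subgroup.mem_bot] at hy ⊢
      rw [hy, one_cj]
  inv_mem' := by
    rintro x ⟨N, hN, hn, hx⟩
    exact ⟨N, hN, hn, N.inv_mem hx⟩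

omit [T2Space G] in
private theorem Cne_mem {x : G} : x ∈ Cne_R G ↔ ∃ N : Subgroup G, IsCompact (N : Set G) ∧ Nm ⊤ N ∧ x ∈ N :=
  Iff.rfl

/-- size 2.  PROOF.  `R := ⨆ N, N` over all compact subgroups `N` normalised by `⊤` (directed: `cpt_sup`, `nm_sup`; so every element of `R` is in such an `N`), `A := cl R`.  Closed; noncompact (otherwise `A ≤ K s` by `Tow.bdd`, contradiction to
`exists_cpt_normal`); for `a ∈ A` and `V` open there is `c ∈ R` with `a⁻¹ c ∈ V`; `c ∈ N ≤ A` compact normal, `Nm A N` (`nm_mono`). -/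
theorem exists_cnd {K : ℕ → Subgroup G} (T : Tow K) (hG : ¬ CompactSpace G) : ∃ A : Subgroup G, CND A := by
  refine ⟨(Cne_R G).topologicalClosure, ?_, ?_, ?_⟩
  · exact Subgroup.isClosed_topologicalClosure _
  · intro hc
    obtain ⟨s, hs⟩ := T.bdd hc
    obtain ⟨N, hN, hn, hnot⟩ := exists_cpt_normal T hG s
    apply hnot
    intro x hx
    apply hs
    exact Subgroup.le_topologicalClosure _ (Cne_mem.2 ⟨N, hN, hn, hx⟩)
  · intro a ha V hV
    obtain ⟨c, hc, hcV⟩ := (T.hyp.mem_closure (S := (Cne_R G : Set G)) (x := a)).1 ha V hV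
    obtain ⟨N, hN, hn, hx⟩ := Cne_mem.1 hc
    refine ⟨N, hN, ?_, nm_mono le_top hn, c, hx, hcV⟩
    intro y hy
    exact Subgroup.le_topologicalClosure _ (Cne_mem.2 ⟨N, hN, hn, hy⟩)

end Pool.Agent.CTM
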