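import Pool.Agent.CTM.Defs

/-!
# CTM: the property `MS` from minimality of quotients
-/

set_option autoImplicit false

namespace Pool.Agent.CTM

universe u

variable {G : Type u} [Group G] [TopologicalSpace G] [IsTopologicalGroup G] [T2Space G]

/-- size 4.  PROOF.  Given `A Y F ...` as in `MS`.  `Y' := Y.subgroupOf A` is a closed normal subgroup of the topological group `A`
(normal: `hn : Nm A Y`; for `MulAut`/`conj` note `a y a⁻¹ = cj y a⁻¹`).  `h A hA Y' hY'` says that `A ⧸ Y'` (quotient topology `t`) is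
minimal.  For `O ∈ F` let `Ō ≤ A ⧸ Y'` be the image of `O.subgroupOf A` under `QuotientGroup.mk' Y'`.  The sets `Ō` form a
`GroupFilterBasis` (or use `TopologicalGroup` from `GroupFilterBasis`): nonempty, directed (`O'' ≤ O ⊓ O'`), `1 ∈ Ō`, `Ō * Ō ⊆ Ō`, `Ō⁻¹ ⊆ Ō`
(subgroups), and for `g = mk a` there is `O'` with `g Ō' g⁻¹ ⊆ Ō` (hypothesis on `cj x a`, with `a⁻¹`).  Let `t'` be its topology: a group
topology.  `t ≤ t'`: each `Ō` is `t`-open, since it is a subgroup containing the image of `V ⊓ A`, which is `t`-open (`A → A ⧸ Y'` is an open map;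
`V.subgroupOf A` is open in `A`); continuity of the identity at `1` suffices (`t`-neighbourhoods of `1` contain ...; for group topologies
`continuous_of_continuousAt_one` or `nhds` comparison).  `t'` is Hausdorff: if `g = mk a` is in all `Ō`, then for every `O ∈ F`
`a ∈ O Y ≤ O` (as `Y ≤ O`), so `a ∈ Y`, so `g = 1`; (a topological group in which the intersection of the basic neighbourhoods of `1` is `{1}` is
`T1`/Hausdorff.)  So `t' = t`.  Given `V` open: the image of `V.subgroupOf A` is a `t`-neighbourhood of `1`, so contains some `Ō`, `O ∈ F`: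
for `x ∈ O` there is `v ∈ V ⊓ A` with `mk x = mk v`, so `v⁻¹ * x =: y ∈ Y`. -/
theorem ms_of_ctm (h : IsCTotallyMinimalGroup G) : MS G := by
  intro A Y hA hY hYA hn F hFne hFdir hF hFcj hFint V hV
  have hnorm : (Y.subgroupOf A).Normal := by
    constructor
    intro n hn' g
    rw [Subgroup.mem_subgroupOf] at hn' ⊢
    have := hn (g : G)⁻¹ (A.inv_mem g.2) (n : G) hn'
    simpa [cj] using this
  have hcl : IsClosed ((Y.subgroupOf A : Subgroup A) : Set A) :=
    hY.preimage continuous_subtype_val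
  have hmin : IsMinimalGroup (A ⧸ Y.subgroupOf A) := h A hA (Y.subgroupOf A) hcl
  -- the images
  have hmem : ∀ O : Subgroup G, Y ≤ O → ∀ a : A,
      ((a : A ⧸ Y.subgroupOf A) ∈ (O.subgroupOf A).map (QuotientGroup.mk' (Y.subgroupOf A)) ↔
        (a : G) ∈ O) := by
    intro O hYO a
    constructor
    · rintro ⟨b, hb, hab⟩
      have hab' : ((b : A ⧸ Y.subgroupOf A)) = (a : A ⧸ Y.subgroupOf A) := hab
      rw [QuotientGroup.eq, Subgroup.mem_subgroupOf] at hab'
      have hb' : (b : G) ∈ O := hb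
      have h1 := O.mul_mem hb' (hYO hab')
      simpa using h1
    · intro ha
      exact ⟨a, ha, rfl⟩
  let B : GroupFilterBasis (A ⧸ Y.subgroupOf A) :=
    { sets := {S | ∃ O ∈ F, S = ((O.subgroupOf A).map (QuotientGroup.mk' (Y.subgroupOf A)) :
        Subgroup (A ⧸ Y.subgroupOf A))}
      nonempty := by
        obtain ⟨O, hO⟩ := hFne
        exact ⟨_, O, hO, rfl⟩
      inter_sets := by
        rintro _ _ ⟨O, hO, rfl⟩ ⟨O', hO', rfl⟩
        obtain ⟨O'', hO'', hle⟩ := hFdir O hO O' hO'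
        refine ⟨_, ⟨O'', hO'', rfl⟩, ?_⟩
        rintro _ ⟨a, ha, rfl⟩
        have ha' : (a : G) ∈ O'' := ha
        exact ⟨⟨a, (hle ha').1, rfl⟩, ⟨a, (hle ha').2, rfl⟩⟩
      one' := by
        rintro _ ⟨O, hO, rfl⟩
        exact Subgroup.one_mem _
      mul' := by
        rintro _ ⟨O, hO, rfl⟩
        refine ⟨_, ⟨O, hO, rfl⟩, ?_⟩
        rintro _ ⟨x, hx, y, hy, rfl⟩
        exact Subgroup.mul_mem _ hx hy
      inv' := by
        rintro _ ⟨O, hO, rfl⟩
        refine ⟨_, ⟨O, hO, rfl⟩, ?_⟩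
        intro x hx
        exact Subgroup.inv_mem _ hx
      conj' := by
        rintro x₀ _ ⟨O, hO, rfl⟩
        obtain ⟨a₀, rfl⟩ := QuotientGroup.mk_surjective x₀
        obtain ⟨O', hO', hO''⟩ := hFcj O hO (a₀ : G)⁻¹ (A.inv_mem a₀.2)
        refine ⟨_, ⟨O', hO', rfl⟩, ?_⟩
        rintro _ ⟨a, ha, rfl⟩
        have ha' : (a : G) ∈ O' := ha
        have h1 := hO'' a ha'
        refine ⟨a₀ * a * a₀⁻¹, ?_, rfl⟩
        show ((a₀ * a * a₀⁻¹ : A) : G) ∈ O
        simpa [cj] using h1 }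
  have hBmem : ∀ S, S ∈ B ↔ ∃ O ∈ F, S = ((O.subgroupOf A).map
      (QuotientGroup.mk' (Y.subgroupOf A)) : Subgroup (A ⧸ Y.subgroupOf A)) := fun S => Iff.rfl
  -- images of open subgroups of `G` are neighbourhoods of `1`
  have himg : ∀ V : Subgroup G, IsOpen (V : Set G) →
      ((fun a : A => (a : A ⧸ Y.subgroupOf A)) '' {a : A | (a : G) ∈ V}) ∈
        nhds (1 : A ⧸ Y.subgroupOf A) := by
    intro V hV
    have ho : IsOpen {a : A | (a : G) ∈ V} := hV.preimage continuous_subtype_val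
    have ho' := QuotientGroup.isOpenMap_coe (N := Y.subgroupOf A) _ ho
    refine ho'.mem_nhds ⟨1, ?_, rfl⟩
    show ((1 : A) : G) ∈ V
    exact V.one_mem
  have hle : (inferInstance : TopologicalSpace (A ⧸ Y.subgroupOf A)) ≤ B.topology := by
    rw [le_iff_nhds]
    intro x
    have h1 : nhds x =
        Filter.map (fun y => x * y) (nhds (1 : A ⧸ Y.subgroupOf A)) := by
      rw [map_mul_left_nhds_one]
    show nhds x ≤ _
    rw [h1]
    intro S hS
    rw [(B.nhds_hasBasis x).mem_iff] at hS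
    obtain ⟨W, hW, hWS⟩ := hS
    obtain ⟨O, hO, rfl⟩ := (hBmem W).1 hW
    obtain ⟨hYO, hOA, V', hV', hVO⟩ := hF O hO
    rw [Filter.mem_map]
    refine Filter.mem_of_superset (himg V' hV') ?_
    rintro _ ⟨a, ha, rfl⟩
    apply hWS
    exact ⟨_, (hmem O hYO a).2 (hVO ⟨ha, a.2⟩), rfl⟩
  have ht2 : @T2Space (A ⧸ Y.subgroupOf A) B.topology := by
    let _ := B.topology
    rw [t2Space_iff_nhds]
    intro x y hxy
    obtain ⟨a, ha⟩ := QuotientGroup.mk_surjective (x⁻¹ * y)
    have hex : ∃ O ∈ F, (a : G) ∉ O := by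
      by_contra hcon
      push Not at hcon
      have h1 := hFint (a : G) hcon
      apply hxy
      have h2 : (a : A ⧸ Y.subgroupOf A) = 1 := by
        rw [QuotientGroup.eq_one_iff, Subgroup.mem_subgroupOf]; exact h1
      rw [h2] at ha
      have h3 := ha.symm
      rw [inv_mul_eq_one] at h3
      exact h3
    obtain ⟨O, hO, haO⟩ := hex
    obtain ⟨hYO, -, -⟩ := hF O hO
    refine ⟨_, (B.nhds_hasBasis x).mem_of_mem ((hBmem _).2 ⟨O, hO, rfl⟩), _,
      (B.nhds_hasBasis y).mem_of_mem ((hBmem _).2 ⟨O, hO, rfl⟩), ?_⟩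
    rw [Set.disjoint_left]
    rintro _ ⟨u, hu, rfl⟩ ⟨v, hv, huv⟩
    apply haO
    rw [← hmem O hYO a, ha]
    have h4 : x⁻¹ * y = u * v⁻¹ := by
      have h5 : y * v = x * u := huv
      rw [inv_mul_eq_iff_eq_mul, ← mul_assoc, ← h5, mul_inv_cancel_right]
    rw [h4]
    exact Subgroup.mul_mem _ hu (Subgroup.inv_mem _ hv)
  have heq := hmin B.topology B.isTopologicalGroup ht2 hle
  have h6 := himg V hV
  rw [← heq, (B.nhds_one_hasBasis).mem_iff] at h6
  obtain ⟨W, hW, hWV⟩ := h6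
  obtain ⟨O, hO, rfl⟩ := (hBmem W).1 hW
  obtain ⟨hYO, hOA, -⟩ := hF O hO
  refine ⟨O, hO, fun x hx => ?_⟩
  obtain ⟨v, hv, hvx⟩ := hWV ((hmem O hYO ⟨x, hOA hx⟩).2 hx)
  have hvx' : (v : A ⧸ Y.subgroupOf A) = ((⟨x, hOA hx⟩ : A) : A ⧸ Y.subgroupOf A) := hvx
  rw [QuotientGroup.eq, Subgroup.mem_subgroupOf] at hvx'
  refine ⟨v, hv, v.2, _, hvx', ?_⟩
  simp

end Pool.Agent.CTM
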