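import Pool.Agent.CTM.Defs

/-!
# CTM: quotients
-/

set_option autoImplicit false

namespace Pool.Agent.CTM

universe u

variable {G : Type u} [Group G] [TopologicalSpace G] [IsTopologicalGroup G] [T2Space G]

/-- size 3.  PROOF.  Let `π : G → G ⧸ C`.  Given `A Y F ...` in `G ⧸ C`, apply `h` to the preimages `A.comap π`, `Y.comap π`, the family `{O.comap π | O ∈ F}`:
closed, `Y.comap π ≤ A.comap π`, normalised; the open subgroup for `O.comap π` is `V.comap π`; the intersection of the preimages is in `Y.comap π`.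
Given `V` open in `G ⧸ C`, use the open subgroup `V.comap π`: we get `O ∈ F` such that every `x` with `π x ∈ O` is `v * y` with `π v ∈ V`, `v ∈ A.comap π`,
`π y ∈ Y`; apply `π` (every element of `O` is `π x`). -/
theorem ms_quot (h : MS G) (C : Subgroup G) [C.Normal] : MS (G ⧸ C) := by
  intro A Y hA hY hYA hn F hF hdir hO hcj hint V hV
  have hc : Continuous (QuotientGroup.mk' C) := QuotientGroup.continuous_mk
  have hcjm : ∀ x y : G, QuotientGroup.mk' C (cj x y) =
      cj (QuotientGroup.mk' C x) (QuotientGroup.mk' C y) := by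
    intro x y
    simp [cj]
  obtain ⟨O', hO', h2⟩ := h (A.comap (QuotientGroup.mk' C)) (Y.comap (QuotientGroup.mk' C))
    (hA.preimage hc) (hY.preimage hc) (Subgroup.comap_mono hYA)
    (by
      intro a ha y hy
      rw [Subgroup.mem_comap] at ha hy ⊢
      rw [hcjm]
      exact hn _ ha _ hy)
    ((fun O : Subgroup (G ⧸ C) => O.comap (QuotientGroup.mk' C)) '' F) (hF.image _)
    (by
      rintro _ ⟨O, hO1, rfl⟩ _ ⟨O₂, hO2, rfl⟩
      obtain ⟨O₃, hO3, hle⟩ := hdir O hO1 O₂ hO2
      exact ⟨_, ⟨O₃, hO3, rfl⟩, fun x hx => hle hx⟩)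
    (by
      rintro _ ⟨O, hO1, rfl⟩
      obtain ⟨h3, h4, W, hW, h5⟩ := hO O hO1
      refine ⟨Subgroup.comap_mono h3, Subgroup.comap_mono h4, W.comap (QuotientGroup.mk' C),
        hW.preimage hc, fun x hx => h5 hx⟩)
    (by
      rintro _ ⟨O, hO1, rfl⟩ a ha
      obtain ⟨O₂, hO2, h3⟩ := hcj O hO1 _ ha
      refine ⟨_, ⟨O₂, hO2, rfl⟩, fun x hx => ?_⟩
      rw [Subgroup.mem_comap, hcjm]
      exact h3 _ hx)
    (by
      intro x hx
      refine hint _ fun O hO1 => ?_
      exact hx _ ⟨O, hO1, rfl⟩)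
    (V.comap (QuotientGroup.mk' C)) (hV.preimage hc)
  obtain ⟨O, hO1, rfl⟩ := hO'
  refine ⟨O, hO1, fun x hx => ?_⟩
  obtain ⟨g, rfl⟩ := QuotientGroup.mk'_surjective C x
  obtain ⟨v, hv, hvA, y, hy, hxy⟩ := h2 g hx
  exact ⟨QuotientGroup.mk' C v, hv, hvA, QuotientGroup.mk' C y, hy, by rw [hxy, map_mul]⟩

/-- size 1.  A finitely generated subgroup of `G ⧸ C` is the image of a finitely generated subgroup of `G`. -/
theorem ls_quot (h : IsLocallySolvable G) (C : Subgroup G) [C.Normal] : IsLocallySolvable (G ⧸ C) := by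
  intro H hH
  obtain ⟨S, hS⟩ := hH
  classical
  let T : Finset G := S.image (fun x => Quotient.out x)
  have h1 : (Subgroup.closure (T : Set G)).map (QuotientGroup.mk' C) = H := by
    rw [← hS, MonoidHom.map_closure]
    congr 1
    ext x
    simp only [T, Finset.coe_image, Set.mem_image, Finset.mem_coe]
    constructor
    · rintro ⟨_, ⟨y, hy, rfl⟩, rfl⟩
      have : QuotientGroup.mk' C (Quotient.out y) = y := Quotient.out_eq' y
      rw [this]
      exact hy
    · intro hx
      exact ⟨_, ⟨x, hx, rfl⟩, Quotient.out_eq' x⟩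
  have h2 : Group.IsSolvable (Subgroup.closure (T : Set G)) := h _ ⟨T, rfl⟩
  have h3 : Group.IsSolvable ((Subgroup.closure (T : Set G)).map (QuotientGroup.mk' C)) :=
    Group.isSolvable_of_surjective (MonoidHom.subgroupMap_surjective (QuotientGroup.mk' C)
      (Subgroup.closure (T : Set G)))
  rw [h1] at h3
  exact h3

end Pool.Agent.CTM
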