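import Pool.Agent.CTM.Defs

/-!
# CTM: quotients by compact subgroups
-/

set_option autoImplicit false

namespace Pool.Agent.CTM

universe u

variable {G : Type u} [Group G] [TopologicalSpace G] [IsTopologicalGroup G] [T2Space G]

private theorem Rdr_proper (C : Subgroup G) [C.Normal] (hC : IsCompact (C : Set G)) :
    IsProperMap (QuotientGroup.mk' C : G → G ⧸ C) := by
  rw [isProperMap_iff_isClosedMap_and_compact_fibers]
  refine ⟨QuotientGroup.continuous_mk, QuotientGroup.isClosedMap_coe hC, ?_⟩
  intro y
  induction y using QuotientGroup.induction_on with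
  | H x =>
    have : (QuotientGroup.mk' C : G → G ⧸ C) ⁻¹' {(x : G ⧸ C)} = (fun c => x * c) '' (C : Set G) := by
      ext z
      constructor
      · intro hz
        have hz' : (z : G ⧸ C) = (x : G ⧸ C) := hz
        refine ⟨x⁻¹ * z, QuotientGroup.eq.1 hz'.symm, ?_⟩
        change x * (x⁻¹ * z) = z
        group
      · rintro ⟨c, hc, rfl⟩
        change ((x * c : G) : G ⧸ C) = (x : G ⧸ C)
        apply Eq.symm
        apply QuotientGroup.eq.2
        have : x⁻¹ * (x * c) = c := by group
        rw [this]; exact hc
    rw [this]
    exact hC.image (continuous_const.mul continuous_id)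

/-- size 2.  PROOF.  Preimages of compact subgroups of `G ⧸ C` are compact since `C` is compact: let `D ≤ G ⧸ C` be compact, `D' = D.comap π`; a covering or
ultrafilter argument, or: `π` is a proper / perfect map (`QuotientGroup.isClosedMap_coe` for compact `C`, fibres are cosets of `C`:
`isProperMap_iff_isClosedMap_and_compact_fibers`, then `IsProperMap.isCompact_preimage`).  Apply `h` to the preimages of `A` and of the compact
subgroup; `A` is the image of its compact preimage. -/
theorem ab_quot (h : AB G) (C : Subgroup G) [C.Normal] (hC : IsCompact (C : Set G)) : AB (G ⧸ C) := by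
  intro A D hA hD hDA hcm
  have hp := Rdr_proper C hC
  have hA' : IsClosed ((A.comap (QuotientGroup.mk' C) : Subgroup G) : Set G) :=
    hA.preimage hp.continuous
  have hD' : IsCompact ((D.comap (QuotientGroup.mk' C) : Subgroup G) : Set G) :=
    hp.isCompact_preimage hD
  have hle : D.comap (QuotientGroup.mk' C) ≤ A.comap (QuotientGroup.mk' C) :=
    Subgroup.comap_mono hDA
  have hc := h _ _ hA' hD' hle (by
    intro a ha b hb
    have := hcm _ ha _ hb
    change QuotientGroup.mk' C (cm a b) ∈ D
    have he : QuotientGroup.mk' C (cm a b) = cm (QuotientGroup.mk' C a) (QuotientGroup.mk' C b) := by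
      unfold cm
      simp only [map_mul, map_inv]
    rw [he]; exact this)
  have him : (A : Set (G ⧸ C)) =
      (QuotientGroup.mk' C : G → G ⧸ C) '' ((A.comap (QuotientGroup.mk' C) : Subgroup G) : Set G) := by
    ext z
    constructor
    · intro hz
      obtain ⟨x, rfl⟩ := QuotientGroup.mk'_surjective C z
      exact ⟨x, hz, rfl⟩
    · rintro ⟨x, hx, rfl⟩
      exact hx
  rw [him]
  exact hc.image hp.continuous

/-- size 1.  `G` is compact iff `G ⧸ C` is (`C` compact normal): here only this direction: if `G ⧸ C` is compact then `G` is (`G` is the preimage of a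
compact set under the proper map `π`). -/
theorem cpt_of_quot (C : Subgroup G) [C.Normal] (hC : IsCompact (C : Set G)) (h : CompactSpace (G ⧸ C)) :
    CompactSpace G := by
  have hp := Rdr_proper C hC
  have := hp.isCompact_preimage (isCompact_univ : IsCompact (Set.univ : Set (G ⧸ C)))
  rw [Set.preimage_univ] at this
  exact ⟨this⟩

end Pool.Agent.CTM
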