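import Pool.Agent.CTM.BasA
import Pool.Agent.CTM.Rdq
import Pool.Agent.CTM.Rdr

/-!
# CTM: reduction to groups with a base of compact open subgroups
-/

set_option autoImplicit false

namespace Pool.Agent.CTM

universe u

/-- size 3.  PROOF.  `C := ⨅ V, V` over all compact open subgroups `V` of `G` (one of them is `U`): a closed subgroup of the compact `U`, so compact; normal since
conjugates of compact open subgroups are such (`cjS_open`, `cjS_compact`).  Take `Q = G ⧸ C`.  `MS`, `AB`, local solvability: module `Rdq`; `Q` is a Hausdorff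
topological group as `C` is closed; `Q` not compact: `cpt_of_quot`.  Base: let `O` be a neighbourhood of `1` in `Q`, `O' = π⁻¹ (interior O)` open, `C ⊆ O'`.  The compact open
subgroups `V` form a directed family of compact sets with intersection `C ⊆ O'`, so some `V ⊆ O'` (Mathlib: `exists_subset_nhds_of_isCompact'` or
`IsCompact.elim_directed_family_closed_of_isCompact`).  `π V` is a compact open subgroup (`π` is continuous and open) contained in `O`. -/
theorem exists_hyp {G : Type u} [Group G] [TopologicalSpace G] [IsTopologicalGroup G] [T2Space G]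
    (hm : MS G) (ha : AB G) (hs : IsLocallySolvable G) (U : Subgroup G) (hUo : IsOpen (U : Set G))
    (hUc : IsCompact (U : Set G)) (hG : ¬ CompactSpace G) :
    ∃ (Q : Type u) (_ : Group Q) (_ : TopologicalSpace Q) (_ : IsTopologicalGroup Q) (_ : T2Space Q),
      Hyp Q ∧ ¬ CompactSpace Q := by
  classical
  let C : Subgroup G := sInf {V : Subgroup G | IsOpen (V : Set G) ∧ IsCompact (V : Set G)}
  have hmemC : ∀ x : G, x ∈ C ↔ ∀ V : Subgroup G, IsOpen (V : Set G) → IsCompact (V : Set G) → x ∈ V := by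
    intro x
    rw [Subgroup.mem_sInf]
    exact ⟨fun h V h1 h2 => h V ⟨h1, h2⟩, fun h V hV => h V hV.1 hV.2⟩
  have hCcl : IsClosed (C : Set G) := by
    have : (C : Set G) = ⋂ V ∈ {V : Subgroup G | IsOpen (V : Set G) ∧ IsCompact (V : Set G)}, (V : Set G) := by
      ext x
      simp only [SetLike.mem_coe, hmemC, Set.mem_iInter, Set.mem_setOf_eq]
      exact ⟨fun h V hV => h V hV.1 hV.2, fun h V h1 h2 => h V ⟨h1, h2⟩⟩
    rw [this]
    exact isClosed_biInter fun V hV => hV.2.isClosed
  have hCU : C ≤ U := fun x hx => (hmemC x).1 hx U hUo hUc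
  have hCc : IsCompact (C : Set G) := hUc.of_isClosed_subset hCcl hCU
  haveI hCn : C.Normal := by
    refine ⟨fun x hx g => ?_⟩
    rw [hmemC]
    intro V h1 h2
    have := (hmemC x).1 hx (cjS V g) (cjS_open h1 g) (cjS_compact h2 g)
    rwa [mem_cjS] at this
  haveI : IsClosed (C : Set G) := hCcl
  have hT2 : T2Space (G ⧸ C) := inferInstance
  refine ⟨G ⧸ C, inferInstance, inferInstance, inferInstance, hT2,
    ⟨?_, ms_quot hm C, ab_quot ha C hCc, ls_quot hs C⟩, fun h => hG (cpt_of_quot C hCc h)⟩
  intro O hO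
  have h1 : ∃ i : {V : Subgroup G // IsOpen (V : Set G) ∧ IsCompact (V : Set G)},
      ((i.1 : Subgroup G) : Set G) ⊆ ((↑) : G → G ⧸ C) ⁻¹' (interior O) := by
    haveI : Nonempty {V : Subgroup G // IsOpen (V : Set G) ∧ IsCompact (V : Set G)} :=
      ⟨⟨U, hUo, hUc⟩⟩
    refine exists_subset_nhds_of_isCompact' ?_ (fun i => i.2.2) (fun i => i.2.2.isClosed) ?_
    · intro i j
      refine ⟨⟨i.1 ⊓ j.1, ?_, ?_⟩, ?_, ?_⟩
      · rw [Subgroup.coe_inf]
        exact i.2.1.inter j.2.1
      · rw [Subgroup.coe_inf]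
        exact i.2.2.inter j.2.2
      · exact fun x hx => hx.1
      · exact fun x hx => hx.2
    · intro x hx
      have hxC : x ∈ C := by
        rw [hmemC]
        intro V h1 h2
        exact Set.mem_iInter.1 hx ⟨V, h1, h2⟩
      have hx1 : ((x : G) : G ⧸ C) = 1 := (QuotientGroup.eq_one_iff x).2 hxC
      refine (isOpen_interior.preimage QuotientGroup.continuous_mk).mem_nhds ?_
      show ((x : G) : G ⧸ C) ∈ interior O
      rw [hx1]
      exact mem_interior_iff_mem_nhds.2 hO
  obtain ⟨⟨V, hVo, hVc⟩, hV⟩ := h1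
  refine ⟨V.map (QuotientGroup.mk' C), ?_, ?_, ?_⟩
  · rw [Subgroup.coe_map]
    exact QuotientGroup.isOpenMap_coe _ hVo
  · rw [Subgroup.coe_map]
    exact hVc.image QuotientGroup.continuous_mk
  · rw [Subgroup.coe_map]
    rintro _ ⟨x, hx, rfl⟩
    exact interior_subset (hV hx)

end Pool.Agent.CTM
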