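import Pool.Agent.CTM.Defs

/-!
# CTM: open subgroups
-/

set_option autoImplicit false

namespace Pool.Agent.CTM

universe u

variable {G : Type u} [Group G] [TopologicalSpace G] [IsTopologicalGroup G] [T2Space G]

omit [TopologicalSpace G] [IsTopologicalGroup G] [T2Space G] in
private theorem rds_mem {H : Subgroup G} {B : Subgroup H} {x : H} :
    (x : G) ∈ B.map H.subtype ↔ x ∈ B :=
  Subgroup.mem_map_iff_mem (f := H.subtype) H.subtype_injective

omit [TopologicalSpace G] [IsTopologicalGroup G] [T2Space G] in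
private theorem rds_ex {H : Subgroup G} {B : Subgroup H} {x : G} (h : x ∈ B.map H.subtype) :
    ∃ y : H, y ∈ B ∧ (y : G) = x := by
  obtain ⟨y, hy, rfl⟩ := Subgroup.mem_map.mp h
  exact ⟨y, hy, rfl⟩

omit [T2Space G] in
private theorem rds_closed {H : Subgroup G} (hH : IsOpen (H : Set G)) {B : Subgroup H}
    (hB : IsClosed (B : Set H)) : IsClosed ((B.map H.subtype : Subgroup G) : Set G) := by
  have h1 : IsClosed (H : Set G) := Subgroup.isClosed_of_isOpen H hH
  have h2 := h1.isClosedEmbedding_subtypeVal.isClosedMap _ hB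
  exact h2

omit [IsTopologicalGroup G] [T2Space G] in
private theorem rds_open {H : Subgroup G} (hH : IsOpen (H : Set G)) {B : Subgroup H}
    (hB : IsOpen (B : Set H)) : IsOpen ((B.map H.subtype : Subgroup G) : Set G) := by
  have h2 := hH.isOpenEmbedding_subtypeVal.isOpenMap _ hB
  exact h2

omit [TopologicalSpace G] [IsTopologicalGroup G] [T2Space G] in
private theorem rds_cj {H : Subgroup G} (x y : H) : ((cj x y : H) : G) = cj (x : G) (y : G) := rfl

omit [TopologicalSpace G] [IsTopologicalGroup G] [T2Space G] in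
private theorem rds_cm {H : Subgroup G} (x y : H) : ((cm x y : H) : G) = cm (x : G) (y : G) := rfl

/-- size 2.  PROOF.  `A`, `Y`, `F` in the open (so closed) subgroup `H`: apply `h` to the images `A.map H.subtype`, ... in `G`.  (`V ≤ H` open in `H` has an open image
in `G`; for `V : Subgroup H` given at the end use `V.map H.subtype`.) -/
theorem ms_sub (h : MS G) (H : Subgroup G) (hH : IsOpen (H : Set G)) : MS H := by
  intro A Y hA hY hYA hnm F hne hdir hO hcj hint V hV
  obtain ⟨O', ⟨O, hOF, rfl⟩, hfin⟩ := h (A.map H.subtype) (Y.map H.subtype) (rds_closed hH hA) (rds_closed hH hY)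
    (Subgroup.map_mono hYA)
    (by
      intro a ha y hy
      obtain ⟨a, ha0, rfl⟩ := rds_ex ha
      obtain ⟨y, hy0, rfl⟩ := rds_ex hy
      rw [← rds_cj, rds_mem]
      exact hnm a ha0 y hy0)
    ((fun B : Subgroup H => B.map H.subtype) '' F) (hne.image _)
    (by
      rintro _ ⟨O, hO1, rfl⟩ _ ⟨O', hO2, rfl⟩
      obtain ⟨O'', hO3, hle⟩ := hdir O hO1 O' hO2
      exact ⟨_, ⟨O'', hO3, rfl⟩, le_inf (Subgroup.map_mono (hle.trans inf_le_left))
        (Subgroup.map_mono (hle.trans inf_le_right))⟩)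
    (by
      rintro _ ⟨O, hO1, rfl⟩
      obtain ⟨h1, h2, W, hW, hWle⟩ := hO O hO1
      refine ⟨Subgroup.map_mono h1, Subgroup.map_mono h2, W.map H.subtype, rds_open hH hW, ?_⟩
      rintro x ⟨hx1, hx2⟩
      obtain ⟨x, hx, rfl⟩ := rds_ex hx1
      have hx3 : x ∈ A := rds_mem.mp hx2
      exact rds_mem.mpr (hWle ⟨hx, hx3⟩))
    (by
      rintro _ ⟨O, hO1, rfl⟩ a ha
      obtain ⟨a, ha0, rfl⟩ := rds_ex ha
      obtain ⟨O', hO2, hO3⟩ := hcj O hO1 a ha0
      refine ⟨_, ⟨O', hO2, rfl⟩, ?_⟩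
      intro x hx
      obtain ⟨x, hx0, rfl⟩ := rds_ex hx
      rw [← rds_cj]
      exact rds_mem.mpr (hO3 x hx0))
    (by
      intro x hx
      obtain ⟨O, hO1⟩ := hne
      obtain ⟨x, -, rfl⟩ := rds_ex (hx _ ⟨O, hO1, rfl⟩)
      exact rds_mem.mpr (hint x fun O' hO' => rds_mem.mp (hx _ ⟨O', hO', rfl⟩)))
    (V.map H.subtype) (rds_open hH hV)
  refine ⟨O, hOF, fun x hx => ?_⟩
  obtain ⟨v, hv, hvA, y, hy, hxy⟩ := hfin x (rds_mem.mpr hx)
  obtain ⟨v, hv0, rfl⟩ := rds_ex hv
  obtain ⟨y, hy0, rfl⟩ := rds_ex hy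
  refine ⟨v, hv0, rds_mem.mp hvA, y, hy0, Subtype.ext ?_⟩
  exact hxy

/-- size 1.  As `ms_sub`. -/
theorem ab_sub (h : AB G) (H : Subgroup G) (hH : IsOpen (H : Set G)) : AB H := by
  intro A C hA hC hCA hcm
  have h1 := h (A.map H.subtype) (C.map H.subtype) (rds_closed hH hA) (hC.image continuous_subtype_val)
    (Subgroup.map_mono hCA)
    (by
      intro a ha b hb
      obtain ⟨a, ha0, rfl⟩ := rds_ex ha
      obtain ⟨b, hb0, rfl⟩ := rds_ex hb
      rw [← rds_cm]
      exact rds_mem.mpr (hcm a ha0 b hb0))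
  have h2 : IsCompact ((↑) '' (A : Set H) : Set G) := h1
  exact Topology.IsInducing.subtypeVal.isCompact_iff.mpr h2

/-- size 1. -/
theorem ls_sub (h : IsLocallySolvable G) (H : Subgroup G) : IsLocallySolvable H := by
  intro K hK
  have h1 : (K.map H.subtype).FG := by
    rw [Subgroup.fg_iff_submonoid_fg] at hK ⊢
    exact Submonoid.FG.map hK H.subtype
  have h2 : Group.IsSolvable (K.map H.subtype) := h _ h1
  have e : K ≃* K.map H.subtype := K.equivMapOfInjective H.subtype H.subtype_injective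
  exact Group.isSolvable_of_isSolvable_injective (f := e.toMonoidHom) e.injective

end Pool.Agent.CTM
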