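import Pool.Agent.CTM.Ell
import Pool.Agent.CTM.Rds

/-!
# CTM: the tower
-/

set_option autoImplicit false

namespace Pool.Agent.CTM

universe u

/-- size 3.  PROOF.  `H.base` gives a compact open subgroup `U 0`.  Since `G` is not compact, no compact open subgroup is `⊤`: choose `g ∉ U n` and let `U (n+1)` be from
`cpt_adjoin` (a sequence by recursion on the subtype of compact open subgroups): `U n ≤ U (n+1)`, `U n ≠ U (n+1)`.  `Q := ⨆ n, U n` as a subgroup (union of a monotone sequence: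
`Subgroup.mem_iSup_of_directed`), open.  Use the type `↥Q` and `K n := (U n).subgroupOf Q`.  `Hyp ↥Q`: base: a neighbourhood of `1` in `Q` is the trace of (contains) a neighbourhood of `1` in `G`,
take `V` from `H.base` for it intersected with `Q` (so `V ≤ Q`), `V.subgroupOf Q`; `ms_sub`, `ab_sub`, `ls_sub`.  `K n` compact, open (closed embedding `Q → G`).  Not compact: if `Q` were
compact, `Q` would be covered by finitely many, so by one, of the `U n` (increasing), so `U (n+1) ≤ U n`, contradiction. -/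
theorem exists_tow {G : Type u} [Group G] [TopologicalSpace G] [IsTopologicalGroup G] [T2Space G]
    (H : Hyp G) (hG : ¬ CompactSpace G) :
    ∃ (Q : Type u) (_ : Group Q) (_ : TopologicalSpace Q) (_ : IsTopologicalGroup Q) (_ : T2Space Q)
      (K : ℕ → Subgroup Q), Tow K ∧ ¬ CompactSpace Q := by
  classical
  have hstep : ∀ U : {U : Subgroup G // IsOpen (U : Set G) ∧ IsCompact (U : Set G)},
      ∃ U' : {U : Subgroup G // IsOpen (U : Set G) ∧ IsCompact (U : Set G)}, U.1 ≤ U'.1 ∧ ¬ U'.1 ≤ U.1 := by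
    rintro ⟨U, hUo, hUc⟩
    have hne : ∃ g : G, g ∉ U := by
      by_contra hcon
      push Not at hcon
      apply hG
      exact ⟨hUc.of_isClosed_subset isClosed_univ (fun x _ => hcon x)⟩
    obtain ⟨g, hg⟩ := hne
    obtain ⟨U', h1, h2, h3, h4⟩ := cpt_adjoin H.ab H.ls hUo hUc g
    exact ⟨⟨U', h1, h2⟩, h3, fun hle => hg (hle h4)⟩
  choose f hf1 hf2 using hstep
  obtain ⟨U₀, hU₀o, hU₀c, -⟩ := H.base Set.univ Filter.univ_mem
  let u : ℕ → {U : Subgroup G // IsOpen (U : Set G) ∧ IsCompact (U : Set G)} :=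
    fun n => Nat.rec ⟨U₀, hU₀o, hU₀c⟩ (fun _ U => f U) n
  have hu1 : ∀ n, (u n).1 ≤ (u (n + 1)).1 := fun n => hf1 (u n)
  have hu2 : ∀ n, ¬ (u (n + 1)).1 ≤ (u n).1 := fun n => hf2 (u n)
  have hmono : Monotone (fun n => (u n).1) := monotone_nat_of_le_succ hu1
  have hdir : Directed (· ≤ ·) (fun n => (u n).1) := hmono.directed_le
  set Q : Subgroup G := ⨆ n, (u n).1 with hQ
  have hmemQ : ∀ x, x ∈ Q ↔ ∃ n, x ∈ (u n).1 := fun x => Subgroup.mem_iSup_of_directed hdir
  have hleQ : ∀ n, (u n).1 ≤ Q := fun n => le_iSup (fun n => (u n).1) n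
  have hQo : IsOpen (Q : Set G) := Subgroup.isOpen_mono (hleQ 0) (u 0).2.1
  have hQcl : IsClosed (Q : Set G) := Subgroup.isClosed_of_isOpen _ hQo
  have hemb : Topology.IsClosedEmbedding (Subtype.val : Q → G) := hQcl.isClosedEmbedding_subtypeVal
  refine ⟨Q, inferInstance, inferInstance, inferInstance, inferInstance,
    fun n => (u n).1.subgroupOf Q, ?_, ?_⟩
  · refine ⟨⟨?_, ms_sub H.ms Q hQo, ab_sub H.ab Q hQo, ls_sub H.ls Q⟩, ?_, ?_, ?_, ?_⟩
    · intro O hO
      rw [nhds_subtype_eq_comap] at hO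
      obtain ⟨O', hO', hsub⟩ := Filter.mem_comap.mp hO
      obtain ⟨V, hVo, hVc, hVO⟩ := H.base (O' ∩ Q) (Filter.inter_mem hO' (hQo.mem_nhds Q.one_mem))
      refine ⟨V.subgroupOf Q, hVo.preimage continuous_subtype_val, ?_, ?_⟩
      · exact hemb.isCompact_preimage hVc
      · intro x hx
        exact hsub (hVO hx).1
    · intro m n hmn x hx
      exact hmono hmn hx
    · intro n
      exact (u n).2.1.preimage continuous_subtype_val
    · intro n
      exact hemb.isCompact_preimage (u n).2.2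
    · rintro ⟨x, hx⟩
      obtain ⟨n, hn⟩ := (hmemQ x).mp hx
      exact ⟨n, hn⟩
  · intro hc
    have hQc : IsCompact (Q : Set G) := isCompact_iff_compactSpace.mpr hc
    obtain ⟨n, hn⟩ : ∃ n, (Q : Set G) ⊆ ((u n).1 : Set G) := by
      refine hQc.elim_directed_cover (fun n => ((u n).1 : Set G)) (fun n => (u n).2.1) ?_ ?_
      · intro x hx
        obtain ⟨n, hn⟩ := (hmemQ x).mp hx
        exact Set.mem_iUnion.mpr ⟨n, hn⟩
      · exact fun m n => ⟨max m n, hmono (le_max_left m n), hmono (le_max_right m n)⟩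
    exact hu2 n (fun x hx => hn (hleQ (n + 1) hx))

end Pool.Agent.CTM
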