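import Pool.Agent.CTM.LmM

/-!
# CTM: Lemma A
-/

set_option autoImplicit false

namespace Pool.Agent.CTM

universe u

variable {G : Type u} [Group G] [TopologicalSpace G] [IsTopologicalGroup G] [T2Space G]

/-- the subgroup generated by `M r, ..., M (r + n - 1)` -/
private def lmaS (M : ℕ → Subgroup G) (r : ℕ) : ℕ → Subgroup G
  | 0 => ⊥
  | n + 1 => M (r + n) ⊔ lmaS M r n

/-- the subgroup generated by `M i`, `i ≥ r` -/
private def lmaU (M : ℕ → Subgroup G) (r : ℕ) : Subgroup G := ⨆ n, lmaS M r n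

omit [TopologicalSpace G] [IsTopologicalGroup G] [T2Space G] in
private theorem lmaS_mono (M : ℕ → Subgroup G) (r : ℕ) : Monotone (lmaS M r) :=
  monotone_nat_of_le_succ fun n => by
    show lmaS M r n ≤ M (r + n) ⊔ lmaS M r n
    exact le_sup_right

omit [TopologicalSpace G] [IsTopologicalGroup G] [T2Space G] in
private theorem mem_lmaU {M : ℕ → Subgroup G} {r : ℕ} {x : G} : x ∈ lmaU M r ↔ ∃ n, x ∈ lmaS M r n := by
  unfold lmaU
  exact Subgroup.mem_iSup_of_directed (lmaS_mono M r).directed_le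

omit [TopologicalSpace G] [IsTopologicalGroup G] [T2Space G] in
private theorem lmaM_le {M : ℕ → Subgroup G} {r i n : ℕ} (h : r ≤ i) (hn : i < r + n) : M i ≤ lmaS M r n := by
  obtain ⟨k, rfl⟩ := Nat.exists_eq_add_of_le h
  have h1 : M (r + k) ≤ lmaS M r (k + 1) := by
    show M (r + k) ≤ M (r + k) ⊔ lmaS M r k
    exact le_sup_left
  exact h1.trans (lmaS_mono M r (by omega))

omit [TopologicalSpace G] [IsTopologicalGroup G] [T2Space G] in
private theorem lmaM_leU {M : ℕ → Subgroup G} {r i : ℕ} (h : r ≤ i) : M i ≤ lmaU M r := by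
  intro x hx
  exact mem_lmaU.2 ⟨i - r + 1, lmaM_le h (by omega) hx⟩

omit [TopologicalSpace G] [IsTopologicalGroup G] [T2Space G] in
private theorem lmaU_le {M : ℕ → Subgroup G} {r : ℕ} {X : Subgroup G} (h : ∀ i, r ≤ i → M i ≤ X) :
    lmaU M r ≤ X := by
  have : ∀ n, lmaS M r n ≤ X := by
    intro n
    induction n with
    | zero => exact bot_le
    | succ n ih => exact sup_le (h _ (by omega)) ih
  exact iSup_le this

omit [TopologicalSpace G] [IsTopologicalGroup G] [T2Space G] in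
private theorem lma_nm {M : ℕ → Subgroup G} (hMM : ∀ i j, j < i → Nm (M j) (M i)) (r n k : ℕ) (h : n ≤ k) :
    Nm (lmaS M r n) (M (r + k)) := by
  induction n with
  | zero =>
    intro a ha y hy
    have : a = 1 := by simpa [lmaS] using ha
    subst this
    rw [cj_one]; exact hy
  | succ n ih => exact nm_sup_left (hMM _ _ (by omega)) (ih (by omega))

omit [TopologicalSpace G] [IsTopologicalGroup G] [T2Space G] in
private theorem lma_le {L M : ℕ → Subgroup G} (hLm : Monotone L) (hML : ∀ i, M i ≤ L (i + 1)) (r n : ℕ) :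
    lmaS M r n ≤ L (r + n) := by
  induction n with
  | zero => exact bot_le
  | succ n ih => exact sup_le (hML _) (ih.trans (hLm (by omega)))

omit [T2Space G] in
private theorem lma_cpt {M : ℕ → Subgroup G} (hMc : ∀ i, IsCompact (M i : Set G))
    (hMM : ∀ i j, j < i → Nm (M j) (M i)) (r n : ℕ) : IsCompact (lmaS M r n : Set G) := by
  induction n with
  | zero =>
    show IsCompact ((⊥ : Subgroup G) : Set G)
    rw [Subgroup.coe_bot]
    exact isCompact_singleton
  | succ n ih => exact cpt_sup (hMc _) ih (lma_nm hMM r n n le_rfl)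

omit [TopologicalSpace G] [IsTopologicalGroup G] [T2Space G] in
private theorem lma_inf {L M : ℕ → Subgroup G} {V : Subgroup G} (hLm : Monotone L) (hVL : V ≤ L 0)
    (hML : ∀ i, M i ≤ L (i + 1)) (hMV : ∀ i, M i ⊓ L i ≤ V)
    (hMM : ∀ i j, j < i → Nm (M j) (M i)) (r n : ℕ) (x : G) (hx : x ∈ lmaS M r n) (hxL : x ∈ L r) : x ∈ V := by
  induction n generalizing x with
  | zero =>
    have : x = 1 := by simpa [lmaS] using hx
    subst this
    exact V.one_mem
  | succ n ih =>
    have hx' : x ∈ M (r + n) ⊔ lmaS M r n := hx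
    rw [mem_sup_nm (lma_nm hMM r n n le_rfl)] at hx'
    obtain ⟨m, hm, t, ht, rfl⟩ := hx'
    have h1 : t ∈ L (r + n) := lma_le hLm hML r n ht
    have h2 : m * t ∈ L (r + n) := hLm (by omega) hxL
    have h3 : m ∈ L (r + n) := by
      have := (L (r + n)).mul_mem h2 ((L (r + n)).inv_mem h1)
      rwa [mul_inv_cancel_right] at this
    have h4 : m ∈ V := hMV _ ⟨hm, h3⟩
    have h5 : m ∈ L r := hLm (Nat.zero_le r) (hVL h4)
    have h6 : t ∈ L r := by
      have := (L r).mul_mem ((L r).inv_mem h5) hxL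
      rwa [inv_mul_cancel_left] at this
    exact V.mul_mem h4 (ih t ht h6)

omit [TopologicalSpace G] [IsTopologicalGroup G] [T2Space G] in
private theorem lma_nmr {M : ℕ → Subgroup G} (hMM : ∀ i j, j < i → Nm (M j) (M i)) {j r : ℕ} (h : j < r) :
    Nm (M j) (lmaU M r) := by
  have key : ∀ n, Nm (M j) (lmaS M r n) := by
    intro n
    induction n with
    | zero =>
      intro a ha y hy
      have : y = 1 := by simpa [lmaS] using hy
      subst this
      rw [one_cj]; exact hy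
    | succ n ih => exact nm_sup (hMM _ _ (by omega)) ih
  intro a ha y hy
  obtain ⟨n, hn⟩ := mem_lmaU.1 hy
  exact mem_lmaU.2 ⟨n, key n a ha y hn⟩

omit [T2Space G] in
private theorem lma_nmT {M : ℕ → Subgroup G} (hMM : ∀ i j, j < i → Nm (M j) (M i)) (r : ℕ) :
    Nm (lmaU M 0) (lmaU M r).topologicalClosure := by
  have h1 : ∀ j, Nm (M j) (lmaU M r).topologicalClosure := by
    intro j
    rcases lt_or_ge j r with h | h
    · exact nm_topClosure_right (lma_nmr hMM h)
    · exact nm_mono ((lmaM_leU h).trans (Subgroup.le_topologicalClosure _)) (nm_self _)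
  have h2 : ∀ n, Nm (lmaS M 0 n) (lmaU M r).topologicalClosure := by
    intro n
    induction n with
    | zero =>
      intro a ha y hy
      have : a = 1 := by simpa [lmaS] using ha
      subst this
      rw [cj_one]; exact hy
    | succ n ih => exact nm_sup_left (h1 _) ih
  intro a ha y hy
  obtain ⟨n, hn⟩ := mem_lmaU.1 ha
  exact h2 n a hn y hy

/-- size 4.  LEMMA A.  PROOF.  For `r s : ℕ` let `S r s := ⨆ i with r ≤ i < s, M i` (or `Subgroup.closure` of the union; or recursively `S r r = ⊥`, `S r (s+1) = M s ⊔ S r s` for `s ≥ r`).  As `M j` normalises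
`M s` for `j < s`, `S r s` normalises `M s` and the elements of `S r (s+1)` are the products `m * t`, `m ∈ M s`, `t ∈ S r s` (`mem_sup_nm`); `S r s` is compact (`cpt_sup`) and `S r s ≤ L s` for `r < s`
(`M i ≤ L (i+1) ≤ L s`), `S r r = ⊥`.  (1) `S r s ⊓ L r ≤ V`: induction on `s`: `x = m * t ∈ L r ≤ L s`, `t ∈ L s` (also for `s = r`), so `m ∈ M s ⊓ L s ≤ V ≤ L r`, so `t = m⁻¹ x ∈ L r`, `t ∈ V` by induction.
Let `H := cl (⨆ i, M i)` and `T r := cl (⨆ i ≥ r, M i)`, closed subgroups.  (2) `T r ⊓ L r ≤ V`: `⨆ i ≥ r, M i` is the directed union of the `S r s`; `L r` is open: if `x ∈ T r ⊓ L r` then every neighbourhood of `x`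
contained in `L r` meets the union; `V` is closed.  (3) `T r` is normalised by `H`: by every `M j`: for `j < r` since `M j` normalises each `M i`, `i ≥ r`; for `j ≥ r` `M j ≤ T r` (`nm_topClosure_left`).
(4) `H = T r ⊔ S 0 r`: the right side is closed (`cl_sup`) and contains every `M i`.  (5) `⨅ r, T r ≤ V`: `H ≤ ⨆ r, L r` (an open subgroup is closed), so `x ∈ H` is in some `L r`; `(2)`.  So the intersection is a closed
subgroup of the compact `V`: compact.  `lemM` (for `H`, `{T r}`, decreasing in `r`): some `T r` is compact; so `H` is compact by (4) (`cpt_sup`).  `H ≤ ⨆ r, L r` is compact and the `L r` are open and increasing: `H ≤ L n`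
for some `n`. -/
theorem lemA (H : Hyp G) (L M : ℕ → Subgroup G) (V : Subgroup G) (hLm : Monotone L)
    (hLo : ∀ i, IsOpen (L i : Set G)) (hVL : V ≤ L 0) (hVc : IsCompact (V : Set G))
    (hMc : ∀ i, IsCompact (M i : Set G)) (hML : ∀ i, M i ≤ L (i + 1)) (hMV : ∀ i, M i ⊓ L i ≤ V)
    (hMM : ∀ i j, j < i → Nm (M j) (M i)) : ∃ n, ∀ i, M i ≤ L n := by
  set T : ℕ → Subgroup G := fun r => (lmaU M r).topologicalClosure with hT
  have hTc : ∀ r, IsClosed (T r : Set G) := fun r => Subgroup.isClosed_topologicalClosure _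
  have hVcl : IsClosed (V : Set G) := hVc.isClosed
  have hUT : ∀ r, lmaU M r ≤ T r := fun r => Subgroup.le_topologicalClosure _
  -- (2)
  have h2 : ∀ r x, x ∈ T r → x ∈ L r → x ∈ V := by
    intro r x hx hxL
    by_contra hxV
    have hx' : x ∈ closure ((lmaU M r : Subgroup G) : Set G) := hx
    rw [mem_closure_iff] at hx'
    obtain ⟨y, ⟨hyL, hyV⟩, hyU⟩ := hx' ((L r : Set G) ∩ (V : Set G)ᶜ) ((hLo r).inter hVcl.isOpen_compl) ⟨hxL, hxV⟩
    obtain ⟨n, hn⟩ := mem_lmaU.1 hyU
    exact hyV (lma_inf hLm hVL hML hMV hMM r n y hn hyL)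
  -- decreasing
  have hTm : ∀ r s, r ≤ s → T s ≤ T r := by
    intro r s hrs
    refine Subgroup.topologicalClosure_minimal _ ?_ (hTc r)
    exact (lmaU_le fun i hi => lmaM_leU (hrs.trans hi)).trans (hUT r)
  -- (3)
  have h3 : ∀ r, Nm (T 0) (T r) := fun r => nm_topClosure_left (hTc r) (lma_nmT hMM r)
  have hS0 : ∀ r, lmaS M 0 r ≤ T 0 := fun r => fun x hx => hUT 0 (mem_lmaU.2 ⟨r, hx⟩)
  -- (4)
  have h4 : ∀ r, T 0 ≤ T r ⊔ lmaS M 0 r := by
    intro r
    have hcl : IsClosed ((T r ⊔ lmaS M 0 r : Subgroup G) : Set G) :=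
      cl_sup (hTc r) (lma_cpt hMc hMM 0 r) (nm_mono (hS0 r) (h3 r))
    refine Subgroup.topologicalClosure_minimal _ (lmaU_le fun i _ => ?_) hcl
    rcases lt_or_ge i r with h | h
    · exact (lmaM_le (Nat.zero_le i) (by omega)).trans le_sup_right
    · exact ((lmaM_leU h).trans (hUT r)).trans le_sup_left
  -- `T 0 ≤ ⨆ L`
  have hLd : Directed (· ≤ ·) L := hLm.directed_le
  have hL0 : T 0 ≤ ⨆ r, L r := by
    have hop : IsOpen ((⨆ r, L r : Subgroup G) : Set G) :=
      Subgroup.isOpen_mono (le_iSup L 0) (hLo 0)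
    refine Subgroup.topologicalClosure_minimal _ (lmaU_le fun i _ => (hML i).trans (le_iSup L _)) ?_
    exact Subgroup.isClosed_of_isOpen _ hop
  have hex : ∀ x ∈ T 0, ∃ r, x ∈ L r := fun x hx => (Subgroup.mem_iSup_of_directed hLd).1 (hL0 hx)
  -- (5)
  have h5 : sInf (Set.range T) ≤ V := by
    intro x hx
    rw [Subgroup.mem_sInf] at hx
    obtain ⟨r, hr⟩ := hex x (hx _ ⟨0, rfl⟩)
    exact h2 r x (hx _ ⟨r, rfl⟩) hr
  have h5c : IsCompact ((sInf (Set.range T) : Subgroup G) : Set G) := by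
    refine hVc.of_isClosed_subset ?_ h5
    rw [Subgroup.coe_sInf]
    refine isClosed_biInter ?_
    rintro _ ⟨r, rfl⟩
    exact hTc r
  obtain ⟨_, ⟨r, rfl⟩, hr⟩ := lemM H (hTc 0) (Set.range_nonempty T) (by
    rintro _ ⟨r, rfl⟩ _ ⟨s, rfl⟩
    exact ⟨T (max r s), ⟨_, rfl⟩, le_inf (hTm _ _ (le_max_left _ _)) (hTm _ _ (le_max_right _ _))⟩) (by
    rintro _ ⟨r, rfl⟩
    exact ⟨hTc r, hTm 0 r (Nat.zero_le r), h3 r⟩) h5c
  have hHc : IsCompact (T 0 : Set G) :=
    (cpt_sup hr (lma_cpt hMc hMM 0 r) (nm_mono (hS0 r) (h3 r))).of_isClosed_subset (hTc 0) (h4 r)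
  obtain ⟨n, hn⟩ := hHc.elim_directed_cover (fun i => (L i : Set G)) hLo (by
    intro x hx
    obtain ⟨r, hr⟩ := hex x hx
    exact Set.mem_iUnion.2 ⟨r, hr⟩) (by
    intro a b
    exact ⟨max a b, fun x hx => hLm (le_max_left a b) hx, fun x hx => hLm (le_max_right a b) hx⟩)
  exact ⟨n, fun i => ((lmaM_leU (Nat.zero_le i)).trans (hUT 0)).trans hn⟩

end Pool.Agent.CTM
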