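import Pool.Agent.CTM.ZmE

/-!
# CTM: Lemma Z: dependent choice
-/

set_option autoImplicit false

namespace Pool.Agent.CTM

universe u

variable {G : Type u} [Group G] [TopologicalSpace G] [IsTopologicalGroup G]

/-- size 3.  DEPENDENT CHOICE.  PROOF.  States: pairs `(L, n)` with `∃ x, ∀ i < r, Cz K N Vc L n x i`; start with `L = 0`, `n = 0`, `r = 0`; iterate `Cz_step` (recursion on `r` in the dependent type `{s : (ℕ → ℕ) × (ℕ → ℕ) // ...}`), giving `(L_r, n_r)`, `r = 0, 1, ...`, with `L_(r+1) i = L_r i` for `i ≤ r`, `n_(r+1) i = n_r i` for `i < r`,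
`L_r r ≤ L_(r+1) (r+1)`.  Put `L i := L_i i`, `n i := n_(i+1) i`.  Then `L i = L_r i` for `i ≤ r` and `n i = n_r i` for `i < r` (induction), so `Cz_congr` gives the solutions. -/
theorem Cz_seq {K : ℕ → Subgroup G} (T : Tow K) {N : Subgroup G} (hs : StarP K N) {Vc : ℕ → Subgroup G}
    (hVc : ∀ l, IsOpen (Vc l : Set G)) :
    ∃ L n : ℕ → ℕ, Monotone L ∧ ∀ r, ∃ x : ℕ → G, ∀ i < r, Cz K N Vc L n x i := by
  classical
  -- the step
  have step : ∀ (r : ℕ) (s : {s : (ℕ → ℕ) × (ℕ → ℕ) // ∃ x : ℕ → G, ∀ i < r, Cz K N Vc s.1 s.2 x i}),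
      ∃ t : {s : (ℕ → ℕ) × (ℕ → ℕ) // ∃ x : ℕ → G, ∀ i < r + 1, Cz K N Vc s.1 s.2 x i},
        (∀ i ≤ r, t.1.1 i = s.1.1 i) ∧ (∀ i < r, t.1.2 i = s.1.2 i) ∧ s.1.1 r ≤ t.1.1 (r + 1) := by
    rintro r ⟨⟨L, n⟩, h⟩
    obtain ⟨L', n', h1, h2, h3, h4⟩ := Cz_step T hs hVc (L := L) (n := n) (r := r) h
    exact ⟨⟨⟨L', n'⟩, h4⟩, h1, h2, h3⟩
  choose nx hnx using step
  let st : ∀ r : ℕ, {s : (ℕ → ℕ) × (ℕ → ℕ) // ∃ x : ℕ → G, ∀ i < r, Cz K N Vc s.1 s.2 x i} :=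
    fun r => Nat.rec (motive := fun r => {s : (ℕ → ℕ) × (ℕ → ℕ) // ∃ x : ℕ → G, ∀ i < r, Cz K N Vc s.1 s.2 x i})
      ⟨(fun _ => 0, fun _ => 0), fun _ => 1, fun i hi => absurd hi (Nat.not_lt_zero i)⟩
      (fun r s => nx r s) r
  have hst : ∀ r, st (r + 1) = nx r (st r) := fun r => rfl
  have hL1 : ∀ r, ∀ i ≤ r, (st (r + 1)).1.1 i = (st r).1.1 i := fun r i hi => by
    rw [hst]; exact (hnx r (st r)).1 i hi
  have hN1 : ∀ r, ∀ i < r, (st (r + 1)).1.2 i = (st r).1.2 i := fun r i hi => by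
    rw [hst]; exact (hnx r (st r)).2.1 i hi
  have hM1 : ∀ r, (st r).1.1 r ≤ (st (r + 1)).1.1 (r + 1) := fun r => by
    rw [hst]; exact (hnx r (st r)).2.2
  have hL2 : ∀ i d, (st (i + d)).1.1 i = (st i).1.1 i := by
    intro i d
    induction d with
    | zero => rfl
    | succ d ih => rw [← add_assoc, hL1 (i + d) i (Nat.le_add_right i d)]; exact ih
  have hN2 : ∀ i d, (st (i + 1 + d)).1.2 i = (st (i + 1)).1.2 i := by
    intro i d
    induction d with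
    | zero => rfl
    | succ d ih => rw [← add_assoc, hN1 (i + 1 + d) i (by omega)]; exact ih
  refine ⟨fun i => (st i).1.1 i, fun i => (st (i + 1)).1.2 i, monotone_nat_of_le_succ hM1, ?_⟩
  intro r
  obtain ⟨x, hx⟩ := (st r).2
  refine ⟨x, fun i hi => Cz_congr (fun _ _ => rfl) ?_ ?_ ?_ (hx i hi)⟩
  · obtain ⟨d, rfl⟩ := Nat.exists_eq_add_of_le hi.le
    exact hL2 i d
  · obtain ⟨d, rfl⟩ := Nat.exists_eq_add_of_le (Nat.succ_le_of_lt hi)
    exact hL2 (i + 1) d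
  · obtain ⟨d, rfl⟩ := Nat.exists_eq_add_of_le (Nat.succ_le_of_lt hi)
    exact hN2 i d

end Pool.Agent.CTM
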