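import Pool.Agent.CTM.ZmA

/-!
# CTM: Lemma Z: the limit
-/

set_option autoImplicit false

namespace Pool.Agent.CTM

universe u

variable {G : Type u} [Group G] [TopologicalSpace G] [IsTopologicalGroup G]

/-- size 3.  LIMIT.  PROOF.  Choose `y r : ℕ → G` with `Cz K N Vc L n (y r) i` for `i < r`.  For each `i`, `y r i ∈ K (L (i+1))` for `r > i`, a compact set, so there is `x i` with `Lm (fun r => y r i) (x i)` (`Lm.exists`, `Ev.of_ge`).  All conditions in `Cz` are closed (`N` closed; open subgroups are open and closed) and the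
functions are continuous (`Filter.Tendsto.mul`, `.inv`, `.pow`), so they pass to the limit (`Lm.mem`; conditions on `i`, `h < i` hold for `r > i`). -/
theorem Cz_limit {K : ℕ → Subgroup G} (T : Tow K) {N : Subgroup G} (hN : IsClosed (N : Set G)) {Vc : ℕ → Subgroup G}
    (hVc : ∀ l, IsOpen (Vc l : Set G)) {L n : ℕ → ℕ} (h : ∀ r, ∃ x : ℕ → G, ∀ i < r, Cz K N Vc L n x i) :
    ∃ x : ℕ → G, ∀ i, Cz K N Vc L n x i := by
  classical
  choose y hy using h
  have hex : ∀ i, ∃ b ∈ (K (L (i + 1)) : Set G), Lm (fun r => y r i) b := fun i =>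
    Lm.exists (T.cpt (L (i + 1))) (Ev.of_ge (i + 1) fun r hr => (hy r i hr).2.1)
  choose x hxK hx using hex
  have hclK : ∀ l, IsClosed ((K l : Set G)ᶜ) := fun l => (T.opn l).isClosed_compl
  have hclV : ∀ l, IsClosed (Vc l : Set G) := fun l => Subgroup.isClosed_of_isOpen _ (hVc l)
  refine ⟨x, fun i => ⟨?_, hxK i, ?_, (hy (i + 1) i (Nat.lt_succ_self i)).2.2.2.1, ?_, ?_, ?_⟩⟩
  · exact Lm.mem hN (hx i) (Ev.of_ge (i + 1) fun r hr => (hy r i hr).1)
  · exact Lm.mem (hclK (L i)) (hx i) (Ev.of_ge (i + 1) fun r hr => (hy r i hr).2.2.1)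
  · have h1 : Lm (fun r => y r i ^ n i) (x i ^ n i) := Filter.Tendsto.pow (hx i) (n i)
    exact Lm.mem (hclV (L i)) h1 (Ev.of_ge (i + 1) fun r hr => (hy r i hr).2.2.2.2.1)
  · intro j hj hj'
    have h1 : Lm (fun r => y r i ^ j) (x i ^ j) := Filter.Tendsto.pow (hx i) j
    exact Lm.mem (hclK (L i)) h1 (Ev.of_ge (i + 1) fun r hr => (hy r i hr).2.2.2.2.2.1 j hj hj')
  · intro h hh j hj
    have h1 : Lm (fun r => (y r h)⁻¹ * ((y r i ^ j)⁻¹ * y r h * y r i ^ j))
        ((x h)⁻¹ * ((x i ^ j)⁻¹ * x h * x i ^ j)) :=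
      (Filter.Tendsto.inv (hx h)).mul
        ((((Filter.Tendsto.pow (hx i) j).inv).mul (hx h)).mul (Filter.Tendsto.pow (hx i) j))
    exact Lm.mem (hclV (L i)) h1
      (Ev.of_ge (i + 1) fun r hr => (hy r i hr).2.2.2.2.2.2 h hh j hj)

end Pool.Agent.CTM
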