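import Pool.Agent.CTM.ZmC
import Pool.Agent.CTM.ZmB
import Pool.Agent.CTM.ZmF
import Pool.Agent.CTM.LmA

/-!
# CTM: Lemma Z
-/

set_option autoImplicit false

namespace Pool.Agent.CTM

universe u

variable {G : Type u} [Group G] [TopologicalSpace G] [IsTopologicalGroup G] [T2Space G]

/-- size 4.  LEMMA Z.  PROOF.  `Vc l` := an open subgroup `≤ K 0` normalised by `K l` (`core_exists`); `L`, `n`, `x` from `Cz_seq`, `Cz_limit`.  `H i := cl ⟨x h : h < i⟩ ≤ K (L i)` (as `x h ∈ K (L (h+1))`), `Z i := cl ⟨x i⟩ ≤ K (L (i+1))` (compact, closed in `K _`), `W i := cl ⁅H i, Z i⁆`.  By `zm_comm` (`L = K (L i)`, `V = Vc (L i)`, `S = {x h | h < i}`) `W i ≤ Vc (L i)`.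
`M i := W i ⊔ Z i`: `W i` is normalised by `Z i` and by `H i` (`nm_comm_self`, `nm_topClosure_right`), so `M i` is compact (`cpt_sup`), its elements are `w * z`; `H i` normalises `M i`: `cj z h = z * cm z h`, `cm z h = (cm h z)⁻¹ ∈ W i`.  `M i ≤ K (L (i+1))`.  `M j ≤ H i` for `j < i` (`H j`, `Z j ≤ H i`), so `M j` normalises `M i`.
`M i ⊓ K (L i) ≤ K 0`: `m = z * w` (`mem_sup_nm'`), `z = x i ^ j * v`, `j < n i`, `v ∈ Vc (L i)` (`zm_comm`), so `x i ^ j = m w⁻¹ v⁻¹ ∈ K (L i)`, so `j = 0`, so `m = v w ∈ Vc (L i) ≤ K 0`.  `lemA` with `L i := K (L i)`, `V := K 0`: `M i ≤ K (L n₀)` for all `i`, but `x n₀ ∈ M n₀` is not in `K (L n₀)`. -/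
theorem lemZ {K : ℕ → Subgroup G} (T : Tow K) {N : Subgroup G} (hN : IsClosed (N : Set G)) (hs : StarP K N) : False := by
  have hcore : ∀ l, ∃ V' : Subgroup G, IsOpen (V' : Set G) ∧ V' ≤ K 0 ∧ Nm (K l) V' := fun l =>
    core_exists (T.cpt l) (T.opn 0)
  choose Vc hVo hV0 hVn using hcore
  obtain ⟨L, n, hLm, hr⟩ := Cz_seq T hs hVo
  obtain ⟨x, hx⟩ := Cz_limit T hN hVo hr
  have hK0 : ∀ l, K 0 ≤ K l := fun l => T.mono (Nat.zero_le l)
  have hKcl : ∀ l, IsClosed (K l : Set G) := fun l => (T.cpt l).isClosed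
  have hVcl : ∀ l, IsClosed (Vc l : Set G) := fun l => Subgroup.isClosed_of_isOpen _ (hVo l)
  set S : ℕ → Set G := fun i => {g | ∃ h < i, g = x h} with hS
  set Hs : ℕ → Subgroup G := fun i => (Subgroup.closure (S i)).topologicalClosure with hHs
  set Zs : ℕ → Subgroup G := fun i => (Subgroup.zpowers (x i)).topologicalClosure with hZs
  set Ws : ℕ → Subgroup G := fun i => (⁅Hs i, Zs i⁆ : Subgroup G).topologicalClosure with hWs
  have hxS : ∀ i, ∀ g ∈ S i, g ∈ K (L i) := by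
    rintro i g ⟨h, hhi, rfl⟩
    exact T.mono (hLm (by omega : h + 1 ≤ i)) (hx h).2.1
  have hHK : ∀ i, Hs i ≤ K (L i) := fun i =>
    Subgroup.topologicalClosure_minimal _ ((Subgroup.closure_le _).2 (hxS i)) (hKcl _)
  have hZK : ∀ i, Zs i ≤ K (L (i + 1)) := fun i =>
    Subgroup.topologicalClosure_minimal _ ((Subgroup.zpowers_le).2 (hx i).2.1) (hKcl _)
  have hzm := fun i => zm_comm (T.opn (L i)) (hVo (L i)) ((hV0 (L i)).trans (hK0 _)) (hVn (L i))
    (hxS i) (hx i).2.2.2.1 (hx i).2.2.2.2.1 (by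
      rintro g ⟨h, hhi, rfl⟩ j hj
      exact (hx i).2.2.2.2.2.2 h hhi j hj)
  have hWV : ∀ i, Ws i ≤ Vc (L i) := fun i =>
    Subgroup.topologicalClosure_minimal _ (comm_le (fun g hg m hm => (hzm i).1 g hg m hm)) (hVcl _)
  have hWcl : ∀ i, IsClosed (Ws i : Set G) := fun i => Subgroup.isClosed_topologicalClosure _
  have hZcl : ∀ i, IsClosed (Zs i : Set G) := fun i => Subgroup.isClosed_topologicalClosure _
  have hHcl : ∀ i, IsClosed (Hs i : Set G) := fun i => Subgroup.isClosed_topologicalClosure _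
  have hWc : ∀ i, IsCompact (Ws i : Set G) := fun i =>
    (T.cpt 0).of_isClosed_subset (hWcl i) ((hWV i).trans (hV0 _))
  have hZc : ∀ i, IsCompact (Zs i : Set G) := fun i =>
    (T.cpt _).of_isClosed_subset (hZcl i) (hZK i)
  have hcW : ∀ i, (⁅Hs i, Zs i⁆ : Subgroup G) ≤ Ws i := fun i => Subgroup.le_topologicalClosure _
  have hZW : ∀ i, Nm (Zs i) (Ws i) := fun i => nm_topClosure_right nm_comm_self.2
  have hHW : ∀ i, Nm (Hs i) (Ws i) := fun i => nm_topClosure_right nm_comm_self.1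
  have hHM : ∀ i, Nm (Hs i) (Ws i ⊔ Zs i) := by
    intro i h hh y hy
    obtain ⟨w, hw, z, hz, rfl⟩ := (mem_sup_nm (hZW i)).1 hy
    rw [mul_cj, cj_eq z h]
    refine Subgroup.mul_mem _ (Subgroup.mem_sup_left (hHW i h hh w hw))
      (Subgroup.mul_mem _ (Subgroup.mem_sup_right hz) (Subgroup.mem_sup_left ?_))
    rw [← cm_inv]
    exact Subgroup.inv_mem _ (hcW i (cm_mem_comm hh hz))
  have hMH : ∀ i j, j < i → Ws j ⊔ Zs j ≤ Hs i := by
    intro i j hj
    have hjS : x j ∈ Subgroup.closure (S i) := Subgroup.subset_closure ⟨j, hj, rfl⟩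
    have h1 : Zs j ≤ Hs i := Subgroup.topologicalClosure_minimal _
      ((Subgroup.zpowers_le).2 (Subgroup.le_topologicalClosure _ hjS)) (hHcl i)
    have h2 : Hs j ≤ Hs i := Subgroup.topologicalClosure_mono
      (Subgroup.closure_mono (by rintro g ⟨h, hh, rfl⟩; exact ⟨h, hh.trans hj, rfl⟩))
    refine sup_le (Subgroup.topologicalClosure_minimal _ (comm_le ?_) (hHcl i)) h1
    intro g hg m hm
    unfold cm
    exact Subgroup.mul_mem _ (Subgroup.mul_mem _ (Subgroup.mul_mem _ (Subgroup.inv_mem _ (h2 hg))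
      (Subgroup.inv_mem _ (h1 hm))) (h2 hg)) (h1 hm)
  obtain ⟨n₀, hn₀⟩ := lemA T.hyp (fun i => K (L i)) (fun i => Ws i ⊔ Zs i) (K 0)
    (T.mono.comp hLm) (fun i => T.opn _) (hK0 _) (T.cpt 0)
    (fun i => cpt_sup (hWc i) (hZc i) (hZW i))
    (fun i => sup_le (((hWV i).trans (hV0 _)).trans (hK0 _)) (hZK i)) (by
      rintro i m ⟨hm, hmK⟩
      obtain ⟨z, hz, w, hw, rfl⟩ := (mem_sup_nm' (hZW i)).1 hm
      obtain ⟨j, hj, hv⟩ := (hzm i).2 z hz
      have hwV := hWV i hw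
      rcases Nat.eq_zero_or_pos j with h0 | h0
      · subst h0
        rw [pow_zero, inv_one, one_mul] at hv
        exact hV0 _ ((Vc (L i)).mul_mem hv hwV)
      · exfalso
        refine (hx i).2.2.2.2.2.1 j h0 hj ?_
        have hVK : Vc (L i) ≤ K (L i) := (hV0 _).trans (hK0 _)
        have e : x i ^ j = (z * w) * w⁻¹ * ((x i ^ j)⁻¹ * z)⁻¹ := by group
        rw [e]
        exact (K (L i)).mul_mem ((K (L i)).mul_mem hmK ((K (L i)).inv_mem (hVK hwV)))
          ((K (L i)).inv_mem (hVK hv)))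
    (fun i j hj => nm_mono (hMH i j hj) (hHM i))
  exact (hx n₀).2.2.1 (hn₀ n₀ (Subgroup.mem_sup_right
    (Subgroup.le_topologicalClosure _ (Subgroup.mem_zpowers (x n₀)))))

end Pool.Agent.CTM
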