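import Pool.Agent.CTM.Bst
import Pool.Agent.CTM.ZmD
import Pool.Agent.CTM.Alq
import Pool.Agent.CTM.Alr
import Pool.Agent.CTM.Cne
import Pool.Agent.CTM.Msm
import Pool.Agent.CTM.Abm
import Pool.Agent.CTM.Rdb
import Pool.Agent.CTM.Tws
import Pool.Agent.CTM.Btb

/-!
# CTM: assembly
-/

set_option autoImplicit false

namespace Pool.Agent.CTM

universe u

theorem tow_compact {G : Type u} [Group G] [TopologicalSpace G] [IsTopologicalGroup G] [T2Space G]
    {K : ℕ → Subgroup G} (T : Tow K) : CompactSpace G := by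
  by_contra hG
  obtain ⟨A, hA⟩ := exists_cnd T hG
  obtain ⟨N, hN⟩ := exists_minN T.hyp hA
  by_cases hα : ∃ p : ℕ, p.Prime ∧ ∃ m, ∀ l, ∃ y ∈ N, y ∉ K l ∧ y ^ p ∈ K m
  · obtain ⟨p, hp, m, hm⟩ := hα
    exact lemZ T hN.cl (alp_star T hN hp (fun V hV l => alp_seq T hN hp hm hV l))
  · push Not at hα
    have hb : Bd K N := by
      refine bd_of_pow T hN.cl ?_
      intro p hp m
      obtain ⟨l, hl⟩ := hα p hp m
      refine ⟨l, fun y hy hyp => ?_⟩
      by_contra hyl
      exact hl y hy hyl hyp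
    obtain ⟨H, N', p, A', R⟩ := exists_rt T hb hN.cl hN.nc
    exact lemZ T R.min.cl (star_of_rt T R)

theorem compact_of_ctm {G : Type u} [Group G] [TopologicalSpace G] [IsTopologicalGroup G] [T2Space G]
    (U : Subgroup G) (hUo : IsOpen (U : Set G)) (hUc : IsCompact (U : Set G)) (hM : IsCTotallyMinimalGroup G)
    (hS : IsLocallySolvable G) : CompactSpace G := by
  by_contra hG
  obtain ⟨Q, _, _, _, _, hQ, hQc⟩ := exists_hyp (ms_of_ctm hM) (ab_of_ctm hM U hUo hUc) hS U hUo hUc hG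
  obtain ⟨Q', _, _, _, _, K, T, hc⟩ := exists_tow hQ hQc
  exact hc (tow_compact T)

end Pool.Agent.CTM
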