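import Pool.Agent.CTM.Defs

/-!
# CTM: transversals
-/

set_option autoImplicit false

namespace Pool.Agent.CTM

universe u

variable {G : Type u} [Group G]

/-- the product of the conjugates `x ^ t`, `t ∈ T` (in some order) -/
noncomputable def nrmP (T : Finset G) (x : G) : G := (T.toList.map (fun t => cj x t)).prod

/-- `T` is a right transversal of `Δ` in `Γ`: `T ⊆ Γ` and every `g ∈ Γ` is `d * t` with `d ∈ Δ` and a unique `t ∈ T`. -/
def Trv (Γ Δ : Subgroup G) (T : Finset G) : Prop := (∀ t ∈ T, t ∈ Γ) ∧ ∀ g ∈ Γ, ∃! t, t ∈ T ∧ g * t⁻¹ ∈ Δ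

private theorem AvA_card_eq {Γ Δ : Subgroup G} {T : Finset G} (h : Trv Γ Δ T) : T.card = Δ.relIndex Γ := by
  obtain ⟨h1, h2⟩ := h
  let f : T → Quotient (QuotientGroup.rightRel (Δ.subgroupOf Γ)) := fun t => Quotient.mk'' ⟨t.1, h1 t.1 t.2⟩
  have hf : Function.Bijective f := by
    constructor
    · rintro ⟨t, ht⟩ ⟨t', ht'⟩ he
      have h3 := Quotient.exact he
      have h4 : t' * t⁻¹ ∈ Δ := by
        have := QuotientGroup.rightRel_apply.1 h3
        rw [Subgroup.mem_subgroupOf] at this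
        simpa using this
      obtain ⟨s, _, hs2⟩ := h2 t' (h1 t' ht')
      have e1 := hs2 t' ⟨ht', by simp⟩
      have e2 := hs2 t ⟨ht, h4⟩
      exact Subtype.ext (e2.trans e1.symm)
    · intro q
      induction q using Quotient.inductionOn' with
      | h g =>
        obtain ⟨t, ⟨ht, hgt⟩, _⟩ := h2 g.1 g.2
        refine ⟨⟨t, ht⟩, ?_⟩
        apply Quotient.sound'
        rw [QuotientGroup.rightRel_apply, Subgroup.mem_subgroupOf]
        simpa using hgt
  have h5 := Nat.card_eq_of_bijective f hf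
  rw [Nat.card_eq_fintype_card, Fintype.card_coe] at h5
  rw [h5, Subgroup.relIndex, Subgroup.index]
  exact Nat.card_congr (QuotientGroup.quotientRightRelEquivQuotientLeftRel _)

/-- size 2. -/
theorem exists_trv {Γ Δ : Subgroup G} (hΔ : Δ ≤ Γ) (hf : Δ.relIndex Γ ≠ 0) :
    ∃ T : Finset G, Trv Γ Δ T ∧ T.card = Δ.relIndex Γ := by
  classical
  have hfin : Finite (Γ ⧸ (Δ.subgroupOf Γ)) := by
    have : (Δ.subgroupOf Γ).index ≠ 0 := hf
    rw [Subgroup.index] at this
    exact Nat.finite_of_card_ne_zero this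
  have hfin2 : Finite (Quotient (QuotientGroup.rightRel (Δ.subgroupOf Γ))) :=
    Finite.of_equiv _ (QuotientGroup.quotientRightRelEquivQuotientLeftRel (Δ.subgroupOf Γ)).symm
  have := Fintype.ofFinite (Quotient (QuotientGroup.rightRel (Δ.subgroupOf Γ)))
  have hT : Trv Γ Δ ((Finset.univ : Finset (Quotient (QuotientGroup.rightRel (Δ.subgroupOf Γ)))).image
      (fun q => ((Quotient.out q : Γ) : G))) := by
    constructor
    · intro t ht
      rw [Finset.mem_image] at ht
      obtain ⟨q, _, rfl⟩ := ht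
      exact (Quotient.out q).2
    · intro g hg
      have key : ∀ q : Quotient (QuotientGroup.rightRel (Δ.subgroupOf Γ)),
          g * ((Quotient.out q : Γ) : G)⁻¹ ∈ Δ ↔ q = Quotient.mk'' ⟨g, hg⟩ := by
        intro q
        constructor
        · intro h
          rw [← Quotient.out_eq' q]
          apply Quotient.sound'
          rw [QuotientGroup.rightRel_apply, Subgroup.mem_subgroupOf]
          simpa using h
        · intro h
          have h6 : Quotient.mk'' (Quotient.out q) = (Quotient.mk'' (⟨g, hg⟩ : Γ) :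
              Quotient (QuotientGroup.rightRel (Δ.subgroupOf Γ))) := by
            rw [Quotient.out_eq' q]; exact h
          have h7 := QuotientGroup.rightRel_apply.1 (Quotient.exact h6)
          rw [Subgroup.mem_subgroupOf] at h7
          simpa using h7
      refine ⟨((Quotient.out (Quotient.mk'' ⟨g, hg⟩ :
        Quotient (QuotientGroup.rightRel (Δ.subgroupOf Γ))) : Γ) : G), ⟨?_, ?_⟩, ?_⟩
      · exact Finset.mem_image_of_mem _ (Finset.mem_univ _)
      · exact (key _).2 rfl
      · rintro t ⟨ht, hgt⟩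
        rw [Finset.mem_image] at ht
        obtain ⟨q, _, rfl⟩ := ht
        rw [(key q).1 hgt]
  exact ⟨_, hT, AvA_card_eq hT⟩

/-- size 2.  `Δ ≤ Γ' ≤ Γ`: the elements of `T` in `Γ'` form a transversal of `Δ` in `Γ'`; their number is the index. -/
theorem trv_inter [DecidableEq G] {Γ Γ' Δ : Subgroup G} {T : Finset G} (hT : Trv Γ Δ T) (hΔ : Δ ≤ Γ')
    (h : Γ' ≤ Γ) [DecidablePred (· ∈ Γ')] : (T.filter (· ∈ Γ')).card = Δ.relIndex Γ' := by
  apply AvA_card_eq
  constructor
  · intro t ht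
    exact (Finset.mem_filter.1 ht).2
  · intro g hg
    obtain ⟨t, ⟨ht, hgt⟩, hu⟩ := hT.2 g (h hg)
    refine ⟨t, ⟨Finset.mem_filter.2 ⟨ht, ?_⟩, hgt⟩, ?_⟩
    · have h8 : g * t⁻¹ ∈ Γ' := hΔ hgt
      have h9 := Γ'.mul_mem (Γ'.inv_mem h8) hg
      simpa using h9
    · rintro s ⟨hs, hgs⟩
      exact hu s ⟨(Finset.mem_filter.1 hs).1, hgs⟩

end Pool.Agent.CTM
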