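import Pool.Agent.CTM.AvA

/-!
# CTM: products over transversals
-/

set_option autoImplicit false

namespace Pool.Agent.CTM

universe u

variable {G : Type u} [Group G]

private theorem AvB_cj {X X₀ : Subgroup G} (h0 : X₀ ≤ X) (hab : ∀ a ∈ X, ∀ b ∈ X, cm a b ∈ X₀) {a y : G}
    (ha : a ∈ X₀) (hy : y ∈ X) : cj a y ∈ X₀ := by
  rw [cj_eq]
  exact X₀.mul_mem ha (hab a (h0 ha) y hy)

private theorem AvB_list {ι : Type*} {X X₀ : Subgroup G} (h0 : X₀ ≤ X) (hab : ∀ a ∈ X, ∀ b ∈ X, cm a b ∈ X₀)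
    (P : ι → Prop) [DecidablePred P] {x : G} (hx : x ∈ X) (f : ι → G) (l : List ι)
    (h1 : ∀ t ∈ l, P t → x⁻¹ * f t ∈ X₀) (h2 : ∀ t ∈ l, ¬ P t → f t ∈ X₀) :
    (x ^ (l.countP (fun t => decide (P t))))⁻¹ * (l.map f).prod ∈ X₀ := by
  induction l with
  | nil => simp
  | cons t l ih =>
    have ih' := ih (fun s hs => h1 s (List.mem_cons_of_mem _ hs)) (fun s hs => h2 s (List.mem_cons_of_mem _ hs))
    rw [List.map_cons, List.prod_cons, List.countP_cons]
    set n := l.countP (fun t => decide (P t))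
    have hn : x ^ n ∈ X := X.pow_mem hx n
    by_cases hP : P t
    · have ht := h1 t (List.mem_cons_self) hP
      have e : (x ^ (n + if decide (P t) = true then 1 else 0))⁻¹ * (f t * (l.map f).prod)
          = cj (x⁻¹ * f t) (x ^ n) * ((x ^ n)⁻¹ * (l.map f).prod) := by
        simp only [hP, decide_true, if_true, pow_succ', cj]
        group
      rw [e]
      exact X₀.mul_mem (AvB_cj h0 hab ht hn) ih'
    · have ht := h2 t (List.mem_cons_self) hP
      have e : (x ^ (n + if decide (P t) = true then 1 else 0))⁻¹ * (f t * (l.map f).prod)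
          = cj (f t) (x ^ n) * ((x ^ n)⁻¹ * (l.map f).prod) := by
        simp only [hP, decide_false, Bool.false_eq_true, if_false, add_zero, cj]
        group
      rw [e]
      exact X₀.mul_mem (AvB_cj h0 hab ht hn) ih'

private theorem AvB_count (T : Finset G) (P : G → Prop) [DecidablePred P] :
    (T.filter P).card = T.toList.countP (fun t => decide (P t)) := by
  rw [Finset.card_def, Finset.filter_val, ← Multiset.countP_eq_card_filter, ← Finset.coe_toList,
    Multiset.coe_countP]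

/-- size 1. -/
theorem nrmP_mem {X : Subgroup G} {T : Finset G} {x : G} (h : ∀ t ∈ T, cj x t ∈ X) : nrmP T x ∈ X := by
  unfold nrmP
  apply Subgroup.list_prod_mem
  intro y hy
  rw [List.mem_map] at hy
  obtain ⟨t, ht, rfl⟩ := hy
  exact h t (Finset.mem_toList.1 ht)

/-- size 3.  COUNTING.  `X₀ ≤ X` with `cm a b ∈ X₀` for `a b ∈ X` (so `X ⧸ X₀` is commutative).  If `cj x t ∈ x X₀` for `t ∈ T`, `t ∈ T₁`, and `cj x t ∈ X₀` for the other `t ∈ T`, then the product is `x ^ |T ∩ T₁|` modulo `X₀`.  (Induction on lists.) -/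
theorem nrmP_count {X X₀ : Subgroup G} (h0 : X₀ ≤ X) (hab : ∀ a ∈ X, ∀ b ∈ X, cm a b ∈ X₀) {T : Finset G} (P : G → Prop)
    [DecidablePred P] {x : G} (hx : x ∈ X) (h1 : ∀ t ∈ T, P t → x⁻¹ * cj x t ∈ X₀)
    (h2 : ∀ t ∈ T, ¬ P t → cj x t ∈ X₀) : (x ^ (T.filter P).card)⁻¹ * nrmP T x ∈ X₀ := by
  rw [AvB_count]
  exact AvB_list h0 hab P hx (fun t => cj x t) T.toList (fun t ht => h1 t (Finset.mem_toList.1 ht))
    (fun t ht => h2 t (Finset.mem_toList.1 ht))

/-- size 2.  The same for the conjugate by `z`: `cj (nrmP T x) z` is the product of the `cj (cj x z) (cj t z)`. -/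
theorem nrmP_cj {X X₀ : Subgroup G} (h0 : X₀ ≤ X) (hab : ∀ a ∈ X, ∀ b ∈ X, cm a b ∈ X₀) {T : Finset G} {x z : G}
    (hx : cj x z ∈ X) (h1 : ∀ t ∈ T, (cj x z)⁻¹ * cj (cj x z) (cj t z) ∈ X₀) :
    ((cj x z) ^ T.card)⁻¹ * cj (nrmP T x) z ∈ X₀ := by
  have e : cj (nrmP T x) z = (T.toList.map (fun t => cj (cj x z) (cj t z))).prod := by
    unfold nrmP
    generalize T.toList = l
    induction l with
    | nil => simp [one_cj]
    | cons t l ih =>
      rw [List.map_cons, List.prod_cons, List.map_cons, List.prod_cons, mul_cj, ih]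
      congr 1
      unfold cj
      group
  have h := AvB_list h0 hab (fun _ : G => True) hx (fun t => cj (cj x z) (cj t z)) T.toList
    (fun t ht _ => h1 t (Finset.mem_toList.1 ht)) (fun t _ h => absurd trivial h)
  rw [e]
  have hc : T.toList.countP (fun _ => decide True) = T.card := by
    simp
  rw [hc] at h
  exact h

/-- size 2.  Multiplicativity modulo `X₁`. -/
theorem nrmP_mul {X X₁ Γ : Subgroup G} (h1 : X₁ ≤ X) (hab : ∀ a ∈ X, ∀ b ∈ X, cm a b ∈ X₁) (hX : Nm Γ X)
    {T : Finset G} (hT : ∀ t ∈ T, t ∈ Γ) {x y : G} (hx : x ∈ X) (hy : y ∈ X) :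
    (nrmP T (x * y))⁻¹ * (nrmP T x * nrmP T y) ∈ X₁ := by
  unfold nrmP
  have hT' : ∀ t ∈ T.toList, t ∈ Γ := fun t ht => hT t (Finset.mem_toList.1 ht)
  generalize T.toList = l at hT'
  induction l with
  | nil => simp
  | cons t l ih =>
    have hl : ∀ s ∈ l, s ∈ Γ := fun s hs => hT' s (List.mem_cons_of_mem _ hs)
    have ih' := ih hl
    rw [List.map_cons, List.prod_cons, List.map_cons, List.prod_cons, List.map_cons, List.prod_cons]
    have htΓ : t ∈ Γ := hT' t List.mem_cons_self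
    have hmem : ∀ w ∈ X, (l.map (fun s => cj w s)).prod ∈ X := by
      intro w hw
      apply Subgroup.list_prod_mem
      intro v hv
      rw [List.mem_map] at hv
      obtain ⟨s, hs, rfl⟩ := hv
      exact hX s (hl s hs) w hw
    set A := (l.map (fun s => cj (x * y) s)).prod
    set B := (l.map (fun s => cj x s)).prod with hB
    set C := (l.map (fun s => cj y s)).prod with hC
    have hBX : B ∈ X := hmem x hx
    have hCX : C ∈ X := hmem y hy
    have hbX : cj y t ∈ X := hX t htΓ y hy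
    have e : (cj (x * y) t * A)⁻¹ * (cj x t * B * (cj y t * C))
        = (A⁻¹ * (B * C)) * cj (cm B (cj y t)) C := by
      rw [mul_cj]
      generalize cj x t = a
      generalize cj y t = b
      unfold cj cm
      group
    rw [e]
    exact X₁.mul_mem ih' (AvB_cj h1 hab (hab B hBX _ hbX) hCX)

end Pool.Agent.CTM
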