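import Pool.Agent.CTM.AvA

/-!
# CTM: invariance of the product
-/

set_option autoImplicit false

namespace Pool.Agent.CTM

universe u

variable {G : Type u} [Group G]

private theorem AvC_nm {X X₁ : Subgroup G} (h1 : X₁ ≤ X) (hab : ∀ a ∈ X, ∀ b ∈ X, cm a b ∈ X₁) {a y : G}
    (ha : a ∈ X) (hy : y ∈ X₁) : cj y a ∈ X₁ := by
  rw [cj_eq]
  exact X₁.mul_mem hy (hab y (h1 hy) a ha)

private theorem AvC_perm {X X₁ : Subgroup G} (h1 : X₁ ≤ X) (hab : ∀ a ∈ X, ∀ b ∈ X, cm a b ∈ X₁)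
    {l l' : List G} (h : l.Perm l') : (∀ a ∈ l, a ∈ X) → (l.prod)⁻¹ * l'.prod ∈ X₁ := by
  induction h with
  | nil => intro _; simp [X₁.one_mem]
  | cons x h ih =>
    intro hl
    have := ih (fun a ha => hl a (List.mem_cons_of_mem _ ha))
    rw [List.prod_cons, List.prod_cons]
    have e : ∀ p q : G, (x * p)⁻¹ * (x * q) = p⁻¹ * q := fun p q => by group
    rw [e]
    exact this
  | swap x y l =>
    intro hl
    have hx : x ∈ X := hl x (by simp)
    have hy : y ∈ X := hl y (by simp)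
    have hp : l.prod ∈ X := X.list_prod_mem (fun a ha => hl a (by simp [ha]))
    rw [List.prod_cons, List.prod_cons, List.prod_cons, List.prod_cons]
    have e : ∀ p : G, (y * (x * p))⁻¹ * (x * (y * p)) = cj (cm x y) p := fun p => by
      unfold cj cm; group
    rw [e]
    exact AvC_nm h1 hab hp (hab x hx y hy)
  | trans h h' ih ih' =>
    intro hl
    have a1 := ih hl
    have a2 := ih' (fun a ha => hl a (h.symm.subset ha))
    have := X₁.mul_mem a1 a2
    have e : ∀ p q r : G, (p⁻¹ * q) * (q⁻¹ * r) = p⁻¹ * r := fun p q r => by group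
    rw [e] at this
    exact this

private theorem AvC_congr {X X₁ : Subgroup G} (h1 : X₁ ≤ X) (hab : ∀ a ∈ X, ∀ b ∈ X, cm a b ∈ X₁)
    {f f' : G → G} (l : List G) : (∀ t ∈ l, f t ∈ X) → (∀ t ∈ l, (f t)⁻¹ * f' t ∈ X₁) →
    ((l.map f).prod)⁻¹ * (l.map f').prod ∈ X₁ := by
  induction l with
  | nil => intro _ _; simp [X₁.one_mem]
  | cons t l ih =>
    intro hf hff
    have h2 := ih (fun a ha => hf a (List.mem_cons_of_mem _ ha)) (fun a ha => hff a (List.mem_cons_of_mem _ ha))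
    have hp : (l.map f).prod ∈ X := X.list_prod_mem (fun a ha => by
      obtain ⟨b, hb, rfl⟩ := List.mem_map.1 ha
      exact hf b (List.mem_cons_of_mem _ hb))
    have h3 := AvC_nm h1 hab hp (hff t (by simp))
    rw [List.map_cons, List.map_cons, List.prod_cons, List.prod_cons]
    have e : ∀ u v p q : G, (u * p)⁻¹ * (v * q) = cj (u⁻¹ * v) p * (p⁻¹ * q) := fun u v p q => by
      unfold cj; group
    rw [e]
    exact X₁.mul_mem h3 h2

private theorem AvC_cj (l : List G) (g : G) : cj l.prod g = (l.map (fun y => cj y g)).prod := by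
  induction l with
  | nil => simp [one_cj]
  | cons a l ih => rw [List.prod_cons, mul_cj, ih, List.map_cons, List.prod_cons]

/-- size 3.  INVARIANCE.  PROOF.  Modulo `X₁` (a normal subgroup of `X` with commutative quotient, normalised by `Γ`) the product is independent of the order.  For `g ∈ Γ` and `t ∈ T` write `t * g = d * t'` with `d ∈ Δ`, `t' ∈ T` (`t ↦ t'` is a permutation of `T`): `cj (cj x t) g = cj (cj x d) t' ∈ cj (x X₁) t' = cj x t' X₁`
(`hd : cm x d ∈ X₁`).  So `cj (nrmP T x) g ∈ nrmP T x * X₁`.  (Work with the finite product in the commutative group `X ⧸ X₁`.) -/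
theorem nrmP_fix {X X₁ Γ Δ : Subgroup G} (h1 : X₁ ≤ X) (hab : ∀ a ∈ X, ∀ b ∈ X, cm a b ∈ X₁) (hX : Nm Γ X)
    (hX₁ : Nm Γ X₁) {T : Finset G} (hT : Trv Γ Δ T) {x : G} (hx : x ∈ X) (hd : ∀ d ∈ Δ, cm x d ∈ X₁) :
    ∀ g ∈ Γ, cm (nrmP T x) g ∈ X₁ := by
  classical
  intro g hg
  have hex : ∀ t ∈ T, ∃ t', t' ∈ T ∧ (t * g) * t'⁻¹ ∈ Δ := fun t ht =>
    (hT.2 (t * g) (Γ.mul_mem (hT.1 t ht) hg)).exists
  choose! σ hσ1 hσ2 using hex
  have hinj : ∀ t ∈ T, ∀ s ∈ T, σ t = σ s → t = s := by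
    intro t ht s hs h
    have e1 := hσ2 t ht
    have e2 := hσ2 s hs
    rw [h] at e1
    have e3 : t * s⁻¹ ∈ Δ := by
      have := Δ.mul_mem e1 (Δ.inv_mem e2)
      have e : ∀ u v w z : G, (u * w * z⁻¹) * (v * w * z⁻¹)⁻¹ = u * v⁻¹ := fun u v w z => by group
      rw [e] at this
      exact this
    exact (hT.2 t (hT.1 t ht)).unique ⟨ht, by rw [mul_inv_cancel]; exact Δ.one_mem⟩ ⟨hs, e3⟩
  have hperm : (T.toList.map σ).Perm T.toList := by
    have hnd : (T.toList.map σ).Nodup := T.nodup_toList.map_on (fun a ha b hb h =>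
      hinj a (Finset.mem_toList.1 ha) b (Finset.mem_toList.1 hb) h)
    have hsub : T.toList.map σ ⊆ T.toList := by
      intro a ha
      obtain ⟨b, hb, rfl⟩ := List.mem_map.1 ha
      exact Finset.mem_toList.2 (hσ1 b (Finset.mem_toList.1 hb))
    exact (hnd.subperm hsub).perm_of_length_le (by simp)
  have hxT : ∀ t ∈ T, cj x t ∈ X := fun t ht => hX t (hT.1 t ht) x hx
  -- step 1: `nrmP T x` is congruent to the product over the permuted list
  have s1 : (nrmP T x)⁻¹ * (T.toList.map (fun t => cj x (σ t))).prod ∈ X₁ := by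
    have h2 := AvC_perm h1 hab (hperm.symm.map (fun t => cj x t)) (by
      intro a ha
      obtain ⟨b, hb, rfl⟩ := List.mem_map.1 ha
      exact hxT b (Finset.mem_toList.1 hb))
    rw [List.map_map] at h2
    exact h2
  -- step 2: the conjugate
  have s2 : ((T.toList.map (fun t => cj x (σ t))).prod)⁻¹ * cj (nrmP T x) g ∈ X₁ := by
    unfold nrmP
    rw [AvC_cj, List.map_map]
    refine AvC_congr h1 hab T.toList (fun t ht => hxT _ (hσ1 t (Finset.mem_toList.1 ht))) ?_
    intro t ht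
    have ht' := Finset.mem_toList.1 ht
    set d := t * g * (σ t)⁻¹ with hd'
    have hdt : t * g = d * σ t := by rw [hd']; group
    have e1 : cj (cj x t) g = cj x (σ t) * cj (cm x d) (σ t) := by
      rw [cj_cj, hdt, ← cj_cj, cj_eq x d, mul_cj]
    show (cj x (σ t))⁻¹ * cj (cj x t) g ∈ X₁
    rw [e1, inv_mul_cancel_left]
    exact hX₁ _ (hT.1 _ (hσ1 t ht')) _ (hd d (hσ2 t ht'))
  have := X₁.mul_mem s1 s2
  have e : ∀ p q r : G, (p⁻¹ * q) * (q⁻¹ * r) = p⁻¹ * r := fun p q r => by group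
  rw [e] at this
  rw [cm_eq]
  exact this

end Pool.Agent.CTM
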