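import Pool.Agent.CTM.Defs

/-!
# CTM: inverses modulo `p`
-/

set_option autoImplicit false

namespace Pool.Agent.CTM

universe u

variable {G : Type u} [Group G]

/-- size 1.  `r * m = 1` modulo `p`, `x ^ p ∈ X₀`: then `x⁻¹ * x ^ (r * m) ∈ X₀`; existence of `r`. -/
theorem exists_inv_mod {p m : ℕ} (hp : p.Prime) (h : ¬ p ∣ m) : ∃ r k : ℕ, r * m = 1 + p * k := by
  have hc : m.Coprime p := ((Nat.Prime.coprime_iff_not_dvd hp).2 h).symm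
  obtain ⟨r, hr⟩ := Nat.exists_mul_mod_eq_one_of_coprime hc hp.one_lt
  refine ⟨r, m * r / p, ?_⟩
  have h1 := Nat.mod_add_div (m * r) p
  rw [mul_comm r m]
  omega

/-- size 1.  If `(x ^ m)⁻¹ * s ∈ X₀`, `r * m = 1 + p * k`, `x ^ p ∈ X₀` and `X ⧸ X₀` is commutative then `x⁻¹ * s ^ r ∈ X₀`. -/
theorem pow_inv_mod {X X₀ : Subgroup G} (h0 : X₀ ≤ X) (hab : ∀ a ∈ X, ∀ b ∈ X, cm a b ∈ X₀) {x s : G} (hx : x ∈ X)
    (hs : s ∈ X) {p m r k : ℕ} (hr : r * m = 1 + p * k) (hp : x ^ p ∈ X₀) (h : (x ^ m)⁻¹ * s ∈ X₀) :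
    x⁻¹ * s ^ r ∈ X₀ := by
  have hn : ∀ a ∈ X, ∀ y ∈ X₀, a⁻¹ * y * a ∈ X₀ := by
    intro a ha y hy
    have h1 := X₀.mul_mem hy (hab y (h0 hy) a ha)
    rwa [← cj_eq] at h1
  have key : ∀ j : ℕ, ((x ^ m) ^ j)⁻¹ * s ^ j ∈ X₀ := by
    intro j
    induction j with
    | zero => simp
    | succ j ih =>
      have h2 := X₀.mul_mem (hn (x ^ m) (X.pow_mem hx m) _ ih) h
      have h3 : ((x ^ m) ^ (j + 1))⁻¹ * s ^ (j + 1) =
          (x ^ m)⁻¹ * (((x ^ m) ^ j)⁻¹ * s ^ j) * x ^ m * ((x ^ m)⁻¹ * s) := by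
        rw [pow_succ, pow_succ, mul_inv_rev]
        group
      rw [h3]
      exact h2
  have h4 : x⁻¹ * (x ^ m) ^ r ∈ X₀ := by
    rw [← pow_mul, mul_comm m r, hr, pow_add, pow_one, ← mul_assoc, inv_mul_cancel, one_mul,
      pow_mul]
    exact X₀.pow_mem hp k
  have h5 := X₀.mul_mem h4 (key r)
  have h6 : x⁻¹ * s ^ r = x⁻¹ * (x ^ m) ^ r * (((x ^ m) ^ r)⁻¹ * s ^ r) := by group
  rw [h6]
  exact h5

end Pool.Agent.CTM
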