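import Pool.Agent.CTM.Defs

/-!
# CTM, basic lemmas A: open and compact subgroups
-/

set_option autoImplicit false

namespace Pool.Agent.CTM

universe u

variable {G : Type u} [Group G] [TopologicalSpace G] [IsTopologicalGroup G]

private theorem BasA_coe (V : Subgroup G) (g : G) :
    (cjS V g : Set G) = (fun x => g * x * g⁻¹) ⁻¹' (V : Set G) := by
  ext x
  exact mem_cjS

private theorem BasA_open {V : Subgroup G} (hV : IsOpen (V : Set G)) (g : G) :
    IsOpen (cjS V g : Set G) := by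
  rw [BasA_coe]
  exact hV.preimage (by fun_prop)

/-- size 1.  Every neighbourhood `O` of `1` contains a compact open subgroup; if `x ∉ Z` closed, `O = {v | x * v ∉ Z}`. -/
theorem Hyp.small (H : Hyp G) {Z : Set G} (hZ : IsClosed Z) {x : G} (hx : x ∉ Z) :
    ∃ V : Subgroup G, IsOpen (V : Set G) ∧ IsCompact (V : Set G) ∧ ∀ v ∈ V, x * v ∉ Z := by
  have h1 : IsOpen {v : G | x * v ∉ Z} := hZ.isOpen_compl.preimage (by fun_prop)
  have hO : {v : G | x * v ∉ Z} ∈ nhds (1 : G) := h1.mem_nhds (by simpa using hx)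
  obtain ⟨V, h1, h2, h3⟩ := H.base _ hO
  exact ⟨V, h1, h2, fun v hv => h3 hv⟩

/-- size 1.  `base` for the neighbourhood `V` of `1`. -/
theorem Hyp.small_le (H : Hyp G) {V : Subgroup G} (hV : IsOpen (V : Set G)) :
    ∃ V' : Subgroup G, IsOpen (V' : Set G) ∧ IsCompact (V' : Set G) ∧ V' ≤ V := by
  obtain ⟨V', h1, h2, h3⟩ := H.base _ (hV.mem_nhds V.one_mem)
  exact ⟨V', h1, h2, fun x hx => h3 hx⟩

/-- size 1.  A point is in the closure of `S` iff every coset `x V`, `V` an open subgroup, meets `S`. -/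
theorem Hyp.mem_closure (H : Hyp G) {S : Set G} {x : G} :
    x ∈ closure S ↔ ∀ V : Subgroup G, IsOpen (V : Set G) → ∃ s ∈ S, x⁻¹ * s ∈ V := by
  rw [mem_closure_iff_nhds]
  constructor
  · intro h V hV
    have h1 : IsOpen {y : G | x⁻¹ * y ∈ V} := hV.preimage (by fun_prop)
    have h2 : {y : G | x⁻¹ * y ∈ V} ∈ nhds x := h1.mem_nhds (by simp [V.one_mem])
    obtain ⟨s, hs1, hs2⟩ := h _ h2
    exact ⟨s, hs2, hs1⟩
  · intro h U hU
    have h1 : Filter.Tendsto (fun v : G => x * v) (nhds 1) (nhds x) := by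
      have h2 : Continuous fun v : G => x * v := by fun_prop
      simpa using h2.tendsto 1
    obtain ⟨V, hV1, _, hV3⟩ := H.base _ (h1 hU)
    obtain ⟨s, hs, hsV⟩ := h V hV1
    refine ⟨s, ?_, hs⟩
    have h3 := hV3 hsV
    simpa using h3

/-- size 1.  (`T1`: `{1}` is closed; `Hyp.small`.) -/
theorem Hyp.eq_one (H : Hyp G) [T2Space G] {x : G} (h : ∀ V : Subgroup G, IsOpen (V : Set G) → x ∈ V) : x = 1 := by
  by_contra hx
  obtain ⟨V, hV, _, hV2⟩ := H.small (Z := {1}) isClosed_singleton hx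
  exact hV2 x⁻¹ (V.inv_mem (h V hV)) (by simp)

/-- size 1.  Continuity of multiplication and of conjugation in terms of open subgroups: for `b : G` the set `V'` of all `x ∈ V`
with `cj x b ∈ V` is an open subgroup (`V ⊓ cjS V b⁻¹`). -/
theorem small_cj {V : Subgroup G} (hV : IsOpen (V : Set G)) (b : G) :
    ∃ V' : Subgroup G, IsOpen (V' : Set G) ∧ V' ≤ V ∧ ∀ x ∈ V', cj x b ∈ V := by
  refine ⟨V ⊓ cjS V b⁻¹, ?_, inf_le_left, ?_⟩
  · rw [Subgroup.coe_inf]
    exact hV.inter (BasA_open hV _)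
  · intro x hx
    have h1 := mem_cjS'.1 hx.2
    rwa [inv_inv] at h1

/-- size 1.  `cjS V g` is the preimage of `V` under a homeomorphism of `G`. -/
theorem cjS_open {V : Subgroup G} (hV : IsOpen (V : Set G)) (g : G) : IsOpen (cjS V g : Set G) := by
  exact BasA_open hV g

/-- size 1.  The same for closed and for compact subgroups (`cjS V g` is the image of `V` under `x ↦ g⁻¹ x g`). -/
theorem cjS_closed {V : Subgroup G} (hV : IsClosed (V : Set G)) (g : G) : IsClosed (cjS V g : Set G) := by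
  rw [BasA_coe]
  exact hV.preimage (by fun_prop)

theorem cjS_compact {V : Subgroup G} (hV : IsCompact (V : Set G)) (g : G) : IsCompact (cjS V g : Set G) := by
  have h1 : (cjS V g : Set G) = (fun x => g⁻¹ * x * g) '' (V : Set G) := by
    ext x
    constructor
    · intro hx
      exact ⟨g * x * g⁻¹, mem_cjS.1 hx, by group⟩
    · rintro ⟨v, hv, rfl⟩
      refine mem_cjS.2 ?_
      have h2 : g * (g⁻¹ * v * g) * g⁻¹ = v := by group
      exact h2.symm ▸ hv
  rw [h1]
  exact hV.image (by fun_prop)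

/-- size 1.  A compact set is covered by finitely many left cosets of an open subgroup. -/
theorem finite_cover {C : Set G} (hC : IsCompact C) {V : Subgroup G} (hV : IsOpen (V : Set G)) :
    ∃ T : Finset G, (∀ t ∈ T, t ∈ C) ∧ ∀ x ∈ C, ∃ t ∈ T, t⁻¹ * x ∈ V := by
  have hU : ∀ t ∈ C, {x : G | t⁻¹ * x ∈ V} ∈ nhds t := by
    intro t _
    have h1 : IsOpen {x : G | t⁻¹ * x ∈ V} := hV.preimage (by fun_prop)
    exact h1.mem_nhds (by simp [V.one_mem])
  obtain ⟨T, hT1, hT2⟩ := hC.elim_nhds_subcover _ hU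
  refine ⟨T, hT1, fun x hx => ?_⟩
  have h1 := hT2 hx
  simp only [Set.mem_iUnion] at h1
  obtain ⟨t, ht, h2⟩ := h1
  exact ⟨t, ht, h2⟩

/-- size 1.  The same for right cosets (apply `finite_cover` to `C⁻¹`). -/
theorem finite_cover' {C : Set G} (hC : IsCompact C) {V : Subgroup G} (hV : IsOpen (V : Set G)) :
    ∃ T : Finset G, (∀ t ∈ T, t ∈ C) ∧ ∀ x ∈ C, ∃ t ∈ T, x * t⁻¹ ∈ V := by
  have hU : ∀ t ∈ C, {x : G | x * t⁻¹ ∈ V} ∈ nhds t := by
    intro t _
    have h1 : IsOpen {x : G | x * t⁻¹ ∈ V} := hV.preimage (by fun_prop)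
    exact h1.mem_nhds (by simp [V.one_mem])
  obtain ⟨T, hT1, hT2⟩ := hC.elim_nhds_subcover _ hU
  refine ⟨T, hT1, fun x hx => ?_⟩
  have h1 := hT2 hx
  simp only [Set.mem_iUnion] at h1
  obtain ⟨t, ht, h2⟩ := h1
  exact ⟨t, ht, h2⟩

/-- size 2.  NORMALISED CORE.  Let `V' = ⋂ c ∈ C, V ^ c` (`V ^ c = cjS V c`).  By `finite_cover'` `C ⊆ ⋃ V t`, and `V ^ (v t) = V ^ t`
for `v ∈ V`, so `V'` is the intersection of the finitely many open subgroups `V ^ t`, `t ∈ T` (or: `V'` contains a neighbourhood of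
`1`). It is normalised by `C` and `V' ≤ V` as `1 ∈ C`. -/
theorem core_exists {C V : Subgroup G} (hC : IsCompact (C : Set G)) (hV : IsOpen (V : Set G)) :
    ∃ V' : Subgroup G, IsOpen (V' : Set G) ∧ V' ≤ V ∧ Nm C V' := by
  obtain ⟨T, _, hT2⟩ := finite_cover' hC hV
  have hmem : ∀ x : G, x ∈ (⨅ c ∈ C, cjS V c : Subgroup G) ↔ ∀ c ∈ C, c * x * c⁻¹ ∈ V := by
    intro x
    simp only [Subgroup.mem_iInf, mem_cjS]
  have hW : IsOpen ((⨅ t ∈ T, cjS V t : Subgroup G) : Set G) := by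
    have h1 : ((⨅ t ∈ T, cjS V t : Subgroup G) : Set G) = ⋂ t ∈ T, (cjS V t : Set G) := by
      simp only [Subgroup.coe_iInf]
    rw [h1]
    exact isOpen_biInter_finset fun t _ => BasA_open hV t
  refine ⟨⨅ c ∈ C, cjS V c, Subgroup.isOpen_mono ?_ hW, ?_, ?_⟩
  · intro w hw
    rw [hmem]
    intro c hc
    obtain ⟨t, ht, hv⟩ := hT2 c hc
    simp only [Subgroup.mem_iInf, mem_cjS] at hw
    have h1 : c * w * c⁻¹ = (c * t⁻¹) * (t * w * t⁻¹) * (c * t⁻¹)⁻¹ := by group
    rw [h1]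
    exact V.mul_mem (V.mul_mem hv (hw t ht)) (V.inv_mem hv)
  · intro x hx
    have h1 := (hmem x).1 hx 1 C.one_mem
    simpa using h1
  · intro a ha y hy
    rw [hmem] at hy ⊢
    intro c hc
    have h1 := hy (c * a⁻¹) (C.mul_mem hc (C.inv_mem ha))
    have h2 : c * cj y a * c⁻¹ = c * a⁻¹ * y * (c * a⁻¹)⁻¹ := by
      unfold cj
      group
    rw [h2]
    exact h1

/-- size 1.  `C` compact subgroup, `V` open subgroup: the relative index `[C : C ∩ V]` is finite. -/
theorem relIndex_ne {C V : Subgroup G} (hC : IsCompact (C : Set G)) (hV : IsOpen (V : Set G)) :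
    V.relIndex C ≠ 0 := by
  haveI : CompactSpace C := isCompact_iff_compactSpace.1 hC
  have hO : IsOpen ((V.subgroupOf C : Subgroup C) : Set C) := hV.preimage continuous_subtype_val
  haveI : Finite (C ⧸ V.subgroupOf C) := Subgroup.quotient_finite_of_isOpen _ hO
  exact Subgroup.index_ne_zero_of_finite

/-- size 1.  Compact sets are covered by the increasing open sets `K n`. -/
theorem Tow.bdd {K : ℕ → Subgroup G} (T : Tow K) {C : Set G} (hC : IsCompact C) : ∃ n, C ⊆ (K n : Set G) := by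
  refine hC.elim_directed_cover (fun n => (K n : Set G)) T.opn ?_ ?_
  · intro x _
    obtain ⟨n, hn⟩ := T.top x
    exact Set.mem_iUnion.2 ⟨n, hn⟩
  · exact Monotone.directed_le fun m n hmn x hx => T.mono hmn hx

/-- size 1.  A closed subset of the compact `K n` is compact. -/
theorem Tow.cpt_of {K : ℕ → Subgroup G} (T : Tow K) {C : Set G} (hC : IsClosed C) {n : ℕ}
    (h : C ⊆ (K n : Set G)) : IsCompact C := by
  exact (T.cpt n).of_isClosed_subset hC h

end Pool.Agent.CTM
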