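import Pool.Agent.CTM.BasA
import Pool.Agent.CTM.BasB
import Pool.Agent.CTM.BasC

/-!
# CTM: case beta: no divisible sequence
-/

set_option autoImplicit false

namespace Pool.Agent.CTM

universe u

variable {G : Type u} [Group G] [TopologicalSpace G] [IsTopologicalGroup G] [T2Space G]

/-- the elements of `N` with `y ^ (q ^ e) ∈ K 0` for some `e` are bounded (for each prime `q`) -/
def Bd (K : ℕ → Subgroup G) (N : Subgroup G) : Prop :=
  ∀ q : ℕ, q.Prime → ∃ m, ∀ y ∈ N, ∀ e : ℕ, y ^ (q ^ e) ∈ K 0 → y ∈ K m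

theorem Bd.mono {K : ℕ → Subgroup G} {N N' : Subgroup G} (h : Bd K N) (hN : N' ≤ N) : Bd K N' := by
  intro q hq
  obtain ⟨m, hm⟩ := h q hq
  exact ⟨m, fun y hy e he => hm y (hN hy) e he⟩

private theorem Bta_pow {G : Type u} [Group G] {q : ℕ} {v : ℕ → G} (hv : ∀ i, v (i + 1) ^ q = v i) (i k : ℕ) :
    v (i + k) ^ (q ^ k) = v i := by
  induction k with
  | zero => simp
  | succ k ih =>
    rw [pow_succ', pow_mul, ← add_assoc, hv, ih]

private theorem Bta_comm {G : Type u} [Group G] {q : ℕ} {v : ℕ → G} (hv : ∀ i, v (i + 1) ^ q = v i) (i j : ℕ) :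
    v i * v j = v j * v i := by
  rcases le_total i j with h | h
  · obtain ⟨k, rfl⟩ := Nat.exists_eq_add_of_le h
    rw [← Bta_pow hv i k]
    exact (Commute.pow_self (v (i + k)) (q ^ k)).eq
  · obtain ⟨k, rfl⟩ := Nat.exists_eq_add_of_le h
    rw [← Bta_pow hv j k]
    exact (Commute.self_pow (v (j + k)) (q ^ k)).eq

private theorem Bta_coprime {G : Type u} [Group G] {K : Subgroup G} {y : G} {a b : ℕ} (h : Nat.Coprime a b)
    (ha : y ^ a ∈ K) (hb : y ^ b ∈ K) : y ∈ K := by
  have h1 : (1 : ℤ) = a * Nat.gcdA a b + b * Nat.gcdB a b := by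
    rw [← Nat.gcd_eq_gcd_ab, h.gcd_eq_one]; norm_num
  have h2 : y = (y ^ a) ^ (Nat.gcdA a b) * (y ^ b) ^ (Nat.gcdB a b) := by
    rw [← zpow_natCast y a, ← zpow_natCast y b, ← zpow_mul, ← zpow_mul, ← zpow_add, ← h1, zpow_one]
  rw [h2]
  exact K.mul_mem (K.zpow_mem ha _) (K.zpow_mem hb _)

/-- size 3.  PROOF.  The closed subgroup `H := cl ⟨v i : i⟩ ≤ N` is commutative (each `v i` is a power of `v (i+1)`; closures of commutative subgroups are commutative), so compact (`AB` with `C = ⊥`).  `H ⊓ K 0` has finite index in `H` (`relIndex_ne`): so there is `d ≥ 1` with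
`x ^ d ∈ K 0` for all `x ∈ H` (e.g. `d` = the index, `H` commutative: `Subgroup.pow_index_mem` in the group `H`).  Write `d = q ^ a * d'`, `q ∤ d'`.  `v 1 = v (a+1) ^ (q ^ a)`, `v (a+1) ^ (q ^ (a+1)) = v 0 ∈ K 0`, `v (a+1) ^ d ∈ K 0`; gcd `(q ^ (a+1), d) = q ^ a`: so
`v 1 = v (a+1) ^ (q ^ a) ∈ K 0`, contradiction. -/
theorem no_div {K : ℕ → Subgroup G} (T : Tow K) {q : ℕ} (hq : q.Prime) {v : ℕ → G} (hv : ∀ i, v (i + 1) ^ q = v i)
    (h0 : v 0 ∈ K 0) (h1 : v 1 ∉ K 0) : False := by
  classical
  have hcomm : ∀ x ∈ Subgroup.closure (Set.range v), ∀ y ∈ Subgroup.closure (Set.range v), x * y = y * x := by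
    intro x hx y hy
    induction hx, hy using Subgroup.closure_induction₂ with
    | mem x y hx hy =>
      obtain ⟨i, rfl⟩ := hx
      obtain ⟨j, rfl⟩ := hy
      exact Bta_comm hv i j
    | one_left x _ => simp
    | one_right x _ => simp
    | mul_left x y z _ _ _ h1 h2 => exact (Commute.mul_left (show Commute x z from h1) (show Commute y z from h2)).eq
    | mul_right x y z _ _ _ h1 h2 => exact (Commute.mul_right (show Commute z x from h1) (show Commute z y from h2)).eq
    | inv_left x y _ _ h1 => exact (Commute.inv_left (show Commute x y from h1)).eq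
    | inv_right x y _ _ h1 => exact (Commute.inv_right (show Commute x y from h1)).eq
  set H : Subgroup G := (Subgroup.closure (Set.range v)).topologicalClosure with hH
  have hcl : ∀ x ∈ H, ∀ y ∈ H, x * y = y * x := by
    intro x hx y hy
    have h1 : closure ((Subgroup.closure (Set.range v) : Subgroup G) : Set G) ⊆
        Set.centralizer ((Subgroup.closure (Set.range v) : Subgroup G) : Set G) := by
      apply closure_minimal
      · intro a ha b hb
        exact hcomm b hb a ha
      · exact Set.isClosed_centralizer _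
    have h2 : closure ((Subgroup.closure (Set.range v) : Subgroup G) : Set G) ⊆ Set.centralizer (H : Set G) := by
      apply closure_minimal
      · intro a ha b hb
        exact (h1 hb a ha).symm
      · exact Set.isClosed_centralizer _
    exact (h2 hx y hy).symm
  have hHc : IsClosed (H : Set G) := Subgroup.isClosed_topologicalClosure _
  have hHk : IsCompact (H : Set G) := by
    refine T.hyp.ab H ⊥ hHc ?_ bot_le ?_
    · rw [Subgroup.coe_bot]; exact isCompact_singleton
    · intro a ha b hb
      rw [Subgroup.mem_bot]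
      unfold cm
      have := hcl a ha b hb
      calc a⁻¹ * b⁻¹ * a * b = a⁻¹ * b⁻¹ * (a * b) := by group
        _ = 1 := by rw [this]; group
  have hd : (K 0).relIndex H ≠ 0 := relIndex_ne hHk (T.opn 0)
  set d := (K 0).relIndex H with hdd
  have hpow : ∀ x ∈ H, x ^ d ∈ K 0 := by
    intro x hx
    have : ((K 0).subgroupOf H).Normal := by
      constructor
      intro n hn g
      have h1 : g * n * g⁻¹ = n := by
        apply Subtype.ext
        have := hcl g.1 g.2 n.1 n.2
        push_cast
        rw [this]; group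
      rw [h1]; exact hn
    have h1 := Subgroup.pow_index_mem ((K 0).subgroupOf H) (⟨x, hx⟩ : H)
    rw [Subgroup.mem_subgroupOf] at h1
    exact h1
  obtain ⟨a, d', hd', hdq⟩ := Nat.exists_eq_pow_mul_and_not_dvd hd q hq.ne_one
  have hmem : v (1 + a) ∈ H := Subgroup.le_topologicalClosure _ (Subgroup.subset_closure ⟨_, rfl⟩)
  have h2 : v 1 ^ d' ∈ K 0 := by
    have := hpow _ hmem
    rw [hdq, pow_mul, Bta_pow hv] at this
    exact this
  have h3 : v 1 ^ q ∈ K 0 := by
    rw [hv 0]; exact h0
  have hco : Nat.Coprime q d' := (Nat.Prime.coprime_iff_not_dvd hq).2 hd'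
  exact h1 (Bta_coprime hco h3 h2)

end Pool.Agent.CTM
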