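import Pool.Agent.CTM.BasA
import Pool.Agent.CTM.BasB

/-!
# CTM: finitely generated subgroups have compact closure
-/

set_option autoImplicit false

namespace Pool.Agent.CTM

universe u

variable {G : Type u} [Group G] [TopologicalSpace G] [IsTopologicalGroup G] [T2Space G]

/-- size 2.  PROOF.  By induction on `n` for all subgroups `S` of `G` with `derivedSeries S n = ⊥`.  `n = 0`: `S` is trivial, `closure {1} = {1}`.  Step: `S' := ⁅S, S⁆ ≤ S` (a subgroup
of `G`; isomorphic to `commutator S`), has `derivedSeries S' n = ⊥` (or use any induction principle; e.g. prove it for the subgroups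
`(derivedSeries S k).map S.subtype`, by descending induction on `k`: the closure of the `k`-th one is compact if the closure of the `k+1`-st one is).  `A = closure of S`,
`C = closure of S'` is compact; `cm a b ∈ C` for `a b ∈ A` (`cm_closure`, `cm_mem_comm`).  `AB`. -/
theorem cpt_of_solvable (h : AB G) (S : Subgroup G) (hS : Group.IsSolvable S) :
    IsCompact (S.topologicalClosure : Set G) := by
  obtain ⟨n, hn⟩ := hS.solvable
  have key : ∀ j : ℕ, j ≤ n →
      IsCompact (((((derivedSeries S (n - j)).map S.subtype).topologicalClosure : Subgroup G)) : Set G) := by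
    intro j
    induction j with
    | zero =>
      intro _
      rw [Nat.sub_zero, hn, Subgroup.map_bot]
      have : ((⊥ : Subgroup G).topologicalClosure : Set G) = {1} := by
        rw [Subgroup.topologicalClosure_coe, Subgroup.coe_bot, isClosed_singleton.closure_eq]
      rw [this]
      exact isCompact_singleton
    | succ j ih =>
      intro hj
      have hk : n - j = (n - (j + 1)) + 1 := by omega
      have hc := ih (by omega)
      rw [hk] at hc
      refine h _ _ (Subgroup.isClosed_topologicalClosure _) hc ?_ ?_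
      · apply Subgroup.topologicalClosure_minimal _ _ (Subgroup.isClosed_topologicalClosure _)
        refine le_trans ?_ (Subgroup.le_topologicalClosure _)
        exact Subgroup.map_mono (derivedSeries_antitone S (Nat.le_succ _))
      · have := cm_closure (S := (((derivedSeries S (n - (j + 1))).map S.subtype : Subgroup G) : Set G))
          (S' := (((derivedSeries S (n - (j + 1))).map S.subtype : Subgroup G) : Set G))
          (Z := ((((derivedSeries S (n - (j + 1) + 1)).map S.subtype).topologicalClosure : Subgroup G) : Set G))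
          (Subgroup.isClosed_topologicalClosure _) (by
            intro x hx y hy
            apply Subgroup.le_topologicalClosure
            rw [derivedSeries_succ, Subgroup.map_commutator]
            exact cm_mem_comm hx hy)
        intro a ha b hb
        exact this a ha b hb
  have h0 := key n le_rfl
  rw [Nat.sub_self, derivedSeries_zero] at h0
  have e : (⊤ : Subgroup S).map S.subtype = S := by
    rw [← MonoidHom.range_eq_map, Subgroup.range_subtype]
  rwa [e] at h0

/-- size 1.  `cl ⟨x⟩` is compact (`⟨x⟩` is commutative, so solvable). -/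
theorem cpt_zpowers (h : AB G) (x : G) : IsCompact ((Subgroup.zpowers x).topologicalClosure : Set G) := by
  apply cpt_of_solvable h
  refine Group.isSolvable_of_comm ?_
  rintro ⟨a, ha⟩ ⟨b, hb⟩
  obtain ⟨i, rfl⟩ := Subgroup.mem_zpowers_iff.1 ha
  obtain ⟨j, rfl⟩ := Subgroup.mem_zpowers_iff.1 hb
  apply Subtype.ext
  simp only [Subgroup.coe_mul]
  exact (Commute.refl x).zpow_zpow i j

/-- size 3.  PROOF.  `Q := U g U ∪ U g⁻¹ U ∪ U` is a compact symmetric set with `u q u' ∈ Q` for `q ∈ Q`, `u u' ∈ U`, so `Q ⊆ ⋃ s ∈ T, s U` with `T ⊆ Q` finite (`finite_cover`).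
`S := Subgroup.closure T`, finitely generated, solvable by `hs`, so `C := S.topologicalClosure` is compact.  Let `U' := closure (U ∪ {g})`.  CLAIM: every `x ∈ U'` is `w * u` with
`w ∈ S`, `u ∈ U`.  First: `u w ∈ S U` for `u ∈ U`, `w ∈ S`: by induction on `w` (`Subgroup.closure_induction_left`): `w = s^(±1) w'` with `s ∈ T`: `s^(±1) ∈ Q`, so `u s^(±1) ∈ Q`,
`u s^(±1) = s' u'`, `s' ∈ T`, `u' ∈ U`, and `u' w' ∈ S U` by induction.  Then for `x = w * u`: `u₁ x = (u₁ w) u ∈ S U`, and `g^(±1) x`: `g^(±1) = s u₁` (`g^(±1) ∈ Q`), so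
`g^(±1) w u = s (u₁ w) u ∈ S U`.  So `U' ⊆ S U ⊆ C U`, compact; `U'` is an open subgroup, so closed, so compact. -/
theorem cpt_adjoin (h : AB G) (hs : IsLocallySolvable G) {U : Subgroup G} (hUo : IsOpen (U : Set G))
    (hUc : IsCompact (U : Set G)) (g : G) :
    ∃ U' : Subgroup G, IsOpen (U' : Set G) ∧ IsCompact (U' : Set G) ∧ U ≤ U' ∧ g ∈ U' := by
  classical
  set Q : Set G := (fun q : G × G => q.1 * g * q.2) '' ((U : Set G) ×ˢ (U : Set G)) ∪
    (fun q : G × G => q.1 * g⁻¹ * q.2) '' ((U : Set G) ×ˢ (U : Set G)) ∪ (U : Set G) with hQ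
  have hQc : IsCompact Q := by
    refine ((IsCompact.image (hUc.prod hUc) ?_).union (IsCompact.image (hUc.prod hUc) ?_)).union hUc
    · fun_prop
    · fun_prop
  have hgQ : g ∈ Q := Or.inl (Or.inl ⟨(1, 1), ⟨U.one_mem, U.one_mem⟩, by simp⟩)
  have hgiQ : g⁻¹ ∈ Q := Or.inl (Or.inr ⟨(1, 1), ⟨U.one_mem, U.one_mem⟩, by simp⟩)
  have hQinv : ∀ x ∈ Q, x⁻¹ ∈ Q := by
    rintro x ((⟨⟨a, b⟩, ⟨ha, hb⟩, rfl⟩ | ⟨⟨a, b⟩, ⟨ha, hb⟩, rfl⟩) | hx)
    · exact Or.inl (Or.inr ⟨(b⁻¹, a⁻¹), ⟨U.inv_mem hb, U.inv_mem ha⟩, by simp [mul_assoc]⟩)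
    · exact Or.inl (Or.inl ⟨(b⁻¹, a⁻¹), ⟨U.inv_mem hb, U.inv_mem ha⟩, by simp [mul_assoc]⟩)
    · exact Or.inr (U.inv_mem hx)
  have hQl : ∀ x ∈ Q, ∀ u ∈ U, u * x ∈ Q := by
    rintro x ((⟨⟨a, b⟩, ⟨ha, hb⟩, rfl⟩ | ⟨⟨a, b⟩, ⟨ha, hb⟩, rfl⟩) | hx) u hu
    · exact Or.inl (Or.inl ⟨(u * a, b), ⟨U.mul_mem hu ha, hb⟩, by simp [mul_assoc]⟩)
    · exact Or.inl (Or.inr ⟨(u * a, b), ⟨U.mul_mem hu ha, hb⟩, by simp [mul_assoc]⟩)
    · exact Or.inr (U.mul_mem hu hx)
  have hQr : ∀ x ∈ Q, ∀ u ∈ U, x * u ∈ Q := by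
    intro x hx u hu
    have := hQinv _ (hQl _ (hQinv x hx) u⁻¹ (U.inv_mem hu))
    rwa [mul_inv_rev, inv_inv, inv_inv] at this
  obtain ⟨T, hTQ, hT⟩ := finite_cover hQc hUo
  set S : Subgroup G := Subgroup.closure (T : Set G) with hS
  have hSfg : S.FG := ⟨T, rfl⟩
  have hCc : IsCompact (S.topologicalClosure : Set G) := cpt_of_solvable h S (hs S hSfg)
  -- elements of Q are products
  have hQS : ∀ x ∈ Q, ∃ s ∈ S, ∃ u ∈ U, x = s * u := by
    intro x hx
    obtain ⟨t, ht, htx⟩ := hT x hx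
    exact ⟨t, Subgroup.subset_closure ht, _, htx, by simp⟩
  have claim : ∀ w ∈ S, ∀ u ∈ U, ∃ s ∈ S, ∃ u' ∈ U, u * w = s * u' := by
    intro w hw
    have hw' : w ∈ Subgroup.closure (T : Set G) := hw
    induction hw' using Subgroup.closure_induction_left with
    | one => 
      intro u hu
      exact ⟨1, S.one_mem, u, hu, by simp⟩
    | mul_left x hx y hy ih =>
      intro u hu
      obtain ⟨s, hs1, u1, hu1, e1⟩ := hQS _ (hQl x (hTQ x hx) u hu)
      obtain ⟨s2, hs2, u2, hu2, e2⟩ := ih hy u1 hu1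
      exact ⟨s * s2, S.mul_mem hs1 hs2, u2, hu2, by
        rw [← mul_assoc, e1, mul_assoc, e2, mul_assoc]⟩
    | inv_mul_cancel x hx y hy ih =>
      intro u hu
      obtain ⟨s, hs1, u1, hu1, e1⟩ := hQS _ (hQl _ (hQinv x (hTQ x hx)) u hu)
      obtain ⟨s2, hs2, u2, hu2, e2⟩ := ih hy u1 hu1
      exact ⟨s * s2, S.mul_mem hs1 hs2, u2, hu2, by
        rw [← mul_assoc, e1, mul_assoc, e2, mul_assoc]⟩
  set U' : Subgroup G := Subgroup.closure ((U : Set G) ∪ {g}) with hU'
  have hUU' : U ≤ U' := fun u hu => Subgroup.subset_closure (Or.inl hu)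
  have hgU' : g ∈ U' := Subgroup.subset_closure (Or.inr rfl)
  have main : ∀ x ∈ U', ∃ s ∈ S, ∃ u ∈ U, x = s * u := by
    intro x hx
    have hx' : x ∈ Subgroup.closure ((U : Set G) ∪ {g}) := hx
    clear hx
    induction hx' using Subgroup.closure_induction_left with
    | one => exact ⟨1, S.one_mem, 1, U.one_mem, by simp⟩
    | mul_left x hx y hy ih =>
      obtain ⟨s, hs1, u, hu, e⟩ := ih
      rcases hx with hx | hx
      · obtain ⟨s2, hs2, u2, hu2, e2⟩ := claim s hs1 x hx
        exact ⟨s2, hs2, u2 * u, U.mul_mem hu2 hu, by rw [e, ← mul_assoc, e2, mul_assoc]⟩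
      · rw [Set.mem_singleton_iff] at hx
        subst hx
        obtain ⟨s1, hs1', u1, hu1, e1⟩ := hQS _ hgQ
        obtain ⟨s2, hs2, u2, hu2, e2⟩ := claim s hs1 u1 hu1
        exact ⟨s1 * s2, S.mul_mem hs1' hs2, u2 * u, U.mul_mem hu2 hu, by
          calc x * y = s1 * u1 * (s * u) := by rw [← e1, e]
            _ = s1 * (u1 * s) * u := by group
            _ = s1 * s2 * (u2 * u) := by rw [e2]; group⟩
    | inv_mul_cancel x hx y hy ih =>
      obtain ⟨s, hs1, u, hu, e⟩ := ih
      rcases hx with hx | hx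
      · obtain ⟨s2, hs2, u2, hu2, e2⟩ := claim s hs1 x⁻¹ (U.inv_mem hx)
        exact ⟨s2, hs2, u2 * u, U.mul_mem hu2 hu, by rw [e, ← mul_assoc, e2, mul_assoc]⟩
      · rw [Set.mem_singleton_iff] at hx
        subst hx
        obtain ⟨s1, hs1', u1, hu1, e1⟩ := hQS _ hgiQ
        obtain ⟨s2, hs2, u2, hu2, e2⟩ := claim s hs1 u1 hu1
        exact ⟨s1 * s2, S.mul_mem hs1' hs2, u2 * u, U.mul_mem hu2 hu, by
          calc x⁻¹ * y = s1 * u1 * (s * u) := by rw [← e1, e]
            _ = s1 * (u1 * s) * u := by group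
            _ = s1 * s2 * (u2 * u) := by rw [e2]; group⟩
  have hU'o : IsOpen (U' : Set G) := Subgroup.isOpen_mono hUU' hUo
  have hU'c : IsClosed (U' : Set G) := U'.isClosed_of_isOpen hU'o
  refine ⟨U', hU'o, ?_, hUU', hgU'⟩
  refine IsCompact.of_isClosed_subset (hCc.mul hUc) hU'c ?_
  intro x hx
  obtain ⟨s, hs1, u, hu, e⟩ := main x hx
  rw [e]
  exact Set.mul_mem_mul (Subgroup.le_topologicalClosure _ hs1) hu

end Pool.Agent.CTM
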