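import Pool.Agent.CTM.SyG
import Pool.Agent.CTM.Bta
import Pool.Agent.CTM.Ell

/-!
# CTM: far pro-`q` subgroups
-/

set_option autoImplicit false

namespace Pool.Agent.CTM

universe u

variable {G : Type u} [Group G] [TopologicalSpace G] [IsTopologicalGroup G] [T2Space G]

/-- size 1.  `Pp.pow` with `W = K 0`. -/
theorem Bd.le {K : ℕ → Subgroup G} (T : Tow K) {N : Subgroup G} (h : Bd K N) {q : ℕ} (hq : q.Prime) :
    ∃ m, ∀ Q : Subgroup G, Q ≤ N → Pp {q} Q → Q ≤ K m := by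
  obtain ⟨m, hm⟩ := h q hq
  refine ⟨m, fun Q hQ hPp x hx => ?_⟩
  obtain ⟨e, he⟩ := Pp.pow hPp (T.opn 0) hx
  exact hm x (hQ hx) e he

/-- size 3.  PROOF.  `m₁ ≥ m` and `≥` the bounds of `Bd.le` for the primes in `F` (finite).  `Y` is closed and not compact, so there is `y ∈ Y`, `y ∉ K m₁` (`Tow.cpt_of`).  `D := cl ⟨y⟩ ≤ Y` compact (`cpt_zpowers`), commutative.  `D ⊓ K m₁` has finite index `d` in `D`, `d ≠ 1` as `y ∉ K m₁`.  Let `q` be a prime divisor of `d` and `P` a Sylow `q`-subgroup of `D` (`exists_syl`).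
If `P ≤ K m₁` then, with `W ≤ K m₁` open normalised by `D` (`core_exists`; or `K m₁` itself is normalised by ... take `Δ := K m₁ ⊓ D`, `IsSyl.ndvd'`), `q ∤ [D : K m₁ ⊓ D] = d`: contradiction.  So `¬ P ≤ K m₁`, so `¬ P ≤ K m` and `q ∉ F`. -/
theorem far_q {K : ℕ → Subgroup G} (T : Tow K) {N Y : Subgroup G} (h : Bd K N) (hYN : Y ≤ N)
    (hY : IsClosed (Y : Set G)) (hnc : ¬ IsCompact (Y : Set G)) (F : Finset ℕ) (m : ℕ) :
    ∃ q : ℕ, q.Prime ∧ q ∉ F ∧ ∃ P : Subgroup G, P ≤ Y ∧ Pp {q} P ∧ ¬ P ≤ K m := by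
  classical
  -- a common bound for the primes in `F`
  have hF : ∀ q : ℕ, ∃ b : ℕ, q.Prime → ∀ Q : Subgroup G, Q ≤ N → Pp {q} Q → Q ≤ K b := by
    intro q
    by_cases hq : q.Prime
    · obtain ⟨b, hb⟩ := Bd.le T h hq
      exact ⟨b, fun _ => hb⟩
    · exact ⟨0, fun h' => absurd h' hq⟩
  choose b hb using hF
  let m₁ : ℕ := max m (F.sup b)
  have hm₁ : m ≤ m₁ := le_max_left _ _
  have hbF : ∀ q ∈ F, b q ≤ m₁ := fun q hq => le_trans (Finset.le_sup hq) (le_max_right _ _)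
  -- an element of `Y` outside of `K m₁`
  have hne : ¬ (Y : Set G) ⊆ (K m₁ : Set G) := fun hsub => hnc (T.cpt_of hY hsub)
  obtain ⟨y, hyY, hyK⟩ := Set.not_subset.1 hne
  have hDc : IsCompact ((Subgroup.zpowers y).topologicalClosure : Set G) := cpt_zpowers T.hyp.ab y
  set D : Subgroup G := (Subgroup.zpowers y).topologicalClosure with hD
  have hyD : y ∈ D := (Subgroup.zpowers y).le_topologicalClosure (Subgroup.mem_zpowers y)
  have hDY : D ≤ Y := (Subgroup.zpowers y).topologicalClosure_minimal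
    ((Subgroup.zpowers_le).2 hyY) hY
  have hd0 : (K m₁).relIndex D ≠ 0 := relIndex_ne hDc (T.opn m₁)
  have hd1 : (K m₁).relIndex D ≠ 1 := by
    intro h1
    rw [Subgroup.relIndex_eq_one] at h1
    exact hyK (h1 hyD)
  obtain ⟨q, hq, hqd⟩ := Nat.exists_prime_and_dvd hd1
  obtain ⟨P, hP⟩ := exists_syl hDc hq
  have hPK : ¬ P ≤ K m₁ := by
    intro hle
    obtain ⟨W, hWo, hWK, hWn⟩ := core_exists hDc (T.opn m₁)
    have key := IsSyl.ndvd' (Δ := K m₁ ⊓ D) hP hWo hWn (le_inf hle hP.le)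
      (inf_le_inf_right D hWK)
    rw [Subgroup.inf_relIndex_right] at key
    exact key hqd
  refine ⟨q, hq, ?_, P, hP.le.trans hDY, hP.pp, fun hle => hPK (hle.trans (T.mono hm₁))⟩
  intro hqF
  exact hPK ((hb q hq P (hP.le.trans (hDY.trans hYN)) hP.pp).trans (T.mono (hbF q hqF)))

end Pool.Agent.CTM
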