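import Pool.Agent.CTM.SyA

/-!
# CTM: products and conjugates of pro-`π` subgroups
-/

set_option autoImplicit false

namespace Pool.Agent.CTM

universe u

variable {G : Type u} [Group G] [TopologicalSpace G]

variable [IsTopologicalGroup G]

private theorem nrm_sub {D W : Subgroup G} (h : Nm D W) : (W.subgroupOf D).Normal := by
  refine ⟨fun n hn g => ?_⟩
  rw [Subgroup.mem_subgroupOf] at hn ⊢
  have h1 := h _ (D.inv_mem g.2) _ hn
  simpa [cj] using h1

/-- size 3.  PROOF.  `M' ⊔ M` (products, `mem_sup_nm`) is compact.  Let `W` be open, normalised by `M' ⊔ M` (`pp_of_nm`).  In the finite group `Q = (M' ⊔ M) ⧸ W.subgroupOf _` of order `W.relIndex (M' ⊔ M)` the image of `M'` is normal of order `W.relIndex M'`, and the quotient by it is an image of `M`, of order dividing `W.relIndex M`.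
(Or: `W.relIndex (M' ⊔ M) = (W ⊓ _ ⊔ M').relIndex (M' ⊔ M) * W.relIndex M'`, and `(W ⊓ (M' ⊔ M) ⊔ M').relIndex (M' ⊔ M)` divides `W.relIndex M`.) -/
theorem Pp.sup {π : Set ℕ} {M' M : Subgroup G} (h' : Pp π M') (h : Pp π M) (hn : Nm M M') : Pp π (M' ⊔ M) := by
  have hD : IsCompact ((M' ⊔ M : Subgroup G) : Set G) := cpt_sup h'.1 h.1 hn
  refine pp_of_nm hD fun W hW hnW r hr hd => ?_
  set D : Subgroup G := M' ⊔ M with hDdef
  have hA : M' ≤ D := le_sup_left
  have hB : M ≤ D := le_sup_right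
  have hnA : Nm D M' := nm_sup_left (nm_self M') hn
  have n1 : (W.subgroupOf D).Normal := nrm_sub hnW
  have n2 : (M'.subgroupOf D).Normal := nrm_sub hnA
  have htop : M'.subgroupOf D ⊔ M.subgroupOf D = ⊤ := by
    rw [← Subgroup.subgroupOf_sup hA hB, ← hDdef, Subgroup.subgroupOf_self]
  have e0 : (W.subgroupOf D).index = W.relIndex D := rfl
  have e1 : (W.subgroupOf D).relIndex (W.subgroupOf D ⊔ M'.subgroupOf D) *
      (W.subgroupOf D ⊔ M'.subgroupOf D).index = W.relIndex D := by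
    rw [Subgroup.relIndex_mul_index le_sup_left, e0]
  rw [← e1, hr.dvd_mul] at hd
  rcases hd with hd | hd
  · rw [Subgroup.relIndex_sup_left, Subgroup.relIndex_subgroupOf hA] at hd
    exact h'.2 W hW r hr hd
  · have e2 : (W.subgroupOf D ⊔ M'.subgroupOf D).index =
        (W.subgroupOf D ⊔ M'.subgroupOf D).relIndex (M.subgroupOf D) := by
      have n3 : (W.subgroupOf D ⊔ M'.subgroupOf D).Normal := inferInstance
      rw [← Subgroup.relIndex_sup_left (M.subgroupOf D) (W.subgroupOf D ⊔ M'.subgroupOf D), sup_assoc, htop,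
        sup_top_eq, Subgroup.relIndex_top_right]
    rw [e2] at hd
    have e3 := Subgroup.relIndex_dvd_of_le_left (M.subgroupOf D)
      (le_sup_left : W.subgroupOf D ≤ W.subgroupOf D ⊔ M'.subgroupOf D)
    rw [Subgroup.relIndex_subgroupOf hB] at e3
    exact h.2 W hW r hr (hd.trans e3)

/-- size 1.  Conjugates (conjugation is an automorphism and a homeomorphism). -/
theorem Pp.cj {π : Set ℕ} {M : Subgroup G} (h : Pp π M) (g : G) : Pp π (cjS M g) := by
  refine ⟨cjS_compact h.1 g, fun W hW r hr hd => ?_⟩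
  have e1 : W = cjS (cjS W g⁻¹) g := by
    ext x
    rw [mem_cjS, mem_cjS]
    have : g⁻¹ * (g * x * g⁻¹) * g⁻¹⁻¹ = x := by group
    rw [this]
  have e2 : W.relIndex (cjS M g) = (cjS W g⁻¹).relIndex M := by
    conv_lhs => rw [e1]
    unfold cjS
    rw [Subgroup.relIndex_comap, Subgroup.map_comap_eq_self_of_surjective (MulAut.conj g).surjective]
  rw [e2] at hd
  exact h.2 _ (cjS_open hW g⁻¹) r hr hd

/-- size 2.  PROOF.  `Δ.relIndex M ∣ Δ.relIndex C`, since `Δ ⊓ C` is normal in `C` (Lagrange in the quotient `C ⧸ Δ.subgroupOf C`), and `Δ.relIndex M` divides `W.relIndex M` (as `W ⊓ M ≤ Δ`), a power of `q` (`relIndex_eq`).  So `Δ.relIndex M = 1`. -/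
theorem Pp.le_of_coprime {q : ℕ} (hq : q.Prime) {M C Δ W : Subgroup G} (h : Pp {q} M) (hMC : M ≤ C)
    (hW : IsOpen (W : Set G)) (hWΔ : W ⊓ C ≤ Δ) (hn : Nm C Δ) (hi : ¬ q ∣ Δ.relIndex C) : M ≤ Δ := by
  have n1 : (Δ.subgroupOf C).Normal := nrm_sub hn
  have d1 : Δ.relIndex M ∣ Δ.relIndex C := by
    have h1 := Subgroup.relIndex_dvd_index_of_normal (Δ.subgroupOf C) (M.subgroupOf C)
    rwa [Subgroup.relIndex_subgroupOf hMC] at h1
  have d2 : Δ.relIndex M ∣ W.relIndex M := by
    have h1 := Subgroup.relIndex_dvd_of_le_left M hWΔ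
    have h2 : (W ⊓ C).relIndex M = W.relIndex M := by
      rw [← Subgroup.inf_relIndex_right (W ⊓ C) M, ← Subgroup.inf_relIndex_right W M, inf_assoc,
        inf_eq_right.2 hMC]
    rwa [h2] at h1
  obtain ⟨e, he⟩ := h.relIndex_eq hW
  rw [he] at d2
  obtain ⟨k, -, hk⟩ := (Nat.dvd_prime_pow hq).1 d2
  have hk0 : k = 0 := by
    by_contra hne
    apply hi
    rw [hk] at d1
    exact (dvd_pow_self q hne).trans d1
  rw [hk0, pow_zero] at hk
  exact Subgroup.relIndex_eq_one.1 hk

end Pool.Agent.CTM
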