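import Pool.Agent.CTM.LmC
import Pool.Agent.CTM.ZmA
import Pool.Agent.CTM.Far
import Pool.Agent.CTM.SyH

/-!
# CTM: case beta gives `(*)`
-/

set_option autoImplicit false

namespace Pool.Agent.CTM

universe u

variable {G : Type u} [Group G] [TopologicalSpace G] [IsTopologicalGroup G] [T2Space G]

/-- size 3.  PROOF.  Given `r x _ W V _ _ l`.  For `h < r` take `i h`, `a h ∈ A (i h)` with `(x h)⁻¹ * a h ∈ W` (`R.dn`); `i := sup`, `a h ∈ A i`.  `lemC` for `i`, `W`: `l'`, `V₀`.  `V₀' ≤ V₀` open normalised by `K l'`, `V' ≤ V` open normalised by `K l` (`core_exists`).  `F` := prime factors of `V₀'.relIndex (K l')` and of `V'.relIndex (K l)` (both `≠ 0`, `relIndex_ne`) and the `p j`, `j < i`.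
`far_q` for `Y = N`: `q ∉ F`, `M ≤ N` pro-`q`, `¬ M ≤ K (max l l')`; `z ∈ M`, `z ∉ K (max l l')`.  `M ⊓ K l'` is pro-`q` (`Pp.le`), so `≤ V₀'` (`Pp.le_of_coprime` with `C = K l'`, `Δ = W = V₀'`... `V₀' ⊓ C ≤ Δ`); `M ⊓ K l ≤ V'` similarly.  `n` := least `n ≥ 1` with `z ^ n ∈ K l` (exists: `Pp.pow`).  `z ^ n ∈ M ⊓ K l ≤ V`.  `lemC`: `u h ∈ A i` with `cm (u h) m = 1` for `m ∈ M`,
`a h = u h * w`, `w ∈ W`: `(x h)⁻¹ * u h ∈ W`, `cj (u h) (z ^ j) = u h`. -/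
theorem star_of_rt {K : ℕ → Subgroup G} (T : Tow K) {H N : Subgroup G} {p : ℕ → ℕ} {A : ℕ → Subgroup G}
    (R : Rt K H N p A) : StarP K N := by
  classical
  intro r x hx W V hW hV l
  have h1 : ∀ h, ∃ i, ∃ a, h < r → (a ∈ A i ∧ (x h)⁻¹ * a ∈ W) := by
    intro h
    by_cases hh : h < r
    · obtain ⟨i, a, ha, hw⟩ := R.dn (x h) (hx h hh) W hW
      exact ⟨i, a, fun _ => ⟨ha, hw⟩⟩
    · exact ⟨0, 1, fun h' => absurd h' hh⟩
  choose i a hia using h1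
  obtain ⟨l', V₀, hV₀, hC⟩ := lemC T R ((Finset.range r).sup i) hW
  obtain ⟨V₁, hV₁, hV₁₀, hn₁⟩ := core_exists (T.cpt l') hV₀
  obtain ⟨V₂, hV₂, hV₂₀, hn₂⟩ := core_exists (T.cpt l) hV
  obtain ⟨q, hq, hqF, M, hMN, hM, hMK⟩ := far_q T R.bd (le_refl N) R.min.cl R.min.nc
    ((V₁.relIndex (K l')).primeFactors ∪ (V₂.relIndex (K l)).primeFactors ∪
      (Finset.range ((Finset.range r).sup i)).image p) (max l l')
  rw [Finset.mem_union, Finset.mem_union] at hqF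
  push Not at hqF
  obtain ⟨⟨hq1, hq2⟩, hq3⟩ := hqF
  have hMcl : IsClosed (M : Set G) := hM.1.isClosed
  have hKcl : ∀ n, IsClosed (K n : Set G) := fun n => (T.cpt n).isClosed
  have hin : ∀ n, ∀ V' : Subgroup G, IsOpen (V' : Set G) → Nm (K n) V' →
      q ∉ (V'.relIndex (K n)).primeFactors → M ⊓ K n ≤ V' := by
    intro n V' hV' hn hqn
    have hpp : Pp {q} (M ⊓ K n) := hM.le (by
      rw [Subgroup.coe_inf]; exact hMcl.inter (hKcl n)) inf_le_left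
    refine Pp.le_of_coprime hq hpp inf_le_right hV' inf_le_left hn ?_
    intro hd
    exact hqn (Nat.mem_primeFactors.2 ⟨hq, hd, relIndex_ne (T.cpt n) hV'⟩)
  have hM1 : M ⊓ K l' ≤ V₀ := (hin l' V₁ hV₁ hn₁ hq1).trans hV₁₀
  have hM2 : M ⊓ K l ≤ V := (hin l V₂ hV₂ hn₂ hq2).trans hV₂₀
  obtain ⟨z, hzM, hzK⟩ := SetLike.not_le_iff_exists.1 hMK
  have hzl : z ∉ K l := fun h => hzK (T.mono (le_max_left l l') h)
  have hex : ∃ n : ℕ, 1 ≤ n ∧ z ^ n ∈ K l := by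
    obtain ⟨e, he⟩ := hM.pow (T.opn l) hzM
    exact ⟨q ^ e, Nat.one_le_pow _ _ hq.pos, he⟩
  have h2 : ∀ h, ∃ u, h < r → (u ∈ N ∧ (x h)⁻¹ * u ∈ W ∧ ∀ m ∈ M, cm u m = 1) := by
    intro h
    by_cases hh : h < r
    · obtain ⟨ha, hw⟩ := hia h hh
      have ha' : a h ∈ A ((Finset.range r).sup i) :=
        R.mono (Finset.le_sup (f := i) (Finset.mem_range.2 hh)) ha
      obtain ⟨u, hu, hum, w, hw', hau⟩ := hC q hq (fun j hj hqj => hq3 (Finset.mem_image.2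
        ⟨j, Finset.mem_range.2 hj, hqj.symm⟩)) M hMN hM hM1 (a h) ha'
      refine ⟨u, fun _ => ⟨R.le _ hu, ?_, hum⟩⟩
      have : (x h)⁻¹ * u = ((x h)⁻¹ * a h) * w⁻¹ := by rw [hau]; group
      rw [this]
      exact W.mul_mem hw (W.inv_mem hw')
    · exact ⟨1, fun h' => absurd h' hh⟩
  choose u hu using h2
  refine ⟨z, hMN hzM, hzl, Nat.find hex, (Nat.find_spec hex).1, hM2 ⟨M.pow_mem hzM _, (Nat.find_spec hex).2⟩,
    ?_, u, ?_⟩
  · intro j hj0 hjn hjK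
    exact Nat.find_min hex hjn ⟨hj0, hjK⟩
  · intro h hh
    obtain ⟨hu1, hu2, hu3⟩ := hu h hh
    refine ⟨hu1, hu2, ?_⟩
    intro j _
    rw [← cm_eq, hu3 _ (M.pow_mem hzM j)]
    exact V.one_mem

end Pool.Agent.CTM
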