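import Pool.Agent.CTM.Mnp

/-!
# CTM: the family `Cg`
-/

set_option autoImplicit false

namespace Pool.Agent.CTM

universe u

variable {G : Type u} [Group G] [TopologicalSpace G] [IsTopologicalGroup G] [T2Space G]

/-- the elements `y` of `N` with `[x, y] ∈ D` for all `x ∈ R` (`D` normalised by `N`) -/
private def cgS {G : Type u} [Group G] (R N D : Subgroup G) (hD : Nm N D) : Subgroup G where
  carrier := {y | y ∈ N ∧ ∀ x ∈ R, cm x y ∈ D}
  mul_mem' := by
    rintro y z ⟨hy, hy'⟩ ⟨hz, hz'⟩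
    refine ⟨N.mul_mem hy hz, fun x hx => ?_⟩
    have e : cm x (y * z) = cm x z * cj (cm x y) z := by
      unfold cm cj; group
    rw [e]
    exact D.mul_mem (hz' x hx) (hD z hz _ (hy' x hx))
  one_mem' := by
    refine ⟨N.one_mem, fun x _ => ?_⟩
    have e : cm x (1 : G) = 1 := by
      unfold cm; group
    rw [e]; exact D.one_mem
  inv_mem' := by
    rintro y ⟨hy, hy'⟩
    refine ⟨N.inv_mem hy, fun x hx => ?_⟩
    have e : cm x y⁻¹ = cj ((cm x y)⁻¹) y⁻¹ := by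
      unfold cm cj; group
    rw [e]
    exact hD y⁻¹ (N.inv_mem hy) _ (D.inv_mem (hy' x hx))

private theorem hall_witt {G : Type u} [Group G] (x a b : G) :
    cj (cm (cm x a⁻¹) b) a * cj (cm (cm a b⁻¹) x) b * cj (cm (cm b x⁻¹) a) x = 1 := by
  unfold cm cj; group

private theorem three_sub {G : Type u} [Group G] {R N C D : Subgroup G} (hRN : R ≤ N) (hD : Nm N D)
    (hC : (⁅R, N⁆ : Subgroup G) ≤ C) (hCD : (⁅C, N⁆ : Subgroup G) ≤ D) {x a b : G} (hx : x ∈ R) (ha : a ∈ N)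
    (hb : b ∈ N) : cm x (cm a b) ∈ D := by
  have hw := hall_witt x a b⁻¹
  have h1 : cj (cm (cm x a⁻¹) b⁻¹) a ∈ D :=
    hD a ha _ (hCD (cm_mem_comm (hC (cm_mem_comm hx (N.inv_mem ha))) (N.inv_mem hb)))
  have h3' : cm b⁻¹ x⁻¹ ∈ C := by
    rw [← cm_inv]
    exact C.inv_mem (hC (cm_mem_comm (R.inv_mem hx) (N.inv_mem hb)))
  have h3 : cj (cm (cm b⁻¹ x⁻¹) a) x ∈ D := hD x (hRN hx) _ (hCD (cm_mem_comm h3' ha))
  have h2 : cj (cm (cm a b⁻¹⁻¹) x) b⁻¹ ∈ D := by
    have e : cj (cm (cm a b⁻¹⁻¹) x) b⁻¹ =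
        (cj (cm (cm x a⁻¹) b⁻¹) a)⁻¹ * (cj (cm (cm b⁻¹ x⁻¹) a) x)⁻¹ := by
      rw [mul_assoc] at hw
      have := eq_inv_of_mul_eq_one_right hw
      exact eq_mul_inv_of_mul_eq this
    rw [e]
    exact D.mul_mem (D.inv_mem h1) (D.inv_mem h3)
  rw [inv_inv] at h2
  have h4 := hD b hb _ h2
  have e2 : cj (cj (cm (cm a b) x) b⁻¹) b = cm (cm a b) x := by
    unfold cj; group
  rw [e2] at h4
  rw [← cm_inv]
  exact D.inv_mem h4

/-- size 3.  PROOF.  `c := cl ⁅R, N⁆ ≤ R` (`comm_le_left`), compact, normalised by `A`.  `D := cl ⁅c, N⁆`, closed, normalised by `A`.  Three subgroups lemma modulo `D` (Mathlib: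
`Subgroup.commutator_commutator_eq_bot_of_rotate`; apply it in the quotient of `N` (or of `A`) by `D`, or prove directly with the Hall-Witt identity for a subgroup normalised by `N`):
`⁅⁅R, N⁆, N⁆ ≤ D` and `⁅⁅N, R⁆, N⁆ ≤ D`, so `⁅⁅N, N⁆, R⁆ ≤ D`.  With `perf` and `cm_closure`: `cm x y ∈ D` for `x ∈ N`, `y ∈ R`, so `⁅R, N⁆ ≤ D`, `c ≤ D`. -/
theorem cg_of_cpt (H : Hyp G) {A N : Subgroup G} (h : MinN A N) {R : Subgroup G} (hR : IsCompact (R : Set G))
    (hRN : R ≤ N) (hn : Nm A R) : Cg A N (⁅R, N⁆ : Subgroup G).topologicalClosure := by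
  have hRcl : IsClosed (R : Set G) := hR.isClosed
  have h1 : (⁅R, N⁆ : Subgroup G) ≤ R := comm_le_left (nm_mono h.le hn)
  have hcR : (⁅R, N⁆ : Subgroup G).topologicalClosure ≤ R := Subgroup.topologicalClosure_minimal _ h1 hRcl
  have hccl : IsClosed (((⁅R, N⁆ : Subgroup G).topologicalClosure : Subgroup G) : Set G) :=
    Subgroup.isClosed_topologicalClosure _
  have hnm : Nm A (⁅R, N⁆ : Subgroup G).topologicalClosure := nm_topClosure_right (nm_comm hn h.nm)
  refine ⟨hR.of_isClosed_subset hccl hcR, hcR.trans hRN, hnm, ?_⟩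
  set c := (⁅R, N⁆ : Subgroup G).topologicalClosure with hc
  set D := (⁅c, N⁆ : Subgroup G).topologicalClosure with hDdef
  have hDcl : IsClosed (D : Set G) := Subgroup.isClosed_topologicalClosure _
  have hDnm : Nm A D := nm_topClosure_right (nm_comm hnm h.nm)
  have hDN : Nm N D := nm_mono h.le hDnm
  have hle : (⁅R, N⁆ : Subgroup G) ≤ c := Subgroup.le_topologicalClosure _
  have hle' : (⁅c, N⁆ : Subgroup G) ≤ D := Subgroup.le_topologicalClosure _
  have h2 : (⁅N, N⁆ : Subgroup G) ≤ cgS R N D hDN := by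
    apply comm_le
    intro a ha b hb
    refine ⟨?_, fun x hx => three_sub hRN hDN hle hle' hx ha hb⟩
    unfold cm
    exact N.mul_mem (N.mul_mem (N.mul_mem (N.inv_mem ha) (N.inv_mem hb)) ha) hb
  have h3 : ∀ x ∈ (R : Set G), ∀ y ∈ ((⁅N, N⁆ : Subgroup G) : Set G), cm x y ∈ (D : Set G) :=
    fun x hx y hy => (h2 hy).2 x hx
  have h4 := cm_closure hDcl h3
  have h5 : (⁅R, N⁆ : Subgroup G) ≤ D := by
    apply comm_le
    intro x hx y hy
    exact h4 x (subset_closure hx) y (h.perf H hy)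
  have h6 : c ≤ D := Subgroup.topologicalClosure_minimal _ h5 hDcl
  intro x hx
  have := h6 hx
  rw [hDdef] at this
  exact this

end Pool.Agent.CTM
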