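import Pool.Agent.CTM.Cgs

/-!
# CTM: the family `Cg` is directed and dense
-/

set_option autoImplicit false

namespace Pool.Agent.CTM

universe u

variable {G : Type u} [Group G] [TopologicalSpace G] [IsTopologicalGroup G] [T2Space G]

/-- size 2.  PROOF.  `c ⊔ c'`: `cpt_nm_sup`; `c ≤ cl ⁅c, N⁆ ≤ cl ⁅c ⊔ c', N⁆`, the same for `c'`. -/
theorem Cg.sup {A N c c' : Subgroup G} (hN : N ≤ A) (h : Cg A N c) (h' : Cg A N c') : Cg A N (c ⊔ c') := by
  obtain ⟨h1, h2, h3⟩ := cpt_nm_sup hN h.cpt h'.cpt h.le h'.le h.nm h'.nm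
  refine ⟨h1, h2, h3, ?_⟩
  have key : c ⊔ c' ≤ (⁅c ⊔ c', N⁆ : Subgroup G).topologicalClosure := by
    refine sup_le ?_ ?_
    · intro x hx
      have := closure_mono (show ((⁅c, N⁆ : Subgroup G) : Set G) ⊆ ((⁅c ⊔ c', N⁆ : Subgroup G) : Set G) from
        Subgroup.commutator_mono le_sup_left le_rfl) (h.pf hx)
      exact this
    · intro x hx
      have := closure_mono (show ((⁅c', N⁆ : Subgroup G) : Set G) ⊆ ((⁅c ⊔ c', N⁆ : Subgroup G) : Set G) from
        Subgroup.commutator_mono le_sup_right le_rfl) (h'.pf hx)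
      exact this
  intro x hx
  exact key hx

/-- the union of the `Cg` as a subgroup -/
private def cgU (H : Hyp G) {A N : Subgroup G} (h : MinN A N) : Subgroup G where
  carrier := {g | ∃ c : Subgroup G, Cg A N c ∧ g ∈ c}
  mul_mem' := by
    rintro x y ⟨c, hc, hx⟩ ⟨c', hc', hy⟩
    exact ⟨c ⊔ c', Cg.sup h.le hc hc', (c ⊔ c').mul_mem ((le_sup_left : c ≤ c ⊔ c') hx)
      ((le_sup_right : c' ≤ c ⊔ c') hy)⟩
  one_mem' := by
    have hb : IsCompact ((⊥ : Subgroup G) : Set G) := by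
      rw [Subgroup.coe_bot]; exact isCompact_singleton
    have hn : Nm A (⊥ : Subgroup G) := by
      intro a _ y hy
      rw [Subgroup.mem_bot] at hy ⊢
      rw [hy, one_cj]
    exact ⟨_, cg_of_cpt H h hb bot_le hn, Subgroup.one_mem _⟩
  inv_mem' := by
    rintro x ⟨c, hc, hx⟩
    exact ⟨c, hc, c.inv_mem hx⟩

/-- size 3.  The union of the `Cg` is dense in `N`.  PROOF.  Let `Z := cl (⨆ c, Cg c)` (directed by `Cg.sup`).  For `x y ∈ N`: `cm x y ∈ Z`: by `MinN.dense` and `cm_closure` it is enough for `x ∈ R`, `R ≤ N` compact normalised by `A`: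
`cm x y ∈ ⁅R, N⁆ ≤ cl ⁅R, N⁆ ∈ Cg` (`cg_of_cpt`).  So `N ≤ Z` (`le_of_cm`; `Z` is normalised by `A` but this is not needed).  The point `x` is a limit of elements of the directed union. -/
theorem cg_dense (H : Hyp G) {A N : Subgroup G} (h : MinN A N) : ∀ x ∈ N, ∀ V : Subgroup G, IsOpen (V : Set G) →
    ∃ c : Subgroup G, Cg A N c ∧ ∃ y ∈ c, x⁻¹ * y ∈ V := by
  have hZcl : IsClosed ((cgU H h).topologicalClosure : Set G) := Subgroup.isClosed_topologicalClosure _
  have hle : cgU H h ≤ (cgU H h).topologicalClosure := Subgroup.le_topologicalClosure _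
  let S1 : Set G := {g | ∃ C : Subgroup G, IsCompact (C : Set G) ∧ C ≤ N ∧ Nm A C ∧ g ∈ C}
  have h1 : ∀ x ∈ S1, ∀ y ∈ (N : Set G), cm x y ∈ ((cgU H h).topologicalClosure : Set G) := by
    rintro x ⟨C, hC, hCN, hn, hx⟩ y hy
    apply hle
    exact ⟨_, cg_of_cpt H h hC hCN hn, Subgroup.le_topologicalClosure _ (cm_mem_comm hx hy)⟩
  have h2 := cm_closure hZcl h1
  have hN : N ≤ (cgU H h).topologicalClosure := by
    refine h.le_of_cm H hZcl ?_
    intro x hx y hy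
    refine h2 x ?_ y (subset_closure hy)
    rw [H.mem_closure]
    intro V hV
    obtain ⟨C, hC, hCN, hn, c, hc, hcV⟩ := h.dense H x hx V hV
    exact ⟨c, ⟨C, hC, hCN, hn, hc⟩, hcV⟩
  intro x hx V hV
  have hx' : x ∈ closure ((cgU H h : Subgroup G) : Set G) := hN hx
  rw [H.mem_closure] at hx'
  obtain ⟨s, ⟨c, hc, hs⟩, hsV⟩ := hx' V hV
  exact ⟨c, hc, s, hs, hsV⟩

end Pool.Agent.CTM
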