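import Pool.Agent.CTM.BasA
import Pool.Agent.CTM.BasB

/-!
# CTM: the derived series of compact subgroups
-/

set_option autoImplicit false

namespace Pool.Agent.CTM

universe u

variable {G : Type u} [Group G]

/-- the `d`-th derived subgroup of `C`, as a subgroup of `G` -/
def dser (C : Subgroup G) : ℕ → Subgroup G
  | 0 => C
  | (d + 1) => ⁅dser C d, dser C d⁆

theorem dser_zero (C : Subgroup G) : dser C 0 = C := rfl

theorem dser_succ (C : Subgroup G) (d : ℕ) : dser C (d + 1) = ⁅dser C d, dser C d⁆ := rfl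

/-- size 1. -/
theorem dser_le (C : Subgroup G) (d : ℕ) : dser C d ≤ C := by
  induction d with
  | zero => exact le_refl _
  | succ d ih =>
    rw [dser_succ]
    refine comm_le fun x hx y hy => ?_
    have hx' := ih hx
    have hy' := ih hy
    exact C.mul_mem (C.mul_mem (C.mul_mem (C.inv_mem hx') (C.inv_mem hy')) hx') hy'

/-- size 1.  (`nm_comm`) -/
theorem dser_nm (C : Subgroup G) (d : ℕ) : Nm C (dser C d) := by
  induction d with
  | zero => exact nm_self C
  | succ d ih => exact nm_comm ih ih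

private theorem Der_mul {C N : Subgroup G} (h : Nm C N) {a a' b b' : G} (hb : b ∈ C)
    (ha : a⁻¹ * a' ∈ N) (hb' : b⁻¹ * b' ∈ N) : (a * b)⁻¹ * (a' * b') ∈ N := by
  have h1 : (a * b)⁻¹ * (a' * b') = cj (a⁻¹ * a') b * (b⁻¹ * b') := by
    unfold cj; group
  rw [h1]
  exact N.mul_mem (h b hb _ ha) hb'

private theorem Der_inv {C N : Subgroup G} (h : Nm C N) {a a' : G} (ha0 : a ∈ C)
    (ha : a⁻¹ * a' ∈ N) : (a⁻¹)⁻¹ * a'⁻¹ ∈ N := by
  have h1 : (a⁻¹)⁻¹ * a'⁻¹ = (cj (a⁻¹ * a') a⁻¹)⁻¹ := by
    unfold cj; group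
  rw [h1]
  exact N.inv_mem (h _ (C.inv_mem ha0) _ ha)

private theorem Der_cm {C N : Subgroup G} (h : Nm C N) {s s' x y : G} (hs : s ∈ C) (hs' : s' ∈ C)
    (hx : s⁻¹ * x ∈ N) (hy : s'⁻¹ * y ∈ N) : (cm s s')⁻¹ * cm x y ∈ N := by
  unfold cm
  exact Der_mul h hs' (Der_mul h hs (Der_mul h (C.inv_mem hs') (Der_inv h hs hx)
    (Der_inv h hs' hy)) hx) hy

private theorem Der_map (S : Subgroup G) (d : ℕ) :
    (derivedSeries S d).map S.subtype = dser S d := by
  induction d with
  | zero =>
    rw [derivedSeries_zero, dser_zero, ← MonoidHom.range_eq_map, Subgroup.range_subtype]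
  | succ d ih =>
    rw [derivedSeries_succ, dser_succ, Subgroup.map_commutator, ih]

/-- size 3.  PROOF.  `N₀ := core_exists hC hV`: an open subgroup `≤ V` normalised by `C`; `N := N₀ ⊓ C` is normalised by `C` and has finite index in `C` (`relIndex_ne` or `finite_cover`): there is a finite set `T ⊆ C` with `C = T N`.
`S := Subgroup.closure T`, finitely generated, solvable, `S ≤ C` and `C = S ⊔ N`.  By induction on `d`: `dser C d ≤ dser S d ⊔ N` (a commutator of products `s * n`, `s' * n'` with `s s' ∈ dser S d`, `n n' ∈ N` is in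
`cm s s' * N`: modulo the normal subgroup `N` of `C`; note that `N` is normalised by `C ≥ S`).  `dser S d` corresponds to `derivedSeries S d`, so it is `⊥` for large `d` (`Group.IsSolvable`): `(derivedSeries S d).map S.subtype = dser S d` by induction
(`Subgroup.map_commutator`).  So `dser C d ≤ N ≤ V`. -/
theorem dser_le_open [TopologicalSpace G] [IsTopologicalGroup G] (hs : IsLocallySolvable G) {C V : Subgroup G}
    (hC : IsCompact (C : Set G)) (hV : IsOpen (V : Set G)) : ∃ d, dser C d ≤ V := by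
  obtain ⟨N, hN, hNV, hCN⟩ := core_exists hC hV
  obtain ⟨T, hT, hcov⟩ := finite_cover hC hN
  set S := Subgroup.closure (T : Set G) with hS
  have hSC : S ≤ C := by
    rw [hS, Subgroup.closure_le]
    exact fun t ht => hT t ht
  have hfg : S.FG := ⟨T, rfl⟩
  obtain ⟨d, hd⟩ := (hs S hfg).solvable
  have key : ∀ d, dser C d ≤ N ⊔ dser S d := by
    intro d
    induction d with
    | zero =>
      intro x hx
      obtain ⟨t, ht, htx⟩ := hcov x hx
      have h1 : x = t * (t⁻¹ * x) := by group
      rw [h1]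
      exact Subgroup.mul_mem _ (Subgroup.mem_sup_right (Subgroup.subset_closure ht))
        (Subgroup.mem_sup_left htx)
    | succ d ih =>
      have hn : Nm (dser S d) N := nm_mono ((dser_le S d).trans hSC) hCN
      rw [dser_succ]
      refine comm_le fun x hx y hy => ?_
      obtain ⟨s, hs1, n, hn1, rfl⟩ := (mem_sup_nm' hn).mp (ih hx)
      obtain ⟨s', hs2, n', hn2, rfl⟩ := (mem_sup_nm' hn).mp (ih hy)
      have hsC := hSC (dser_le S d hs1)
      have hsC' := hSC (dser_le S d hs2)
      have h1 : (cm s s')⁻¹ * cm (s * n) (s' * n') ∈ N :=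
        Der_cm hCN hsC hsC' (by rwa [inv_mul_cancel_left]) (by rwa [inv_mul_cancel_left])
      have h2 : cm (s * n) (s' * n') = cm s s' * ((cm s s')⁻¹ * cm (s * n) (s' * n')) := by
        group
      rw [h2]
      refine Subgroup.mul_mem _ (Subgroup.mem_sup_right ?_) (Subgroup.mem_sup_left h1)
      rw [dser_succ]
      exact cm_mem_comm hs1 hs2
  refine ⟨d, (key d).trans ?_⟩
  rw [← Der_map, hd, Subgroup.map_bot, sup_bot_eq]
  exact hNV

end Pool.Agent.CTM
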