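import Pool.Agent.CTM.LmB
import Pool.Agent.CTM.Der

/-!
# CTM: compact normal subgroups
-/

set_option autoImplicit false

namespace Pool.Agent.CTM

universe u

variable {G : Type u} [Group G] [TopologicalSpace G] [IsTopologicalGroup G] [T2Space G]

/-- size 3.  PROOF.  As `G` is not compact, `K s ≠ ⊤`; by `T.top`, `T.mono` there is `l₀` with `¬ K l ≤ K s` for `l ≥ l₀`.  For such `l` let `d l` be the largest `d` with `¬ dser (K l) d ≤ K s`
(`Nat.find` of the first `d` with `dser (K l) d ≤ K s` (`dser_le_open`), it is not `0`, take the predecessor).  `M l := cl (dser (K l) (d l))` (`⊥` for `l < l₀`): compact (closed in `K l`), normalised by `K l` (`dser_nm`,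
`nm_topClosure_right`), `cm y y' ∈ K s` for `y y' ∈ M l` (`cm_closure`, `cm_mem_comm`, `dser_succ`; `K s` closed), and `M l` contains some `y l ∉ K s`.  `N := ulim M`: closed (`ulim_closed`), normalised by all `g : G` (`cj_ulim`: `g ∈ K l` for large
`l`), `cm x x' ∈ K s` for `x x' ∈ N` (`cm_ulim`).  `N` is compact: `AB` for `N` and the compact subgroup `C := N ⊓ K s`.  So `N ≤ K m` (`Tow.bdd`); `lemB`: eventually `M l ≤ K m'`; so eventually `y l ∈ K m' \ K s` (compact set); a limit `b` of `y`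
(`Lm.exists`) is in `N` (`lm_mem_ulim`), not in `K s`. -/
theorem exists_cpt_normal {K : ℕ → Subgroup G} (T : Tow K) (hG : ¬ CompactSpace G) (s : ℕ) :
    ∃ N : Subgroup G, IsCompact (N : Set G) ∧ Nm ⊤ N ∧ ¬ N ≤ K s := by
  classical
  have hev : ∃ l₀, ∀ l, l₀ ≤ l → ¬ K l ≤ K s := by
    by_contra hcon
    push Not at hcon
    apply hG
    have htop : (Set.univ : Set G) ⊆ K s := by
      intro x _
      obtain ⟨n, hn⟩ := T.top x
      obtain ⟨l, hl, hle⟩ := hcon n
      exact hle (T.mono hl hn)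
    exact ⟨(T.cpt s).of_isClosed_subset isClosed_univ htop⟩
  obtain ⟨l₀, hl₀⟩ := hev
  have hclS : IsClosed (K s : Set G) := Subgroup.isClosed_of_isOpen _ (T.opn s)
  have hM : ∀ l, ∃ M : Subgroup G, IsCompact (M : Set G) ∧ Nm (K l) M ∧
      (∀ y ∈ M, ∀ y' ∈ M, cm y y' ∈ (K s : Set G)) ∧ (l₀ ≤ l → ∃ y ∈ M, y ∉ K s) := by
    intro l
    by_cases hl : l₀ ≤ l
    · have hex : ∃ d, dser (K l) d ≤ K s := dser_le_open T.hyp.ls (T.cpt l) (T.opn s)
      have hf : dser (K l) (Nat.find hex) ≤ K s := Nat.find_spec hex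
      rcases Nat.eq_zero_or_pos (Nat.find hex) with h0 | hpos
      · exfalso
        rw [h0, dser_zero] at hf
        exact hl₀ l hl hf
      · obtain ⟨e, he⟩ : ∃ e, Nat.find hex = e + 1 := ⟨Nat.find hex - 1, by omega⟩
        have hne : ¬ dser (K l) e ≤ K s := Nat.find_min hex (by omega)
        rw [he, dser_succ] at hf
        have hle : (dser (K l) e).topologicalClosure ≤ K l :=
          Subgroup.topologicalClosure_minimal _ (dser_le _ _) (Subgroup.isClosed_of_isOpen _ (T.opn l))
        refine ⟨(dser (K l) e).topologicalClosure, ?_, nm_topClosure_right (dser_nm _ _), ?_, ?_⟩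
        · exact (T.cpt l).of_isClosed_subset (Subgroup.isClosed_topologicalClosure _) hle
        · intro y hy y' hy'
          exact cm_closure (S := (dser (K l) e : Set G)) (S' := (dser (K l) e : Set G)) hclS
            (fun a ha b hb => hf (cm_mem_comm ha hb)) y hy y' hy'
        · intro _
          obtain ⟨y, hy, hys⟩ := SetLike.not_le_iff_exists.mp hne
          exact ⟨y, Subgroup.le_topologicalClosure _ hy, hys⟩
    · refine ⟨⊥, ?_, ?_, ?_, fun h => absurd h hl⟩
      · rw [Subgroup.coe_bot]; exact isCompact_singleton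
      · intro a _ y hy
        rw [Subgroup.mem_bot] at hy ⊢
        rw [hy, one_cj]
      · intro y hy y' hy'
        rw [Subgroup.mem_bot] at hy hy'
        subst hy; subst hy'
        have : cm (1 : G) 1 = 1 := by unfold cm; group
        rw [this]
        exact (K s).one_mem
  choose M hMc hMn hMcm hMy using hM
  have hcl : IsClosed (ulim M : Set G) := ulim_closed T.hyp M
  have hnm : Nm ⊤ (ulim M) := by
    intro g _ x hx
    obtain ⟨n, hn⟩ := T.top g
    exact cj_ulim (Ev.of_ge n fun l hl y hy => hMn l g (T.mono hl hn) y hy) x hx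
  have hcmN : ∀ x ∈ ulim M, ∀ x' ∈ ulim M, cm x x' ∈ (K s : Set G) :=
    cm_ulim T.hyp hclS (Ev.of_forall hMcm)
  have hNc : IsCompact (ulim M : Set G) := by
    refine T.hyp.ab (ulim M) (ulim M ⊓ K s) hcl ?_ inf_le_left ?_
    · exact (T.cpt s).of_isClosed_subset (hcl.inter hclS) (fun x hx => hx.2)
    · intro a ha b hb
      refine ⟨?_, hcmN a ha b hb⟩
      exact (ulim M).mul_mem ((ulim M).mul_mem ((ulim M).mul_mem ((ulim M).inv_mem ha)
        ((ulim M).inv_mem hb)) ha) hb
  refine ⟨ulim M, hNc, hnm, ?_⟩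
  obtain ⟨m, hm⟩ := T.bdd hNc
  obtain ⟨m', hm'⟩ := lemB T hMc hMn (m := m) hm
  have hy : ∀ l, ∃ y ∈ M l, l₀ ≤ l → y ∉ K s := by
    intro l
    by_cases hl : l₀ ≤ l
    · obtain ⟨y, hy, hys⟩ := hMy l hl
      exact ⟨y, hy, fun _ => hys⟩
    · exact ⟨1, (M l).one_mem, fun h => absurd h hl⟩
  choose y hyM hys using hy
  have hcpt : IsCompact ((K m' : Set G) \ (K s : Set G)) := (T.cpt m').diff (T.opn s)
  obtain ⟨b, hb, hlim⟩ := Lm.exists hcpt (x := y) ((hm'.and (Ev.of_ge l₀ fun i hi => hi)).mono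
    fun i hi => ⟨hi.1 (hyM i), hys i hi.2⟩)
  intro hle
  exact hb.2 (hle (lm_mem_ulim (Ev.of_forall hyM) hlim))

end Pool.Agent.CTM
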