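import Mathlib

/-!
# MP_aaac81_gt: definitions

Squad CTM (helper98).  A locally solvable c-totally minimal group with a compact open subgroup is compact.
-/

set_option autoImplicit false

namespace Pool.Agent.CTM

universe u

/-- A topological group `(G, t)` is minimal: every Hausdorff group topology `t'` on `G` which is coarser than `t`
(in Mathlib `t ≤ t'` means that `t'` is coarser) is equal to `t`. -/
def IsMinimalGroup (G : Type u) [Group G] [t : TopologicalSpace G] : Prop :=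
  ∀ t' : TopologicalSpace G, @IsTopologicalGroup G t' _ → @T2Space G t' → t ≤ t' → t' = t

/-- All Hausdorff quotients `G ⧸ N` (`N` closed normal), with the quotient topology, are minimal. -/
def IsTotallyMinimalGroup (G : Type u) [Group G] [TopologicalSpace G] : Prop :=
  ∀ (N : Subgroup G) [N.Normal], IsClosed (N : Set G) → IsMinimalGroup (G ⧸ N)

/-- All closed subgroups, with the induced topology, are totally minimal. -/
def IsCTotallyMinimalGroup (G : Type u) [Group G] [TopologicalSpace G] : Prop :=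
  ∀ H : Subgroup G, IsClosed (H : Set G) → IsTotallyMinimalGroup H

/-- Every finitely generated subgroup is solvable. -/
def IsLocallySolvable (G : Type u) [Group G] : Prop :=
  ∀ H : Subgroup G, H.FG → Group.IsSolvable H

section basic

variable {G : Type u} [Group G]

/-- the conjugate `x ^ y = y⁻¹ x y` -/
def cj (x y : G) : G := y⁻¹ * x * y

/-- the commutator `[x, y] = x⁻¹ y⁻¹ x y = x⁻¹ * x ^ y` -/
def cm (x y : G) : G := x⁻¹ * y⁻¹ * x * y

theorem cj_def (x y : G) : cj x y = y⁻¹ * x * y := rfl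

theorem cm_def (x y : G) : cm x y = x⁻¹ * y⁻¹ * x * y := rfl

theorem mul_cj (x x' y : G) : cj (x * x') y = cj x y * cj x' y := by
  unfold cj; group

theorem inv_cj (x y : G) : cj x⁻¹ y = (cj x y)⁻¹ := by
  unfold cj; group

theorem one_cj (y : G) : cj 1 y = 1 := by
  unfold cj; group

theorem cj_one (x : G) : cj x 1 = x := by
  unfold cj; group

theorem cj_cj (x y z : G) : cj (cj x y) z = cj x (y * z) := by
  unfold cj; group

theorem cj_inv_cj (x y : G) : cj (cj x y⁻¹) y = x := by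
  unfold cj; group

theorem cj_cj_inv (x y : G) : cj (cj x y) y⁻¹ = x := by
  unfold cj; group

theorem pow_cj (x y : G) (n : ℕ) : cj (x ^ n) y = cj x y ^ n := by
  induction n with
  | zero => simp [one_cj]
  | succ n ih => rw [pow_succ, pow_succ, mul_cj, ih]

theorem cm_eq (x y : G) : cm x y = x⁻¹ * cj x y := by
  unfold cm cj; group

theorem cj_eq (x y : G) : cj x y = x * cm x y := by
  unfold cm cj; group

theorem cm_inv (x y : G) : (cm x y)⁻¹ = cm y x := by
  unfold cm; group

theorem cm_eq' (x y : G) : cm x y = (cj y x)⁻¹ * y := by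
  unfold cm cj; group

theorem cm_cj (x y z : G) : cj (cm x y) z = cm (cj x z) (cj y z) := by
  unfold cm cj; group

open scoped commutatorElement in
theorem cm_eq_elem (x y : G) : cm x y = ⁅x⁻¹, y⁻¹⁆ := by
  unfold cm; rw [commutatorElement_def]; group

theorem cm_mem_comm {A B : Subgroup G} {x y : G} (hx : x ∈ A) (hy : y ∈ B) : cm x y ∈ (⁅A, B⁆ : Subgroup G) := by
  rw [cm_eq_elem]; exact Subgroup.commutator_mem_commutator (A.inv_mem hx) (B.inv_mem hy)

open scoped commutatorElement in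
theorem comm_le {A B Z : Subgroup G} (h : ∀ x ∈ A, ∀ y ∈ B, cm x y ∈ Z) : (⁅A, B⁆ : Subgroup G) ≤ Z := by
  rw [Subgroup.commutator_le]
  intro x hx y hy
  have := h x⁻¹ (A.inv_mem hx) y⁻¹ (B.inv_mem hy)
  rwa [cm_eq_elem, inv_inv, inv_inv] at this

/-- `Y` is normalised by `A` -/
def Nm (A Y : Subgroup G) : Prop := ∀ a ∈ A, ∀ y ∈ Y, cj y a ∈ Y

/-- the conjugate subgroup `V ^ g = g⁻¹ V g` -/
def cjS (V : Subgroup G) (g : G) : Subgroup G := V.comap (MulAut.conj g).toMonoidHom

theorem mem_cjS {V : Subgroup G} {g x : G} : x ∈ cjS V g ↔ g * x * g⁻¹ ∈ V := by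
  simp [cjS]

theorem mem_cjS' {V : Subgroup G} {g x : G} : x ∈ cjS V g ↔ cj x g⁻¹ ∈ V := by
  simp [cjS, cj]

theorem cj_mem_cjS {V : Subgroup G} {g x : G} (h : x ∈ V) : cj x g ∈ cjS V g := by
  rw [mem_cjS', cj_cj_inv]; exact h

theorem nm_mono {A A' Y : Subgroup G} (h : A' ≤ A) (hn : Nm A Y) : Nm A' Y := fun a ha y hy => hn a (h ha) y hy

theorem nm_self (A : Subgroup G) : Nm A A := fun a ha y hy => by
  unfold cj; exact A.mul_mem (A.mul_mem (A.inv_mem ha) hy) ha

theorem nm_inf {A Y Y' : Subgroup G} (h : Nm A Y) (h' : Nm A Y') : Nm A (Y ⊓ Y') :=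
  fun a ha y hy => ⟨h a ha y hy.1, h' a ha y hy.2⟩

end basic

section topo

variable (G : Type u) [Group G] [TopologicalSpace G]

/-- What minimality of the quotients `A / Y` gives (see `ms_of_ctm`). -/
def MS : Prop :=
  ∀ A Y : Subgroup G, IsClosed (A : Set G) → IsClosed (Y : Set G) → Y ≤ A → Nm A Y →
  ∀ F : Set (Subgroup G), F.Nonempty →
    (∀ O ∈ F, ∀ O' ∈ F, ∃ O'' ∈ F, O'' ≤ O ⊓ O') →
    (∀ O ∈ F, Y ≤ O ∧ O ≤ A ∧ ∃ V : Subgroup G, IsOpen (V : Set G) ∧ V ⊓ A ≤ O) →
    (∀ O ∈ F, ∀ a ∈ A, ∃ O' ∈ F, ∀ x ∈ O', cj x a ∈ O) →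
    (∀ x, (∀ O ∈ F, x ∈ O) → x ∈ Y) →
    ∀ V : Subgroup G, IsOpen (V : Set G) →
      ∃ O ∈ F, ∀ x ∈ O, ∃ v ∈ V, v ∈ A ∧ ∃ y ∈ Y, x = v * y

/-- A closed subgroup whose commutators lie in a compact subgroup is compact (see `ab_of_ctm`). -/
def AB : Prop :=
  ∀ A C : Subgroup G, IsClosed (A : Set G) → IsCompact (C : Set G) → C ≤ A →
    (∀ a ∈ A, ∀ b ∈ A, cm a b ∈ C) → IsCompact (A : Set G)

/-- The standing hypotheses after the reduction. -/
structure Hyp : Prop where
  base : ∀ O ∈ nhds (1 : G), ∃ V : Subgroup G, IsOpen (V : Set G) ∧ IsCompact (V : Set G) ∧ (V : Set G) ⊆ O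
  ms : MS G
  ab : AB G
  ls : IsLocallySolvable G

variable {G}

/-- `G` is the union of the increasing compact open subgroups `K n` (and satisfies `Hyp`). -/
structure Tow (K : ℕ → Subgroup G) : Prop where
  hyp : Hyp G
  mono : Monotone K
  opn : ∀ n, IsOpen (K n : Set G)
  cpt : ∀ n, IsCompact (K n : Set G)
  top : ∀ x, ∃ n, x ∈ K n

/-- eventually, along a fixed nonprincipal ultrafilter of `ℕ` -/
def Ev (P : ℕ → Prop) : Prop := ∀ᶠ i in (Filter.hyperfilter ℕ : Filter ℕ), P i

/-- `b` is the limit of the sequence `x` along the fixed ultrafilter (use the `Filter.Tendsto` API of Mathlib) -/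
abbrev Lm {X : Type*} [TopologicalSpace X] (x : ℕ → X) (b : X) : Prop :=
  Filter.Tendsto x (Filter.hyperfilter ℕ : Filter ℕ) (nhds b)

/-- `A` is closed, noncompact, and the compact subgroups of `A` normalised by `A` have dense union. -/
structure CND (A : Subgroup G) : Prop where
  cl : IsClosed (A : Set G)
  nc : ¬ IsCompact (A : Set G)
  dn : ∀ a ∈ A, ∀ V : Subgroup G, IsOpen (V : Set G) →
    ∃ C : Subgroup G, IsCompact (C : Set G) ∧ C ≤ A ∧ Nm A C ∧ ∃ c ∈ C, a⁻¹ * c ∈ V

/-- `N` is a minimal noncompact closed `A`-normal subgroup of `A`. -/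
structure MinN (A N : Subgroup G) : Prop where
  cnd : CND A
  cl : IsClosed (N : Set G)
  le : N ≤ A
  nm : Nm A N
  nc : ¬ IsCompact (N : Set G)
  mn : ∀ Z : Subgroup G, IsClosed (Z : Set G) → Z ≤ N → Nm A Z → Z = N ∨ IsCompact (Z : Set G)

/-- `c` is compact, `A`-normal, contained in `N`, and `c = cl [c, N]`. -/
structure Cg (A N c : Subgroup G) : Prop where
  cpt : IsCompact (c : Set G)
  le : c ≤ N
  nm : Nm A c
  pf : (c : Set G) ⊆ closure ((⁅c, N⁆ : Subgroup G) : Set G)

end topo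

end Pool.Agent.CTM
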