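import Mathlib

/-!
# CTM, pure algebra: fixed points, Frattini
-/

set_option autoImplicit false

namespace Pool.Agent.CTM

/-- size 2.  A group acting on a finite set of cardinality prime to `q`, all stabilisers of `q`-power index, has a fixed point.  (The set is the disjoint union of the orbits; the orbit of `a` has cardinality the index of the stabiliser (`MulAction.index_stabilizer`), a power of `q`; if no orbit has one element,
`q` divides the cardinality.  Mathlib: `MulAction.selfEquivSigmaOrbits` ...; or the quotient of `Γ` acting faithfully is a finite `q`-group?) -/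
theorem fixed_of_stab {Γ α : Type*} [Group Γ] [MulAction Γ α] [Finite α] {q : ℕ} (hq : q.Prime)
    (hst : ∀ a : α, ∃ e : ℕ, (MulAction.stabilizer Γ a).index = q ^ e) (hc : ¬ q ∣ Nat.card α) :
    ∃ a : α, ∀ g : Γ, g • a = a := by
  classical
  by_contra hno
  push Not at hno
  apply hc
  have hfin : Finite (MulAction.orbitRel.Quotient Γ α) := Quotient.finite _
  have := Fintype.ofFinite (MulAction.orbitRel.Quotient Γ α)
  rw [Nat.card_congr (MulAction.selfEquivSigmaOrbits Γ α), Nat.card_sigma]
  refine Finset.dvd_sum fun ω _ => ?_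
  rw [Nat.card_coe_set_eq, ← MulAction.index_stabilizer]
  obtain ⟨e, he⟩ := hst (Quotient.out ω)
  rw [he]
  rcases Nat.eq_zero_or_pos e with h0 | h0
  · exfalso
    rw [h0, pow_zero, Subgroup.index_eq_one] at he
    obtain ⟨g, hg⟩ := hno (Quotient.out ω)
    apply hg
    have : g ∈ MulAction.stabilizer Γ (Quotient.out ω) := by rw [he]; exact Subgroup.mem_top g
    exact this
  · exact dvd_pow_self q h0.ne'

open scoped commutatorElement in
/-- size 3.  In a finite `p`-group `E` a subgroup `S` which generates `E` together with the commutators and the `p`-th powers is `E`.  (Otherwise `S ≤ M`, `M` a maximal subgroup (`IsCoatom`); `E` is nilpotent (`IsPGroup.isNilpotent`), so `M` is normal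
(`NormalizerCondition` : `Subgroup.NormalizerCondition.normal_of_coatom`); `E ⧸ M` is a nontrivial `p`-group without proper nontrivial subgroups, so of order `p` and commutative: `M` contains the commutators and the `p`-th powers.) -/
theorem frat {E : Type*} [Group E] [Finite E] {p : ℕ} (hp : p.Prime) (hE : IsPGroup p E) (S : Subgroup E)
    (h : S ⊔ Subgroup.closure ({x | ∃ a b : E, x = ⁅a, b⁆} ∪ {x | ∃ a : E, x = a ^ p}) = ⊤) : S = ⊤ := by
  classical
  have : Fact p.Prime := ⟨hp⟩
  rcases eq_top_or_exists_le_coatom S with hS | ⟨M, hM, hSM⟩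
  · exact hS
  exfalso
  have hnil : Group.IsNilpotent E := hE.isNilpotent
  have hMn : M.Normal := Subgroup.NormalizerCondition.normal_of_coatom M Group.normalizerCondition_of_isNilpotent hM
  -- every element is `m * x ^ k`
  have hgen : ∀ x : E, x ∉ M → ∀ y : E, ∃ k : ℤ, (QuotientGroup.mk y : E ⧸ M) = (QuotientGroup.mk x : E ⧸ M) ^ k := by
    intro x hx y
    have hlt : M < M ⊔ Subgroup.zpowers x := by
      refine lt_of_le_of_ne le_sup_left fun heq => hx ?_
      rw [heq]
      exact (le_sup_right : Subgroup.zpowers x ≤ M ⊔ Subgroup.zpowers x) (Subgroup.mem_zpowers x)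
    have htop := hM.2 _ hlt
    have hy : y ∈ M ⊔ Subgroup.zpowers x := by rw [htop]; exact Subgroup.mem_top y
    rw [← SetLike.mem_coe, Subgroup.normal_mul] at hy
    obtain ⟨m, hm, z, hz, rfl⟩ := Set.mem_mul.1 hy
    obtain ⟨k, rfl⟩ := Subgroup.mem_zpowers_iff.1 hz
    refine ⟨k, ?_⟩
    have hm1 : (QuotientGroup.mk m : E ⧸ M) = 1 := (QuotientGroup.eq_one_iff m).2 hm
    rw [QuotientGroup.mk_mul, hm1, one_mul, QuotientGroup.mk_zpow]
  have hpow : ∀ x : E, x ^ p ∈ M := by
    intro x
    by_contra hxp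
    have hx : x ∉ M := fun hx => hxp (M.pow_mem hx p)
    obtain ⟨k, hk⟩ := hgen (x ^ p) hxp x
    obtain ⟨n, hn⟩ := hE x
    have h1 : (QuotientGroup.mk x : E ⧸ M) ^ (1 - (p : ℤ) * k) = 1 := by
      rw [zpow_sub, zpow_one, zpow_mul, zpow_natCast, ← QuotientGroup.mk_pow, ← hk, mul_inv_cancel]
    have h2 : (QuotientGroup.mk x : E ⧸ M) ^ (p ^ n) = 1 := by
      rw [← QuotientGroup.mk_pow, hn, QuotientGroup.mk_one]
    have h3 : orderOf (QuotientGroup.mk x : E ⧸ M) ∣ p ^ n := orderOf_dvd_of_pow_eq_one h2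
    obtain ⟨j, -, hj⟩ := (Nat.dvd_prime_pow hp).1 h3
    have h4 : ((orderOf (QuotientGroup.mk x : E ⧸ M) : ℕ) : ℤ) ∣ 1 - (p : ℤ) * k := orderOf_dvd_iff_zpow_eq_one.2 h1
    rcases Nat.eq_zero_or_pos j with h0 | h0
    · rw [h0, pow_zero, orderOf_eq_one_iff] at hj
      exact hx ((QuotientGroup.eq_one_iff x).1 hj)
    · have h5 : (p : ℤ) ∣ 1 - (p : ℤ) * k := by
        refine dvd_trans ?_ h4
        rw [hj]
        exact_mod_cast dvd_pow_self p h0.ne'
      have h6 : (p : ℤ) ∣ 1 := by
        have := dvd_add h5 (Dvd.intro k rfl : (p : ℤ) ∣ (p : ℤ) * k)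
        simpa using this
      have h7 : p ∣ 1 := by exact_mod_cast h6
      exact hp.one_lt.ne' (Nat.dvd_one.1 h7)
  have hcomm : ∀ a b : E, ⁅a, b⁆ ∈ M := by
    intro a b
    have hne : ∃ x : E, x ∉ M := by
      by_contra hall
      push Not at hall
      exact hM.1 (Subgroup.eq_top_iff' M |>.2 hall)
    obtain ⟨x, hx⟩ := hne
    obtain ⟨i, hi⟩ := hgen x hx a
    obtain ⟨j, hj⟩ := hgen x hx b
    rw [← QuotientGroup.eq_one_iff, commutatorElement_def]
    rw [QuotientGroup.mk_mul, QuotientGroup.mk_mul, QuotientGroup.mk_mul, QuotientGroup.mk_inv,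
      QuotientGroup.mk_inv, hi, hj]
    group
  have hle : Subgroup.closure ({x | ∃ a b : E, x = ⁅a, b⁆} ∪ {x | ∃ a : E, x = a ^ p}) ≤ M := by
    rw [Subgroup.closure_le]
    rintro x (⟨a, b, rfl⟩ | ⟨a, rfl⟩)
    · exact hcomm a b
    · exact hpow a
  have htop : (⊤ : Subgroup E) ≤ M := by
    rw [← h]
    exact sup_le hSM hle
  exact hM.1 (top_le_iff.1 htop)

end Pool.Agent.CTM
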