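import Pool.Agent.CTM.SyA
import Pool.Agent.CTM.SyF

/-!
# CTM: Frattini step
-/

set_option autoImplicit false

namespace Pool.Agent.CTM

universe u

variable {G : Type u} [Group G] [TopologicalSpace G] [IsTopologicalGroup G] [T2Space G]

open scoped commutatorElement in
/-- size 3.  FRATTINI STEP.  PROOF.  `B := Y ⊔ (W ⊓ X)` is normal in `X` and open in `X`, of finite index (`relIndex_ne`); `E := X ⧸ B.subgroupOf X` is a finite `p`-group (`hlay`).  `S̄` := image of `S`.  The image of `Φ`: `Φ` is contained in the closure of `D := Subgroup.closure ({cm x y | x y ∈ X} ∪ {x ^ p | x ∈ X} ∪ Y)`, and `B` is open in `X`, so `Φ ≤ D B`; so the image of `Φ` is in the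
subgroup generated by the commutators and the `p`-th powers of `E` (`Y` has trivial image).  By `hgen` every element of `E` is in `S̄ * Φ̄` (`w ∈ W ⊓ X` has trivial image).  `frat`: `S̄ = E`. -/
theorem frat_step {X Y W S Φ : Subgroup G} {p : ℕ} (hp : p.Prime) (H : Hyp G) (hX : IsCompact (X : Set G)) (hYX : Y ≤ X)
    (hYn : Nm X Y) (hW : IsOpen (W : Set G)) (hWn : Nm X W) (hSX : S ≤ X) (hΦX : Φ ≤ X)
    (hlay : ∀ x ∈ X, ∃ k : ℕ, x ^ (p ^ k) ∈ Y ⊔ (W ⊓ X))
    (hΦ : (Φ : Set G) ⊆ closure (Subgroup.closure ({g | ∃ x ∈ X, ∃ y ∈ X, g = cm x y} ∪ {g | ∃ x ∈ X, g = x ^ p} ∪ (Y : Set G)) : Set G))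
    (hgen : ∀ a ∈ X, ∃ u ∈ S, ∃ f ∈ Φ, ∃ w ∈ W, a = u * f * w) :
    ∀ a ∈ X, ∃ u ∈ S, ∃ b ∈ Y ⊔ (W ⊓ X), a = u * b := by
  classical
  set B : Subgroup G := Y ⊔ (W ⊓ X) with hB
  have hnWX : Nm X (W ⊓ X) := nm_inf hWn (nm_self X)
  have hnB : Nm X B := nm_sup hYn hnWX
  have hBX : B ≤ X := sup_le hYX inf_le_right
  have hnor : (B.subgroupOf X).Normal := by
    refine ⟨fun n hn g => ?_⟩
    rw [Subgroup.mem_subgroupOf] at hn ⊢
    have h1 := hnB _ (X.inv_mem g.2) _ hn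
    simpa [cj] using h1
  have hfi : (B.subgroupOf X).FiniteIndex := by
    refine ⟨?_⟩
    have h1 : W.relIndex X ≠ 0 := relIndex_ne hX hW
    have h2 : B.relIndex X ∣ W.relIndex X := by
      have h3 : W ⊓ X ≤ B := le_sup_right
      have h4 := Subgroup.relIndex_dvd_of_le_left X h3
      rwa [Subgroup.inf_relIndex_right] at h4
    intro h0
    have h5 : B.relIndex X = 0 := h0
    rw [h5] at h2
    exact h1 (Nat.eq_zero_of_zero_dvd h2)
  let E := X ⧸ B.subgroupOf X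
  let π : X →* E := QuotientGroup.mk' (B.subgroupOf X)
  have hπ : Function.Surjective π := QuotientGroup.mk'_surjective _
  have hker : ∀ x : X, (x : G) ∈ B → π x = 1 := by
    intro x hx
    exact (QuotientGroup.eq_one_iff x).mpr (Subgroup.mem_subgroupOf.mpr hx)
  have hfin : Finite E := Subgroup.finite_quotient_of_finiteIndex
  have hE : IsPGroup p E := by
    intro g
    obtain ⟨x, rfl⟩ := hπ g
    obtain ⟨k, hk⟩ := hlay x x.2
    refine ⟨k, ?_⟩
    rw [← map_pow]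
    exact hker _ (by simpa using hk)
  set D : Subgroup G := Subgroup.closure ({g | ∃ x ∈ X, ∃ y ∈ X, g = cm x y} ∪ {g | ∃ x ∈ X, g = x ^ p} ∪
    (Y : Set G)) with hD
  have hDX : D ≤ X := by
    rw [hD, Subgroup.closure_le]
    rintro g ((⟨x, hx, y, hy, rfl⟩ | ⟨x, hx, rfl⟩) | hg)
    · exact X.mul_mem (X.mul_mem (X.mul_mem (X.inv_mem hx) (X.inv_mem hy)) hx) hy
    · exact X.pow_mem hx p
    · exact hYX hg
  -- the target subgroup
  set T : Subgroup E := Subgroup.closure ({x | ∃ a b : E, x = ⁅a, b⁆} ∪ {x | ∃ a : E, x = a ^ p}) with hT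
  have hDT : ∀ d (hd : d ∈ D), π ⟨d, hDX hd⟩ ∈ T := by
    have key : ∀ d, d ∈ D → ∀ hdX : d ∈ X, π ⟨d, hdX⟩ ∈ T := by
      intro d hd
      rw [hD] at hd
      induction hd using Subgroup.closure_induction with
      | mem g hg =>
        intro hdX
        rcases hg with (⟨x, hx, y, hy, rfl⟩ | ⟨x, hx, rfl⟩) | hg
        · apply Subgroup.subset_closure
          left
          refine ⟨(π ⟨x, hx⟩)⁻¹, (π ⟨y, hy⟩)⁻¹, ?_⟩
          rw [commutatorElement_def, inv_inv, inv_inv, ← map_inv, ← map_inv, ← map_mul, ← map_mul, ← map_mul]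
          rfl
        · apply Subgroup.subset_closure
          right
          refine ⟨π ⟨x, hx⟩, ?_⟩
          rw [← map_pow]
          rfl
        · rw [hker _ (Subgroup.mem_sup_left hg)]
          exact T.one_mem
      | one =>
        intro hdX
        have : (⟨1, hdX⟩ : X) = 1 := rfl
        rw [this, map_one]
        exact T.one_mem
      | mul a b ha hb iha ihb =>
        intro hdX
        have haX : a ∈ X := hDX ha
        have hbX : b ∈ X := hDX hb
        have : (⟨a * b, hdX⟩ : X) = ⟨a, haX⟩ * ⟨b, hbX⟩ := rfl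
        rw [this, map_mul]
        exact T.mul_mem (iha haX) (ihb hbX)
      | inv a ha iha =>
        intro hdX
        have haX : a ∈ X := hDX ha
        have : (⟨a⁻¹, hdX⟩ : X) = ⟨a, haX⟩⁻¹ := rfl
        rw [this, map_inv]
        exact T.inv_mem (iha haX)
    exact fun d hd => key d hd (hDX hd)
  have hΦT : ∀ f (hf : f ∈ Φ), π ⟨f, hΦX hf⟩ ∈ T := by
    intro f hf
    obtain ⟨d, hd, hdW⟩ := (H.mem_closure.mp (hΦ hf)) W hW
    have hdX : d ∈ X := hDX hd
    have h1 : f⁻¹ * d ∈ B := Subgroup.mem_sup_right ⟨hdW, X.mul_mem (X.inv_mem (hΦX hf)) hdX⟩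
    have h2 : π ⟨f, hΦX hf⟩ = π ⟨d, hdX⟩ := by
      have h3 := hker (⟨f, hΦX hf⟩⁻¹ * ⟨d, hdX⟩ : X) (by simpa using h1)
      rw [map_mul, map_inv] at h3
      exact (inv_mul_eq_one.mp h3)
    rw [h2]
    exact hDT d hd
  set S' : Subgroup E := (S.subgroupOf X).map π with hS'
  have htop : S' = ⊤ := by
    refine frat hp hE S' ?_
    rw [eq_top_iff]
    intro g _
    obtain ⟨a, rfl⟩ := hπ g
    obtain ⟨u, hu, f, hf, w, hw, hauw⟩ := hgen a a.2
    have huX : u ∈ X := hSX hu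
    have hfX : f ∈ X := hΦX hf
    have hwX : w ∈ X := by
      have : w = (u * f)⁻¹ * a := by rw [hauw]; group
      rw [this]
      exact X.mul_mem (X.inv_mem (X.mul_mem huX hfX)) a.2
    have h1 : a = ⟨u, huX⟩ * ⟨f, hfX⟩ * ⟨w, hwX⟩ := Subtype.ext hauw
    rw [h1, map_mul, map_mul, hker ⟨w, hwX⟩ (Subgroup.mem_sup_right ⟨hw, hwX⟩), mul_one]
    refine Subgroup.mul_mem _ (Subgroup.mem_sup_left ?_) (Subgroup.mem_sup_right (hΦT f hf))
    exact ⟨⟨u, huX⟩, Subgroup.mem_subgroupOf.mpr hu, rfl⟩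
  intro a ha
  have h1 : π ⟨a, ha⟩ ∈ S' := by rw [htop]; trivial
  obtain ⟨u, hu, hua⟩ := h1
  refine ⟨u, Subgroup.mem_subgroupOf.mp hu, (u : G)⁻¹ * a, ?_, by group⟩
  have h2 : π (u⁻¹ * ⟨a, ha⟩) = 1 := by rw [map_mul, map_inv, hua, inv_mul_cancel]
  have h3 := (QuotientGroup.eq_one_iff _).mp h2
  rw [Subgroup.mem_subgroupOf] at h3
  simpa using h3

end Pool.Agent.CTM
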