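import Pool.Agent.CTM.BasA
import Pool.Agent.CTM.BasB
import Pool.Agent.CTM.BasC

/-!
# CTM: joint mixing: the group `Δ`
-/

set_option autoImplicit false

namespace Pool.Agent.CTM

universe u

variable {G : Type u} [Group G] [TopologicalSpace G] [IsTopologicalGroup G]

private theorem jma_small {V : Subgroup G} (hV : IsOpen (V : Set G)) {ι : Type} [Fintype ι] (b : ι → G) :
    ∃ V' : Subgroup G, IsOpen (V' : Set G) ∧ ∀ s, ∀ x ∈ V', cj x (b s) ∈ V := by
  choose W hW _ hW2 using fun s => small_cj hV (b s)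
  refine ⟨⨅ s, W s, ?_, ?_⟩
  · rw [Subgroup.coe_iInf]
    exact isOpen_iInter_of_finite hW
  · intro s x hx
    exact hW2 s x ((Subgroup.mem_iInf.1 hx) s)

/-- size 2.  `Δ ≤ G ^ ι`: the tuples `a` such that for every open subgroup `V` eventually some `u ∈ N` has `u ^ (z s i) ∈ (a s) V` for all `s`.  (Products: for `V` and `b` there is `V' ≤ V` open with
`cj w (b s) ∈ V` for all `s` and `w ∈ V'` (`small_cj` and a finite intersection); `(a s * b s)⁻¹ * cj (u u') z = cj ((a s)⁻¹ * cj u z) (b s) * ((b s)⁻¹ * cj u' z)`; inverse similar.) -/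
def Dl {ι : Type} [Fintype ι] (N : Subgroup G) (z : ι → ℕ → G) : Subgroup (ι → G) where
  carrier := {a | ∀ V : Subgroup G, IsOpen (V : Set G) → Ev (fun i => ∃ u ∈ N, ∀ s, (a s)⁻¹ * cj u (z s i) ∈ V)}
  mul_mem' := by
    intro a b ha hb V hV
    obtain ⟨V', hV', hc⟩ := jma_small hV b
    refine ((ha V' hV').and (hb V hV)).mono ?_
    rintro i ⟨⟨u, hu, h1⟩, u', hu', h2⟩
    refine ⟨u * u', N.mul_mem hu hu', fun s => ?_⟩
    have h3 : ((a * b) s)⁻¹ * cj (u * u') (z s i) = cj ((a s)⁻¹ * cj u (z s i)) (b s) * ((b s)⁻¹ * cj u' (z s i)) := by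
      simp only [Pi.mul_apply, cj]; group
    rw [h3]
    exact V.mul_mem (hc s _ (h1 s)) (h2 s)
  one_mem' := by
    intro V hV
    refine Ev.of_forall fun i => ⟨1, N.one_mem, fun s => ?_⟩
    rw [one_cj, Pi.one_apply, inv_one, one_mul]
    exact V.one_mem
  inv_mem' := by
    intro a ha V hV
    obtain ⟨V', hV', hc⟩ := jma_small hV (fun s => (a s)⁻¹)
    refine (ha V' hV').mono ?_
    rintro i ⟨u, hu, h1⟩
    refine ⟨u⁻¹, N.inv_mem hu, fun s => ?_⟩
    have h3 : ((a⁻¹) s)⁻¹ * cj (u⁻¹) (z s i) = (cj ((a s)⁻¹ * cj u (z s i)) (a s)⁻¹)⁻¹ := by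
      simp only [Pi.inv_apply, cj]; group
    rw [h3]
    exact V.inv_mem (hc s _ (h1 s))

theorem mem_Dl {ι : Type} [Fintype ι] {N : Subgroup G} {z : ι → ℕ → G} {a : ι → G} : a ∈ Dl N z ↔
    ∀ V : Subgroup G, IsOpen (V : Set G) → Ev (fun i => ∃ u ∈ N, ∀ s, (a s)⁻¹ * cj u (z s i) ∈ V) := Iff.rfl

/-- size 2.  Closed: if `a` is in the closure and `V` is given, the set of the `b` with `(a s)⁻¹ * b s ∈ V` for all `s` is a neighbourhood of `a` (`ι` finite: `isOpen_set_pi` or `isOpen_iInter_of_finite`), so meets `Δ`;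
`(a s)⁻¹ * cj u z = ((a s)⁻¹ * b s) * ((b s)⁻¹ * cj u z)`. -/
theorem Dl_closed {ι : Type} [Fintype ι] (N : Subgroup G) (z : ι → ℕ → G) : IsClosed (Dl N z : Set (ι → G)) := by
  refine isClosed_of_closure_subset fun a ha => ?_
  rw [SetLike.mem_coe, mem_Dl]
  intro V hV
  have hU : IsOpen {b : ι → G | ∀ s, (a s)⁻¹ * b s ∈ V} := by
    have h1 : {b : ι → G | ∀ s, (a s)⁻¹ * b s ∈ V} = ⋂ s, (fun b : ι → G => (a s)⁻¹ * b s) ⁻¹' (V : Set G) := by
      ext b; simp
    rw [h1]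
    exact isOpen_iInter_of_finite fun s => hV.preimage (continuous_const.mul (continuous_apply s))
  obtain ⟨b, hb1, hb2⟩ := mem_closure_iff.1 ha _ hU (by
    intro s
    rw [inv_mul_cancel]
    exact V.one_mem)
  refine ((mem_Dl.1 hb2) V hV).mono ?_
  rintro i ⟨u, hu, h1⟩
  refine ⟨u, hu, fun s => ?_⟩
  have h3 : (a s)⁻¹ * cj u (z s i) = ((a s)⁻¹ * b s) * ((b s)⁻¹ * cj u (z s i)) := by group
  rw [h3]
  exact V.mul_mem (hb1 s) (h1 s)

/-- size 3.  PROOF.  `c` compact, normalised by all `z s i`.  Suppose for every open `V` eventually there is `u ∈ c` with `P V i u`.  Precisely: let `x₀` be given by choice: for `V` open, eventually `u_i ∈ c` with the property; the tuple `(cj u_i (z r i))_r` is in the compact set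
`Set.univ.pi (fun _ => (c : Set G))` of `ι → G`; let `x` be its limit (`Lm.exists`).  `x ∈ Dl N z` (`u = u_i ∈ c ≤ N`, `Lm.coset` in each coordinate, `Ev.fintype`), and `x r ∈ b r * V` for `r ∈ J`, a closed condition.
So `S V := {x | x ∈ Dl N z ∧ ∀ r ∈ J, (b r)⁻¹ * x r ∈ V}` is closed (`Dl_closed`, `V` closed), meets the compact set, decreasing in `V`: `fam_inter` (with `C` = the compact product) gives `x` with `(b r)⁻¹ * x r ∈ V` for all open `V`, so `x r = b r` (`Hyp.eq_one`). -/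
theorem Dl_lim [T2Space G] (H : Hyp G) {ι : Type} [Fintype ι] {N c : Subgroup G} (hc : IsCompact (c : Set G)) (hcN : c ≤ N) {z : ι → ℕ → G}
    (hz : ∀ s i, ∀ x ∈ c, cj x (z s i) ∈ c) (J : Set ι) (b : ι → G)
    (h : ∀ V : Subgroup G, IsOpen (V : Set G) → Ev (fun i => ∃ u ∈ c, ∀ r ∈ J, (b r)⁻¹ * cj u (z r i) ∈ V)) :
    ∃ x ∈ Dl N z, ∀ r ∈ J, x r = b r := by
  classical
  have hcomp : IsCompact (Set.univ.pi (fun _ : ι => (c : Set G))) := isCompact_univ_pi fun _ => hc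
  have hclV : ∀ V : Subgroup G, IsOpen (V : Set G) → ∀ r, IsClosed {x : ι → G | (b r)⁻¹ * x r ∈ V} := by
    intro V hV r
    exact (Subgroup.isClosed_of_isOpen V hV).preimage (continuous_const.mul (continuous_apply r))
  obtain ⟨x, _, hx⟩ := fam_inter hcomp (fun V => {x : ι → G | x ∈ Dl N z ∧ ∀ r ∈ J, (b r)⁻¹ * x r ∈ V}) (by
      intro V hV
      have h1 : {x : ι → G | x ∈ Dl N z ∧ ∀ r ∈ J, (b r)⁻¹ * x r ∈ V}
          = (Dl N z : Set (ι → G)) ∩ ⋂ r ∈ J, {x : ι → G | (b r)⁻¹ * x r ∈ V} := by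
        ext x; simp
      rw [h1]
      exact (Dl_closed N z).inter (isClosed_biInter fun r _ => hclV V hV r)) (by
      intro V hV
      let u : ℕ → G := fun i => if hi : ∃ u ∈ c, ∀ r ∈ J, (b r)⁻¹ * cj u (z r i) ∈ V then hi.choose else 1
      have hu : Ev (fun i => u i ∈ c ∧ ∀ r ∈ J, (b r)⁻¹ * cj (u i) (z r i) ∈ V) := by
        refine (h V hV).mono fun i hi => ?_
        have h2 : u i = hi.choose := dif_pos hi
        rw [h2]
        exact hi.choose_spec
      obtain ⟨x, hxc, hlx⟩ := Lm.exists (x := fun i => (fun r => cj (u i) (z r i) : ι → G)) hcomp (by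
        refine hu.mono fun i hi => ?_
        intro r _
        exact hz r i _ hi.1)
      have hlr : ∀ r, Lm (fun i => cj (u i) (z r i)) (x r) := fun r => (tendsto_pi_nhds.1 hlx) r
      refine ⟨x, ⟨?_, ?_⟩, hxc⟩
      · rw [mem_Dl]
        intro V' hV'
        refine (hu.and (Ev.fintype fun s => Lm.coset hV' (hlr s))).mono fun i hi => ?_
        exact ⟨u i, hcN hi.1.1, hi.2⟩
      · intro r hr
        exact Lm.mem (hclV V hV r) hlx (hu.mono fun i hi => hi.2 r hr)) (by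
      intro V V' _ _ hle x hx
      exact ⟨hx.1, fun r hr => hle (hx.2 r hr)⟩)
  refine ⟨x, (hx ⊤ (by simp)).1, fun r hr => ?_⟩
  have h4 : (b r)⁻¹ * x r = 1 := H.eq_one fun V hV => (hx V hV).2 r hr
  exact (inv_mul_eq_one.1 h4).symm

end Pool.Agent.CTM
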