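import Pool.Agent.CTM.JmC
import Pool.Agent.CTM.Cgt

/-!
# CTM: joint mixing: density
-/

set_option autoImplicit false

namespace Pool.Agent.CTM

universe u

variable {G : Type u} [Group G] [TopologicalSpace G] [IsTopologicalGroup G] [T2Space G]

private def jmB_P {ι : Type} (D : Subgroup (ι → G)) (J : Finset ι) (t : ι) : Subgroup G where
  carrier := {b | ∃ x ∈ D, (∀ s ∈ J, x s = 1) ∧ x t = b}
  mul_mem' := by
    rintro b b' ⟨x, hx, hJ, ht⟩ ⟨x', hx', hJ', ht'⟩
    refine ⟨x * x', D.mul_mem hx hx', fun s hs => ?_, ?_⟩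
    · rw [Pi.mul_apply, hJ s hs, hJ' s hs, mul_one]
    · rw [Pi.mul_apply, ht, ht']
  one_mem' := ⟨1, D.one_mem, fun _ _ => rfl, rfl⟩
  inv_mem' := by
    rintro b ⟨x, hx, hJ, ht⟩
    refine ⟨x⁻¹, D.inv_mem hx, fun s hs => ?_, ?_⟩
    · rw [Pi.inv_apply, hJ s hs, inv_one]
    · rw [Pi.inv_apply, ht]

/-- size 3.  PROOF.  Induction on the finset `J`.  For `J` and `t ∉ J` let `P J := {b | ∃ x ∈ Dl N z, (∀ s ∈ J, x s = 1) ∧ x t = b}`, a subgroup of `G`.  Claim: `N ⊆ closure (P J)`.  `J = ∅`: `jm_one` and `cg_dense` (`Hyp.mem_closure`).  Step `insert s J`: with `x` for `J` (`x t = b`) and `x'` from `jm_two` for `s`, `t` (`x' s = 1`, `x' t = b'`, `b' ∈ c`, `Cg A N c`):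
`cm x x' ∈ Dl N z` (coordinatewise: `x⁻¹ * x'⁻¹ * x * x'`) is `1` on `J` and at `s`, and `cm b b'` at `t`.  So `cm b b' ∈ P (insert s J)` for `b ∈ P J` (dense in `N`) and `b'` in the union of the `Cg` (dense in `N`); by `cm_closure` all `cm x y`, `x y ∈ N`, are in
`closure (P (insert s J))` = the closed subgroup `(P _).topologicalClosure`; so `N` is in it (`MinN.le_of_cm`). -/
theorem jm_dense {K : ℕ → Subgroup G} (T : Tow K) {A N : Subgroup G} (h : MinN A N) {ι : Type} [Fintype ι]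
    {z : ι → ℕ → G} (hz : ∀ s i, z s i ∈ N)
    (hinf : ∀ s t, s ≠ t → ∀ m, Ev (fun i => (z s i)⁻¹ * z t i ∉ K m)) (J : Finset ι) (t : ι) (ht : t ∉ J) :
    (N : Set G) ⊆ closure {b | ∃ x ∈ Dl N z, (∀ s ∈ J, x s = 1) ∧ x t = b} := by
  classical
  have H := T.hyp
  induction J using Finset.induction_on generalizing t with
  | empty =>
    intro x hx
    rw [H.mem_closure]
    intro V hV
    obtain ⟨c, hc, y, hy, hxy⟩ := cg_dense H h x hx V hV
    obtain ⟨a, ha, hat⟩ := jm_one T h hz t hc hy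
    exact ⟨y, ⟨a, ha, fun s hs => absurd hs (Finset.notMem_empty s), hat⟩, hxy⟩
  | insert s J hs ih =>
    have hts : s ≠ t := fun e => ht (by rw [e]; exact Finset.mem_insert_self _ _)
    have htJ : t ∉ J := fun e => ht (Finset.mem_insert_of_mem e)
    have hdense := ih t htJ
    have hcl : ∀ x ∈ closure {b | ∃ x ∈ Dl N z, (∀ s ∈ J, x s = 1) ∧ x t = b},
        ∀ y ∈ closure {b : G | ∃ c : Subgroup G, Cg A N c ∧ b ∈ c},
        cm x y ∈ ((jmB_P (Dl N z) (insert s J) t).topologicalClosure : Set G) := by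
      refine cm_closure (Subgroup.isClosed_topologicalClosure _) ?_
      rintro x ⟨a, ha, haJ, hat⟩ y ⟨c, hc, hy⟩
      obtain ⟨a', ha', has', hat'⟩ := jm_two T h hz hts (hinf s t hts) hc hy
      apply Subgroup.le_topologicalClosure
      refine ⟨a⁻¹ * a'⁻¹ * a * a', (Dl N z).mul_mem ((Dl N z).mul_mem ((Dl N z).mul_mem
        ((Dl N z).inv_mem ha) ((Dl N z).inv_mem ha')) ha) ha', fun r hr => ?_, ?_⟩
      · simp only [Pi.mul_apply, Pi.inv_apply]
        rcases Finset.mem_insert.1 hr with e | e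
        · rw [e, has']
          group
        · rw [haJ r e]
          group
      · simp only [Pi.mul_apply, Pi.inv_apply]
        rw [hat, hat']
        rfl
    have hle : N ≤ (jmB_P (Dl N z) (insert s J) t).topologicalClosure := by
      refine MinN.le_of_cm H h (Subgroup.isClosed_topologicalClosure _) fun x hx y hy => ?_
      refine hcl x (hdense hx) y ?_
      rw [H.mem_closure]
      intro V hV
      obtain ⟨c, hc, w, hw, hyw⟩ := cg_dense H h y hy V hV
      exact ⟨w, ⟨c, hc, hw⟩, hyw⟩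
    exact hle

end Pool.Agent.CTM
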