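import Pool.Agent.CTM.Mnn

/-!
# CTM: properties of `MinN`
-/

set_option autoImplicit false

namespace Pool.Agent.CTM

universe u

variable {G : Type u} [Group G] [TopologicalSpace G] [IsTopologicalGroup G] [T2Space G]

/-- size 2.  `N = cl [N, N]`.  PROOF.  `Z := cl ⁅N, N⁆` is closed, `≤ N`, normalised by `A` (`nm_comm`, `nm_topClosure_right`); if `Z ≠ N` it is compact (`mn`), and `AB` (for `N`, `Z`; `cm_mem_comm`) shows that `N` is compact. -/
theorem MinN.perf (H : Hyp G) {A N : Subgroup G} (h : MinN A N) :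
    (N : Set G) ⊆ closure ((⁅N, N⁆ : Subgroup G) : Set G) := by
  have hle : (⁅N, N⁆ : Subgroup G) ≤ N := comm_le_left (nm_self N)
  have hZ : (⁅N, N⁆ : Subgroup G).topologicalClosure ≤ N :=
    Subgroup.topologicalClosure_minimal _ hle h.cl
  rcases h.mn _ (Subgroup.isClosed_topologicalClosure _) hZ
    (nm_topClosure_right (nm_comm h.nm h.nm)) with h1 | h1
  · intro x hx
    have : x ∈ (⁅N, N⁆ : Subgroup G).topologicalClosure := by rw [h1]; exact hx
    exact this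
  · exact absurd (H.ab N _ h.cl h1 hZ fun a ha b hb =>
      Subgroup.le_topologicalClosure _ (cm_mem_comm ha hb)) h.nc

/-- size 1.  If all commutators of `N` are in a closed subgroup `Z` normalised by `A` then `N ≤ Z`.  (`perf`, `comm_le`.)  -/
theorem MinN.le_of_cm (H : Hyp G) {A N : Subgroup G} (h : MinN A N) {Z : Subgroup G} (hZ : IsClosed (Z : Set G))
    (hc : ∀ x ∈ N, ∀ y ∈ N, cm x y ∈ Z) : N ≤ Z := by
  intro x hx
  have h1 : (⁅N, N⁆ : Subgroup G) ≤ Z := comm_le hc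
  exact closure_minimal (SetLike.coe_subset_coe.2 h1) hZ (h.perf H hx)

private def Mnp_fam (A : Subgroup G) : Set (Subgroup G) :=
  {C | IsCompact (C : Set G) ∧ C ≤ A ∧ Nm A C}

private theorem Mnp_bot (A : Subgroup G) : (⊥ : Subgroup G) ∈ Mnp_fam A := by
  refine ⟨?_, bot_le, ?_⟩
  · rw [Subgroup.coe_bot]; exact isCompact_singleton
  · intro a _ y hy
    rw [Subgroup.mem_bot] at hy ⊢
    rw [hy, one_cj]

private def Mnp_uni (A N : Subgroup G) : Subgroup G where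
  carrier := {x | ∃ C ∈ Mnp_fam A, x ∈ N ⊓ C}
  one_mem' := ⟨⊥, Mnp_bot A, N.one_mem, Subgroup.one_mem _⟩
  inv_mem' := fun {_} hx => by
    obtain ⟨C, hC, hx⟩ := hx
    exact ⟨C, hC, (N ⊓ C).inv_mem hx⟩
  mul_mem' := fun {x y} hx hy => by
    obtain ⟨C, hC, hx⟩ := hx
    obtain ⟨C', hC', hy⟩ := hy
    refine ⟨C ⊔ C', cpt_nm_sup le_rfl hC.1 hC'.1 hC.2.1 hC'.2.1 hC.2.2 hC'.2.2,
      N.mul_mem hx.1 hy.1, ?_⟩
    exact (C ⊔ C').mul_mem ((le_sup_left : C ≤ C ⊔ C') hx.2) ((le_sup_right : C' ≤ C ⊔ C') hy.2)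

/-- size 3.  PROOF.  `N' := cl (⨆ C, N ⊓ C)` over all compact subgroups `C ≤ A` with `Nm A C`; a directed union (`C ⊔ C'`), so every element of `N'` is a limit of elements of such `N ⊓ C`, which are compact, normalised by `A`,
`≤ N`.  For `x ∈ N`, `y ∈ C`: `cm x y ∈ N ⊓ C` (`N`, `C` normalised by `A`).  By density (`CND.dn`: the union of the `C` is dense in `A`; `cm_closure`) `cm x y ∈ N'` for `x ∈ N`, `y ∈ A`.  So `N ≤ N'` (`le_of_cm`). -/
theorem MinN.dense (H : Hyp G) {A N : Subgroup G} (h : MinN A N) : ∀ x ∈ N, ∀ V : Subgroup G, IsOpen (V : Set G) →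
    ∃ C : Subgroup G, IsCompact (C : Set G) ∧ C ≤ N ∧ Nm A C ∧ ∃ c ∈ C, x⁻¹ * c ∈ V := by
  intro x hx V hV
  have hcm : ∀ x ∈ N, ∀ y ∈ N, cm x y ∈ (Mnp_uni A N).topologicalClosure := by
    intro x hx y hy
    have key := cm_closure (S := (N : Set G)) (S' := {y | ∃ C ∈ Mnp_fam A, y ∈ C})
      (Z := ((Mnp_uni A N).topologicalClosure : Set G))
      (Subgroup.isClosed_topologicalClosure _) ?_
    · refine key x (subset_closure hx) y ?_
      rw [H.mem_closure]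
      intro W hW
      obtain ⟨C, hC1, hC2, hC3, c, hc, hcW⟩ := h.cnd.dn y (h.le hy) W hW
      exact ⟨c, ⟨C, ⟨hC1, hC2, hC3⟩, hc⟩, hcW⟩
    · intro x hx y hy
      obtain ⟨C, hC, hy⟩ := hy
      refine Subgroup.le_topologicalClosure _ ⟨C, hC, ?_, ?_⟩
      · rw [cm_eq]
        exact N.mul_mem (N.inv_mem hx) (h.nm y (hC.2.1 hy) x hx)
      · rw [cm_eq']
        exact C.mul_mem (C.inv_mem (hC.2.2 x (h.le hx) y hy)) hy
  have hN := h.le_of_cm H (Subgroup.isClosed_topologicalClosure _) hcm hx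
  have hN' : x ∈ closure ((Mnp_uni A N : Subgroup G) : Set G) := hN
  rw [H.mem_closure] at hN'
  obtain ⟨c, ⟨C, hC, hc⟩, hcV⟩ := hN' V hV
  refine ⟨N ⊓ C, ?_, inf_le_left, nm_inf h.nm hC.2.2, c, hc, hcV⟩
  rw [Subgroup.coe_inf]
  exact hC.1.inter_left h.cl

end Pool.Agent.CTM
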