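import Pool.Agent.CTM.MxG
import Pool.Agent.CTM.Cgs
import Pool.Agent.CTM.Mnp

/-!
# CTM: mixing: the alternative
-/

set_option autoImplicit false

namespace Pool.Agent.CTM

universe u

variable {G : Type u} [Group G] [TopologicalSpace G] [IsTopologicalGroup G] [T2Space G]

/-- size 3.  PROOF.  Let `b ∈ Bz z R`, `g ∈ c`.  To show `cm b g ∈ Bz z c`; `cm b g ∈ c` as `c` is normalised by `N`.  Let `V` be open.  By `core_exists` (for `c`) let `V' ≤ V` open, normalised by `c`; by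
continuity of `x ↦ cm x g` at `b` there is `V'' ≤ V'` open with `(cm b g)⁻¹ * cm (b w) g ∈ V` for all `w ∈ V''` (base of open subgroups `H.base`).  Eventually there is `v ∈ R ⊓ V''` with `b⁻¹ * cj v (z i) ∈ V''`.  Put `g_i := cj g (z i)⁻¹ ∈ c`, `v' := cm v g_i`.
`v' ∈ c` (`c` is normalised by `v ∈ R ≤ N`: `cm v g_i = (cj g_i v)⁻¹ * g_i`), `v' = v⁻¹ * cj v g_i ∈ V'` (`v ∈ V'`, `V'` normalised by `c ∋ g_i`), and `cj v' (z i) = cm (cj v (z i)) g` (`cm_cj`, `cj_inv_cj`), so `(cm b g)⁻¹ * cj v' (z i) ∈ V`. -/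
theorem Bz_cm (H : Hyp G) {A N : Subgroup G} (h : MinN A N) {z : ℕ → G} (hz : ∀ i, z i ∈ N) {R c : Subgroup G}
    (hRN : R ≤ N) (hc : Cg A N c) : ∀ b ∈ Bz z R, ∀ g ∈ c, cm b g ∈ Bz z c := by
  intro b hb g hg
  have hnc : ∀ y ∈ c, ∀ x ∈ N, cj y x ∈ c := fun y hy x hx => hc.nm x (h.le hx) y hy
  have hbN : b ∈ N := hRN hb.1
  have hcmc : ∀ x ∈ N, ∀ y ∈ c, cm x y ∈ c := by
    intro x hx y hy
    rw [cm_eq']
    exact c.mul_mem (c.inv_mem (hnc y hy x hx)) hy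
  refine ⟨hcmc b hbN g hg, fun V hV => ?_⟩
  obtain ⟨V', hV'o, hV'V, hV'n⟩ := core_exists hc.cpt hV
  obtain ⟨Va, hVao, hVaV, hVa⟩ := small_cj hV'o (cm b g)
  obtain ⟨Vb, hVbo, hVbV, hVb⟩ := small_cj hV'o g
  have hVo : IsOpen ((Va ⊓ Vb : Subgroup G) : Set G) := by
    rw [Subgroup.coe_inf]
    exact hVao.inter hVbo
  refine (hb.2 (Va ⊓ Vb) hVo).mono ?_
  rintro i ⟨v, hvR, hvV, hvb⟩
  have hgi : cj g (z i)⁻¹ ∈ c := hnc g hg _ (N.inv_mem (hz i))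
  refine ⟨cm v (cj g (z i)⁻¹), hcmc v (hRN hvR) _ hgi, ?_, ?_⟩
  · rw [cm_eq]
    exact hV'V (V'.mul_mem (V'.inv_mem (hVaV hvV.1)) (hV'n _ hgi v (hVaV hvV.1)))
  · rw [cm_cj, cj_inv_cj]
    have key : ∀ x : G, (cm b g)⁻¹ * cm x g
        = ((cj (b⁻¹ * x) (cm b g))⁻¹ * (b⁻¹ * x)) * ((b⁻¹ * x)⁻¹ * cj (b⁻¹ * x) g) := by
      intro x
      unfold cj cm
      group
    rw [key]
    have h1 : b⁻¹ * cj v (z i) ∈ V' := hVaV hvb.1
    exact hV'V (V'.mul_mem (V'.mul_mem (V'.inv_mem (hVa _ hvb.1)) h1)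
      (V'.mul_mem (V'.inv_mem h1) (hVb _ hvb.2)))

/-- size 3.  PROOF.  `Z := cl (⨆ R, Bz z R)` over all compact `R ≤ N` with `Nm A R` (directed by `Bz_mono`, `cpt_nm_sup`), closed, `≤ N`, normalised by `A` (`Bz_nm`).  If `Z` is compact: left alternative with `C = Z`.  Otherwise `Z = N` (`mn`): by `Bz_cm` and `cm_closure`
`cm b g ∈ Bz z c` (closed, `Bz_closed`) for all `b ∈ N`, `g ∈ c`, so `⁅c, N⁆ ≤ Bz z c` (`comm_le`, a commutator `cm g b = (cm b g)⁻¹`), so `c ≤ cl ⁅c, N⁆ ≤ Bz z c` (`Cg.pf`). -/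
theorem Bz_alt (H : Hyp G) {A N : Subgroup G} (h : MinN A N) {z : ℕ → G} (hz : ∀ i, z i ∈ N) :
    (∃ C : Subgroup G, IsCompact (C : Set G) ∧ C ≤ N ∧ Nm A C ∧
      ∀ R : Subgroup G, IsCompact (R : Set G) → R ≤ N → Nm A R → Bz z R ≤ C) ∨
    ∀ c : Subgroup G, Cg A N c → c ≤ Bz z c := by
  have hzA : ∀ i, z i ∈ A := fun i => h.le (hz i)
  let U : Subgroup G :=
    { carrier := {b | ∃ R : Subgroup G, IsCompact (R : Set G) ∧ R ≤ N ∧ Nm A R ∧ b ∈ Bz z R}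
      mul_mem' := by
        rintro b b' ⟨R, h1, h2, h3, h4⟩ ⟨R', h1', h2', h3', h4'⟩
        obtain ⟨k1, k2, k3⟩ := cpt_nm_sup h.le h1 h1' h2 h2' h3 h3'
        exact ⟨R ⊔ R', k1, k2, k3, (Bz z (R ⊔ R')).mul_mem (Bz_mono z le_sup_left h4)
          (Bz_mono z le_sup_right h4')⟩
      one_mem' := by
        refine ⟨⊥, ?_, bot_le, ?_, (Bz z ⊥).one_mem⟩
        · rw [Subgroup.coe_bot]
          exact isCompact_singleton
        · intro a _ y hy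
          rw [Subgroup.mem_bot] at hy ⊢
          rw [hy, one_cj]
      inv_mem' := by
        rintro b ⟨R, h1, h2, h3, h4⟩
        exact ⟨R, h1, h2, h3, (Bz z R).inv_mem h4⟩ }
  have hU : ∀ b, b ∈ U ↔ ∃ R : Subgroup G, IsCompact (R : Set G) ∧ R ≤ N ∧ Nm A R ∧ b ∈ Bz z R :=
    fun b => Iff.rfl
  have hUN : U ≤ N := by
    intro b hb
    obtain ⟨R, _, h2, _, h4⟩ := (hU b).mp hb
    exact h2 (Bz_le z R h4)
  have hUn : Nm A U := by
    intro a ha b hb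
    obtain ⟨R, h1, h2, h3, h4⟩ := (hU b).mp hb
    exact (hU _).mpr ⟨R, h1, h2, h3, Bz_nm H h.cnd hzA h1.isClosed h3 a ha b h4⟩
  have hZN : U.topologicalClosure ≤ N := Subgroup.topologicalClosure_minimal U hUN h.cl
  rcases h.mn U.topologicalClosure (Subgroup.isClosed_topologicalClosure U) hZN
    (nm_topClosure_right hUn) with hZ | hZ
  · right
    intro c hc
    have hcl : IsClosed (Bz z c : Set G) := Bz_closed H z hc.cpt.isClosed
    have h1 : ∀ x ∈ (U : Set G), ∀ y ∈ (c : Set G), cm x y ∈ (Bz z c : Set G) := by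
      intro x hx y hy
      obtain ⟨R, _, h2, _, h4⟩ := (hU x).mp hx
      exact Bz_cm H h hz h2 hc x h4 y hy
    have h2 := cm_closure hcl h1
    have h3 : ∀ x ∈ N, ∀ y ∈ c, cm x y ∈ Bz z c := by
      intro x hx y hy
      rw [← hZ] at hx
      exact h2 x hx y (subset_closure hy)
    have h4 : (⁅c, N⁆ : Subgroup G) ≤ Bz z c := by
      apply comm_le
      intro x hx y hy
      rw [← cm_inv]
      exact (Bz z c).inv_mem (h3 y hy x hx)
    intro x hx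
    exact closure_minimal h4 hcl (hc.pf hx)
  · left
    refine ⟨U.topologicalClosure, hZ, hZN, nm_topClosure_right hUn, ?_⟩
    intro R h1 h2 h3 b hb
    exact Subgroup.le_topologicalClosure U ((hU b).mpr ⟨R, h1, h2, h3, hb⟩)

end Pool.Agent.CTM
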