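import Pool.Agent.CTM.MxA
import Pool.Agent.CTM.Cgs

/-!
# CTM: mixing: the swap
-/

set_option autoImplicit false

namespace Pool.Agent.CTM

universe u

variable {G : Type u} [Group G] [TopologicalSpace G] [IsTopologicalGroup G] [T2Space G]

/-- size 3.  THE SWAP.  PROOF.  `W₀ ≤ V` open normalised by `c` (`core_exists`), `W := W₀ ⊓ c` is normal in `c`.  `T ⊆ c` finite with `c ⊆ T W₀` (`finite_cover`).  Eventually (`Ev.finset`) for all `t ∈ T` there is `v ∈ c ⊓ W₀` with `t⁻¹ * cj v (z i)⁻¹ ∈ W₀`.  Fix such an `i`, `z = z i`.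
So every `b ∈ c` is `cj v z⁻¹ * w` with `v w ∈ W` (`b = t w'`, `cj v z⁻¹ = t w''`).  Now let `b ∈ c`.  Apply this to `b'⁻¹`, where `b' := cj b z⁻¹ ∈ c`: `b'⁻¹ = cj v z⁻¹ * w`, so `b' = w⁻¹ * cj v⁻¹ z⁻¹`, so `b = cj b' z = cj w⁻¹ z * v⁻¹`, and `w⁻¹ ∈ c ⊓ V`, `b⁻¹ * cj w⁻¹ z = v ∈ V`. -/
theorem mix_swap (H : Hyp G) {A N c : Subgroup G} (hN : N ≤ A) (hc : Cg A N c) {z : ℕ → G} (hz : ∀ i, z i ∈ N)
    (h : c ≤ Bz (fun i => (z i)⁻¹) c) {V : Subgroup G} (hV : IsOpen (V : Set G)) :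
    Ev (fun i => ∀ b ∈ c, ∃ v ∈ c, v ∈ V ∧ b⁻¹ * cj v (z i) ∈ V) := by
  obtain ⟨T, hTc, hT⟩ := finite_cover hc.cpt hV
  have h1 : Ev (fun i => ∀ t ∈ T, ∃ v ∈ c, v ∈ V ∧ t⁻¹ * cj v ((fun i => (z i)⁻¹) i) ∈ V) :=
    Ev.finset fun t ht => (h (hTc t ht)).2 V hV
  refine h1.mono fun i hi b hb => ?_
  have hzA : z i ∈ A := hN (hz i)
  have key : ∀ b ∈ c, ∃ v ∈ V, ∃ w ∈ V, w ∈ c ∧ b = cj v (z i)⁻¹ * w := by
    intro b hb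
    obtain ⟨t, ht, htb⟩ := hT b hb
    obtain ⟨v, hvc, hvV, hv⟩ := hi t ht
    refine ⟨v, hvV, (cj v (z i)⁻¹)⁻¹ * b, ?_, ?_, by group⟩
    · have e : (cj v (z i)⁻¹)⁻¹ * b = (t⁻¹ * cj v (z i)⁻¹)⁻¹ * (t⁻¹ * b) := by group
      rw [e]
      exact V.mul_mem (V.inv_mem hv) htb
    · exact c.mul_mem (c.inv_mem (hc.nm _ (A.inv_mem hzA) v hvc)) hb
  have hb' : cj b (z i)⁻¹ ∈ c := hc.nm _ (A.inv_mem hzA) b hb
  obtain ⟨v, hv, w, hw, hwc, e⟩ := key _ (c.inv_mem hb')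
  refine ⟨w⁻¹, c.inv_mem hwc, V.inv_mem hw, ?_⟩
  have e2 : cj b (z i)⁻¹ = w⁻¹ * cj v⁻¹ (z i)⁻¹ := by
    rw [← inv_inv (cj b (z i)⁻¹), e, inv_cj]; group
  have e3 : b = cj w⁻¹ (z i) * v⁻¹ := by
    rw [← cj_inv_cj b (z i), e2, mul_cj, cj_inv_cj]
  have e4 : b⁻¹ * cj w⁻¹ (z i) = v := by
    rw [e3]; group
  rw [e4]
  exact hv

/-- size 2.  The same without the swap (finite cover, `Ev.finset`): if `c ≤ Bz z c` then eventually all `b ∈ c` have a `v`.  (`T ⊆ c` finite, `c ⊆ T V`; `t⁻¹ * cj v (z i) ∈ V`, `b = t w`.) -/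
theorem mix_dir {c : Subgroup G} (hc : IsCompact (c : Set G)) {z : ℕ → G}
    (h : c ≤ Bz z c) {V : Subgroup G} (hV : IsOpen (V : Set G)) :
    Ev (fun i => ∀ b ∈ c, ∃ v ∈ c, v ∈ V ∧ b⁻¹ * cj v (z i) ∈ V) := by
  obtain ⟨T, hTc, hT⟩ := finite_cover hc hV
  have h1 : Ev (fun i => ∀ t ∈ T, ∃ v ∈ c, v ∈ V ∧ t⁻¹ * cj v (z i) ∈ V) :=
    Ev.finset fun t ht => (h (hTc t ht)).2 V hV
  refine h1.mono fun i hi b hb => ?_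
  obtain ⟨t, ht, htb⟩ := hT b hb
  obtain ⟨v, hvc, hvV, hv⟩ := hi t ht
  refine ⟨v, hvc, hvV, ?_⟩
  have e : b⁻¹ * cj v (z i) = (t⁻¹ * b)⁻¹ * (t⁻¹ * cj v (z i)) := by group
  rw [e]
  exact V.mul_mem (V.inv_mem htb) hv

end Pool.Agent.CTM
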