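import Pool.Agent.CTM.MxD
import Pool.Agent.CTM.MxC
import Pool.Agent.CTM.MxE

/-!
# CTM: the mixing theorem
-/

set_option autoImplicit false

namespace Pool.Agent.CTM

universe u

variable {G : Type u} [Group G] [TopologicalSpace G] [IsTopologicalGroup G] [T2Space G]

/-- size 3.  MIX.  PROOF.  Otherwise choose for every `m` some `z m ∈ N`, `z m ∉ K m`, which fails.  `z → ∞`: `Ev (fun i => z i ∉ K m)` (`Ev.of_ge`, `mono`).  By `Bz_alt` for `z` and for `z⁻¹`: if both left alternatives hold with `C`, `C'`: `mix_bdd` with `C ⊔ C'` (`cpt_nm_sup`): contradiction.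
Otherwise `c ≤ Bz z c` (`mix_dir`) or `c ≤ Bz z⁻¹ c` (`mix_swap`): eventually `z i` does not fail: contradiction. -/
theorem mix {K : ℕ → Subgroup G} (T : Tow K) {A N : Subgroup G} (h : MinN A N) {c : Subgroup G} (hc : Cg A N c)
    {V : Subgroup G} (hV : IsOpen (V : Set G)) :
    ∃ m, ∀ z ∈ N, z ∉ K m → ∀ b ∈ c, ∃ v ∈ c, v ∈ V ∧ b⁻¹ * cj v z ∈ V := by
  by_contra hne
  push Not at hne
  choose z hzN hzK b hb hf using hne
  have hinf : ∀ m, Ev (fun i => z i ∉ K m) := fun m =>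
    Ev.of_ge m fun i hi hk => hzK i (T.mono hi hk)
  have hzN' : ∀ i, (z i)⁻¹ ∈ N := fun i => N.inv_mem (hzN i)
  have hfin : Ev (fun i => ∀ b ∈ c, ∃ v ∈ c, v ∈ V ∧ b⁻¹ * cj v (z i) ∈ V) → False := by
    intro hev
    obtain ⟨i, hi⟩ := hev.exists
    obtain ⟨v, hv, hvV, hvb⟩ := hi (b i) (hb i)
    exact hf i v hv hvV hvb
  rcases Bz_alt T.hyp h (z := z) hzN with ⟨C, hC, hCN, hCn, h1⟩ | h1
  · rcases Bz_alt T.hyp h (z := fun i => (z i)⁻¹) hzN' with ⟨C', hC', hCN', hCn', h2⟩ | h2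
    · have hcn := cpt_nm_sup h.le hC hC' hCN hCN' hCn hCn'
      exact mix_bdd T h hcn.1 (sup_le hCN hCN') hcn.2.2 hzN hinf
        (fun R hR hRN hRn => (h1 R hR hRN hRn).trans le_sup_left)
        (fun R hR hRN hRn => (h2 R hR hRN hRn).trans le_sup_right)
    · exact hfin (mix_swap T.hyp h.le hc hzN (h2 c hc) hV)
  · exact hfin (mix_dir hc.cpt (h1 c hc) hV)

end Pool.Agent.CTM
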