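import Pool.Agent.CTM.JmA
import Pool.Agent.CTM.MxF

/-!
# CTM: joint mixing: one and two coordinates
-/

set_option autoImplicit false

namespace Pool.Agent.CTM

universe u

variable {G : Type u} [Group G] [TopologicalSpace G] [IsTopologicalGroup G]

/-- size 1.  ONE COORDINATE.  `Dl_lim` with `J = {t}`, `u = cj b (z t i)⁻¹ ∈ c`. -/
theorem jm_one [T2Space G] {K : ℕ → Subgroup G} (T : Tow K) {A N : Subgroup G} (h : MinN A N) {ι : Type} [Fintype ι]
    {z : ι → ℕ → G} (hz : ∀ s i, z s i ∈ N) (t : ι) {c : Subgroup G} (hc : Cg A N c) {b : G} (hb : b ∈ c) :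
    ∃ x ∈ Dl N z, x t = b := by
  obtain ⟨x, hx, hxr⟩ := Dl_lim T.hyp (N := N) hc.cpt hc.le (z := z)
    (fun s i x hx => hc.nm _ (h.le (hz s i)) x hx) {t} (fun _ => b)
    (fun V _ => Ev.of_forall fun i => ⟨cj b (z t i)⁻¹,
      hc.nm _ (A.inv_mem (h.le (hz t i))) b hb, fun r hr => by
        rw [Set.mem_singleton_iff] at hr
        subst hr
        show b⁻¹ * cj (cj b (z r i)⁻¹) (z r i) ∈ V
        rw [cj_inv_cj, inv_mul_cancel]
        exact V.one_mem⟩)
  exact ⟨x, hx, hxr t (Set.mem_singleton t)⟩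

/-- size 2.  TWO COORDINATES.  `Dl_lim` with `J = {s, t}`, `b s = 1`, `b t = b` (e.g. `fun r => if r = t then b else 1`, classical).  Given `V`: `mix` for `c`, `V` gives `m`; eventually `w := (z s i)⁻¹ * z t i ∈ N` is not in `K m`, so there is `v ∈ c ⊓ V` with
`b⁻¹ * cj v w ∈ V`; `u := cj v (z s i)⁻¹ ∈ c`: `cj u (z s i) = v ∈ V`, `cj u (z t i) = cj v w`. -/
theorem jm_two [T2Space G] {K : ℕ → Subgroup G} (T : Tow K) {A N : Subgroup G} (h : MinN A N) {ι : Type} [Fintype ι]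
    {z : ι → ℕ → G} (hz : ∀ s i, z s i ∈ N) {s t : ι} (hst : s ≠ t)
    (hinf : ∀ m, Ev (fun i => (z s i)⁻¹ * z t i ∉ K m)) {c : Subgroup G} (hc : Cg A N c) {b : G} (hb : b ∈ c) :
    ∃ x ∈ Dl N z, x s = 1 ∧ x t = b := by
  classical
  obtain ⟨x, hx, hxr⟩ := Dl_lim T.hyp (N := N) hc.cpt hc.le (z := z)
    (fun s i x hx => hc.nm _ (h.le (hz s i)) x hx) {s, t} (fun r => if r = t then b else 1)
    (fun V hV => by
      obtain ⟨m, hm⟩ := mix T h hc hV
      refine (hinf m).mono fun i hi => ?_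
      obtain ⟨v, hv, hvV, hbv⟩ := hm ((z s i)⁻¹ * z t i)
        (N.mul_mem (N.inv_mem (hz s i)) (hz t i)) hi b hb
      refine ⟨cj v (z s i)⁻¹, hc.nm _ (A.inv_mem (h.le (hz s i))) v hv, fun r hr => ?_⟩
      rcases hr with hr | hr
      · subst hr
        simp only [if_neg hst, inv_one, one_mul]
        rw [cj_inv_cj]
        exact hvV
      · rw [Set.mem_singleton_iff] at hr
        subst hr
        simp only [if_true]
        rw [cj_cj]
        exact hbv)
  refine ⟨x, hx, ?_, ?_⟩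
  · have h1 := hxr s (Set.mem_insert s {t})
    simpa [if_neg hst] using h1
  · have h1 := hxr t (Set.mem_insert_of_mem s (Set.mem_singleton t))
    simpa using h1

end Pool.Agent.CTM
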