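import Pool.Agent.CTM.SyH

/-!
# CTM: the layers
-/

set_option autoImplicit false

namespace Pool.Agent.CTM

universe u

variable {G : Type u} [Group G] [TopologicalSpace G]

variable [IsTopologicalGroup G] [T2Space G]

/-- size 3.  PROOF.  `X := N ⊓ (B ⊔ P)`-like: here `B`, `B' = B ⊔ P` compact, `P` pro-`p` normalising `B`, `X = N ⊓ B'`, `Y = N ⊓ B`, `N` closed.  (1) There is `V` open with: `y ∈ X`, `y ∈ B V` implies `y ∈ Y ⊔ (W ⊓ X)`: otherwise the closed sets `{y ∈ X | (∃ b ∈ B, b⁻¹ * y ∈ V) ∧ y ∉ Y ⊔ (W ⊓ X)}` (`Y ⊔ (W ⊓ X)` is the set of the products `y' * w` as `X` normalises `W`... it is open in `X`: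
`x ∉ Y ⊔ (W ⊓ X)` implies `x w ∉` for `w ∈ W ⊓ X`; so the condition is closed in `X`) are nonempty, decreasing in `V`: `fam_inter` gives `y ∈ X` in all `B V`, so in `B` (closed), so in `Y`: contradiction.  (2) `V' ≤ V` open, normalised by the compact `B'`.  The finite group `B' ⧸ (B ⊔ (V' ⊓ B'))` is the image of `P`, so its order divides `V'.relIndex P`, a power of `p`
(`Pp.relIndex_eq`).  So `x ^ (p ^ k) ∈ B ⊔ (V' ⊓ B')` for some `k`, i.e. in `B V`; and `x ^ (p ^ k) ∈ X`. -/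
theorem layer {N B P X W : Subgroup G} {p : ℕ} (hp : p.Prime) (H : Hyp G) (hN : IsClosed (N : Set G))
    (hB : IsCompact (B : Set G)) (hP : Pp {p} P) (hn : Nm P B) (hX : X = N ⊓ (B ⊔ P)) (hW : IsOpen (W : Set G))
    (hWn : Nm X W) {x : G} (hx : x ∈ X) : ∃ k : ℕ, x ^ (p ^ k) ∈ (N ⊓ B) ⊔ (W ⊓ X) := by
  have hBP : IsCompact ((B ⊔ P : Subgroup G) : Set G) := cpt_sup hB hP.1 hn
  have hXc : IsCompact (X : Set G) := by
    rw [hX, Subgroup.coe_inf]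
    exact hBP.inter_left hN
  have hXN : ∀ y ∈ X, y ∈ N := fun y hy => by rw [hX] at hy; exact hy.1
  have hXB : ∀ y ∈ X, y ∈ B ⊔ P := fun y hy => by rw [hX] at hy; exact hy.2
  have hclT : IsClosed {y : G | y ∈ X ∧ y ∉ (N ⊓ B) ⊔ (W ⊓ X)} := by
    rw [← closure_subset_iff_isClosed]
    intro z hz
    rw [H.mem_closure] at hz
    have hzX : z ∈ X := by
      have h1 : z ∈ closure (X : Set G) := by
        rw [H.mem_closure]
        intro V hV
        obtain ⟨s, hs, hs'⟩ := hz V hV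
        exact ⟨s, hs.1, hs'⟩
      rwa [hXc.isClosed.closure_eq] at h1
    refine ⟨hzX, fun hzT => ?_⟩
    obtain ⟨s, hs, hs'⟩ := hz W hW
    apply hs.2
    have h2 : z⁻¹ * s ∈ (N ⊓ B) ⊔ (W ⊓ X) :=
      (le_sup_right : W ⊓ X ≤ _) ⟨hs', X.mul_mem (X.inv_mem hzX) hs.1⟩
    have h3 := Subgroup.mul_mem _ hzT h2
    rwa [mul_inv_cancel_left] at h3
  obtain ⟨V, hV, hVT⟩ : ∃ V : Subgroup G, IsOpen (V : Set G) ∧
      ∀ y ∈ X, (∃ b ∈ B, b⁻¹ * y ∈ V) → y ∈ (N ⊓ B) ⊔ (W ⊓ X) := by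
    by_contra hcon
    push Not at hcon
    obtain ⟨b, hbC, hb⟩ := fam_inter (G := G) hXc
      (fun V => {y : G | y ∈ X ∧ y ∉ (N ⊓ B) ⊔ (W ⊓ X)} ∩ {y : G | ∃ b ∈ B, b⁻¹ * y ∈ V})
      (by
        intro V hV
        refine hclT.inter (clopen_of_coset hV ?_).1
        rintro y ⟨b, hb, hby⟩ v hv
        exact ⟨b, hb, by rw [← mul_assoc]; exact V.mul_mem hby hv⟩)
      (by
        intro V hV
        obtain ⟨y, hyX, ⟨b, hb, hby⟩, hyT⟩ := hcon V hV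
        exact ⟨y, ⟨⟨hyX, hyT⟩, ⟨b, hb, hby⟩⟩, hyX⟩)
      (by
        rintro V V' hV hV' hle y ⟨hy, b, hb, hby⟩
        exact ⟨hy, b, hb, hle hby⟩)
    have hbB : b ∈ B := by
      have h1 : b ∈ closure (B : Set G) := by
        rw [H.mem_closure]
        intro V hV
        obtain ⟨-, s, hs, hs'⟩ := hb V hV
        refine ⟨s, hs, ?_⟩
        have := V.inv_mem hs'
        rwa [mul_inv_rev, inv_inv] at this
      rwa [hB.isClosed.closure_eq] at h1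
    obtain ⟨⟨-, hbT⟩, -⟩ := hb ⊤ isOpen_univ
    exact hbT ((le_sup_left : N ⊓ B ≤ _) ⟨hXN b hbC, hbB⟩)
  obtain ⟨b, hb, m, hm, rfl⟩ := (mem_sup_nm hn).1 (hXB x hx)
  obtain ⟨e, he⟩ := hP.pow hV hm
  refine ⟨e, hVT _ (X.pow_mem hx _) ?_⟩
  have key : ∀ n : ℕ, ∃ b' ∈ B, (b * m) ^ n = b' * m ^ n := by
    intro n
    induction n with
    | zero => exact ⟨1, B.one_mem, by simp⟩
    | succ n ih =>
      obtain ⟨b', hb', h⟩ := ih
      refine ⟨b' * cj b (m ^ n)⁻¹, B.mul_mem hb' (hn _ (P.inv_mem (P.pow_mem hm n)) b hb), ?_⟩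
      rw [pow_succ, h, pow_succ]
      unfold cj
      group
  obtain ⟨b', hb', h⟩ := key (p ^ e)
  exact ⟨b', hb', by rw [h, inv_mul_cancel_left]; exact he⟩

end Pool.Agent.CTM
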