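import Pool.Agent.CTM.BasA
import Pool.Agent.CTM.BasB
import Pool.Agent.CTM.BasC

/-!
# CTM: ultralimits of subgroups
-/

set_option autoImplicit false

namespace Pool.Agent.CTM

universe u

variable {G : Type u} [Group G] [TopologicalSpace G] [IsTopologicalGroup G]

/-- size 1.  The ultralimit of a sequence of subgroups: all `x` such that every coset `x V` meets `M l` eventually.  (Product: given `V` and `x, x'`, use
`V' ≤ V` open with `cj w x' ∈ V` for `w ∈ V'` (`small_cj`): `(x x')⁻¹ (y y') = cj (x⁻¹ y) x' * (x'⁻¹ y')`; inverse: `x * y⁻¹ = cj ((x⁻¹ y)⁻¹) x⁻¹`.) -/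
def ulim (M : ℕ → Subgroup G) : Subgroup G where
  carrier := {x | ∀ V : Subgroup G, IsOpen (V : Set G) → Ev (fun l => ∃ y ∈ M l, x⁻¹ * y ∈ V)}
  mul_mem' := by
    intro x x' hx hx' V hV
    obtain ⟨V', hV', hle, hcj⟩ := small_cj hV x'
    refine ((hx V' hV').and (hx' V hV)).mono ?_
    rintro l ⟨⟨y, hy, hxy⟩, y', hy', hxy'⟩
    refine ⟨y * y', (M l).mul_mem hy hy', ?_⟩
    have e : (x * x')⁻¹ * (y * y') = cj (x⁻¹ * y) x' * (x'⁻¹ * y') := by unfold cj; group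
    rw [e]
    exact V.mul_mem (hcj _ hxy) hxy'
  one_mem' := by
    intro V _
    exact Ev.of_forall fun l => ⟨1, (M l).one_mem, by rw [inv_one, one_mul]; exact V.one_mem⟩
  inv_mem' := by
    intro x hx V hV
    obtain ⟨V', hV', hle, hcj⟩ := small_cj hV x⁻¹
    refine (hx V' hV').mono ?_
    rintro l ⟨y, hy, hxy⟩
    refine ⟨y⁻¹, (M l).inv_mem hy, ?_⟩
    have e : x⁻¹⁻¹ * y⁻¹ = cj (x⁻¹ * y)⁻¹ x⁻¹ := by unfold cj; group
    rw [e]
    exact hcj _ (V'.inv_mem hxy)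

theorem mem_ulim {M : ℕ → Subgroup G} {x : G} :
    x ∈ ulim M ↔ ∀ V : Subgroup G, IsOpen (V : Set G) → Ev (fun l => ∃ y ∈ M l, x⁻¹ * y ∈ V) := Iff.rfl

/-- size 1.  If `x` is in the closure: choose `s ∈ ulim M` with `x⁻¹ s ∈ V`. -/
theorem ulim_closed (H : Hyp G) (M : ℕ → Subgroup G) : IsClosed (ulim M : Set G) := by
  refine isClosed_of_closure_subset fun x hx V hV => ?_
  obtain ⟨s, hs, hxs⟩ := (H.mem_closure.1 hx) V hV
  refine (hs V hV).mono ?_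
  rintro l ⟨y, hy, hsy⟩
  refine ⟨y, hy, ?_⟩
  have e : x⁻¹ * y = (x⁻¹ * s) * (s⁻¹ * y) := by group
  rw [e]
  exact V.mul_mem hxs hsy

/-- size 1.  A limit of elements `y l ∈ M l` is in the ultralimit. -/
theorem lm_mem_ulim {M : ℕ → Subgroup G} {y : ℕ → G} {b : G} (hy : Ev (fun l => y l ∈ M l)) (hb : Lm y b) :
    b ∈ ulim M := by
  intro V hV
  refine (hy.and (Lm.coset hV hb)).mono ?_
  rintro l ⟨h1, h2⟩
  exact ⟨y l, h1, h2⟩

/-- size 2.  Conversely, an element of `ulim M` satisfies every clopen condition valid for pairs of elements of `M l`: if `Z` is closed and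
eventually `cm y y' ∈ Z` for all `y y' ∈ M l`, then `cm x x' ∈ Z` for `x x' ∈ ulim M`.  (`cm` is continuous: for a neighbourhood `O` of `cm x x'` there is an open subgroup `V` with `cm (x v) (x' v') ∈ O`
for `v v' ∈ V`; base of open subgroups.) -/
theorem cm_ulim (H : Hyp G) {M : ℕ → Subgroup G} {Z : Set G} (hZ : IsClosed Z)
    (h : Ev (fun l => ∀ y ∈ M l, ∀ y' ∈ M l, cm y y' ∈ Z)) : ∀ x ∈ ulim M, ∀ x' ∈ ulim M, cm x x' ∈ Z := by
  intro x hx x' hx'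
  rw [← hZ.closure_eq]
  refine H.mem_closure.2 fun V hV => ?_
  have hc : Continuous fun q : G × G => (cm x x')⁻¹ * cm (x * q.1) (x' * q.2) := by
    unfold cm
    fun_prop
  have h1 : (fun q : G × G => (cm x x')⁻¹ * cm (x * q.1) (x' * q.2)) ⁻¹' (V : Set G)
      ∈ nhds ((1 : G), (1 : G)) := by
    refine hc.continuousAt.preimage_mem_nhds ?_
    have e : (cm x x')⁻¹ * cm (x * 1) (x' * 1) = 1 := by rw [mul_one, mul_one, inv_mul_cancel]
    change (V : Set G) ∈ nhds ((cm x x')⁻¹ * cm (x * 1) (x' * 1))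
    rw [e]
    exact hV.mem_nhds V.one_mem
  rw [mem_nhds_prod_iff] at h1
  obtain ⟨O, hO, O', hO', hsub⟩ := h1
  obtain ⟨V₂, hV₂, -, hV₂O⟩ := H.base (O ∩ O') (Filter.inter_mem hO hO')
  obtain ⟨l, ⟨⟨y, hy, hxy⟩, y', hy', hxy'⟩, hl⟩ :=
    (((hx V₂ hV₂).and (hx' V₂ hV₂)).and h).exists
  refine ⟨cm y y', hl y hy y' hy', ?_⟩
  have h2 : ((x⁻¹ * y, x'⁻¹ * y') : G × G) ∈ O ×ˢ O' := ⟨(hV₂O hxy).1, (hV₂O hxy').2⟩
  have h3 : (cm x x')⁻¹ * cm (x * (x⁻¹ * y)) (x' * (x'⁻¹ * y')) ∈ V := hsub h2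
  rwa [mul_inv_cancel_left, mul_inv_cancel_left] at h3

/-- size 1.  If eventually `g` normalises `M l`, then `g` normalises `ulim M`.  (`cj y g ∈ M l`, `(cj x g)⁻¹ * cj y g = cj (x⁻¹ y) g`.) -/
theorem cj_ulim {M : ℕ → Subgroup G} {g : G} (h : Ev (fun l => ∀ y ∈ M l, cj y g ∈ M l)) :
    ∀ x ∈ ulim M, cj x g ∈ ulim M := by
  intro x hx V hV
  obtain ⟨V', hV', hle, hcj⟩ := small_cj hV g
  refine ((hx V' hV').and h).mono ?_
  rintro l ⟨⟨y, hy, hxy⟩, hl⟩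
  refine ⟨cj y g, hl y hy, ?_⟩
  have e : (cj x g)⁻¹ * cj y g = cj (x⁻¹ * y) g := by unfold cj; group
  rw [e]
  exact hcj _ hxy

end Pool.Agent.CTM
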