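import Pool.Agent.CTM.LmA
import Pool.Agent.CTM.Ulm

/-!
# CTM: Lemma A'
-/

set_option autoImplicit false

namespace Pool.Agent.CTM

universe u

variable {G : Type u} [Group G] [TopologicalSpace G] [IsTopologicalGroup G] [T2Space G]

/-- size 3.  LEMMA A'.  PROOF.  (1) for every `n`: `Ev (fun l => M l ⊓ K n ≤ K m)`: otherwise eventually (`Ev.not_iff`) there is `y l ∈ M l ⊓ K n`, `y l ∉ K m`; a limit `b` in the compact set `K n \ K m` (`Lm.exists`; closed: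
`K m` open) is in `ulim M` (`lm_mem_ulim`), contradiction to `hN`.  (2) Suppose the conclusion fails: for every `n`, `¬ Ev (M l ≤ K n)`, so `Ev (¬ M l ≤ K n)`.  So for every `n` there is `l ≥ n` with `¬ M l ≤ K n`,
`M l ⊓ K n ≤ K m` (`Ev.and`, `Ev.of_ge`, `Ev.exists`); call it `f n`; and let `g n ≥ n` with `M (f n) ≤ K (g n)` (compact: `Tow.bdd`, `mono`).  Define `n 0 = m`, `n (i+1) = g (n i)`, `l i = f (n i)`.
Apply `lemA` to `L i = K (n i)`, `M' i = M (l i)`, `V = K m`: `M' i ≤ L (i+1)`; `M' i ⊓ L i ≤ K m`; for `j < i`: `M (l j) ≤ K (n (j+1)) ≤ K (n i) ≤ K (l i)` (`l i ≥ n i`), which normalises `M (l i)`.  So all `M (l i) ≤ K (n i₀)`, but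
`¬ M (l i₀) ≤ K (n i₀)`. -/
theorem lemB {K : ℕ → Subgroup G} (T : Tow K) {M : ℕ → Subgroup G} (hM : ∀ l, IsCompact (M l : Set G))
    (hn : ∀ l, Nm (K l) (M l)) {m : ℕ} (hN : ulim M ≤ K m) : ∃ m', Ev (fun l => M l ≤ K m') := by
  have h1 : ∀ n, Ev (fun l => M l ⊓ K n ≤ K m) := by
    intro n
    by_contra hc
    rw [Ev.not_iff] at hc
    have hy : ∀ l, ∃ y : G, ¬ (M l ⊓ K n ≤ K m) → y ∈ M l ∧ y ∈ K n ∧ y ∉ K m := by
      intro l
      by_cases h : M l ⊓ K n ≤ K m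
      · exact ⟨1, fun h' => absurd h h'⟩
      · obtain ⟨y, hy, hy'⟩ := SetLike.not_le_iff_exists.mp h
        exact ⟨y, fun _ => ⟨hy.1, hy.2, hy'⟩⟩
    choose y hy using hy
    have hK : IsCompact ((K n : Set G) \ (K m : Set G)) := (T.cpt n).diff (T.opn m)
    obtain ⟨b, hb, hl⟩ := Lm.exists hK (hc.mono fun i hi => ⟨(hy i hi).2.1, (hy i hi).2.2⟩)
    have hbm : b ∈ ulim M := lm_mem_ulim (hc.mono fun i hi => (hy i hi).1) hl
    exact hb.2 (hN hbm)
  by_contra hcon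
  have hcon' : ∀ m', ¬ Ev (fun l => M l ≤ K m') := fun m' h => hcon ⟨m', h⟩
  have h2 : ∀ n, ∃ l, n ≤ l ∧ ¬ M l ≤ K n ∧ M l ⊓ K n ≤ K m := by
    intro n
    have h := ((Ev.of_ge (P := fun l => n ≤ l) n fun i hi => hi).and (Ev.not_iff.mp (hcon' n))).and (h1 n)
    obtain ⟨l, hl⟩ := h.exists
    exact ⟨l, hl.1.1, hl.1.2, hl.2⟩
  choose f hf1 hf2 hf3 using h2
  have h3 : ∀ n, ∃ g, n ≤ g ∧ M (f n) ≤ K g := by
    intro n
    obtain ⟨k, hk⟩ := T.bdd (hM (f n))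
    exact ⟨max n k, le_max_left _ _, fun x hx => T.mono (le_max_right n k) (hk hx)⟩
  choose g hg1 hg2 using h3
  obtain ⟨s, s0, ss⟩ : ∃ s : ℕ → ℕ, s 0 = m ∧ ∀ i, s (i + 1) = g (s i) :=
    ⟨fun i => Nat.rec m (fun _ x => g x) i, rfl, fun i => rfl⟩
  have smono : Monotone s := monotone_nat_of_le_succ fun i => by rw [ss]; exact hg1 _
  obtain ⟨n, hn'⟩ := lemA T.hyp (fun i => K (s i)) (fun i => M (f (s i))) (K m) (T.mono.comp smono)
    (fun i => T.opn _) (by simp [s0]) (T.cpt m) (fun i => hM _)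
    (fun i => by simpa only [ss] using hg2 (s i))
    (fun i => hf3 _)
    (fun i j hji => by
      refine nm_mono (fun x hx => ?_) (hn (f (s i)))
      have h4 : x ∈ K (s (j + 1)) := by rw [ss]; exact hg2 _ hx
      exact T.mono (hf1 _) (T.mono (smono (Nat.succ_le_of_lt hji)) h4))
  exact hf2 (s n) (hn' n)

end Pool.Agent.CTM
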