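import Pool.Agent.CTM.SyD
import Pool.Agent.CTM.AvA
import Pool.Agent.CTM.AvB
import Pool.Agent.CTM.AvC
import Pool.Agent.CTM.AvD

/-!
# CTM, Lemma S, part C: averaging over `M`
-/

set_option autoImplicit false

namespace Pool.Agent.CTM

universe u

variable {G : Type u} [Group G] [TopologicalSpace G] [IsTopologicalGroup G] [T2Space G]

/-- size 4.  PROOF.  `L` (`= K l`) is an open subgroup.  `M₁ := M ⊓ L`, open in `M`.  `Y := {x ∈ X | ∀ z ∈ M, cj x z ∈ X₀}` (`= X*`): a closed subgroup, `Φ ≤ Y ≤ X₀` (`z = 1`), normalised by `M`, normal in `X` (contains the commutators).  By `core_exists` for the compact group `X ⊔ M` there is an open `V' ≤ V₁` normalised by it: `V' ⊓ X ≤ Y`.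
`M₂ := {g ∈ M₁ | ∀ x ∈ X, cm x g ∈ Y}`, a subgroup, `V' ⊓ M₁ ≤ M₂` (`cm x g = (cj g x)⁻¹ * g ∈ V' ⊓ X`).  So `M₂.relIndex M ≠ 0`; `n₁ := M₂.relIndex M₁` divides `V'.relIndex M₁`, a power of `q` (`Pp.le`: `M₁` is closed in `M`; `Pp.relIndex_eq`), so `p ∤ n₁` (`p ≠ q`).  `T` := transversal of `M₂` in `M` (`exists_trv`); `T ∩ M₁` has `n₁` elements (`trv_inter`).
`nrmP_count` for `X₀`, `P t := t ∈ M₁`: `t ∈ M₁`: `x⁻¹ * cj x t = cm x t ∈ X₀` (`hV₀`); `t ∉ M₁`: `t ∉ L`: `cj x t ∈ X₀` (`hx`).  So `(x ^ n₁)⁻¹ * s ∈ X₀`, `s := nrmP T x`; `r * n₁ = 1 + p * k`, `u₀ := s ^ r`: `x⁻¹ * u₀ ∈ X₀` (`pow_inv_mod`).  `nrmP_fix` (`X₁ = Y`, `Γ = M`, `Δ = M₂`): `cm s m ∈ Y` for `m ∈ M`, so `cm u₀ m ∈ Y`.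
`fp_lift` for `M` and `Y` (`Pp.le`: closed subgroup of `X`, pro-`q'`): `y ∈ Y` with `cm (u₀ * y) m = 1` for `m ∈ M`.  `u := u₀ * y`. -/
theorem ls_avg (H : Hyp G) {X Φ X₀ V₁ L M : Subgroup G} {p q : ℕ} (hp : p.Prime) (hq : q.Prime) (hpq : q ≠ p)
    (hX : IsCompact (X : Set G)) (hΦ : IsClosed (Φ : Set G)) (hX₀ : IsClosed (X₀ : Set G)) (h1 : Φ ≤ X₀)
    (h2 : X₀ ≤ X) (hab : ∀ x ∈ X, ∀ y ∈ X, cm x y ∈ Φ) (hexp : ∀ x ∈ X, x ^ p ∈ Φ)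
    (hV₁ : IsOpen (V₁ : Set G)) (hV₁X : V₁ ⊓ X ≤ X₀) (hL : IsOpen (L : Set G)) (hM : Pp {q} M)
    (hXq : Pp {r | r ≠ q} X) (hMX : Nm M X) (hMΦ : Nm M Φ)
    (hV₀ : ∀ g ∈ M, g ∈ L → ∀ x ∈ X, cm x g ∈ X₀) {x : G} (hx : x ∈ X) (hxz : ∀ z ∈ M, z ∉ L → cj x z ∈ X₀) :
    ∃ u ∈ X, (∀ m ∈ M, cm u m = 1) ∧ x⁻¹ * u ∈ X₀ := by
  classical
  have hXc : IsClosed (X : Set G) := hX.isClosed
  have hMc : IsClosed (M : Set G) := hM.1.isClosed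
  -- the subgroup `Y`
  let Y : Subgroup G :=
    { carrier := {y | y ∈ X ∧ ∀ z ∈ M, cj y z ∈ X₀}
      mul_mem' := by
        rintro a b ⟨ha, ha'⟩ ⟨hb, hb'⟩
        refine ⟨X.mul_mem ha hb, fun z hz => ?_⟩
        rw [mul_cj]
        exact X₀.mul_mem (ha' z hz) (hb' z hz)
      one_mem' := ⟨X.one_mem, fun z _ => by rw [one_cj]; exact X₀.one_mem⟩
      inv_mem' := by
        rintro a ⟨ha, ha'⟩
        refine ⟨X.inv_mem ha, fun z hz => ?_⟩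
        rw [inv_cj]
        exact X₀.inv_mem (ha' z hz) }
  have memY : ∀ y, y ∈ Y ↔ y ∈ X ∧ ∀ z ∈ M, cj y z ∈ X₀ := fun y => Iff.rfl
  have hYX : Y ≤ X := fun y hy => ((memY y).1 hy).1
  have hYX₀ : Y ≤ X₀ := fun y hy => by
    have := ((memY y).1 hy).2 1 M.one_mem
    rwa [cj_one] at this
  have hΦY : Φ ≤ Y := fun f hf => (memY f).2 ⟨h2 (h1 hf), fun z hz => h1 (hMΦ z hz f hf)⟩
  have hYcl : IsClosed (Y : Set G) := by
    have he : (Y : Set G) = (X : Set G) ∩ ⋂ z ∈ M, (fun y => cj y z) ⁻¹' (X₀ : Set G) := by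
      ext y
      simp only [SetLike.mem_coe, memY, Set.mem_inter_iff, Set.mem_iInter, Set.mem_preimage]
    rw [he]
    refine hXc.inter (isClosed_biInter fun z _ => hX₀.preimage ?_)
    unfold cj
    fun_prop
  have hMY : Nm M Y := fun m hm y hy => by
    obtain ⟨hy1, hy2⟩ := (memY y).1 hy
    refine (memY _).2 ⟨hMX m hm y hy1, fun z hz => ?_⟩
    rw [cj_cj]
    exact hy2 _ (M.mul_mem hm hz)
  have hXY : Nm X Y := fun x hx y hy => by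
    rw [cj_eq]
    exact Y.mul_mem hy (hΦY (hab y (hYX hy) x hx))
  have habY : ∀ a ∈ X, ∀ b ∈ X, cm a b ∈ Y := fun a ha b hb => hΦY (hab a ha b hb)
  -- the core
  obtain ⟨V', hV'o, hV'le, hV'n⟩ := core_exists (cpt_sup hX hM.1 hMX) hV₁
  have hV'X : ∀ v ∈ V', v ∈ X → v ∈ Y := fun v hv hvX => by
    refine (memY v).2 ⟨hvX, fun z hz => hV₁X ⟨hV'le (hV'n z ?_ v hv), hMX z hz v hvX⟩⟩
    exact (le_sup_right : M ≤ X ⊔ M) hz
  -- the subgroup `M₂`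
  let M₂ : Subgroup G :=
    { carrier := {g | (g ∈ M ∧ g ∈ L) ∧ ∀ x ∈ X, cm x g ∈ Y}
      mul_mem' := by
        rintro a b ⟨ha, ha'⟩ ⟨hb, hb'⟩
        refine ⟨⟨M.mul_mem ha.1 hb.1, L.mul_mem ha.2 hb.2⟩, fun x hx => ?_⟩
        have e : cm x (a * b) = cm x b * cj (cm x a) b := by unfold cm cj; group
        rw [e]
        exact Y.mul_mem (hb' x hx) (hMY b hb.1 _ (ha' x hx))
      one_mem' := ⟨⟨M.one_mem, L.one_mem⟩, fun x _ => by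
        have e : cm x 1 = 1 := by unfold cm; group
        rw [e]; exact Y.one_mem⟩
      inv_mem' := by
        rintro a ⟨ha, ha'⟩
        refine ⟨⟨M.inv_mem ha.1, L.inv_mem ha.2⟩, fun x hx => ?_⟩
        have e : cm x a⁻¹ = (cj (cm x a) a⁻¹)⁻¹ := by unfold cm cj; group
        rw [e]
        exact Y.inv_mem (hMY _ (M.inv_mem ha.1) _ (ha' x hx)) }
  have memM₂ : ∀ g, g ∈ M₂ ↔ (g ∈ M ∧ g ∈ L) ∧ ∀ x ∈ X, cm x g ∈ Y := fun g => Iff.rfl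
  have hM₂M : M₂ ≤ M := fun g hg => ((memM₂ g).1 hg).1.1
  have hM₂M₁ : M₂ ≤ M ⊓ L := fun g hg => ((memM₂ g).1 hg).1
  have hV'M₂ : ∀ g ∈ V', g ∈ M → g ∈ L → g ∈ M₂ := fun g hg hgM hgL => by
    refine (memM₂ g).2 ⟨⟨hgM, hgL⟩, fun x hx => hV'X _ ?_ ?_⟩
    · rw [cm_eq']
      exact V'.mul_mem (V'.inv_mem (hV'n x ((le_sup_left : X ≤ X ⊔ M) hx) g hg)) hg
    · rw [cm_eq]
      exact X.mul_mem (X.inv_mem hx) (hMX g hgM x hx)
  have hidx : M₂.relIndex M ≠ 0 := by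
    have h3 : (V' ⊓ L) ⊓ M ≤ M₂ := fun g hg => hV'M₂ g hg.1.1 hg.2 hg.1.2
    have h4 : M₂.relIndex M ∣ ((V' ⊓ L) ⊓ M).relIndex M := Subgroup.relIndex_dvd_of_le_left M h3
    rw [Subgroup.inf_relIndex_right] at h4
    have h5 : IsOpen ((V' ⊓ L : Subgroup G) : Set G) := by
      rw [Subgroup.coe_inf]
      exact hV'o.inter hL
    intro h0
    rw [h0, zero_dvd_iff] at h4
    exact relIndex_ne hM.1 h5 h4
  -- the index in `M₁`
  have hM₁cl : IsClosed ((M ⊓ L : Subgroup G) : Set G) := by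
    rw [Subgroup.coe_inf]
    exact hMc.inter (L.isClosed_of_isOpen hL)
  have hM₁ : Pp {q} (M ⊓ L) := hM.le hM₁cl inf_le_left
  obtain ⟨e, he⟩ := hM₁.relIndex_eq hV'o
  have hn₁ : ¬ p ∣ M₂.relIndex (M ⊓ L) := by
    intro hdv
    have h3 : V' ⊓ (M ⊓ L) ≤ M₂ := fun g hg => hV'M₂ g hg.1 hg.2.1 hg.2.2
    have h4 : M₂.relIndex (M ⊓ L) ∣ (V' ⊓ (M ⊓ L)).relIndex (M ⊓ L) :=
      Subgroup.relIndex_dvd_of_le_left _ h3
    rw [Subgroup.inf_relIndex_right, he] at h4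
    have h5 : p ∣ q := hp.dvd_of_dvd_pow (hdv.trans h4)
    exact hpq ((Nat.prime_dvd_prime_iff_eq hp hq).1 h5).symm
  obtain ⟨T, hT, -⟩ := exists_trv hM₂M hidx
  have hcard : (T.filter (· ∈ M ⊓ L)).card = M₂.relIndex (M ⊓ L) :=
    trv_inter hT hM₂M₁ inf_le_left
  have hcount := nrmP_count h2 (fun a ha b hb => h1 (hab a ha b hb)) (T := T) (· ∈ M ⊓ L) hx
    (fun t _ htP => by
      rw [← cm_eq]
      exact hV₀ t htP.1 htP.2 x hx)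
    (fun t ht htP => hxz t (hT.1 t ht) fun htL => htP ⟨hT.1 t ht, htL⟩)
  obtain ⟨r, k, hrk⟩ := exists_inv_mod hp hn₁
  rw [hcard] at hcount
  have hs : nrmP T x ∈ X := nrmP_mem fun t ht => hMX t (hT.1 t ht) x hx
  have hu₀ : x⁻¹ * nrmP T x ^ r ∈ X₀ :=
    pow_inv_mod h2 (fun a ha b hb => h1 (hab a ha b hb)) hx hs hrk (h1 (hexp x hx)) hcount
  have hfix := nrmP_fix hYX habY hMX hMY hT hx (fun d hd => ((memM₂ d).1 hd).2 x hx)
  have hpow : ∀ j : ℕ, ∀ m ∈ M, cm (nrmP T x ^ j) m ∈ Y := by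
    intro j
    induction j with
    | zero =>
      intro m _
      have e : cm (nrmP T x ^ 0) m = 1 := by unfold cm; group
      rw [e]; exact Y.one_mem
    | succ j ih =>
      intro m hm
      have e : cm (nrmP T x ^ (j + 1)) m
          = cj (cm (nrmP T x ^ j) m) (nrmP T x) * cm (nrmP T x) m := by
        rw [pow_succ]
        unfold cm cj
        group
      rw [e]
      exact Y.mul_mem (hXY _ hs _ (ih m hm)) (hfix m hm)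
  obtain ⟨y, hy, hym⟩ := fp_lift H hq hM (hXq.le hYcl hYX) hMY (hpow r)
  refine ⟨nrmP T x ^ r * y, X.mul_mem (X.pow_mem hs r) (hYX hy), hym, ?_⟩
  rw [← mul_assoc]
  exact X₀.mul_mem hu₀ (hYX₀ hy)

end Pool.Agent.CTM
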