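import Pool.Agent.CTM.Cgt

/-!
# CTM: Lemma S: choice of `c`
-/

set_option autoImplicit false

namespace Pool.Agent.CTM

universe u

variable {G : Type u} [Group G] [TopologicalSpace G] [IsTopologicalGroup G] [T2Space G]

/-- size 3.  PROOF.  Suppose not.  For `c` with `Cg A N c` let `E c` be the set of the `y ∈ X` with `cm y g ∈ Φ` for all `g ∈ c` such that there is no `y' ∈ X` with `cm y' g ∈ Φ` for all `g ∈ N` and `y'⁻¹ * y ∈ W`; it is nonempty, closed (the last condition is invariant under right multiplication by elements of `W`: clopen), and decreasing in `c`; the family is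
directed (`Cg.sup`).  `fam_inter'` with the compact `X`: a point `y ∈ X` in all `E c`.  (The family is nonempty, `cg_dense`.)  Then `cm y g ∈ Φ` for all `g` in the union of the `Cg`, so for all `g ∈ N` (`cg_dense`, `Hyp.mem_closure`, `cm_closure` or continuity; `Φ` closed).  With `y' = y`: contradiction. -/
theorem exists_c {A N : Subgroup G} (H : Hyp G) (h : MinN A N) {X Φ W : Subgroup G} (hX : IsCompact (X : Set G))
    (hΦ : IsClosed (Φ : Set G)) (hW : IsOpen (W : Set G)) :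
    ∃ c : Subgroup G, Cg A N c ∧ ∀ y ∈ X, (∀ g ∈ c, cm y g ∈ Φ) →
      ∃ y' ∈ X, (∀ g ∈ N, cm y' g ∈ Φ) ∧ y'⁻¹ * y ∈ W := by
  by_contra hcon
  push Not at hcon
  let E : Subgroup G → Set G := fun c =>
    {y | (∀ g ∈ c, cm y g ∈ Φ)} ∩ {y | ¬ ∃ y' ∈ X, (∀ g ∈ N, cm y' g ∈ Φ) ∧ y'⁻¹ * y ∈ W}
  have hcl2 : IsClosed {y : G | ¬ ∃ y' ∈ X, (∀ g ∈ N, cm y' g ∈ Φ) ∧ y'⁻¹ * y ∈ W} := by
    refine (clopen_of_coset hW ?_).1
    intro y hy w hw hy'
    obtain ⟨y', h1, h2, h3⟩ := hy'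
    refine hy ⟨y', h1, h2, ?_⟩
    have h4 := W.mul_mem h3 (W.inv_mem hw)
    have h5 : y'⁻¹ * (y * w) * w⁻¹ = y'⁻¹ * y := by group
    rwa [h5] at h4
  have hcl1 : ∀ c : Subgroup G, IsClosed {y : G | ∀ g ∈ c, cm y g ∈ Φ} := by
    intro c
    have h1 : {y : G | ∀ g ∈ c, cm y g ∈ Φ} = ⋂ g ∈ c, (fun y : G => cm y g) ⁻¹' (Φ : Set G) := by
      ext y
      simp
    rw [h1]
    refine isClosed_biInter fun g _ => hΦ.preimage ?_
    unfold cm
    fun_prop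
  obtain ⟨b, hbX, hb⟩ := fam_inter' hX {S : Set G | ∃ c : Subgroup G, Cg A N c ∧ S = E c}
    (by
      obtain ⟨c, hc, -⟩ := cg_dense H h 1 N.one_mem ⊤ (by simp)
      exact ⟨E c, c, hc, rfl⟩)
    (by
      rintro S ⟨c, hc, rfl⟩
      exact (hcl1 c).inter hcl2)
    (by
      rintro S ⟨c, hc, rfl⟩
      obtain ⟨y, hy, h1, h2⟩ := hcon c hc
      refine ⟨y, ⟨h1, ?_⟩, hy⟩
      rintro ⟨y', h3, h4, h5⟩
      exact h2 y' h3 h4 h5)
    (by
      rintro S ⟨c, hc, rfl⟩ S' ⟨c', hc', rfl⟩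
      refine ⟨E (c ⊔ c'), ⟨c ⊔ c', Cg.sup h.le hc hc', rfl⟩, ?_⟩
      rintro y ⟨h1, h2⟩
      exact ⟨⟨fun g hg => h1 g (Subgroup.mem_sup_left hg), h2⟩,
        ⟨fun g hg => h1 g (Subgroup.mem_sup_right hg), h2⟩⟩)
  have hall : ∀ c : Subgroup G, Cg A N c → ∀ g ∈ c, cm b g ∈ Φ := fun c hc =>
    (hb (E c) ⟨c, hc, rfl⟩).1
  have hN : ∀ g ∈ N, cm b g ∈ Φ := by
    intro g hg
    have hclg : IsClosed {g : G | cm b g ∈ Φ} := by
      refine hΦ.preimage ?_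
      unfold cm
      fun_prop
    have h1 : g ∈ closure {g : G | cm b g ∈ Φ} := by
      rw [H.mem_closure]
      intro V hV
      obtain ⟨c, hc, y, hy, hyV⟩ := cg_dense H h g hg V hV
      exact ⟨y, hall c hc y hy, hyV⟩
    rwa [hclg.closure_eq] at h1
  obtain ⟨c, hc, -⟩ := cg_dense H h 1 N.one_mem ⊤ (by simp)
  refine (hb (E c) ⟨c, hc, rfl⟩).2 ⟨b, hbX, hN, ?_⟩
  rw [inv_mul_cancel]
  exact W.one_mem

end Pool.Agent.CTM
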