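import Pool.Agent.CTM.LsE
import Pool.Agent.CTM.LsC
import Pool.Agent.CTM.LsF

/-!
# CTM: Lemma S
-/

set_option autoImplicit false

namespace Pool.Agent.CTM

universe u

variable {G : Type u} [Group G] [TopologicalSpace G] [IsTopologicalGroup G] [T2Space G]

/-- size 4.  LEMMA S.  PROOF.  `W' ≤ W` open, normalised by `X` (`core_exists`).  `c` from `exists_c` for `W'`.  `W_c ≤ W'` open, normalised by the compact group `X ⊔ c`.  `X₀ := (W_c ⊓ X) ⊔ Φ` (products, `mem_sup_nm`), closed (`cl_sup`), `Φ ≤ X₀ ≤ X`, normalised by `c`; `W_c ⊓ X ≤ X₀`.  `l` from `ls_split` (`V₁ = W_c`).  `V₀ := W_c`.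
Given `q`, `M` and `a ∈ X`: `x`, `y` from `ls_split`.  `ls_avg` (`L = K l`; for `g ∈ M`, `g ∈ K l`: `g ∈ V₀ = W_c`, so for `x ∈ X`: `cm x g = (cj g x)⁻¹ * g ∈ W_c ⊓ X ≤ X₀`): `u₁ ∈ X` centralised by `M`, `x⁻¹ * u₁ ∈ X₀`.  `y'` from `exists_c`: `cm y' g ∈ Φ` for `g ∈ N`, `y'⁻¹ * y ∈ W'`.  `fp_lift` for `M`, `Φ` (`Pp.le`), `y'`: `f ∈ Φ` with
`y' * f` centralised by `M`.  `u := u₁ * (y' * f) ∈ X`, centralised by `M`.  Modulo `Φ` (`X ⧸ Φ` commutative), and modulo `W' ⊓ X` (normal in `X`): `a = x y`, `x = u₁`, `y = y' = y' f`: `a ∈ u * (Φ (W' ⊓ X))`: i.e. `u⁻¹ * a ∈ (W' ⊓ X) ⊔ Φ`, so `u⁻¹ * a = f' * w` (`mem_sup_nm'`). -/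
theorem lemS {K : ℕ → Subgroup G} (T : Tow K) {A N : Subgroup G} (h : MinN A N) {X Φ W : Subgroup G}
    {p : ℕ} (hp : p.Prime) (hX : IsCompact (X : Set G)) (hXN : X ≤ N) (hXn : Nm A X) (hΦ : IsClosed (Φ : Set G))
    (hΦX : Φ ≤ X) (hΦn : Nm A Φ) (hab : ∀ x ∈ X, ∀ y ∈ X, cm x y ∈ Φ) (hexp : ∀ x ∈ X, x ^ p ∈ Φ)
    (hsyl : ∀ Q : Subgroup G, Q ≤ N → Pp {p} Q → Q ≤ X) (hW : IsOpen (W : Set G)) :
    ∃ (l : ℕ) (V₀ : Subgroup G), IsOpen (V₀ : Set G) ∧ ∀ q : ℕ, q.Prime → q ≠ p → Pp {r | r ≠ q} X →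
      ∀ M : Subgroup G, M ≤ N → Pp {q} M → M ⊓ K l ≤ V₀ → ∀ a ∈ X, ∃ u ∈ X, (∀ m ∈ M, cm u m = 1) ∧
        ∃ f ∈ Φ, ∃ w ∈ W, a = u * f * w := by
  obtain ⟨W', hW'o, hW'W, hW'n⟩ := core_exists hX hW
  obtain ⟨c, hc, hc2⟩ := exists_c T.hyp h (X := X) (Φ := Φ) (W := W') hX hΦ hW'o
  have hcA : c ≤ A := hc.le.trans h.le
  have hXA : X ≤ A := hXN.trans h.le
  have hcX : Nm c X := nm_mono hcA hXn
  obtain ⟨Wc, hWco, hWcW, hWcn⟩ := core_exists (cpt_sup hX hc.cpt hcX) hW'o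
  have hXWc : Nm X Wc := nm_mono le_sup_left hWcn
  have hcWc : Nm c Wc := nm_mono le_sup_right hWcn
  have hXcl : IsClosed (X : Set G) := hX.isClosed
  have hWcX : IsClosed ((Wc ⊓ X : Subgroup G) : Set G) := by
    rw [Subgroup.coe_inf]
    exact (Subgroup.isClosed_of_isOpen Wc hWco).inter hXcl
  have hΦc : IsCompact (Φ : Set G) := hX.of_isClosed_subset hΦ hΦX
  have hnΦ : Nm Φ (Wc ⊓ X) := nm_inf (nm_mono hΦX hXWc) (nm_mono (hΦX.trans hXA) hXn)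
  have hX₀ : IsClosed (((Wc ⊓ X) ⊔ Φ : Subgroup G) : Set G) := cl_sup hWcX hΦc hnΦ
  have h1 : Φ ≤ (Wc ⊓ X) ⊔ Φ := le_sup_right
  have h2 : (Wc ⊓ X) ⊔ Φ ≤ X := sup_le inf_le_right hΦX
  have hnX₀ : Nm c ((Wc ⊓ X) ⊔ Φ) := nm_sup (nm_inf hcWc hcX) (nm_mono hcA hΦn)
  obtain ⟨l, hl⟩ := ls_split T h hp hX hXN hXn hΦ hX₀ h1 h2 hΦn hab hexp hsyl hc hWco le_sup_left hnX₀
  refine ⟨l, Wc, hWco, ?_⟩
  intro q hq hqp hXq M hMN hM hMK a ha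
  obtain ⟨x, hx, y, hy, hxy, hyc, hxz⟩ := hl a ha
  have hMX : Nm M X := nm_mono (hMN.trans h.le) hXn
  have hMΦ : Nm M Φ := nm_mono (hMN.trans h.le) hΦn
  obtain ⟨u₁, hu₁X, hu₁M, hxu⟩ := ls_avg T.hyp hp hq hqp hX hΦ hX₀ h1 h2 hab hexp hWco le_sup_left
    (T.opn l) hM hXq hMX hMΦ (by
      intro g hg hgK x hx
      have hgW : g ∈ Wc := hMK ⟨hg, hgK⟩
      refine le_sup_left (a := Wc ⊓ X) (b := Φ) ⟨?_, ?_⟩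
      · rw [cm_eq']
        exact Wc.mul_mem (Wc.inv_mem (hXWc x hx g hgW)) hgW
      · rw [cm_eq]
        exact X.mul_mem (X.inv_mem hx) (hMX g hg x hx)) hx (fun z hz hzK => hxz z (hMN hz) hzK)
  obtain ⟨y', hy'X, hy'N, hy'W⟩ := hc2 y hy hyc
  obtain ⟨f, hf, hfM⟩ := fp_lift T.hyp hq hM (hXq.le hΦ hΦX) hMΦ (u := y')
    (fun m hm => hy'N m (hMN hm))
  have comm : ∀ u m : G, cm u m = 1 ↔ u * m = m * u := by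
    intro u m
    have e : cm u m = (m * u)⁻¹ * (u * m) := by unfold cm; group
    rw [e, inv_mul_eq_one, eq_comm]
  have hfX : f ∈ X := hΦX hf
  refine ⟨u₁ * (y' * f), X.mul_mem hu₁X (X.mul_mem hy'X hfX), ?_, ?_⟩
  · intro m hm
    have e1 := (comm _ _).1 (hu₁M m hm)
    have e2 := (comm _ _).1 (hfM m hm)
    rw [comm, mul_assoc, e2, ← mul_assoc, e1, mul_assoc]
  · have hnΦ' : Nm Φ (W' ⊓ X) := nm_inf (nm_mono hΦX hW'n) (nm_mono (hΦX.trans hXA) hXn)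
    have hZ0 : ∀ z, z ∈ (Wc ⊓ X) ⊔ Φ → z ∈ (W' ⊓ X) ⊔ Φ := fun z hz =>
      (sup_le_sup_right (inf_le_inf_right X hWcW) Φ) hz
    have hXZ : Nm X ((W' ⊓ X) ⊔ Φ) := nm_sup (nm_inf hW'n (nm_self X)) (nm_mono hXA hΦn)
    have key : (u₁ * (y' * f))⁻¹ * a ∈ (W' ⊓ X) ⊔ Φ := by
      have e : (u₁ * (y' * f))⁻¹ * a
          = f⁻¹ * ((y'⁻¹ * y) * (cj (x⁻¹ * u₁)⁻¹ y * (a⁻¹ * (x * y))⁻¹)) := by
        unfold cj; group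
      rw [e]
      have m1 : f⁻¹ ∈ (W' ⊓ X) ⊔ Φ := Subgroup.inv_mem _ (Subgroup.mem_sup_right hf)
      have m2 : y'⁻¹ * y ∈ (W' ⊓ X) ⊔ Φ :=
        Subgroup.mem_sup_left ⟨hy'W, X.mul_mem (X.inv_mem hy'X) hy⟩
      have m3 : cj (x⁻¹ * u₁)⁻¹ y ∈ (W' ⊓ X) ⊔ Φ := hXZ y hy _ (Subgroup.inv_mem _ (hZ0 _ hxu))
      have m4 : (a⁻¹ * (x * y))⁻¹ ∈ (W' ⊓ X) ⊔ Φ := Subgroup.inv_mem _ (hZ0 _ hxy)
      exact Subgroup.mul_mem _ m1 (Subgroup.mul_mem _ m2 (Subgroup.mul_mem _ m3 m4))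
    obtain ⟨f', hf', w, hw, he⟩ := (mem_sup_nm' hnΦ').1 key
    refine ⟨f', hf', w, hW'W hw.1, ?_⟩
    rw [mul_assoc, ← he, mul_inv_cancel_left]

end Pool.Agent.CTM
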