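import Pool.Agent.CTM.TwA

/-!
# CTM: the reversed tower
-/

set_option autoImplicit false

namespace Pool.Agent.CTM

universe u

variable {G : Type u} [Group G] [TopologicalSpace G] [IsTopologicalGroup G] [T2Space G]

/-- size 3.  DEPENDENT CHOICE.  PROOF.  States: `(Y, F)` with `Y ≤ N` closed, noncompact, `F : Finset ℕ`; step `i`: `tow_step` with `m = i` gives `q`, `P`, `Y'`; next state `(Y', insert q F)`.  `p i := q`, `P i := P`.  For `i < j`: `p i ∈ F_j`, `p j ∉ F_j`; `P j ≤ Y_j ≤ Y_(i+1)` normalises `P i`. -/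
theorem tow_seq {K : ℕ → Subgroup G} (T : Tow K) {N : Subgroup G} (h : Bd K N)
    (hN : IsClosed (N : Set G)) (hnc : ¬ IsCompact (N : Set G)) :
    ∃ (p : ℕ → ℕ) (P : ℕ → Subgroup G), (∀ i, (p i).Prime) ∧ Function.Injective p ∧ (∀ i, P i ≤ N) ∧
      (∀ i, Pp {p i} (P i)) ∧ (∀ i, ¬ P i ≤ K i) ∧ ∀ i j, i < j → Nm (P j) (P i) := by
  classical
  let St := {s : Subgroup G × Finset ℕ // s.1 ≤ N ∧ IsClosed (s.1 : Set G) ∧ ¬ IsCompact (s.1 : Set G)}
  have hstep : ∀ (s : St) (i : ℕ), ∃ r : ℕ × Subgroup G × Subgroup G,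
      r.1.Prime ∧ r.1 ∉ s.1.2 ∧ r.2.1 ≤ s.1.1 ∧ Pp {r.1} r.2.1 ∧ ¬ r.2.1 ≤ K i ∧ r.2.2 ≤ s.1.1 ∧
      IsClosed (r.2.2 : Set G) ∧ ¬ IsCompact (r.2.2 : Set G) ∧ Nm r.2.2 r.2.1 := by
    intro s i
    obtain ⟨q, hq, hqF, P, Y', h1, h2, h3, h4, h5, h6, h7⟩ :=
      tow_step T h s.2.1 s.2.2.1 s.2.2.2 s.1.2 i
    exact ⟨(q, P, Y'), hq, hqF, h1, h2, h3, h4, h5, h6, h7⟩
  choose r hr1 hr2 hr3 hr4 hr5 hr6 hr7 hr8 hr9 using hstep
  let nxt : ℕ → St → St := fun i s =>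
    ⟨((r s i).2.2, insert (r s i).1 s.1.2), (hr6 s i).trans s.2.1, hr7 s i, hr8 s i⟩
  let s : ℕ → St := fun n => Nat.rec (motive := fun _ => St) ⟨(N, ∅), le_rfl, hN, hnc⟩ nxt n
  have hs : ∀ i, s (i + 1) = nxt i (s i) := fun i => rfl
  have hY : ∀ i, (s (i + 1)).1.1 = (r (s i) i).2.2 := fun i => by rw [hs]
  have hF : ∀ i, (s (i + 1)).1.2 = insert (r (s i) i).1 (s i).1.2 := fun i => by rw [hs]
  have hYanti : Antitone (fun i => (s i).1.1) := by
    refine antitone_nat_of_succ_le fun i => ?_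
    show (s (i + 1)).1.1 ≤ (s i).1.1
    rw [hY]
    exact hr6 (s i) i
  have hFmono : Monotone (fun i => (s i).1.2) := by
    refine monotone_nat_of_le_succ fun i => ?_
    show (s i).1.2 ≤ (s (i + 1)).1.2
    rw [hF]
    exact Finset.subset_insert _ _
  have hne : ∀ i j, i < j → (r (s i) i).1 ≠ (r (s j) j).1 := by
    intro i j hij heq
    have h1 : (r (s i) i).1 ∈ (s (i + 1)).1.2 := by
      rw [hF]
      exact Finset.mem_insert_self _ _
    have h2 : (r (s i) i).1 ∈ (s j).1.2 := hFmono (Nat.succ_le_of_lt hij) h1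
    rw [heq] at h2
    exact hr2 (s j) j h2
  refine ⟨fun i => (r (s i) i).1, fun i => (r (s i) i).2.1, fun i => hr1 _ _, ?_, ?_, fun i => hr4 _ _,
    fun i => hr5 _ _, ?_⟩
  · intro i j hij
    rcases lt_trichotomy i j with hlt | heq | hgt
    · exact absurd hij (hne i j hlt)
    · exact heq
    · exact absurd hij.symm (hne j i hgt)
  · intro i
    exact (hr3 (s i) i).trans (s i).2.1
  · intro i j hij
    have h1 : (r (s j) j).2.1 ≤ (s (i + 1)).1.1 := (hr3 (s j) j).trans (hYanti (Nat.succ_le_of_lt hij))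
    rw [hY] at h1
    exact nm_mono h1 (hr9 (s i) i)

end Pool.Agent.CTM
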