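import Pool.Agent.CTM.TwD
import Pool.Agent.CTM.SyH

/-!
# CTM: the pro-`p i` subgroups of the tower group
-/

set_option autoImplicit false

namespace Pool.Agent.CTM

universe u

variable {G : Type u} [Group G] [TopologicalSpace G] [IsTopologicalGroup G] [T2Space G]

/-- size 3.  PROOF.  `H := cl (⨆ j, P j)`, `B := Hs P (i+1)`: compact, normalised by `H ≥ Q` (`hs_props`).  `C₀ := B ⊔ Q` compact (`cpt_sup`).  `U₀` compact open (`H.base`), `U ≤ U₀` open normalised by `C₀` (`core_exists`; compact as it is closed in `U₀`).  `C := (U ⊓ H) ⊔ C₀` (`C₀` normalises `U ⊓ H`): compact, `≤ H`, `U ⊓ H ≤ C`, `B ≤ C`.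
For every open `V` let `W ≤ V` be open normalised by `C`: `R := (W ⊓ C) ⊔ B` is normalised by `C`, `W ⊓ C ≤ R`, `p i ∤ R.relIndex C` (`tow_index`): `Q ≤ R` (`Pp.le_of_coprime`).  So for `x ∈ Q` and every open `V`: `x = b * w` (`mem_sup_nm'`, `B` normalised by `W ⊓ C ≤ H`...), `b ∈ B`, `w ∈ V`: so `x ∈ closure B = B` (`Hyp.mem_closure`). -/
theorem tow_syl {p : ℕ → ℕ} (hp : ∀ i, (p i).Prime) (hpi : Function.Injective p) {P : ℕ → Subgroup G} {K : ℕ → Subgroup G} (T : Tow K)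
    (hP : ∀ i, Pp {p i} (P i)) (hn : ∀ i j, i < j → Nm (P j) (P i)) (hK : ∀ i, ¬ P i ≤ K i) (i : ℕ) {Q : Subgroup G}
    (hQ : Q ≤ (⨆ j, P j : Subgroup G).topologicalClosure) (hQp : Pp {p i} Q) : Q ≤ Hs P (i + 1) := by
  obtain ⟨-, hs⟩ := hs_props hP hn
  obtain ⟨hBc, hBH, hBn, -, -⟩ := hs (i + 1)
  have hHcl : IsClosed (((⨆ j, P j : Subgroup G).topologicalClosure : Subgroup G) : Set G) :=
    Subgroup.isClosed_topologicalClosure _
  generalize hHdef : (⨆ j, P j : Subgroup G).topologicalClosure = H at *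
  have hC₀ : IsCompact ((Hs P (i + 1) ⊔ Q : Subgroup G) : Set G) :=
    cpt_sup hBc hQp.1 (nm_mono hQ hBn)
  have hC₀H : Hs P (i + 1) ⊔ Q ≤ H := sup_le hBH hQ
  obtain ⟨U, hU, hUK, hUn⟩ := core_exists hC₀ (T.opn 0)
  have hUc : IsCompact (U : Set G) :=
    T.cpt_of (Subgroup.isClosed_of_isOpen _ hU) (n := 0) hUK
  have hUH : IsCompact ((U ⊓ H : Subgroup G) : Set G) := by
    rw [Subgroup.coe_inf]
    exact hUc.inter_right hHcl
  have hUHn : Nm (Hs P (i + 1) ⊔ Q) (U ⊓ H) := nm_inf hUn (nm_mono hC₀H (nm_self H))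
  have hC : IsCompact (((U ⊓ H) ⊔ (Hs P (i + 1) ⊔ Q) : Subgroup G) : Set G) :=
    cpt_sup hUH hC₀ hUHn
  have hCH : (U ⊓ H) ⊔ (Hs P (i + 1) ⊔ Q) ≤ H := sup_le inf_le_right hC₀H
  have hBC : Hs P (i + 1) ≤ (U ⊓ H) ⊔ (Hs P (i + 1) ⊔ Q) := le_sup_of_le_right le_sup_left
  have hQC : Q ≤ (U ⊓ H) ⊔ (Hs P (i + 1) ⊔ Q) := le_sup_of_le_right le_sup_right
  intro x hx
  have hxcl : x ∈ closure ((Hs P (i + 1) : Subgroup G) : Set G) := by
    rw [T.hyp.mem_closure]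
    intro V hV
    obtain ⟨W, hW, hWV, hWn⟩ := core_exists hC hV
    have hi := tow_index hp hpi T hP hn hK i (C := (U ⊓ H) ⊔ (Hs P (i + 1) ⊔ Q)) (U := U) (W := W)
      hC (by rw [hHdef]; exact hCH) hU (by rw [hHdef]; exact le_sup_left) hBC hW hWn
    have hWC : Nm ((U ⊓ H) ⊔ (Hs P (i + 1) ⊔ Q)) (W ⊓ ((U ⊓ H) ⊔ (Hs P (i + 1) ⊔ Q))) :=
      nm_inf hWn (nm_self _)
    have hle := Pp.le_of_coprime (hp i) hQp hQC hW le_sup_left (nm_sup hWC (nm_mono hCH hBn)) hi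
    have hxR := hle hx
    rw [mem_sup_nm' (nm_mono hBC hWC)] at hxR
    obtain ⟨b, hb, a, ha, rfl⟩ := hxR
    refine ⟨b, hb, ?_⟩
    have : (b * a)⁻¹ * b = a⁻¹ := by group
    rw [this]
    exact V.inv_mem (hWV ha.1)
  rwa [hBc.isClosed.closure_eq] at hxcl

end Pool.Agent.CTM
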