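import Pool.Agent.CTM.Lay
import Pool.Agent.CTM.TwB
import Pool.Agent.CTM.TwE
import Pool.Agent.CTM.Cgs

/-!
# CTM: the minimal group of the tower
-/

set_option autoImplicit false

namespace Pool.Agent.CTM

universe u

variable {G : Type u} [Group G] [TopologicalSpace G]

/-- The data of case beta: `N` minimal in `H`, the compact layers `A i` (normalised by `H`, dense union in `N`), `A i` pro-`{p j : j < i}`, all pro-`p i` subgroups of `N` are in `A (i+1)`, and `A (i+1) ⧸ A i` is pro-`p i`. -/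
structure Rt (K : ℕ → Subgroup G) (H N : Subgroup G) (p : ℕ → ℕ) (A : ℕ → Subgroup G) : Prop where
  min : MinN H N
  bd : Bd K N
  pr : ∀ i, (p i).Prime
  zero : A 0 = ⊥
  mono : Monotone A
  cpt : ∀ i, IsCompact (A i : Set G)
  le : ∀ i, A i ≤ N
  nm : ∀ i, Nm H (A i)
  dn : ∀ x ∈ N, ∀ V : Subgroup G, IsOpen (V : Set G) → ∃ i, ∃ a ∈ A i, x⁻¹ * a ∈ V
  pp : ∀ i, Pp {r | ∃ j < i, r = p j} (A i)
  syl : ∀ i, ∀ Q : Subgroup G, Q ≤ N → Pp {p i} Q → Q ≤ A (i + 1)
  lay : ∀ i, ∀ W : Subgroup G, IsOpen (W : Set G) → Nm (A (i + 1)) W → ∀ x ∈ A (i + 1),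
    ∃ k : ℕ, x ^ (p i ^ k) ∈ A i ⊔ (W ⊓ A (i + 1))

variable [IsTopologicalGroup G] [T2Space G]

/-- size 3.  PROOF.  `p`, `P` from `tow_seq`, `H := cl (⨆ j, P j) ≤ N₀`, `CND H` (`tow_cnd`), `N` from `exists_minN`, `A i := N ⊓ Hs P i`.  `dn`: `Z := cl (⨆ i, A i)` (union of a monotone sequence).  For `x ∈ N`, `y ∈ Hs P k`: `cm x y ∈ N ⊓ Hs P k` (both normalised by `H`).  By density of the union of the `Hs P k` in `H` (`tow_cnd`, `Hyp.mem_closure`) and `cm_closure`
`cm x y ∈ Z` for `x ∈ N`, `y ∈ H`; so `N ≤ Z` (`MinN.le_of_cm`).  `pp`: `Pp.le` and `hs_props`; `syl`: `tow_syl`; `lay`: `layer` with `B = Hs P i`, `P = P i`; `bd`: `Bd.mono`. -/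
theorem exists_rt {K : ℕ → Subgroup G} (T : Tow K) {N₀ : Subgroup G} (h : Bd K N₀)
    (hN : IsClosed (N₀ : Set G)) (hnc : ¬ IsCompact (N₀ : Set G)) :
    ∃ (H N : Subgroup G) (p : ℕ → ℕ) (A : ℕ → Subgroup G), Rt K H N p A := by
  obtain ⟨p, P, hp, hpi, hPN, hPp, hPK, hPn⟩ := tow_seq T h hN hnc
  obtain ⟨hmono, hH⟩ := hs_props hPp hPn
  obtain ⟨hcnd, hdn⟩ := tow_cnd T hPp hPn hPK
  obtain ⟨N, hM⟩ := exists_minN T.hyp hcnd
  have hHN₀ : (⨆ j, P j : Subgroup G).topologicalClosure ≤ N₀ :=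
    Subgroup.topologicalClosure_minimal _ (iSup_le hPN) hN
  have hAm : Monotone (fun i => N ⊓ Hs P i) := fun i j hij => inf_le_inf_left N (hmono hij)
  refine ⟨(⨆ j, P j : Subgroup G).topologicalClosure, N, p, fun i => N ⊓ Hs P i, ?_⟩
  have hdense : N ≤ (⨆ i, (N ⊓ Hs P i) : Subgroup G).topologicalClosure := by
    refine MinN.le_of_cm T.hyp hM (Subgroup.isClosed_topologicalClosure _) ?_
    have key : ∀ x ∈ (N : Set G), ∀ y ∈ (⋃ k, (Hs P k : Set G)),
        cm x y ∈ (((⨆ i, (N ⊓ Hs P i) : Subgroup G).topologicalClosure : Subgroup G) : Set G) := by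
      intro x hx y hy
      obtain ⟨k, hk⟩ := Set.mem_iUnion.1 hy
      have hyH : y ∈ (⨆ j, P j : Subgroup G).topologicalClosure := (hH k).2.1 hk
      have h1 : cm x y ∈ N := by
        rw [cm_eq]
        exact N.mul_mem (N.inv_mem hx) (hM.nm y hyH x hx)
      have h2 : cm x y ∈ Hs P k := by
        rw [cm_eq']
        exact (Hs P k).mul_mem ((Hs P k).inv_mem ((hH k).2.2.1 x (hM.le hx) y hk)) hk
      exact Subgroup.le_topologicalClosure _
        ((le_iSup (fun i => N ⊓ Hs P i) k) (Subgroup.mem_inf.2 ⟨h1, h2⟩))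
    intro x hx y hy
    refine cm_closure (Subgroup.isClosed_topologicalClosure _) key x (subset_closure hx) y ?_
    rw [Hyp.mem_closure T.hyp]
    intro V hV
    obtain ⟨k, z, hz, hzV⟩ := hdn y (hM.le hy) V hV
    exact ⟨z, Set.mem_iUnion.2 ⟨k, hz⟩, hzV⟩
  exact
    { min := hM
      bd := h.mono (hM.le.trans hHN₀)
      pr := hp
      zero := by
        show N ⊓ Hs P 0 = ⊥
        simp [Hs]
      mono := hAm
      cpt := fun i => by
        show IsCompact ((N ⊓ Hs P i : Subgroup G) : Set G)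
        rw [Subgroup.coe_inf]
        exact (hH i).1.inter_left hM.cl
      le := fun i => inf_le_left
      nm := fun i => nm_inf hM.nm (hH i).2.2.1
      dn := by
        intro x hx V hV
        have hx' : x ∈ closure ((⨆ i, (N ⊓ Hs P i) : Subgroup G) : Set G) := hdense hx
        rw [Hyp.mem_closure T.hyp] at hx'
        obtain ⟨s, hs, hsV⟩ := hx' V hV
        obtain ⟨i, hi⟩ := (Subgroup.mem_iSup_of_directed
          (K := fun i => N ⊓ Hs P i) hAm.directed_le).1 hs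
        exact ⟨i, s, hi, hsV⟩
      pp := fun i => Pp.le (hH i).2.2.2.1
        (by
          show IsClosed ((N ⊓ Hs P i : Subgroup G) : Set G)
          rw [Subgroup.coe_inf]
          exact hM.cl.inter (hH i).1.isClosed) inf_le_right
      syl := fun i Q hQN hQ =>
        le_inf hQN (tow_syl hp hpi T hPp hPn hPK i (hQN.trans hM.le) hQ)
      lay := fun i W hW hWn x hx =>
        layer (hp i) T.hyp hM.cl (hH i).1 (hPp i) (hH i).2.2.2.2 rfl hW hWn hx }

end Pool.Agent.CTM
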