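import Pool.Agent.CTM.Frs
import Pool.Agent.CTM.RtA
import Pool.Agent.CTM.LsD

/-!
# CTM: Lemma C
-/

set_option autoImplicit false

namespace Pool.Agent.CTM

universe u

variable {G : Type u} [Group G] [TopologicalSpace G] [IsTopologicalGroup G] [T2Space G]

/-- size 3.  LEMMA C.  PROOF.  Induction on `i`, for all `W`.  `i = 0`: `A 0 = ⊥`.  Step `i + 1`: `X := A (i+1)`, `Y := A i`.  `W' ≤ W` open normalised by `X` (`core_exists`).  Induction hypothesis for `W'`: `l₁`, `V₁`.  `Φ := cl (Subgroup.closure ({cm x y} ∪ {x ^ (p i)} ∪ Y))` (`x y ∈ X`), closed, `≤ X`, normalised by `H` (`nm_of_closure`, `nm_topClosure_right`), contains the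
commutators and the `p i`-th powers of `X`.  `lemS` for `X`, `Φ`, `W'`, `p i` (`hsyl` = `R.syl i`): `l₂`, `V₂`.  `l := max l₁ l₂`, `V₀ := V₁ ⊓ V₂`.  Given `q`, `M`: `Pp {r | r ≠ q} X` from `R.pp (i+1)` and `q ≠ p j`.  `S := {u ∈ X | ∀ m ∈ M, cm u m = 1}` (a subgroup).  `frat_step` (`hlay` = `R.lay i W'`): `a = u * b`, `b = y * w` (`mem_sup_nm`: `X` normalises `Y`), `y ∈ A i`, `w ∈ W'`,
and `y = u' * w'` by the induction hypothesis: `a = (u * u') * (w' * w)`. -/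
theorem lemC {K : ℕ → Subgroup G} (T : Tow K) {H N : Subgroup G} {p : ℕ → ℕ} {A : ℕ → Subgroup G}
    (R : Rt K H N p A) (i : ℕ) {W : Subgroup G} (hW : IsOpen (W : Set G)) :
    ∃ (l : ℕ) (V₀ : Subgroup G), IsOpen (V₀ : Set G) ∧ ∀ q : ℕ, q.Prime → (∀ j < i, q ≠ p j) →
      ∀ M : Subgroup G, M ≤ N → Pp {q} M → M ⊓ K l ≤ V₀ → ∀ a ∈ A i, ∃ u ∈ A i, (∀ m ∈ M, cm u m = 1) ∧
        ∃ w ∈ W, a = u * w := by
  induction i generalizing W with
  | zero =>
    refine ⟨0, ⊤, isOpen_univ, ?_⟩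
    intro q _ _ M _ _ _ a ha
    rw [R.zero, Subgroup.mem_bot] at ha
    exact ⟨1, Subgroup.one_mem _, fun m _ => by unfold cm; group, 1, W.one_mem, by rw [ha, mul_one]⟩
  | succ i ih =>
    obtain ⟨W', hW'o, hW'W, hW'n⟩ := core_exists (R.cpt (i + 1)) hW
    obtain ⟨l₁, V₁, hV₁, h₁⟩ := ih hW'o
    obtain ⟨S₀, hS₀⟩ : ∃ S₀ : Set G, S₀ = {g | ∃ x ∈ A (i + 1), ∃ y ∈ A (i + 1), g = cm x y} ∪
      {g | ∃ x ∈ A (i + 1), g = x ^ p i} ∪ (A i : Set G) := ⟨_, rfl⟩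
    have hYX : A i ≤ A (i + 1) := R.mono (Nat.le_succ i)
    have hcl : Subgroup.closure S₀ ≤ A (i + 1) := by
      rw [Subgroup.closure_le, hS₀]
      rintro g ((⟨x, hx, y, hy, rfl⟩ | ⟨x, hx, rfl⟩) | hg)
      · unfold cm
        exact (A (i + 1)).mul_mem ((A (i + 1)).mul_mem ((A (i + 1)).mul_mem ((A (i + 1)).inv_mem hx)
          ((A (i + 1)).inv_mem hy)) hx) hy
      · exact (A (i + 1)).pow_mem hx _
      · exact hYX hg
    have hΦX : (Subgroup.closure S₀).topologicalClosure ≤ A (i + 1) :=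
      Subgroup.topologicalClosure_minimal _ hcl (R.cpt (i + 1)).isClosed
    have hΦn : Nm H (Subgroup.closure S₀).topologicalClosure := by
      refine nm_topClosure_right (nm_of_closure fun h hh s hs => Subgroup.subset_closure ?_)
      rw [hS₀] at hs ⊢
      rcases hs with (⟨x, hx, y, hy, rfl⟩ | ⟨x, hx, rfl⟩) | hg
      · exact Or.inl (Or.inl ⟨cj x h, R.nm (i + 1) h hh x hx, cj y h, R.nm (i + 1) h hh y hy, cm_cj x y h⟩)
      · exact Or.inl (Or.inr ⟨cj x h, R.nm (i + 1) h hh x hx, pow_cj x h _⟩)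
      · exact Or.inr (R.nm i h hh s hg)
    have hsub : ∀ g ∈ S₀, g ∈ (Subgroup.closure S₀).topologicalClosure := fun g hg =>
      Subgroup.le_topologicalClosure _ (Subgroup.subset_closure hg)
    have hab : ∀ x ∈ A (i + 1), ∀ y ∈ A (i + 1), cm x y ∈ (Subgroup.closure S₀).topologicalClosure :=
      fun x hx y hy => hsub _ (by rw [hS₀]; exact Or.inl (Or.inl ⟨x, hx, y, hy, rfl⟩))
    have hexp : ∀ x ∈ A (i + 1), x ^ p i ∈ (Subgroup.closure S₀).topologicalClosure :=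
      fun x hx => hsub _ (by rw [hS₀]; exact Or.inl (Or.inr ⟨x, hx, rfl⟩))
    obtain ⟨l₂, V₂, hV₂, h₂⟩ := lemS T R.min (R.pr i) (R.cpt (i + 1)) (R.le (i + 1)) (R.nm (i + 1))
      (Subgroup.isClosed_topologicalClosure _) hΦX hΦn hab hexp (R.syl i) hW'o
    refine ⟨max l₁ l₂, V₁ ⊓ V₂, hV₁.inter hV₂, ?_⟩
    intro q hq hqp M hMN hM hMl a ha
    have hMl1 : M ⊓ K l₁ ≤ V₁ := fun x hx => (hMl ⟨hx.1, T.mono (le_max_left l₁ l₂) hx.2⟩).1
    have hMl2 : M ⊓ K l₂ ≤ V₂ := fun x hx => (hMl ⟨hx.1, T.mono (le_max_right l₁ l₂) hx.2⟩).2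
    have hPp : Pp {r | r ≠ q} (A (i + 1)) := by
      refine (R.pp (i + 1)).mono_pi ?_
      rintro r ⟨j, hj, rfl⟩
      exact fun h => hqp j hj h.symm
    have hcm : ∀ u m : G, cm u m = 1 ↔ m * u = u * m := by
      intro u m
      unfold cm
      constructor
      · intro h
        have h' : m * u * (u⁻¹ * m⁻¹ * u * m) = m * u := by rw [h, mul_one]
        have h'' : m * u * (u⁻¹ * m⁻¹ * u * m) = u * m := by group
        rw [← h', h'']
      · intro h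
        have h' : u⁻¹ * m⁻¹ * u * m = (m * u)⁻¹ * (u * m) := by group
        rw [h', h, inv_mul_cancel]
    have hSm : ∀ u : G, u ∈ A (i + 1) ⊓ Subgroup.centralizer (M : Set G) ↔
        u ∈ A (i + 1) ∧ ∀ m ∈ M, cm u m = 1 := by
      intro u
      rw [Subgroup.mem_inf, Subgroup.mem_centralizer_iff]
      constructor
      · rintro ⟨h, h'⟩
        exact ⟨h, fun m hm => (hcm u m).mpr (h' m hm)⟩
      · rintro ⟨h, h'⟩
        exact ⟨h, fun m hm => (hcm u m).mp (h' m hm)⟩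
    obtain ⟨u, hu, b, hb, hab'⟩ := frat_step (X := A (i + 1)) (Y := A i) (W := W')
      (S := A (i + 1) ⊓ Subgroup.centralizer (M : Set G)) (Φ := (Subgroup.closure S₀).topologicalClosure)
      (R.pr i) T.hyp (R.cpt (i + 1)) hYX (nm_mono ((R.le (i + 1)).trans R.min.le) (R.nm i)) hW'o hW'n
      inf_le_left hΦX (R.lay i W' hW'o hW'n)
      (by rw [Subgroup.topologicalClosure_coe, hS₀])
      (fun a ha => by
        obtain ⟨u, hu, hum, f, hf, w, hw, haw⟩ := h₂ q hq (hqp i (Nat.lt_succ_self i)) hPp M hMN hM hMl2 a ha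
        exact ⟨u, (hSm u).mpr ⟨hu, hum⟩, f, hf, w, hw, haw⟩) a ha
    obtain ⟨hu1, hu2⟩ := (hSm u).mp hu
    have hnm : Nm (W' ⊓ A (i + 1)) (A i) :=
      nm_mono (inf_le_right.trans ((R.le (i + 1)).trans R.min.le)) (R.nm i)
    obtain ⟨y, hy, w, hw, hbw⟩ := (mem_sup_nm hnm).mp hb
    obtain ⟨u', hu', hum', w', hw', hyw⟩ :=
      h₁ q hq (fun j hj => hqp j (hj.trans (Nat.lt_succ_self i))) M hMN hM hMl1 y hy
    refine ⟨u * u', (A (i + 1)).mul_mem hu1 (hYX hu'), ?_, w' * w, W.mul_mem (hW'W hw') (hW'W hw.1), ?_⟩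
    · intro m hm
      rw [hcm]
      have e1 := (hcm u m).mp (hu2 m hm)
      have e2 := (hcm u' m).mp (hum' m hm)
      rw [← mul_assoc, e1, mul_assoc, e2, mul_assoc]
    · rw [hab', hbw, hyw]; group

end Pool.Agent.CTM
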