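import Pool.Agent.CTM.BasA
import Pool.Agent.CTM.BasB
import Pool.Agent.CTM.BasC

/-!
# CTM: Lemma M
-/

set_option autoImplicit false

namespace Pool.Agent.CTM

universe u

variable {G : Type u} [Group G] [TopologicalSpace G] [IsTopologicalGroup G] [T2Space G]

/-- size 3.  LEMMA M.  PROOF.  `Y := sInf Z` (closed, normalised by `A`, `≤ A`).  `F := {Z' ⊔ (V ⊓ A) | Z' ∈ Z, V` compact open subgroup`}`.  As `V ⊓ A` normalises `Z'`, the elements of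
`Z' ⊔ (V ⊓ A)` are the products `z * v` (`mem_sup_nm`).  Check the hypotheses of `MS` for `A`, `Y`, `F`: nonempty; directed (`Z'' ≤ Z' ⊓ Z'''`, `V ⊓ V'`); `Y ≤ Z' ≤ O ≤ A`, `V ⊓ A ≤ O`;
conjugation: for `a ∈ A` take `O' = Z' ⊔ (cjS V a⁻¹ ⊓ A)` (so that `cj v a ∈ V` for `v ∈ cjS V a⁻¹`; `cjS_open`, `cjS_compact`); intersection: if `x` is in all
`O`, then for every `Z' ∈ Z` and every compact open `V` `x = z * v`, so `x V` meets `Z'`; as `Z'` is closed `x ∈ Z'` (`Hyp.small`); so `x ∈ Y`.  Take a compact open `U` (`H.base`): `MS` gives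
`O = Z' ⊔ (V ⊓ A)` with `O ⊆ U * Y`, which is compact; `Z' ⊆ O` is closed, so compact. -/
theorem lemM (H : Hyp G) {A : Subgroup G} (hA : IsClosed (A : Set G)) {Z : Set (Subgroup G)} (hne : Z.Nonempty)
    (hdir : ∀ B ∈ Z, ∀ B' ∈ Z, ∃ B'' ∈ Z, B'' ≤ B ⊓ B')
    (hZ : ∀ B ∈ Z, IsClosed (B : Set G) ∧ B ≤ A ∧ Nm A B)
    (hc : IsCompact ((sInf Z : Subgroup G) : Set G)) : ∃ B ∈ Z, IsCompact (B : Set G) := by
  set Y : Subgroup G := sInf Z with hY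
  obtain ⟨B₀, hB₀⟩ := hne
  have hmem : ∀ B ∈ Z, ∀ V : Subgroup G, ∀ x, x ∈ B ⊔ (V ⊓ A) ↔ ∃ a ∈ B, ∃ b ∈ V ⊓ A, x = a * b :=
    fun B hB V x => mem_sup_nm (nm_mono inf_le_right (hZ B hB).2.2)
  have hYcl : IsClosed (Y : Set G) := by
    rw [hY, Subgroup.coe_sInf]
    exact isClosed_biInter fun B hB => (hZ B hB).1
  have hYA : Y ≤ A := (sInf_le hB₀).trans (hZ B₀ hB₀).2.1
  have hYn : Nm A Y := by
    intro a ha y hy
    rw [hY, Subgroup.mem_sInf] at hy ⊢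
    exact fun B hB => (hZ B hB).2.2 a ha y (hy B hB)
  obtain ⟨U, hUo, hUc, -⟩ := H.base Set.univ Filter.univ_mem
  let F : Set (Subgroup G) :=
    {O | ∃ B ∈ Z, ∃ V : Subgroup G, IsOpen (V : Set G) ∧ IsCompact (V : Set G) ∧ O = B ⊔ (V ⊓ A)}
  obtain ⟨O, ⟨B, hB, V, -, -, rfl⟩, hO⟩ := H.ms A Y hA hYcl hYA hYn F ⟨_, B₀, hB₀, U, hUo, hUc, rfl⟩
    (by
      rintro _ ⟨B, hB, V, hVo, hVc, rfl⟩ _ ⟨B', hB', V', hVo', hVc', rfl⟩
      obtain ⟨B'', hB'', hle⟩ := hdir B hB B' hB'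
      refine ⟨B'' ⊔ (V ⊓ V' ⊓ A), ⟨B'', hB'', V ⊓ V', ?_, ?_, rfl⟩, ?_⟩
      · rw [Subgroup.coe_inf]; exact hVo.inter hVo'
      · rw [Subgroup.coe_inf]; exact hVc.inter hVc'
      · exact le_inf
          (sup_le_sup (hle.trans inf_le_left) (inf_le_inf_right A inf_le_left))
          (sup_le_sup (hle.trans inf_le_right) (inf_le_inf_right A inf_le_right)))
    (by
      rintro _ ⟨B, hB, V, hVo, hVc, rfl⟩
      exact ⟨(sInf_le hB).trans le_sup_left, sup_le (hZ B hB).2.1 inf_le_right, V, hVo, le_sup_right⟩)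
    (by
      rintro _ ⟨B, hB, V, hVo, hVc, rfl⟩ a ha
      refine ⟨B ⊔ (cjS V a⁻¹ ⊓ A), ⟨B, hB, cjS V a⁻¹, cjS_open hVo _, cjS_compact hVc _, rfl⟩, ?_⟩
      intro x hx
      obtain ⟨z, hz, v, hv, rfl⟩ := (hmem B hB _ x).1 hx
      rw [mul_cj]
      refine Subgroup.mul_mem _ (Subgroup.mem_sup_left ((hZ B hB).2.2 a ha z hz))
        (Subgroup.mem_sup_right ⟨?_, nm_self A a ha v hv.2⟩)
      have h := mem_cjS'.1 hv.1
      rwa [inv_inv] at h)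
    (by
      intro x hx
      rw [hY, Subgroup.mem_sInf]
      intro B hB
      by_contra hxB
      obtain ⟨V, hVo, hVc, hV⟩ := H.small (hZ B hB).1 hxB
      obtain ⟨z, hz, v, hv, hxv⟩ := (hmem B hB V x).1 (hx _ ⟨B, hB, V, hVo, hVc, rfl⟩)
      apply hV v⁻¹ (V.inv_mem hv.1)
      rw [hxv, mul_inv_cancel_right]
      exact hz)
    U hUo
  refine ⟨B, hB, (hUc.mul hc).of_isClosed_subset (hZ B hB).1 ?_⟩
  intro x hx
  obtain ⟨v, hv, -, y, hy, rfl⟩ := hO x (Subgroup.mem_sup_left hx)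
  exact Set.mul_mem_mul hv hy

end Pool.Agent.CTM
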