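import Pool.Agent.CTM.SyB
import Pool.Agent.CTM.AvA
import Pool.Agent.CTM.AvB
import Pool.Agent.CTM.AvC
import Pool.Agent.CTM.AvD

/-!
# CTM, Lemma S, part A: lifting fixed points modulo `Φ`
-/

set_option autoImplicit false

namespace Pool.Agent.CTM

universe u

variable {G : Type u} [Group G] [TopologicalSpace G] [IsTopologicalGroup G] [T2Space G]

/-- size 4.  PROOF.  `Φ ≤ X₀ ≤ X`, `X ⧸ Φ` commutative of exponent `p`, all normalised by the compact group `Γ`, whose Sylow `p`-subgroup `P` is contained in `X` (so acts trivially on `X ⧸ Φ`).  Let `V` be open and `W ≤ V` open, normalised by the compact group `X ⊔ Γ` (`cpt_sup`, `core_exists`).  `X₁ := (W ⊓ X) ⊔ Φ`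
(products `w * f` by `mem_sup_nm`), `Φ ≤ X₁ ≤ X`, normalised by `Γ`.  `Δ := {g ∈ Γ | ∀ x ∈ X, cm x g ∈ X₁}`, a subgroup (`X₁` normalised by `Γ` and normal in `X`).  `W ⊓ Γ ≤ Δ`: `cm x g = (cj g x)⁻¹ * g ∈ W` for `g ∈ W`, `x ∈ X`, and `cm x g = x⁻¹ * cj x g ∈ X`.  `P ≤ Δ` as `P ≤ X`.
So `p ∤ Δ.relIndex Γ =: m` (`IsSyl.ndvd'`), `m ≠ 0` (`relIndex_ne` and `W ⊓ Γ ≤ Δ`).  `T` from `exists_trv`, `r` from `exists_inv_mod`, `b := (nrmP T a) ^ r ∈ X`.  `cm b g ∈ X₁` for `g ∈ Γ` (`nrmP_fix`; and `cm (s ^ r) g ∈ X₁` follows from `cm s g ∈ X₁`).  `a⁻¹ * b ∈ X₀`: `nrmP_count` for `X₀` with `P = True`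
(`a⁻¹ * cj a t = cm a t ∈ X₀`) and `pow_inv_mod`.  So for every open `V` the set `S V := {b ∈ X | a⁻¹ * b ∈ X₀ ∧ ∀ g ∈ Γ, ∃ f ∈ Φ, f⁻¹ * cm b g ∈ V}` is not empty (`cm b g ∈ X₁ = Φ (W ⊓ X)`, `mem_sup_nm'`); closed (`Φ V` is a union of left cosets of `V`); decreasing in `V`.  `fam_inter` with the compact set `X`: `b ∈ X` in all of them: `cm b g ∈ closure Φ = Φ`
(`Hyp.mem_closure`). -/
theorem cop_lift (H : Hyp G) {X Φ X₀ Γ P : Subgroup G} {p : ℕ} (hp : p.Prime) (hX : IsCompact (X : Set G))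
    (hΦ : IsClosed (Φ : Set G)) (hX₀ : IsClosed (X₀ : Set G)) (h1 : Φ ≤ X₀) (h2 : X₀ ≤ X)
    (hab : ∀ x ∈ X, ∀ y ∈ X, cm x y ∈ Φ) (hexp : ∀ x ∈ X, x ^ p ∈ Φ) (hΓ : IsCompact (Γ : Set G))
    (hnX : Nm Γ X) (hnΦ : Nm Γ Φ) (hnX₀ : Nm Γ X₀) (hP : IsSyl p Γ P) (hPX : P ≤ X) {a : G} (ha : a ∈ X)
    (hag : ∀ g ∈ Γ, cm a g ∈ X₀) : ∃ b ∈ X, a⁻¹ * b ∈ X₀ ∧ ∀ g ∈ Γ, cm b g ∈ Φ := by
  have hΦX : Φ ≤ X := le_trans h1 h2
  have hnXΦ : Nm X Φ := fun c hc y hy => by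
    rw [cj_eq]
    exact Φ.mul_mem hy (hab y (hΦX hy) c hc)
  set S : Subgroup G → Set G := fun V =>
    {b | b ∈ X ∧ a⁻¹ * b ∈ X₀ ∧ ∀ g ∈ Γ, ∃ f ∈ Φ, f⁻¹ * cm b g ∈ V} with hS
  have hcl : ∀ V : Subgroup G, IsOpen (V : Set G) → IsClosed (S V) := by
    intro V hV
    have e : S V = (X : Set G) ∩ ((fun b => a⁻¹ * b) ⁻¹' (X₀ : Set G) ∩
        ⋂ g ∈ Γ, (fun b => cm b g) ⁻¹' {y | ∃ f ∈ Φ, f⁻¹ * y ∈ V}) := by
      ext b
      simp only [hS, Set.mem_setOf_eq, Set.mem_inter_iff, SetLike.mem_coe, Set.mem_preimage,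
        Set.mem_iInter]
    rw [e]
    refine hX.isClosed.inter ((hX₀.preimage (by fun_prop)).inter ?_)
    refine isClosed_biInter (fun g _ => ?_)
    refine IsClosed.preimage (by unfold cm; fun_prop) ?_
    refine (clopen_of_coset hV ?_).1
    rintro x ⟨f, hf, hfx⟩ v hv
    exact ⟨f, hf, by rw [← mul_assoc]; exact V.mul_mem hfx hv⟩
  have hne : ∀ V : Subgroup G, IsOpen (V : Set G) → (S V ∩ (X : Set G)).Nonempty := by
    intro V hV
    obtain ⟨W, hWo, hWV, hnW⟩ := core_exists (cpt_sup hX hΓ hnX) hV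
    have hnWX : Nm X W := nm_mono le_sup_left hnW
    have hnWΓ : Nm Γ W := nm_mono le_sup_right hnW
    have hnWX' : Nm X (W ⊓ X) := nm_inf hnWX (nm_self X)
    have hnWΓ' : Nm Γ (W ⊓ X) := nm_inf hnWΓ hnX
    set X₁ : Subgroup G := (W ⊓ X) ⊔ Φ with hX₁
    have hΦ1 : Φ ≤ X₁ := le_sup_right
    have hW1 : W ⊓ X ≤ X₁ := le_sup_left
    have h1X : X₁ ≤ X := sup_le inf_le_right hΦX
    have hn1Γ : Nm Γ X₁ := nm_sup hnWΓ' hnΦ
    have hn1X : Nm X X₁ := nm_sup hnWX' hnXΦ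
    set Δ : Subgroup G :=
      { carrier := {g | g ∈ Γ ∧ ∀ x ∈ X, cm x g ∈ X₁}
        one_mem' := ⟨Γ.one_mem, fun x _ => by
          have : cm x 1 = 1 := by unfold cm; group
          rw [this]; exact X₁.one_mem⟩
        mul_mem' := by
          rintro g k ⟨hg, hg'⟩ ⟨hk, hk'⟩
          refine ⟨Γ.mul_mem hg hk, fun x hx => ?_⟩
          have : cm x (g * k) = cm x k * cj (cm x g) k := by unfold cm cj; group
          rw [this]
          exact X₁.mul_mem (hk' x hx) (hn1Γ k hk _ (hg' x hx))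
        inv_mem' := by
          rintro g ⟨hg, hg'⟩
          refine ⟨Γ.inv_mem hg, fun x hx => ?_⟩
          have : cm x g⁻¹ = cj (cm x g)⁻¹ g⁻¹ := by unfold cm cj; group
          rw [this]
          exact hn1Γ _ (Γ.inv_mem hg) _ (X₁.inv_mem (hg' x hx)) } with hΔ
    have hWΔ : W ⊓ Γ ≤ Δ := by
      rintro g ⟨hgW, hgΓ⟩
      refine ⟨hgΓ, fun x hx => hW1 ⟨?_, ?_⟩⟩
      · show cm x g ∈ W
        rw [cm_eq']
        exact W.mul_mem (W.inv_mem (hnWX x hx g hgW)) hgW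
      · show cm x g ∈ X
        rw [cm_eq]
        exact X.mul_mem (X.inv_mem hx) (hnX g hgΓ x hx)
    have hPΔ : P ≤ Δ := fun g hg => ⟨hP.le hg, fun x hx => hΦ1 (hab x hx g (hPX hg))⟩
    have hnd : ¬ p ∣ Δ.relIndex Γ := hP.ndvd' hWo hnWΓ hPΔ hWΔ
    have hm0 : Δ.relIndex Γ ≠ 0 := fun h0 => hnd (by rw [h0]; exact dvd_zero p)
    have hΔΓ : Δ ≤ Γ := fun g hg => hg.1
    obtain ⟨T, hT, hTc⟩ := exists_trv hΔΓ hm0
    obtain ⟨r, k, hr⟩ := exists_inv_mod hp hnd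
    have hs : nrmP T a ∈ X := nrmP_mem (fun t ht => hnX t (hT.1 t ht) a ha)
    have hfix : ∀ g ∈ Γ, cm (nrmP T a) g ∈ X₁ :=
      nrmP_fix h1X (fun x hx y hy => hΦ1 (hab x hx y hy)) hnX hn1Γ hT ha (fun d hd => hd.2 a ha)
    have hfix' : ∀ n : ℕ, ∀ g ∈ Γ, cm (nrmP T a ^ n) g ∈ X₁ := by
      intro n g hg
      induction n with
      | zero =>
        have : cm ((nrmP T a) ^ 0) g = 1 := by rw [pow_zero]; unfold cm; group
        rw [this]; exact X₁.one_mem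
      | succ n ih =>
        have : ∀ x y : G, cm (x * y) g = cj (cm x g) y * cm y g := by
          intro x y; unfold cm cj; group
        rw [pow_succ, this]
        exact X₁.mul_mem (hn1X _ hs _ ih) (hfix g hg)
    have hcount : (a ^ (Δ.relIndex Γ))⁻¹ * nrmP T a ∈ X₀ := by
      have := nrmP_count (X := X) (X₀ := X₀) h2 (fun x hx y hy => h1 (hab x hx y hy)) (T := T)
        (fun _ => True) ha (fun t ht _ => by
          have := hag t (hT.1 t ht)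
          rwa [cm_eq] at this) (fun t _ hf => absurd trivial hf)
      rwa [Finset.filter_true, hTc] at this
    have hb0 : a⁻¹ * (nrmP T a) ^ r ∈ X₀ :=
      pow_inv_mod h2 (fun x hx y hy => h1 (hab x hx y hy)) ha hs hr (h1 (hexp a ha)) hcount
    refine ⟨(nrmP T a) ^ r, ⟨X.pow_mem hs r, hb0, fun g hg => ?_⟩, X.pow_mem hs r⟩
    have hmem := hfix' r g hg
    rw [hX₁, mem_sup_nm' (nm_mono hΦX hnWX')] at hmem
    obtain ⟨f, hf, w, hw, e⟩ := hmem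
    refine ⟨f, hf, ?_⟩
    rw [e, inv_mul_cancel_left]
    exact hWV hw.1
  obtain ⟨b, hbX, hb⟩ := fam_inter hX S hcl hne (by
    rintro V V' _ _ hVV' x ⟨hx1, hx2, hx3⟩
    refine ⟨hx1, hx2, fun g hg => ?_⟩
    obtain ⟨f, hf, hfv⟩ := hx3 g hg
    exact ⟨f, hf, hVV' hfv⟩)
  refine ⟨b, hbX, (hb ⊤ isOpen_univ).2.1, fun g hg => ?_⟩
  have : cm b g ∈ closure (Φ : Set G) := by
    rw [H.mem_closure]
    intro V hV
    obtain ⟨f, hf, hfv⟩ := (hb V hV).2.2 g hg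
    refine ⟨f, hf, ?_⟩
    have := V.inv_mem hfv
    rwa [mul_inv_rev, inv_inv] at this
  rwa [hΦ.closure_eq] at this

end Pool.Agent.CTM
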