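import Pool.Agent.CTM.AvB
import Pool.Agent.CTM.AvD

/-!
# CTM: Lemma S: far elements
-/

set_option autoImplicit false

namespace Pool.Agent.CTM

universe u

variable {G : Type u} [Group G] [TopologicalSpace G] [IsTopologicalGroup G] [T2Space G]

/-- size 3.  PROOF (algebra).  `W₀ ≤ c`, `b ∈ c` is `cj v z * w` with `v w ∈ W₀`; `x` is fixed modulo `Φ` by `W₀`; `W₀` acts trivially on `X ⧸ X₀`; `Φ` is normalised by `z`.  So `cj x z` is fixed modulo `Φ` by `cj v z` (`cm (cj x z) (cj v z) = cj (cm x v) z ∈ Φ`), and modulo `X₀` by `w`: `cj (cj x z) (cj v z * w) = cj (cj x z * f) w ∈ cj x z * X₀` (`f ∈ Φ ≤ X₀`, `X₀` normalised by `w ∈ c`).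
So `cm (cj x z) b ∈ X₀` for all `b ∈ c`.  In particular for `b = cj t z`, `t ∈ T ⊆ c` (`z` normalises `c`): `nrmP_cj` with `X₀` (`X ⧸ X₀` is commutative): `((cj x z) ^ m)⁻¹ * cj (nrmP T x) z ∈ X₀`, and `cj (nrmP T x) z ∈ Φ` as `nrmP T x ∈ Φ`.  So `(cj x z) ^ m ∈ X₀`, and `(cj x z) ^ p ∈ Φ ≤ X₀`; `m` is prime to `p`: `cj x z ∈ X₀`. -/
theorem far_zero {X Φ X₀ c W₀ : Subgroup G} {p : ℕ} (hp : p.Prime) (h1 : Φ ≤ X₀) (h2 : X₀ ≤ X)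
    (hab : ∀ x ∈ X, ∀ y ∈ X, cm x y ∈ Φ) (hexp : ∀ x ∈ X, x ^ p ∈ Φ) (hnX₀ : Nm c X₀) (hW : W₀ ≤ c)
    (htr : ∀ x ∈ X, ∀ g ∈ W₀, cm x g ∈ X₀) {T : Finset G} (hT : ∀ t ∈ T, t ∈ c) (hm : ¬ p ∣ T.card) {x z : G}
    (hx : x ∈ X) (hzX : cj x z ∈ X) (hzΦ : ∀ f ∈ Φ, cj f z ∈ Φ) (hzc : ∀ g ∈ c, cj g z ∈ c)
    (hfix : ∀ g ∈ W₀, cm x g ∈ Φ) (hN : nrmP T x ∈ Φ)
    (hmix : ∀ b ∈ c, ∃ v ∈ W₀, ∃ w ∈ W₀, b = cj v z * w) : cj x z ∈ X₀ := by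
  have hcom : ∀ a ∈ X, ∀ b ∈ X, cm a b ∈ X₀ := fun a ha b hb => h1 (hab a ha b hb)
  have key : ∀ b ∈ c, (cj x z)⁻¹ * cj (cj x z) b ∈ X₀ := by
    intro b hb
    obtain ⟨v, hv, w, hw, rfl⟩ := hmix b hb
    have hf : cj (cm x v) z ∈ Φ := hzΦ _ (hfix v hv)
    have e1 : cj (cj x z) (cj v z * w) = cj x z * (cm (cj x z) w * cj (cj (cm x v) z) w) := by
      rw [← cj_cj, cj_eq (cj x z) (cj v z), ← cm_cj, mul_cj, cj_eq (cj x z) w, mul_assoc]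
    rw [e1, inv_mul_cancel_left]
    exact X₀.mul_mem (htr _ hzX w hw) (hnX₀ w (hW hw) _ (h1 hf))
  have h3 := nrmP_cj h2 hcom (T := T) (x := x) (z := z) hzX (fun t ht => key _ (hzc t (hT t ht)))
  have h4 : cj (nrmP T x) z ∈ X₀ := h1 (hzΦ _ hN)
  have h5 : ((cj x z) ^ T.card)⁻¹ * 1 ∈ X₀ := by
    rw [mul_one]
    have := X₀.mul_mem h3 (X₀.inv_mem h4)
    rwa [mul_inv_cancel_right] at this
  obtain ⟨r, k, hr⟩ := exists_inv_mod hp hm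
  have h6 := pow_inv_mod h2 hcom hzX X.one_mem hr (h1 (hexp _ hzX)) h5
  rw [one_pow, mul_one] at h6
  have := X₀.inv_mem h6
  rwa [inv_inv] at this

end Pool.Agent.CTM
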