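import Pool.Agent.CTM.SyB

/-!
# CTM: Sylow theory: existence
-/

set_option autoImplicit false

namespace Pool.Agent.CTM

universe u

variable {G : Type u} [Group G] [TopologicalSpace G]

variable [IsTopologicalGroup G] [T2Space G]

private theorem SyG_relIndex {H P K : Subgroup G} (hPK : P ≤ K)
    (h : ∀ x ∈ K, ∃ p ∈ P, ∃ y ∈ H, x = p * y) : H.relIndex K = H.relIndex P := by
  have hb : Function.Bijective (Subgroup.quotientSubgroupOfEmbeddingOfLE H hPK) := by
    refine ⟨(Subgroup.quotientSubgroupOfEmbeddingOfLE H hPK).injective, ?_⟩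
    intro z
    induction z using QuotientGroup.induction_on with
    | H k =>
      obtain ⟨p, hp, y, hy, hk⟩ := h k k.2
      refine ⟨QuotientGroup.mk (⟨p, hp⟩ : P), ?_⟩
      rw [Subgroup.quotientSubgroupOfEmbeddingOfLE_apply_mk]
      apply QuotientGroup.eq.2
      rw [Subgroup.mem_subgroupOf]
      have : ((Subgroup.inclusion hPK ⟨p, hp⟩)⁻¹ * k : K).1 = y := by
        change p⁻¹ * (k : G) = y
        rw [hk]; group
      change ((Subgroup.inclusion hPK ⟨p, hp⟩)⁻¹ * k : K).1 ∈ H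
      rw [this]; exact hy
  have := Nat.card_eq_of_bijective _ hb
  rw [Subgroup.relIndex, Subgroup.relIndex, Subgroup.index, Subgroup.index, this]

/-- size 4.  PROOF.  `P` from `exists_syl_min`.  To show `Pp {q} P`.  Let `W` be open normalised by `S` (enough: `core_exists`, `relIndex` of smaller subgroups is a multiple).  `F := P ⧸ W.subgroupOf P` is a finite group of order `W.relIndex P`.  Let `Q̄` be a Sylow `q`-subgroup of `F` (Mathlib `Sylow q F`), `P' ≤ P` its preimage, a closed subgroup (open in `P`) with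
`W ⊓ P ≤ P'`, `P'.relIndex P = Q̄.index` prime to `q`.  Claim: `P'` satisfies the condition: for `W₂` open normalised by `S`: `(P' ⊔ (W₂ ⊓ S)).relIndex S = (P' ⊔ (W₂ ⊓ S)).relIndex (P ⊔ (W₂ ⊓ S)) * (P ⊔ (W₂ ⊓ S)).relIndex S`; the second factor is prime to `q`; the first one is the index of a subgroup
of `P (W₂ ⊓ S)`, equal to `[P : P ∩ P' (W₂ ⊓ S)]`, which divides `[P : P'] = P'.relIndex P` (as `P' ≤ P ∩ P' (W₂ ⊓ S) ≤ P`): prime to `q`.  By minimality `P' = P`, so `Q̄ = F` and `W.relIndex P` is a power of `q`. -/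
theorem exists_syl {S : Subgroup G} (hS : IsCompact (S : Set G)) {q : ℕ} (hq : q.Prime) :
    ∃ P : Subgroup G, IsSyl q S P := by
  obtain ⟨P, hP⟩ := exists_syl_min hS hq
  have hPcl : IsClosed (P : Set G) := hP.1.1
  have hPS : P ≤ S := hP.1.2.1
  have hPn := hP.1.2.2
  have hPc : IsCompact (P : Set G) := hS.of_isClosed_subset hPcl hPS
  have : Fact q.Prime := ⟨hq⟩
  have key : ∀ W : Subgroup G, IsOpen (W : Set G) → Nm S W → ∃ e : ℕ, W.relIndex P = q ^ e := by
    intro W hW hn
    have hnP : Nm P W := nm_mono hPS hn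
    have hNn : (W.subgroupOf P).Normal := by
      constructor
      intro w hw g
      rw [Subgroup.mem_subgroupOf] at hw ⊢
      have := hnP g⁻¹ (P.inv_mem g.2) w hw
      unfold cj at this
      rw [inv_inv] at this
      exact this
    have hfin : W.relIndex P ≠ 0 := relIndex_ne hPc hW
    have hF : Finite (P ⧸ W.subgroupOf P) := Subgroup.index_ne_zero_iff_finite.1 hfin
    obtain ⟨Q⟩ : Nonempty (Sylow q (P ⧸ W.subgroupOf P)) := inferInstance
    have hQi : ¬ q ∣ Q.1.index := Q.not_dvd_index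
    set R : Subgroup P := Q.1.comap (QuotientGroup.mk' (W.subgroupOf P)) with hR
    have hRi : R.index = Q.1.index :=
      Subgroup.index_comap_of_surjective _ (QuotientGroup.mk'_surjective _)
    set P' : Subgroup G := R.map P.subtype with hP'
    have hP'P : P' ≤ P := by
      rintro x ⟨y, -, rfl⟩
      exact y.2
    have hP'r : P'.relIndex P = Q.1.index := by
      rw [← hRi, Subgroup.relIndex]
      congr 1
      ext x
      rw [Subgroup.mem_subgroupOf]
      constructor
      · rintro ⟨y, hy, hyx⟩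
        have : y = x := Subtype.ext hyx
        rw [← this]; exact hy
      · intro hx
        exact ⟨x, hx, rfl⟩
    have hWP' : ∀ x ∈ W, x ∈ P → x ∈ P' := by
      intro x hxW hxP
      refine ⟨⟨x, hxP⟩, ?_, rfl⟩
      change (QuotientGroup.mk' (W.subgroupOf P)) ⟨x, hxP⟩ ∈ Q.1
      have : (QuotientGroup.mk' (W.subgroupOf P)) ⟨x, hxP⟩ = 1 := by
        rw [QuotientGroup.mk'_apply, QuotientGroup.eq_one_iff, Subgroup.mem_subgroupOf]
        exact hxW
      rw [this]; exact Q.1.one_mem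
    have hP'cl : IsClosed (P' : Set G) := by
      set T : Set G := {x | ∃ a ∈ P', ∃ w ∈ W, x = a * w} with hT
      have hTc : IsClosed T := by
        refine (clopen_of_coset hW (S := T) ?_).1
        rintro x ⟨a, ha, w, hw, rfl⟩ v hv
        exact ⟨a, ha, w * v, W.mul_mem hw hv, by group⟩
      have : (P' : Set G) = T ∩ (P : Set G) := by
        ext x
        constructor
        · intro hx
          exact ⟨⟨x, hx, 1, W.one_mem, by group⟩, hP'P hx⟩
        · rintro ⟨⟨a, ha, w, hw, rfl⟩, hx⟩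
          have hwP : w ∈ P := by
            have := P.mul_mem (P.inv_mem (hP'P ha)) hx
            rwa [inv_mul_cancel_left] at this
          exact P'.mul_mem ha (hWP' w hw hwP)
      rw [this]
      exact hTc.inter hPcl
    have hcond : ∀ W₂ : Subgroup G, IsOpen (W₂ : Set G) → Nm S W₂ →
        ¬ q ∣ (P' ⊔ (W₂ ⊓ S)).relIndex S := by
      intro W₂ hW₂ hn₂ hd
      have h1 : P' ⊔ (W₂ ⊓ S) ≤ P ⊔ (W₂ ⊓ S) := sup_le_sup_right hP'P _
      have h2 : P ⊔ (W₂ ⊓ S) ≤ S := sup_le hPS inf_le_right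
      have hmul := Subgroup.relIndex_mul_relIndex _ _ _ h1 h2
      rw [← hmul] at hd
      rcases (Nat.Prime.dvd_mul hq).1 hd with h | h
      · have hM : Nm P (W₂ ⊓ S) := nm_mono hPS (nm_inf hn₂ (nm_self S))
        have hri : (P' ⊔ (W₂ ⊓ S)).relIndex (P ⊔ (W₂ ⊓ S)) = (P' ⊔ (W₂ ⊓ S)).relIndex P := by
          apply SyG_relIndex le_sup_left
          intro x hx
          rw [sup_comm] at hx
          obtain ⟨p, hp, m, hm, rfl⟩ := (mem_sup_nm' hM).1 hx
          exact ⟨p, hp, m, (le_sup_right : W₂ ⊓ S ≤ P' ⊔ (W₂ ⊓ S)) hm, rfl⟩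
        rw [hri] at h
        have h3 : (P' ⊔ (W₂ ⊓ S)).relIndex P ∣ P'.relIndex P :=
          Subgroup.relIndex_dvd_of_le_left P le_sup_left
        exact hQi (hP'r ▸ h.trans h3)
      · exact hPn W₂ hW₂ hn₂ h
    have hle : P ≤ P' := hP.2 ⟨hP'cl, hP'P.trans hPS, hcond⟩ hP'P
    have h1 : Q.1.index = 1 := by
      rw [← hP'r]; exact Subgroup.relIndex_eq_one.2 hle
    obtain ⟨e, he⟩ := IsPGroup.iff_card.1 Q.isPGroup'
    refine ⟨e, ?_⟩
    have hc : Q.1.index * Nat.card Q.1 = Nat.card (P ⧸ W.subgroupOf P) := Q.1.index_mul_card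
    rw [h1, one_mul] at hc
    have : W.relIndex P = Nat.card (P ⧸ W.subgroupOf P) := rfl
    rw [this, ← hc]
    exact he
  refine ⟨P, hPS, ⟨hPc, ?_⟩, hPn⟩
  intro W₀ hW₀ r hr hd
  obtain ⟨W, hW, hWW, hn⟩ := core_exists hS hW₀
  obtain ⟨e, he⟩ := key W hW hn
  have h1 : W₀.relIndex P ∣ W.relIndex P := Subgroup.relIndex_dvd_of_le_left P hWW
  have h2 : r ∣ q ^ e := he ▸ hd.trans h1
  have h3 : r ∣ q := hr.dvd_of_dvd_pow h2
  exact (Nat.prime_dvd_prime_iff_eq hr hq).1 h3

end Pool.Agent.CTM
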