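import Pool.Agent.CTM.LsB
import Pool.Agent.CTM.LsA
import Pool.Agent.CTM.MxF
import Pool.Agent.CTM.SyG
import Pool.Agent.CTM.AvC

/-!
# CTM: Lemma S: the decomposition
-/

set_option autoImplicit false

namespace Pool.Agent.CTM

universe u

variable {G : Type u} [Group G] [TopologicalSpace G] [IsTopologicalGroup G] [T2Space G]

/-- size 4.  PROOF.  `W₀ := {g ∈ c | ∀ x ∈ X, cm x g ∈ X₀}`, a subgroup (`X₀` normalised by `c`, normal in `X`), normalised by `c`, closed.  By `core_exists` (for `X ⊔ c`, compact; `X` is normalised by `c ≤ N ≤ A`) there is `V' ≤ V₁` open normalised by `X ⊔ c`, where `V₁ ⊓ X ≤ X₀`: `V' ⊓ c ≤ W₀` (`cm x g = (cj g x)⁻¹ * g ∈ V' ⊓ X`).  `mix` for `c`, `V'`: `l`; for `z ∈ N`, `z ∉ K l`, `b ∈ c`: `v ∈ c ⊓ V' ≤ W₀`,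
`b⁻¹ * cj v z ∈ V' ⊓ c ≤ W₀`: `b = cj v z * w`.  Sylow subgroups (`exists_syl`): `P` of `c`: `P ≤ N`, pro-`p`, so `P ≤ X` (`hsyl`), so `P ≤ W₀` (`cm x g ∈ Φ ≤ X₀` for `g ∈ X`): `m := W₀.relIndex c` is prime to `p` (`IsSyl.ndvd'`, `V' ⊓ c ≤ W₀`), `≠ 0`.  `P'` of `W₀`: `P' ≤ X` too.
Let `a ∈ X`.  `cop_lift` for `Γ = W₀` (`a⁻¹ * cj a g = cm a g ∈ X₀`): `a' ∈ X`, `a⁻¹ * a' ∈ X₀`, `cm a' g ∈ Φ` for `g ∈ W₀`.  `T` a transversal of `W₀` in `c` (`exists_trv`), `r * m = 1 + p * k`, `s := nrmP T a' ∈ X`, `y := s ^ r`.  `X' := {x ∈ X | ∀ g ∈ W₀, cm x g ∈ Φ}` is a subgroup normalised by `c`.  `cm s g ∈ Φ` for `g ∈ c` (`nrmP_fix` with `X₁ = Φ`), so `cm y g ∈ Φ`.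
`x := a' * y⁻¹ ∈ X'`.  `nrmP T x ∈ Φ`: modulo `Φ` (commutative) `nrmP T a' = nrmP T x * nrmP T y` (`nrmP_mul`) and `nrmP T y = y ^ m` (`nrmP_count`), `y ^ m = s ^ (r * m) = s * (s ^ p) ^ k = s`.  `far_zero`: `cj x z ∈ X₀` for `z ∈ N`, `z ∉ K l`.  `a⁻¹ * (x * y) = a⁻¹ * a' ∈ X₀`. -/
theorem ls_split {K : ℕ → Subgroup G} (T : Tow K) {A N : Subgroup G} (h : MinN A N) {X Φ X₀ V₁ c : Subgroup G}
    {p : ℕ} (hp : p.Prime) (hX : IsCompact (X : Set G)) (hXN : X ≤ N) (hXn : Nm A X) (hΦ : IsClosed (Φ : Set G))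
    (hX₀ : IsClosed (X₀ : Set G)) (h1 : Φ ≤ X₀) (h2 : X₀ ≤ X) (hΦn : Nm A Φ)
    (hab : ∀ x ∈ X, ∀ y ∈ X, cm x y ∈ Φ) (hexp : ∀ x ∈ X, x ^ p ∈ Φ)
    (hsyl : ∀ Q : Subgroup G, Q ≤ N → Pp {p} Q → Q ≤ X) (hc : Cg A N c) (hV₁ : IsOpen (V₁ : Set G))
    (hV₁X : V₁ ⊓ X ≤ X₀) (hn : Nm c X₀) :
    ∃ l, ∀ a ∈ X, ∃ x ∈ X, ∃ y ∈ X, a⁻¹ * (x * y) ∈ X₀ ∧ (∀ g ∈ c, cm y g ∈ Φ) ∧
      ∀ z ∈ N, z ∉ K l → cj x z ∈ X₀ := by
  classical
  have H : Hyp G := T.hyp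
  have hcA : c ≤ A := hc.le.trans h.le
  have hXA : X ≤ A := hXN.trans h.le
  have hcX : Nm c X := nm_mono hcA hXn
  have hcΦ : Nm c Φ := nm_mono hcA hΦn
  have hXΦ : Nm X Φ := nm_mono hXA hΦn
  have hccl : IsClosed (c : Set G) := hc.cpt.isClosed
  have hΦX : Φ ≤ X := h1.trans h2
  -- the subgroup `W₀`
  let W₀ : Subgroup G :=
    { carrier := {g | g ∈ c ∧ ∀ x ∈ X, cm x g ∈ X₀}
      mul_mem' := by
        rintro a b ⟨ha, ha'⟩ ⟨hb, hb'⟩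
        refine ⟨c.mul_mem ha hb, fun x hx => ?_⟩
        have e : cm x (a * b) = cm x b * cj (cm x a) b := by unfold cm cj; group
        rw [e]
        exact X₀.mul_mem (hb' x hx) (hn b hb _ (ha' x hx))
      one_mem' := ⟨c.one_mem, fun x _ => by
        have e : cm x 1 = 1 := by unfold cm; group
        rw [e]; exact X₀.one_mem⟩
      inv_mem' := by
        rintro a ⟨ha, ha'⟩
        refine ⟨c.inv_mem ha, fun x hx => ?_⟩
        have e : cm x a⁻¹ = (cj (cm x a) a⁻¹)⁻¹ := by unfold cm cj; group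
        rw [e]
        exact X₀.inv_mem (hn _ (c.inv_mem ha) _ (ha' x hx)) }
  have memW : ∀ g, g ∈ W₀ ↔ g ∈ c ∧ ∀ x ∈ X, cm x g ∈ X₀ := fun g => Iff.rfl
  have hWc : W₀ ≤ c := fun g hg => ((memW g).1 hg).1
  have hWcl : IsClosed (W₀ : Set G) := by
    have he : (W₀ : Set G) = (c : Set G) ∩ ⋂ x ∈ X, (fun g => cm x g) ⁻¹' (X₀ : Set G) := by
      ext y
      simp only [SetLike.mem_coe, memW, Set.mem_inter_iff, Set.mem_iInter, Set.mem_preimage]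
    rw [he]
    refine hccl.inter (isClosed_biInter fun z _ => hX₀.preimage ?_)
    unfold cm
    fun_prop
  have hWcpt : IsCompact (W₀ : Set G) := hc.cpt.of_isClosed_subset hWcl hWc
  -- the core
  obtain ⟨V', hV'o, hV'le, hV'n⟩ := core_exists (cpt_sup hX hc.cpt hcX) hV₁
  have hV'c : Nm c V' := nm_mono le_sup_right hV'n
  have hV'W : ∀ g ∈ V', g ∈ c → g ∈ W₀ := fun g hg hgc => by
    refine (memW g).2 ⟨hgc, fun x hx => hV₁X ⟨hV'le ?_, ?_⟩⟩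
    · rw [cm_eq']
      exact V'.mul_mem (V'.inv_mem (hV'n x ((le_sup_left : X ≤ X ⊔ c) hx) g hg)) hg
    · rw [cm_eq]
      exact X.mul_mem (X.inv_mem hx) (hcX g hgc x hx)
  have hV'W' : V' ⊓ c ≤ W₀ := fun g hg => hV'W g hg.1 hg.2
  obtain ⟨l, hl⟩ := mix T h hc hV'o
  -- Sylow subgroups
  obtain ⟨P, hP⟩ := exists_syl hc.cpt hp
  have hPX : P ≤ X := hsyl P (hP.le.trans hc.le) hP.pp
  have hPW : P ≤ W₀ := fun g hg => (memW g).2 ⟨hP.le hg, fun x hx => h1 (hab x hx g (hPX hg))⟩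
  have hm : ¬ p ∣ W₀.relIndex c := hP.ndvd' hV'o hV'c hPW hV'W'
  have hm0 : W₀.relIndex c ≠ 0 := by
    have h4 : W₀.relIndex c ∣ (V' ⊓ c).relIndex c := Subgroup.relIndex_dvd_of_le_left c hV'W'
    rw [Subgroup.inf_relIndex_right] at h4
    intro h0
    rw [h0, zero_dvd_iff] at h4
    exact relIndex_ne hc.cpt hV'o h4
  obtain ⟨P', hP'⟩ := exists_syl hWcpt hp
  have hP'X : P' ≤ X := hsyl P' ((hP'.le.trans hWc).trans hc.le) hP'.pp
  obtain ⟨S, hS, hScard⟩ := exists_trv hWc hm0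
  have hSm : ¬ p ∣ S.card := by rw [hScard]; exact hm
  obtain ⟨r, k, hrk⟩ := exists_inv_mod hp hSm
  refine ⟨l, fun a ha => ?_⟩
  obtain ⟨a', ha', haa', hag⟩ := cop_lift H hp hX hΦ hX₀ h1 h2 hab hexp hWcpt (nm_mono hWc hcX)
    (nm_mono hWc hcΦ) (nm_mono hWc hn) hP' hP'X ha (fun g hg => ((memW g).1 hg).2 a ha)
  set s : G := nrmP S a' with hs
  have hsX : s ∈ X := nrmP_mem fun t ht => hcX t (hS.1 t ht) a' ha'
  have hfix : ∀ g ∈ c, cm s g ∈ Φ := nrmP_fix hΦX hab hcX hcΦ hS ha' hag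
  have hpow : ∀ j : ℕ, ∀ m ∈ c, cm (s ^ j) m ∈ Φ := by
    intro j
    induction j with
    | zero =>
      intro m _
      have e : cm (s ^ 0) m = 1 := by unfold cm; group
      rw [e]; exact Φ.one_mem
    | succ j ih =>
      intro m hm
      have e : cm (s ^ (j + 1)) m = cj (cm (s ^ j) m) s * cm s m := by
        rw [pow_succ]
        unfold cm cj
        group
      rw [e]
      exact Φ.mul_mem (hXΦ _ hsX _ (ih m hm)) (hfix m hm)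
  set y : G := s ^ r with hy
  have hyX : y ∈ X := X.pow_mem hsX r
  have hyg : ∀ g ∈ c, cm y g ∈ Φ := hpow r
  have hxX : a' * y⁻¹ ∈ X := X.mul_mem ha' (X.inv_mem hyX)
  have hxg : ∀ g ∈ W₀, cm (a' * y⁻¹) g ∈ Φ := fun g hg => by
    have e : cm (a' * y⁻¹) g = cj (cm a' g) y⁻¹ * (cj (cm y g) y⁻¹)⁻¹ := by unfold cm cj; group
    rw [e]
    exact Φ.mul_mem (hXΦ _ (X.inv_mem hyX) _ (hag g hg))
      (Φ.inv_mem (hXΦ _ (X.inv_mem hyX) _ (hyg g (hWc hg))))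
  -- the norm of `x`
  have hNx : nrmP S (a' * y⁻¹) ∈ Φ := by
    have e1 := nrmP_mul hΦX hab hcX (T := S) hS.1 hxX hyX
    rw [inv_mul_cancel_right] at e1
    have e2 := nrmP_count hΦX hab (T := S) (fun _ => True) hyX
      (fun t ht _ => by rw [← cm_eq]; exact hyg t (hS.1 t ht)) (fun t _ ht => absurd trivial ht)
    have e3 : (S.filter fun _ => True).card = S.card := by
      rw [Finset.filter_true_of_mem (fun _ _ => trivial)]
    rw [e3] at e2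
    have e4 : s⁻¹ * y ^ S.card ∈ Φ := by
      have : y ^ S.card = s * (s ^ p) ^ k := by
        rw [hy, ← pow_mul, hrk, pow_add, pow_one, pow_mul]
      rw [this, inv_mul_cancel_left]
      exact Φ.pow_mem (hexp s hsX) k
    have e5 : s⁻¹ * nrmP S y ∈ Φ := by
      have : s⁻¹ * nrmP S y = (s⁻¹ * y ^ S.card) * ((y ^ S.card)⁻¹ * nrmP S y) := by group
      rw [this]
      exact Φ.mul_mem e4 e2
    have e6 : cj (nrmP S (a' * y⁻¹)) s ∈ Φ := by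
      have : cj (nrmP S (a' * y⁻¹)) s
          = (s⁻¹ * (nrmP S (a' * y⁻¹) * nrmP S y)) * (s⁻¹ * nrmP S y)⁻¹ := by
        unfold cj; group
      rw [this]
      exact Φ.mul_mem e1 (Φ.inv_mem e5)
    have e7 := hXΦ _ (X.inv_mem hsX) _ e6
    rwa [cj_cj_inv] at e7
  refine ⟨a' * y⁻¹, hxX, y, hyX, ?_, hyg, fun z hz hzK => ?_⟩
  · rw [inv_mul_cancel_right]
    exact haa'
  · have hzA : z ∈ A := h.le hz
    refine far_zero hp h1 h2 hab hexp hn hWc (fun x hx g hg => ((memW g).1 hg).2 x hx) hS.1 hSm hxX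
      (hXn z hzA _ hxX) (fun f hf => hΦn z hzA f hf) (fun g hg => hc.nm z hzA g hg) hxg hNx
      fun b hb => ?_
    obtain ⟨v, hvc, hvV, hbv⟩ := hl z hz hzK b hb
    refine ⟨v, hV'W v hvV hvc, (cj v z)⁻¹ * b, hV'W _ ?_ ?_, ?_⟩
    · have : (cj v z)⁻¹ * b = (b⁻¹ * cj v z)⁻¹ := by group
      rw [this]
      exact V'.inv_mem hbv
    · exact c.mul_mem (c.inv_mem (hc.nm z hzA v hvc)) hb
    · group

end Pool.Agent.CTM
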