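import Pool.Agent.CTM.LmM

/-!
# CTM: minimal noncompact normal subgroups
-/

set_option autoImplicit false

namespace Pool.Agent.CTM

universe u

variable {G : Type u} [Group G] [TopologicalSpace G] [IsTopologicalGroup G] [T2Space G]

/-- size 2.  PROOF.  Zorn (`zorn_superset`-like / `zorn_le_nonempty₀` for the reverse order / `exists_minimal_of_chain...`) for the set `S` of the closed subgroups `Z ≤ A` with `Nm A Z`, not compact; `A ∈ S`.  For a nonempty chain
`c ⊆ S` the intersection `sInf c` is closed, `≤ A`, normalised by `A`; if it were compact, `lemM` (a chain is directed) would give a compact member of `c`.  A minimal `N ∈ S`: a closed `Z ≤ N` with `Nm A Z`, not compact, is in `S`, so `Z = N`. -/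
theorem exists_minN (H : Hyp G) {A : Subgroup G} (hA : CND A) : ∃ N : Subgroup G, MinN A N := by
  let S : Set (Subgroup G) :=
    {Z | IsClosed (Z : Set G) ∧ Z ≤ A ∧ Nm A Z ∧ ¬ IsCompact (Z : Set G)}
  have key : ∀ c : Set (Subgroup G), c ⊆ S → (∀ B ∈ c, ∀ B' ∈ c, B ≤ B' ∨ B' ≤ B) →
      c.Nonempty → sInf c ∈ S := by
    intro c hc hch hne
    have hcl : IsClosed ((sInf c : Subgroup G) : Set G) := by
      rw [Subgroup.coe_sInf]
      exact isClosed_biInter fun Z hZ => (hc hZ).1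
    refine ⟨hcl, ?_, ?_, ?_⟩
    · obtain ⟨Z, hZ⟩ := hne
      exact (sInf_le hZ).trans (hc hZ).2.1
    · intro a ha y hy
      rw [Subgroup.mem_sInf] at hy ⊢
      exact fun Z hZ => (hc hZ).2.2.1 a ha y (hy Z hZ)
    · intro hcomp
      obtain ⟨B, hB, hBc⟩ := lemM H hA.cl hne (fun B hB B' hB' => by
        rcases hch B hB B' hB' with h | h
        · exact ⟨B, hB, le_inf le_rfl h⟩
        · exact ⟨B', hB', le_inf h le_rfl⟩)
        (fun B hB => ⟨(hc hB).1, (hc hB).2.1, (hc hB).2.2.1⟩) hcomp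
      exact (hc hB).2.2.2 hBc
  obtain ⟨N, -, hN⟩ := zorn_le_nonempty₀ (α := (Subgroup G)ᵒᵈ)
    {Z | OrderDual.ofDual Z ∈ S} (by
      intro c hc hch y hy
      refine ⟨OrderDual.toDual (sInf {Z | OrderDual.toDual Z ∈ c}), ?_, ?_⟩
      · refine key _ (fun Z hZ => hc hZ) ?_ ⟨OrderDual.ofDual y, hy⟩
        intro B hB B' hB'
        rcases hch.total hB hB' with h | h
        · exact Or.inr h
        · exact Or.inl h
      · intro z hz
        exact sInf_le (a := OrderDual.ofDual z) hz) (OrderDual.toDual A)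
    (show A ∈ S from ⟨hA.cl, le_rfl, nm_self A, hA.nc⟩)
  have hNS : OrderDual.ofDual N ∈ S := hN.prop
  refine ⟨OrderDual.ofDual N, ⟨hA, hNS.1, hNS.2.1, hNS.2.2.1, hNS.2.2.2, ?_⟩⟩
  intro Z hZ hZN hnm
  by_cases hcZ : IsCompact (Z : Set G)
  · exact Or.inr hcZ
  · left
    have hZS : OrderDual.ofDual (OrderDual.toDual Z) ∈ S := ⟨hZ, hZN.trans hNS.2.1, hnm, hcZ⟩
    have h1 : OrderDual.toDual Z ≤ N := hN.2 hZS hZN
    exact le_antisymm hZN h1

/-- size 1.  Directedness: the product of two compact subgroups `≤ N` normalised by `A` (`C ⊔ C'`: `cpt_sup`, `nm_sup`). -/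
theorem cpt_nm_sup {A N C C' : Subgroup G} (hN : N ≤ A) (hC : IsCompact (C : Set G)) (hC' : IsCompact (C' : Set G))
    (h : C ≤ N) (h' : C' ≤ N) (hn : Nm A C) (hn' : Nm A C') :
    IsCompact ((C ⊔ C' : Subgroup G) : Set G) ∧ C ⊔ C' ≤ N ∧ Nm A (C ⊔ C') :=
  ⟨cpt_sup hC hC' (nm_mono (h'.trans hN) hn), sup_le h h', nm_sup hn hn'⟩

end Pool.Agent.CTM
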