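import Pool.Agent.CTM.BasA
import Pool.Agent.CTM.BasB
import Pool.Agent.CTM.BasC

/-!
# CTM: the groups `B_z^R`
-/

set_option autoImplicit false

namespace Pool.Agent.CTM

universe u

variable {G : Type u} [Group G] [TopologicalSpace G] [IsTopologicalGroup G]

/-- size 2.  `B_z^R`: all `b ∈ R` such that for every open subgroup `V` eventually some `v ∈ V ⊓ R` has `v ^ (z i) ∈ b V`.  (Products: given `V`, `b`, `b'`, use `V' ≤ V` open with `cj w b' ∈ V` for `w ∈ V'`: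
`(b b')⁻¹ * cj (v v') z = cj (b⁻¹ * cj v z) b' * (b'⁻¹ * cj v' z)`.  Inverses: `b * (cj v z)⁻¹ = cj (b⁻¹ * cj v z)⁻¹ b⁻¹`.) -/
def Bz (z : ℕ → G) (R : Subgroup G) : Subgroup G where
  carrier := {b | b ∈ R ∧ ∀ V : Subgroup G, IsOpen (V : Set G) →
    Ev (fun i => ∃ v ∈ R, v ∈ V ∧ b⁻¹ * cj v (z i) ∈ V)}
  mul_mem' := by
    rintro a b ⟨ha, ha'⟩ ⟨hb, hb'⟩
    refine ⟨R.mul_mem ha hb, fun V hV => ?_⟩
    obtain ⟨V', hV', hle, hcj⟩ := small_cj hV b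
    refine ((ha' V' hV').and (hb' V' hV')).mono ?_
    rintro i ⟨⟨v, hvR, hvV, hv⟩, ⟨w, hwR, hwV, hw⟩⟩
    refine ⟨v * w, R.mul_mem hvR hwR, V.mul_mem (hle hvV) (hle hwV), ?_⟩
    have e : (a * b)⁻¹ * cj (v * w) (z i) = cj (a⁻¹ * cj v (z i)) b * (b⁻¹ * cj w (z i)) := by
      rw [mul_cj]
      unfold cj
      group
    rw [e]
    exact V.mul_mem (hcj _ hv) (hle hw)
  one_mem' := by
    refine ⟨R.one_mem, fun V hV => Ev.of_forall fun i => ⟨1, R.one_mem, V.one_mem, ?_⟩⟩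
    rw [one_cj, inv_one, one_mul]
    exact V.one_mem
  inv_mem' := by
    rintro b ⟨hb, hb'⟩
    refine ⟨R.inv_mem hb, fun V hV => ?_⟩
    obtain ⟨V', hV', hle, hcj⟩ := small_cj hV b⁻¹
    refine (hb' V' hV').mono ?_
    rintro i ⟨v, hvR, hvV, hv⟩
    refine ⟨v⁻¹, R.inv_mem hvR, V.inv_mem (hle hvV), ?_⟩
    have e : b⁻¹⁻¹ * cj v⁻¹ (z i) = cj (b⁻¹ * cj v (z i))⁻¹ b⁻¹ := by
      rw [inv_cj v]
      generalize cj v (z i) = c
      unfold cj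
      group
    rw [e]
    exact hcj _ (V'.inv_mem hv)

theorem mem_Bz {z : ℕ → G} {R : Subgroup G} {b : G} : b ∈ Bz z R ↔ b ∈ R ∧ ∀ V : Subgroup G, IsOpen (V : Set G) →
    Ev (fun i => ∃ v ∈ R, v ∈ V ∧ b⁻¹ * cj v (z i) ∈ V) := Iff.rfl

theorem Bz_le (z : ℕ → G) (R : Subgroup G) : Bz z R ≤ R := fun _ h => h.1

/-- size 1. -/
theorem Bz_mono (z : ℕ → G) {R R' : Subgroup G} (h : R ≤ R') : Bz z R ≤ Bz z R' := by
  rintro b ⟨hb, hb'⟩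
  refine ⟨h hb, fun V hV => (hb' V hV).mono ?_⟩
  rintro i ⟨v, hvR, hvV, hv⟩
  exact ⟨v, h hvR, hvV, hv⟩

/-- size 1.  Closed: if `b` is in the closure and `V` is given take `b' ∈ Bz` with `b⁻¹ b' ∈ V`. -/
theorem Bz_closed (H : Hyp G) (z : ℕ → G) {R : Subgroup G} (hR : IsClosed (R : Set G)) :
    IsClosed (Bz z R : Set G) := by
  refine isClosed_of_closure_subset fun b hb => ?_
  have hbR : b ∈ R := hR.closure_subset_iff.2 (fun x hx => Bz_le z R hx) hb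
  refine ⟨hbR, fun V hV => ?_⟩
  obtain ⟨b', hb', hbV⟩ := H.mem_closure.1 hb V hV
  refine (hb'.2 V hV).mono ?_
  rintro i ⟨v, hvR, hvV, hv⟩
  refine ⟨v, hvR, hvV, ?_⟩
  have e : b⁻¹ * cj v (z i) = (b⁻¹ * b') * (b'⁻¹ * cj v (z i)) := by group
  rw [e]
  exact V.mul_mem hbV hv

end Pool.Agent.CTM
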