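import Pool.Agent.CTM.MxA
import Pool.Agent.CTM.Mnp

/-!
# CTM: mixing, the consequence of minimality
-/

set_option autoImplicit false

namespace Pool.Agent.CTM

universe u

variable {G : Type u} [Group G] [TopologicalSpace G] [IsTopologicalGroup G] [T2Space G]

omit [TopologicalSpace G] [IsTopologicalGroup G] [T2Space G] in
private theorem mxB_mul {A N C R V : Subgroup G} (hNA : N ≤ A) (hnC : Nm A C) (hCR : C ≤ R)
    (hRN : R ≤ N) (hnR : Nm A R) {g h : G} (hg : g ∈ N) (hh : h ∈ N)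
    (hG : ∀ x ∈ R, ∃ v ∈ V, ∃ c ∈ C, cj x g = x * v * c)
    (hH : ∀ x ∈ R, ∃ v ∈ V, ∃ c ∈ C, cj x h = x * v * c) :
    ∀ x ∈ R, ∃ v ∈ V, ∃ c ∈ C, cj x (g * h) = x * v * c := by
  intro x hx
  obtain ⟨v, hv, c, hc, e⟩ := hG x hx
  have hx' : cj x g ∈ R := hnR g (hNA hg) x hx
  obtain ⟨v', hv', c', hc', e'⟩ := hH (cj x g) hx'
  have hx'' : cj (cj x g) h ∈ R := hnR h (hNA hh) _ hx'
  have hv'R : v' ∈ R := by
    have : v' = (cj x g)⁻¹ * cj (cj x g) h * c'⁻¹ := by rw [e']; group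
    rw [this]
    exact R.mul_mem (R.mul_mem (R.inv_mem hx') hx'') (R.inv_mem (hCR hc'))
  refine ⟨v * v', V.mul_mem hv hv', cj c v' * c', C.mul_mem (hnC v' (hNA (hRN hv'R)) c hc) hc', ?_⟩
  rw [← cj_cj, e', e]
  unfold cj
  group

/-- the subgroup `S R V` -/
private def mxB_S {A N C R : Subgroup G} (hNA : N ≤ A) (hnC : Nm A C) (hCR : C ≤ R)
    (hRN : R ≤ N) (hnR : Nm A R) (V : Subgroup G) : Subgroup G where
  carrier := {g | g ∈ N ∧ ∀ x ∈ R, (∃ v ∈ V, ∃ c ∈ C, cj x g = x * v * c) ∧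
    (∃ v ∈ V, ∃ c ∈ C, cj x g⁻¹ = x * v * c)}
  mul_mem' := by
    rintro g h ⟨hg, hg'⟩ ⟨hh, hh'⟩
    refine ⟨N.mul_mem hg hh, fun x hx => ⟨?_, ?_⟩⟩
    · exact mxB_mul hNA hnC hCR hRN hnR hg hh (fun x hx => (hg' x hx).1) (fun x hx => (hh' x hx).1) x hx
    · rw [mul_inv_rev]
      exact mxB_mul hNA hnC hCR hRN hnR (N.inv_mem hh) (N.inv_mem hg) (fun x hx => (hh' x hx).2)
        (fun x hx => (hg' x hx).2) x hx
  one_mem' := by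
    refine ⟨N.one_mem, fun x hx => ⟨⟨1, V.one_mem, 1, C.one_mem, ?_⟩, ⟨1, V.one_mem, 1, C.one_mem, ?_⟩⟩⟩
    · rw [cj_one]; group
    · rw [inv_one, cj_one]; group
  inv_mem' := by
    rintro g ⟨hg, hg'⟩
    refine ⟨N.inv_mem hg, fun x hx => ⟨(hg' x hx).2, ?_⟩⟩
    rw [inv_inv]
    exact (hg' x hx).1

/-- the subgroup `Y` -/
private def mxB_Y {A N C : Subgroup G} (hNA : N ≤ A) (hnC : Nm A C) : Subgroup G where
  carrier := {y | y ∈ N ∧ ∀ x ∈ N, cm x y ∈ C}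
  mul_mem' := by
    rintro y y' ⟨hy, h1⟩ ⟨hy', h2⟩
    refine ⟨N.mul_mem hy hy', fun x hx => ?_⟩
    have e : cm x (y * y') = cm x y' * cj (cm x y) y' := by
      unfold cm cj; group
    rw [e]
    exact C.mul_mem (h2 x hx) (hnC y' (hNA hy') _ (h1 x hx))
  one_mem' := by
    refine ⟨N.one_mem, fun x hx => ?_⟩
    have e : cm x 1 = 1 := by unfold cm; group
    rw [e]; exact C.one_mem
  inv_mem' := by
    rintro y ⟨hy, h1⟩
    refine ⟨N.inv_mem hy, fun x hx => ?_⟩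
    have e : cm x y⁻¹ = (cj (cm x y) y⁻¹)⁻¹ := by
      unfold cm cj; group
    rw [e]
    exact C.inv_mem (hnC y⁻¹ (hNA (N.inv_mem hy)) _ (h1 x hx))

omit [TopologicalSpace G] [IsTopologicalGroup G] [T2Space G] in
private theorem mxB_memY {A N C : Subgroup G} (hNA : N ≤ A) (hnC : Nm A C) {y : G} :
    y ∈ mxB_Y hNA hnC ↔ (y ∈ N ∧ ∀ x ∈ N, cm x y ∈ C) := Iff.rfl

/-- size 4.  The consequence of minimality.  `C` compact, `≤ N`, normalised by `A`.  PROOF.  `Y := {y ∈ N | ∀ x ∈ N, cm x y ∈ C}`: a subgroup (as `C` is normalised by `N`: `cj x y = x * cm x y`; `cj x (y y') = cj (x c) y' ∈ x C`;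
`cm x y⁻¹ = (cj (cm x y) y⁻¹)⁻¹`), closed, `≤ N`, `C ≤ Y`, normalised by `A` (`cm_cj`; for `a ∈ A`, `cm x (cj y a) = cj (cm (cj x a⁻¹) y) a`).  `Y ≠ N`: otherwise `AB` for `N`, `C` makes `N` compact.  So `Y` is compact (`mn`).
For `R` compact, `C ≤ R ≤ N`, `Nm A R`, and `V` open let `S R V := {g ∈ N | ∀ x ∈ R, (∃ v ∈ V, ∃ c ∈ C, cj x g = x * v * c) ∧ (∃ v ∈ V, ∃ c ∈ C, cj x g⁻¹ = x * v * c)}`: a subgroup (`x' := cj x g ∈ R`, `cj x (g h) = cj x' h = x' * v' * c' = x * v * c * v' * c' = x * (v * v') * (cj c v' * c')`,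
where `v' = x'⁻¹ * cj x' h * c'⁻¹ ∈ R ≤ A`, so `cj c v' ∈ C`).  Apply `H.ms` with `A := N`, `Y`, `F := {S R V}`:
nonempty (`R = C`); directed (`R ⊔ R'`, `V ⊓ V'`; `cpt_nm_sup`); `Y ≤ S R V ≤ N`; relatively open: by `core_exists` there is `V₁ ≤ V` open normalised by `R`; for `g ∈ V₁ ⊓ N`, `x ∈ R`: `cj x g = x * cm x g` and `cm x g = (cj g x)⁻¹ * g ∈ V₁` (`cm_eq'`); the same for `g⁻¹`;
conjugation by `a ∈ N`: if `g ∈ S R (V')` with `V' := cjS V a⁻¹` (so `cj v a ∈ V` for `v ∈ V'`), then `h = cj g a`: `cj x h = cj (cj (cj x a⁻¹) g) a = cj (x' * v * c) a = x * cj v a * cj c a`; intersection: if `g` is in all `S R V` then for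
`x ∈ R`: `cm x g = x⁻¹ * cj x g ∈ V C` for all `V`, so `∈ C` (`C` closed: `Hyp.small`), so by density (`MinN.dense`: the `R ⊔ C` have dense union; `cm_closure`) for all `x ∈ N`: `g ∈ Y`.
For a compact open `U` (`H.base`) `MS` gives `R`, `V` with `S R V ⊆ U * Y`, a compact set. -/
theorem mix_ms (H : Hyp G) {A N : Subgroup G} (h : MinN A N) {C : Subgroup G} (hC : IsCompact (C : Set G))
    (hCN : C ≤ N) (hn : Nm A C) :
    ∃ (R V : Subgroup G) (D : Set G), IsCompact (R : Set G) ∧ C ≤ R ∧ R ≤ N ∧ Nm A R ∧ IsOpen (V : Set G) ∧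
      IsCompact D ∧ ∀ g ∈ N, (∀ x ∈ R, (∃ v ∈ V, ∃ c ∈ C, cj x g = x * v * c) ∧
        (∃ v ∈ V, ∃ c ∈ C, cj x g⁻¹ = x * v * c)) → g ∈ D := by
  have hNA : N ≤ A := h.le
  have hCcl : IsClosed (C : Set G) := hC.isClosed
  have hYcl : IsClosed (mxB_Y hNA hn : Set G) := by
    have e : (mxB_Y hNA hn : Set G) = (N : Set G) ∩ ⋂ x ∈ N, (fun y => cm x y) ⁻¹' (C : Set G) := by
      ext y
      simp only [SetLike.mem_coe, mxB_memY, Set.mem_inter_iff, Set.mem_iInter, Set.mem_preimage]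
    rw [e]
    refine h.cl.inter (isClosed_biInter fun x _ => hCcl.preimage ?_)
    unfold cm
    fun_prop
  have hYN : mxB_Y hNA hn ≤ N := fun y hy => hy.1
  have hCY : C ≤ mxB_Y hNA hn := fun c hc => ⟨hCN hc, fun x hx => by
    rw [cm_eq']
    exact C.mul_mem (C.inv_mem (hn x (hNA hx) c hc)) hc⟩
  have hnY : Nm A (mxB_Y hNA hn) := by
    rintro a ha y ⟨hy, hy'⟩
    refine ⟨h.nm a ha y hy, fun x hx => ?_⟩
    have e : cm x (cj y a) = cj (cm (cj x a⁻¹) y) a := by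
      unfold cm cj; group
    rw [e]
    exact hn a ha _ (hy' _ (h.nm a⁻¹ (A.inv_mem ha) x hx))
  have hYcpt : IsCompact (mxB_Y hNA hn : Set G) := by
    rcases h.mn _ hYcl hYN hnY with e | e
    · exfalso
      refine h.nc (H.ab N C h.cl hC hCN fun a ha b hb => ?_)
      have hb' : b ∈ mxB_Y hNA hn := by rw [e]; exact hb
      exact hb'.2 a ha
    · exact e
  -- the family
  let F : Set (Subgroup G) := {S | ∃ (R V : Subgroup G) (_ : IsCompact (R : Set G)) (hCR : C ≤ R)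
    (hRN : R ≤ N) (hnR : Nm A R) (_ : IsOpen (V : Set G)), S = mxB_S hNA hn hCR hRN hnR V}
  have hF1 : F.Nonempty := ⟨_, C, ⊤, hC, le_rfl, hCN, hn, isOpen_univ, rfl⟩
  have hF2 : ∀ O ∈ F, ∀ O' ∈ F, ∃ O'' ∈ F, O'' ≤ O ⊓ O' := by
    rintro _ ⟨R, V, hR, hCR, hRN, hnR, hV, rfl⟩ _ ⟨R', V', hR', hCR', hRN', hnR', hV', rfl⟩
    obtain ⟨h1, h2, h3⟩ := cpt_nm_sup hNA hR hR' hRN hRN' hnR hnR'
    refine ⟨_, ⟨R ⊔ R', V ⊓ V', h1, hCR.trans le_sup_left, h2, h3, hV.inter hV', rfl⟩, ?_⟩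
    rintro g ⟨hg, hg'⟩
    refine ⟨⟨hg, fun x hx => ?_⟩, ⟨hg, fun x hx => ?_⟩⟩
    · obtain ⟨⟨v, hv, c, hc, e⟩, ⟨v', hv', c', hc', e'⟩⟩ := hg' x (le_sup_left (a := R) hx)
      exact ⟨⟨v, hv.1, c, hc, e⟩, ⟨v', hv'.1, c', hc', e'⟩⟩
    · obtain ⟨⟨v, hv, c, hc, e⟩, ⟨v', hv', c', hc', e'⟩⟩ := hg' x (le_sup_right (a := R) hx)
      exact ⟨⟨v, hv.2, c, hc, e⟩, ⟨v', hv'.2, c', hc', e'⟩⟩
  have hYm : ∀ y ∈ mxB_Y hNA hn, ∀ V : Subgroup G, ∀ x ∈ N, ∃ v ∈ V, ∃ c ∈ C, cj x y = x * v * c := by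
    intro y hy V x hx
    refine ⟨1, V.one_mem, cm x y, hy.2 x hx, ?_⟩
    rw [cj_eq]; group
  have hopm : ∀ R V' : Subgroup G, Nm R V' → ∀ g ∈ V', ∀ x ∈ R, ∃ v ∈ V', ∃ c ∈ C, cj x g = x * v * c := by
    intro R V' hnm g hg x hx
    refine ⟨cm x g, ?_, 1, C.one_mem, ?_⟩
    · rw [cm_eq']
      exact V'.mul_mem (V'.inv_mem (hnm x hx g hg)) hg
    · rw [cj_eq]; group
  have hF3 : ∀ O ∈ F, mxB_Y hNA hn ≤ O ∧ O ≤ N ∧ ∃ V : Subgroup G, IsOpen (V : Set G) ∧ V ⊓ N ≤ O := by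
    rintro _ ⟨R, V, hR, hCR, hRN, hnR, hV, rfl⟩
    refine ⟨fun y hy => ⟨hYN hy, fun x hx => ⟨hYm y hy V x (hRN hx), hYm y⁻¹ (Subgroup.inv_mem _ hy) V x
      (hRN hx)⟩⟩, fun g hg => hg.1, ?_⟩
    obtain ⟨V', hV', hle, hnm⟩ := core_exists hR hV
    refine ⟨V', hV', ?_⟩
    rintro g ⟨hg, hgN⟩
    refine ⟨hgN, fun x hx => ⟨?_, ?_⟩⟩
    · obtain ⟨v, hv, c, hc, e⟩ := hopm R V' hnm g hg x hx
      exact ⟨v, hle hv, c, hc, e⟩
    · obtain ⟨v, hv, c, hc, e⟩ := hopm R V' hnm g⁻¹ (V'.inv_mem hg) x hx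
      exact ⟨v, hle hv, c, hc, e⟩
  have hF4 : ∀ O ∈ F, ∀ a ∈ N, ∃ O' ∈ F, ∀ x ∈ O', cj x a ∈ O := by
    rintro _ ⟨R, V, hR, hCR, hRN, hnR, hV, rfl⟩ a ha
    have haA : a ∈ A := hNA ha
    refine ⟨_, ⟨R, cjS V a⁻¹, hR, hCR, hRN, hnR, cjS_open hV _, rfl⟩, ?_⟩
    rintro g ⟨hg, hg'⟩
    have key : ∀ g' : G, (∀ x ∈ R, ∃ v ∈ cjS V a⁻¹, ∃ c ∈ C, cj x g' = x * v * c) →
        ∀ x ∈ R, ∃ v ∈ V, ∃ c ∈ C, cj x (cj g' a) = x * v * c := by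
      intro g' hq x hx
      obtain ⟨v, hv, c, hc, e⟩ := hq (cj x a⁻¹) (hnR a⁻¹ (A.inv_mem haA) x hx)
      refine ⟨cj v a, ?_, cj c a, hn a haA c hc, ?_⟩
      · have := mem_cjS'.1 hv
        rwa [inv_inv] at this
      · have e1 : cj x (cj g' a) = cj (cj (cj x a⁻¹) g') a := by
          unfold cj; group
        rw [e1, e]
        unfold cj; group
    refine ⟨h.nm a haA g hg, fun x hx => ⟨?_, ?_⟩⟩
    · exact key g (fun x hx => (hg' x hx).1) x hx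
    · rw [← inv_cj]
      exact key g⁻¹ (fun x hx => (hg' x hx).2) x hx
  have hF5 : ∀ g, (∀ O ∈ F, g ∈ O) → g ∈ mxB_Y hNA hn := by
    intro g hg
    have hgN : g ∈ N := (hg _ ⟨C, ⊤, hC, le_rfl, hCN, hn, isOpen_univ, rfl⟩).1
    have h1 : ∀ R : Subgroup G, IsCompact (R : Set G) → C ≤ R → R ≤ N → Nm A R → ∀ x ∈ R, cm x g ∈ C := by
      intro R hR hCR hRN hnR x hx
      by_contra hne
      have hne' : (cm x g)⁻¹ ∉ (C : Set G) := fun hh => hne (by simpa using C.inv_mem hh)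
      obtain ⟨V, hV, _, hVC⟩ := H.small hCcl hne'
      obtain ⟨⟨v, hv, c, hc, e⟩, _⟩ := (hg _ ⟨R, V, hR, hCR, hRN, hnR, hV, rfl⟩).2 x hx
      refine hVC v hv ?_
      have e2 : (cm x g)⁻¹ * v = c⁻¹ := by
        rw [cm_eq, e]; group
      rw [e2]
      exact C.inv_mem hc
    refine ⟨hgN, fun x hx => ?_⟩
    have hcl : IsClosed {x : G | cm x g ∈ C} := by
      refine hCcl.preimage (f := fun x => cm x g) ?_
      unfold cm
      fun_prop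
    have hxc : x ∈ closure {x : G | cm x g ∈ C} := by
      rw [H.mem_closure]
      intro V hV
      obtain ⟨C', hC', hC'N, hnC', c, hc, hcV⟩ := h.dense H x hx V hV
      obtain ⟨h2, h3, h4⟩ := cpt_nm_sup hNA hC' hC hC'N hCN hnC' hn
      exact ⟨c, h1 (C' ⊔ C) h2 le_sup_right h3 h4 c (le_sup_left (a := C') hc), hcV⟩
    rw [hcl.closure_eq] at hxc
    exact hxc
  obtain ⟨U, hUo, hUc, _⟩ := H.base Set.univ Filter.univ_mem
  obtain ⟨O, ⟨R, V, hR, hCR, hRN, hnR, hV, rfl⟩, hO⟩ :=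
    H.ms N (mxB_Y hNA hn) h.cl hYcl hYN (nm_mono hNA hnY) F hF1 hF2 hF3 hF4 hF5 U hUo
  refine ⟨R, V, (fun q : G × G => q.1 * q.2) '' ((U : Set G) ×ˢ (mxB_Y hNA hn : Set G)), hR, hCR, hRN,
    hnR, hV, (hUc.prod hYcpt).image continuous_mul, ?_⟩
  intro g hg hg'
  obtain ⟨v, hv, _, y, hy, e⟩ := hO g ⟨hg, hg'⟩
  exact ⟨(v, y), ⟨hv, hy⟩, e.symm⟩

end Pool.Agent.CTM
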