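import Pool.Agent.CTM.MxA

/-!
# CTM: `B_z^R` is normalised by `A`
-/

set_option autoImplicit false

namespace Pool.Agent.CTM

universe u

variable {G : Type u} [Group G] [TopologicalSpace G] [IsTopologicalGroup G]

/-- size 3.  `B_z^R` is normalised by `A`.  PROOF.  Let `g ∈ C`, `C` a compact subgroup of `A` normalised by `A`, `b ∈ Bz z R`, `V` open.  By `core_exists` there is `V' ≤ V` open, normalised by `C` .
Eventually there is `v ∈ R ⊓ V'` with `b⁻¹ * cj v (z i) ∈ V'`.  `g_i := z i * g * (z i)⁻¹ ∈ C` (`z i ∈ A`), `w := cj v g_i ∈ V' ⊓ R` (`R` is normalised by `A`), and `cj w (z i) = cj (cj v (z i)) g`, so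
`(cj b g)⁻¹ * cj w (z i) = cj (b⁻¹ * cj v (z i)) g ∈ V'`.  So every such `g` normalises the closed subgroup `Bz z R`; these `g` form a dense subset of `A` (hypothesis `hd`), and the set of the `g` with
`cj b g ∈ Bz z R` is closed for every `b`. -/
theorem Bz_nm (H : Hyp G) {A : Subgroup G} (hA : CND A) {z : ℕ → G} (hz : ∀ i, z i ∈ A) {R : Subgroup G}
    (hR : IsClosed (R : Set G)) (hn : Nm A R) : Nm A (Bz z R) := by
  intro a ha b hb
  have hcont : Continuous fun g : G => cj b g := by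
    unfold cj
    fun_prop
  have hcl : IsClosed {g : G | cj b g ∈ Bz z R} := (Bz_closed H z hR).preimage hcont
  have hmem : a ∈ closure {g : G | cj b g ∈ Bz z R} := by
    rw [H.mem_closure]
    intro W hW
    obtain ⟨C, hC, hCA, hCn, g, hgC, hgW⟩ := hA.dn a ha W hW
    refine ⟨g, ?_, hgW⟩
    have hgA : g ∈ A := hCA hgC
    refine ⟨hn g hgA b hb.1, fun V hV => ?_⟩
    obtain ⟨V', hV', hV'V, hCV'⟩ := core_exists hC hV
    refine (hb.2 V' hV').mono fun i hi => ?_
    obtain ⟨v, hvR, hvV, hvb⟩ := hi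
    have hgi : cj g (z i)⁻¹ ∈ C := hCn _ (A.inv_mem (hz i)) g hgC
    refine ⟨cj v (cj g (z i)⁻¹), hn _ (hCA hgi) v hvR, hV'V (hCV' _ hgi v hvV), hV'V ?_⟩
    have h1 : (cj b g)⁻¹ * cj (cj v (cj g (z i)⁻¹)) (z i) = cj (b⁻¹ * cj v (z i)) g := by
      unfold cj
      group
    rw [h1]
    exact hCV' g hgC _ hvb
  exact (hcl.closure_eq ▸ hmem : a ∈ {g : G | cj b g ∈ Bz z R})

end Pool.Agent.CTM
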