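import Pool.Agent.CTM.MxA

/-!
# CTM: equicontinuity
-/

set_option autoImplicit false

namespace Pool.Agent.CTM

universe u

variable {G : Type u} [Group G] [TopologicalSpace G] [IsTopologicalGroup G]

private theorem MxH_open {V : Subgroup G} (hV : IsOpen (V : Set G)) {S : Set G}
    (h : ∀ x ∈ S, ∀ v ∈ V, v * x ∈ S) : IsOpen S := by
  rw [isOpen_iff_mem_nhds]
  intro x hx
  have ho : IsOpen {y : G | y * x⁻¹ ∈ (V : Set G)} := hV.preimage (continuous_mul_const x⁻¹)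
  refine Filter.mem_of_superset (ho.mem_nhds ?_) ?_
  · show x * x⁻¹ ∈ V
    rw [mul_inv_cancel]
    exact V.one_mem
  · intro y hy
    have h2 := h x hx _ hy
    rwa [inv_mul_cancel_right] at h2

/-- size 3.  PROOF (compactness).  Suppose `¬ ∃ V₁ ...`: for every open `V₁`, not (eventually for all `v ∈ R ⊓ V₁`: `cj v (z i) ∈ V₀ C`), so eventually (`Ev.not_iff`) there is `v ∈ R ⊓ V₁` with `cj v (z i) ∉ V₀ C`, i.e. not of the form `w * c`.
For `V₁` open let `S V₁ := closure` of the set of all `b ∈ R` with: `b ∉ V₀ C` and for all open `V` eventually there is `v ∈ R ⊓ V₁` with `b⁻¹ * cj v (z i) ∈ V`.  It is nonempty: choose such `v i`, a limit `b` of `cj (v i) (z i)` in the compact set `R` (`Lm.exists`; `z i`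
normalises `R`); the set `V₀ C` (products) is closed and open, its complement too.  `fam_inter` gives `b ∈ R` in all `S V₁`; then `b ∈ Bz z R` (given `V` take `V₁ = V`: `b` is `b' v'`, `v' ∈ V`, with `b'` in the set) and `b ∉ V₀ C`, but `Bz z R ≤ C`:
contradiction. -/
theorem Bz_equi (H : Hyp G) {z : ℕ → G} {R C V₀ : Subgroup G} (hR : IsCompact (R : Set G))
    (hz : ∀ i, ∀ x ∈ R, cj x (z i) ∈ R) (hB : Bz z R ≤ C) (hV₀ : IsOpen (V₀ : Set G)) :
    ∃ V₁ : Subgroup G, IsOpen (V₁ : Set G) ∧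
      Ev (fun i => ∀ v ∈ R, v ∈ V₁ → ∃ w ∈ V₀, ∃ c ∈ C, cj v (z i) = w * c) := by
  classical
  by_contra hcon
  push Not at hcon
  set W : Set G := {x | ∃ w ∈ V₀, ∃ c ∈ C, x = w * c} with hW
  have hWinv : ∀ x ∈ W, ∀ v ∈ V₀, v * x ∈ W := by
    rintro x ⟨w, hw, c, hc, rfl⟩ v hv
    exact ⟨v * w, V₀.mul_mem hv hw, c, hc, by group⟩
  have hWo : IsOpen W := MxH_open hV₀ hWinv
  have hDcl : IsClosed (Wᶜ) := hWo.isClosed_compl
  let S : Subgroup G → Set G := fun V =>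
    Wᶜ ∩ {b | Ev (fun i => ∃ v ∈ R, v ∈ V ∧ b⁻¹ * cj v (z i) ∈ V)}
  have hcl : ∀ V : Subgroup G, IsOpen (V : Set G) → IsClosed (S V) := by
    intro V hV
    refine hDcl.inter (clopen_of_coset hV ?_).1
    intro x hx v hv
    refine Ev.mono hx ?_
    rintro i ⟨u, hu, huV, h⟩
    refine ⟨u, hu, huV, ?_⟩
    have e : (x * v)⁻¹ * cj u (z i) = v⁻¹ * (x⁻¹ * cj u (z i)) := by group
    rw [e]
    exact V.mul_mem (V.inv_mem hv) h
  have hne : ∀ V : Subgroup G, IsOpen (V : Set G) → (S V ∩ (R : Set G)).Nonempty := by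
    intro V hV
    have h1 := Ev.not_iff.1 (hcon V hV)
    have h2 : ∀ i, ∃ x : G, (¬ ∀ v ∈ R, v ∈ V → ∃ w ∈ V₀, ∃ c ∈ C, cj v (z i) = w * c) →
        ∃ v ∈ R, v ∈ V ∧ x = cj v (z i) ∧ x ∉ W := by
      intro i
      by_cases h : ¬ ∀ v ∈ R, v ∈ V → ∃ w ∈ V₀, ∃ c ∈ C, cj v (z i) = w * c
      · push Not at h
        obtain ⟨v, hv, hvV, hn⟩ := h
        refine ⟨cj v (z i), fun _ => ⟨v, hv, hvV, rfl, ?_⟩⟩
        rintro ⟨w, hw, c, hc, he⟩
        exact hn w hw c hc he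
      · exact ⟨1, fun h' => absurd h' h⟩
    choose x hx using h2
    have h3 : Ev (fun i => ∃ v ∈ R, v ∈ V ∧ x i = cj v (z i) ∧ x i ∉ W) := Ev.mono h1 hx
    have h4 : Ev (fun i => x i ∈ (R : Set G)) := by
      refine Ev.mono h3 ?_
      rintro i ⟨v, hv, -, he, -⟩
      rw [he]
      exact hz i v hv
    obtain ⟨b, hbR, hb⟩ := Lm.exists hR h4
    refine ⟨b, ⟨Lm.mem hDcl hb (Ev.mono h3 ?_), ?_⟩, hbR⟩
    · rintro i ⟨v, hv, -, he, hn⟩
      exact hn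
    · refine Ev.mono (h3.and (Lm.coset hV hb)) ?_
      rintro i ⟨⟨v, hv, hvV, he, -⟩, h⟩
      refine ⟨v, hv, hvV, ?_⟩
      rw [← he]
      exact h
  have hmono : ∀ V V' : Subgroup G, IsOpen (V : Set G) → IsOpen (V' : Set G) → V ≤ V' → S V ⊆ S V' := by
    intro V V' _ _ hVV x hx
    refine ⟨hx.1, Ev.mono hx.2 ?_⟩
    rintro i ⟨v, hv, hvV, h⟩
    exact ⟨v, hv, hVV hvV, hVV h⟩
  obtain ⟨b, hbR, hb⟩ := fam_inter hR S hcl hne hmono
  have hbB : b ∈ Bz z R := mem_Bz.2 ⟨hbR, fun V hV => (hb V hV).2⟩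
  have htop := (hb ⊤ isOpen_univ).1
  exact htop ⟨1, V₀.one_mem, b, hB hbB, (one_mul b).symm⟩

end Pool.Agent.CTM
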