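import Pool.Agent.CTM.MxB
import Pool.Agent.CTM.MxH
import Pool.Agent.CTM.MxG

/-!
# CTM: mixing: `B_z` and `B_(z⁻¹)` are not both compact
-/

set_option autoImplicit false

namespace Pool.Agent.CTM

universe u

variable {G : Type u} [Group G] [TopologicalSpace G] [IsTopologicalGroup G] [T2Space G]

/-- size 4.  PROOF.  Take `R`, `V`, `D` from `mix_ms`.  `Bz_equi` for `z⁻¹` (`fun i => (z i)⁻¹`), `R`, `C`, `V`: `V₀` open with eventually `cj v (z i)⁻¹ ∈ V C` for `v ∈ R ⊓ V₀`.  `Bz_equi` for `z`, `V₀`: `V₁`.  `T` finite `⊆ R` with `R ⊆ T V₁` (`finite_cover`).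
`P := (V₀ ⊓ R) ⊔ C`, an open-in-`R` subgroup of `R` (products `v * c`), of finite index in `R`.  PIGEONHOLE: by `finite_cover` for `R` and `V₀` there is a finite `T' ⊆ R`; the function `i ↦ (t ↦ some t' ∈ T' with t'⁻¹ * cj t (z i) ∈ V₀)` `ℕ → (T → T')` is constant on a set of the ultrafilter (`Ev.pigeon`).
So for a set `E` of indices in the ultrafilter (also the two eventual statements hold on `E`) and `i j ∈ E`: `(cj t (z j))⁻¹ * cj t (z i) ∈ V₀ ⊓ R ≤ P` for `t ∈ T`.  For `x ∈ R`, `x = t * v`, `v ∈ V₁ ⊓ R`: `cj x (z i) = cj t (z i) * cj v (z i)`, the second factor in `P`; so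
`(cj x (z j))⁻¹ * cj x (z i) ∈ P * P * P = P`, i.e. `cj x (z i) = cj x (z j) * w * c` (`w ∈ V₀ ⊓ R`, `c ∈ C`).  Apply `cj _ (z j)⁻¹`: `cj x (z i * (z j)⁻¹) = x * cj w (z j)⁻¹ * cj c (z j)⁻¹ = x * v' * c'` with `v' ∈ V`, `c' ∈ C`.  With `i`, `j` exchanged: the
same for `(z i * (z j)⁻¹)⁻¹ = z j * (z i)⁻¹`.  So `z i * (z j)⁻¹ ∈ D` for `i j ∈ E`.  Fix `j ∈ E`: `z i ∈ D * z j`, a compact set, contained in some `K m` (`Tow.bdd`), for all `i ∈ E`: contradiction to `hinf m`. -/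
theorem mix_bdd {K : ℕ → Subgroup G} (T : Tow K) {A N : Subgroup G} (h : MinN A N) {C : Subgroup G}
    (hC : IsCompact (C : Set G)) (hCN : C ≤ N) (hn : Nm A C) {z : ℕ → G} (hz : ∀ i, z i ∈ N)
    (hinf : ∀ m, Ev (fun i => z i ∉ K m))
    (h1 : ∀ R : Subgroup G, IsCompact (R : Set G) → R ≤ N → Nm A R → Bz z R ≤ C)
    (h2 : ∀ R : Subgroup G, IsCompact (R : Set G) → R ≤ N → Nm A R → Bz (fun i => (z i)⁻¹) R ≤ C) : False := by
  classical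
  obtain ⟨R, V, D, hRc, hCR, hRN, hnR, hVo, hDc, hD⟩ := mix_ms T.hyp h hC hCN hn
  have hNA : N ≤ A := h.le
  have hzR : ∀ i, ∀ x ∈ R, cj x (z i) ∈ R := fun i x hx => hnR _ (hNA (hz i)) x hx
  have hzR' : ∀ i, ∀ x ∈ R, cj x (z i)⁻¹ ∈ R := fun i x hx => hnR _ (A.inv_mem (hNA (hz i))) x hx
  have hzC : ∀ i, ∀ x ∈ C, cj x (z i)⁻¹ ∈ C := fun i x hx => hn _ (A.inv_mem (hNA (hz i))) x hx
  obtain ⟨V₀, hV₀o, hE₀⟩ := Bz_equi T.hyp (z := fun i => (z i)⁻¹) (V₀ := V) hRc hzR' (h2 R hRc hRN hnR) hVo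
  obtain ⟨V₁, hV₁o, hE₁⟩ := Bz_equi T.hyp (z := z) (V₀ := V₀) hRc hzR (h1 R hRc hRN hnR) hV₀o
  obtain ⟨F, hF, hFcov⟩ := finite_cover hRc hV₁o
  obtain ⟨F', hF', hFcov'⟩ := finite_cover hRc hV₀o
  have hnRC : Nm R C := nm_mono (hRN.trans hNA) hn
  set P : Subgroup G := (V₀ ⊓ R) ⊔ C with hP
  have hnVC : Nm (V₀ ⊓ R) C := nm_mono inf_le_right hnRC
  -- pigeonhole
  have hch : ∀ i, ∀ t : F, ∃ t' : F', (t' : G)⁻¹ * cj (t : G) (z i) ∈ V₀ := by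
    intro i t
    obtain ⟨t', ht', h3⟩ := hFcov' (cj (t : G) (z i)) (hzR i t (hF t t.2))
    exact ⟨⟨t', ht'⟩, h3⟩
  choose f hf using hch
  obtain ⟨f₀, hf₀⟩ := Ev.pigeon f
  have hE := (hE₀.and hE₁).and hf₀
  -- the main computation
  have main : ∀ i j, ((∀ v ∈ R, v ∈ V₀ → ∃ w ∈ V, ∃ c ∈ C, cj v (z i)⁻¹ = w * c) ∧
      ∀ v ∈ R, v ∈ V₁ → ∃ w ∈ V₀, ∃ c ∈ C, cj v (z i) = w * c) ∧ f i = f₀ →
      ((∀ v ∈ R, v ∈ V₀ → ∃ w ∈ V, ∃ c ∈ C, cj v (z j)⁻¹ = w * c) ∧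
      ∀ v ∈ R, v ∈ V₁ → ∃ w ∈ V₀, ∃ c ∈ C, cj v (z j) = w * c) ∧ f j = f₀ →
      ∀ x ∈ R, ∃ v ∈ V, ∃ c ∈ C, cj x (z i * (z j)⁻¹) = x * v * c := by
    rintro i j ⟨⟨-, hi1⟩, hif⟩ ⟨⟨hj0, hj1⟩, hjf⟩ x hx
    obtain ⟨t, ht, htx⟩ := hFcov x hx
    have htR : t ∈ R := hF t ht
    obtain ⟨v, hv⟩ : ∃ v : G, v = t⁻¹ * x := ⟨_, rfl⟩
    rw [← hv] at htx
    have hvR : v ∈ R := by rw [hv]; exact R.mul_mem (R.inv_mem htR) hx
    have hxe : x = t * v := by rw [hv]; group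
    -- elements of P
    have hPmem : ∀ y ∈ R, (∃ w ∈ V₀, ∃ c ∈ C, y = w * c) → y ∈ P := by
      rintro y hy ⟨w, hw, c, hc, rfl⟩
      have hwR : w ∈ R := by
        have : w = (w * c) * c⁻¹ := by group
        rw [this]
        exact R.mul_mem hy (R.inv_mem (hCR hc))
      exact P.mul_mem (Subgroup.mem_sup_left ⟨hw, hwR⟩) (Subgroup.mem_sup_right hc)
    have hai : cj v (z i) ∈ P := hPmem _ (hzR i v hvR) (hi1 v hvR htx)
    have haj : cj v (z j) ∈ P := hPmem _ (hzR j v hvR) (hj1 v hvR htx)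
    have htt : (cj t (z j))⁻¹ * cj t (z i) ∈ P := by
      have h3 := hf i ⟨t, ht⟩
      have h4 := hf j ⟨t, ht⟩
      rw [hif] at h3
      rw [hjf] at h4
      have h5 : (cj t (z j))⁻¹ * cj t (z i) ∈ V₀ := by
        have h6 := V₀.mul_mem (V₀.inv_mem h4) h3
        have h7 : (((f₀ ⟨t, ht⟩ : F') : G)⁻¹ * cj t (z j))⁻¹ * (((f₀ ⟨t, ht⟩ : F') : G)⁻¹ * cj t (z i)) =
            (cj t (z j))⁻¹ * cj t (z i) := by group
        rw [← h7]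
        exact h6
      exact Subgroup.mem_sup_left ⟨h5, R.mul_mem (R.inv_mem (hzR j t htR)) (hzR i t htR)⟩
    have hmain : (cj x (z j))⁻¹ * cj x (z i) ∈ P := by
      have h3 : (cj x (z j))⁻¹ * cj x (z i) = (cj v (z j))⁻¹ * ((cj t (z j))⁻¹ * cj t (z i)) * cj v (z i) := by
        rw [hxe, mul_cj, mul_cj]; group
      rw [h3]
      exact P.mul_mem (P.mul_mem (P.inv_mem haj) htt) hai
    obtain ⟨c, hc, w, hw, hcw⟩ := (mem_sup_nm' hnVC (x := (cj x (z j))⁻¹ * cj x (z i))).mp (by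
      rw [sup_comm]; exact hmain)
    -- here c is in V₀ ⊓ R, w in C
    obtain ⟨v', hv', c', hc', he⟩ := hj0 c hc.2 hc.1
    refine ⟨v', hv', c' * cj w (z j)⁻¹, C.mul_mem hc' (hzC j w hw), ?_⟩
    have h3 : cj x (z i) = cj x (z j) * (c * w) := by rw [← hcw]; group
    have h4 : cj x (z i * (z j)⁻¹) = cj (cj x (z i)) (z j)⁻¹ := by rw [cj_cj]
    rw [h4, h3, mul_cj, mul_cj, cj_cj_inv, he]
    group
  obtain ⟨j, hj⟩ := hE.exists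
  have hcpt : IsCompact ((fun g => g * z j) '' D) := hDc.image (continuous_mul_const (z j))
  obtain ⟨m, hm⟩ := T.bdd hcpt
  obtain ⟨i, hi, him⟩ := (hE.and (hinf m)).exists
  apply him
  apply hm
  refine ⟨z i * (z j)⁻¹, ?_, by group⟩
  refine hD _ (N.mul_mem (hz i) (N.inv_mem (hz j))) ?_
  intro x hx
  refine ⟨main i j hi hj x hx, ?_⟩
  have h3 : (z i * (z j)⁻¹)⁻¹ = z j * (z i)⁻¹ := by group
  rw [h3]
  exact main j i hj hi x hx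

end Pool.Agent.CTM
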