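import Pool.Agent.CTM.BasA
import Pool.Agent.CTM.BasB
import Pool.Agent.CTM.BasC

/-!
# CTM: compact subgroups with finite quotients of `π`-order
-/

set_option autoImplicit false

namespace Pool.Agent.CTM

universe u

variable {G : Type u} [Group G] [TopologicalSpace G]

/-- `M` is compact and all prime divisors of the (finite) relative indices `[M : M ∩ W]`, `W` an open subgroup, are in `π`. -/
def Pp (π : Set ℕ) (M : Subgroup G) : Prop :=
  IsCompact (M : Set G) ∧ ∀ W : Subgroup G, IsOpen (W : Set G) → ∀ r : ℕ, r.Prime → r ∣ W.relIndex M → r ∈ π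

theorem Pp.mono_pi {π π' : Set ℕ} (h : π ⊆ π') {M : Subgroup G} (hM : Pp π M) : Pp π' M :=
  ⟨hM.1, fun W hW r hr hd => h (hM.2 W hW r hr hd)⟩

variable [IsTopologicalGroup G]

private theorem sya_normal {G : Type u} [Group G] {M V : Subgroup G} (h : Nm M V) : (V.subgroupOf M).Normal := by
  constructor
  intro n hn g
  rw [Subgroup.mem_subgroupOf] at hn ⊢
  have h1 := h (g : G)⁻¹ (M.inv_mem g.2) _ hn
  unfold cj at h1
  rw [inv_inv] at h1
  simpa using h1

/-- size 1.  It is enough to check open subgroups `W` normalised by `M` (`core_exists`: `W' ≤ W`, `W.relIndex M ∣ W'.relIndex M`: `Subgroup.relIndex_dvd_of_le_left` or so). -/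
theorem pp_of_nm {π : Set ℕ} {M : Subgroup G} (hM : IsCompact (M : Set G))
    (h : ∀ W : Subgroup G, IsOpen (W : Set G) → Nm M W → ∀ r : ℕ, r.Prime → r ∣ W.relIndex M → r ∈ π) : Pp π M := by
  refine ⟨hM, fun W hW r hr hd => ?_⟩
  obtain ⟨V', hV', hle, hnm⟩ := core_exists hM hW
  exact h V' hV' hnm r hr (hd.trans (Subgroup.relIndex_dvd_of_le_left M hle))

/-- size 2.  Closed subgroups.  PROOF.  By `pp_of_nm`-like reduction it is enough to consider `W` normalised by `M` (`core_exists` for `M`; `W'.relIndex M'` is a multiple of `W.relIndex M'` for `W' ≤ W`).  Then `W.subgroupOf M` is normal in `M`, and `W.relIndex M' ∣ W.relIndex M`: the image of `M'` in the finite group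
`M ⧸ W.subgroupOf M` is a subgroup of order `W.relIndex M'` (Lagrange; Mathlib: `Subgroup.relIndex_dvd_of_normal..`, `Subgroup.relIndex_sup_...`). -/
theorem Pp.le {π : Set ℕ} {M M' : Subgroup G} (hM : Pp π M) (hc : IsClosed (M' : Set G)) (h : M' ≤ M) : Pp π M' := by
  refine ⟨hM.1.of_isClosed_subset hc h, fun W hW r hr hd => ?_⟩
  obtain ⟨V', hV', hle, hnm⟩ := core_exists hM.1 hW
  have hd' : r ∣ V'.relIndex M' := hd.trans (Subgroup.relIndex_dvd_of_le_left M' hle)
  have hnorm : (V'.subgroupOf M).Normal := sya_normal hnm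
  have h1 : (V'.subgroupOf M).relIndex (M'.subgroupOf M) ∣ (V'.subgroupOf M).index :=
    Subgroup.relIndex_dvd_index_of_normal _ _
  rw [Subgroup.relIndex_subgroupOf h] at h1
  exact hM.2 V' hV' r hr (hd'.trans h1)

/-- size 1. -/
theorem pp_bot {π : Set ℕ} : Pp π (⊥ : Subgroup G) := by
  refine ⟨?_, fun W hW r hr hd => ?_⟩
  · rw [Subgroup.coe_bot]; exact isCompact_singleton
  · rw [Subgroup.relIndex_bot_right] at hd
    exact absurd (Nat.dvd_one.1 hd) hr.ne_one

/-- size 1.  All prime divisors are `q`: the index is a power of `q` (`Nat.eq_prime_pow_of_unique_prime_dvd`, `relIndex_ne`). -/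
theorem Pp.relIndex_eq {q : ℕ} {M : Subgroup G} (h : Pp {q} M) {W : Subgroup G}
    (hW : IsOpen (W : Set G)) : ∃ e : ℕ, W.relIndex M = q ^ e := by
  exact ⟨_, Nat.eq_prime_pow_of_unique_prime_dvd (relIndex_ne h.1 hW) fun {d} hd hd' => h.2 W hW d hd hd'⟩

/-- size 1.  `W' ≤ W` normalised by `M`: `x ^ (order of the finite group M ⧸ W')` is in `W'`. -/
theorem Pp.pow {q : ℕ} {M : Subgroup G} (h : Pp {q} M) {W : Subgroup G} (hW : IsOpen (W : Set G)) {x : G}
    (hx : x ∈ M) : ∃ e : ℕ, x ^ (q ^ e) ∈ W := by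
  obtain ⟨V', hV', hle, hnm⟩ := core_exists h.1 hW
  obtain ⟨e, he⟩ := h.relIndex_eq hV'
  have hnorm : (V'.subgroupOf M).Normal := sya_normal hnm
  refine ⟨e, hle ?_⟩
  have h1 := Subgroup.pow_index_mem (V'.subgroupOf M) ⟨x, hx⟩
  have h2 : (V'.subgroupOf M).index = q ^ e := he
  rw [h2, Subgroup.mem_subgroupOf] at h1
  exact h1

end Pool.Agent.CTM
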