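import Pool.Agent.CTM.SyA

/-!
# CTM: Sylow theory: minimal subgroups
-/

set_option autoImplicit false

namespace Pool.Agent.CTM

universe u

variable {G : Type u} [Group G] [TopologicalSpace G]

/-- `P` is a Sylow `q`-subgroup of the compact subgroup `S`: closed, `≤ S`, pro-`q`, and `[S : P (W ∩ S)]` is prime to `q` for all open subgroups `W` normalised by `S`. -/
structure IsSyl (q : ℕ) (S P : Subgroup G) : Prop where
  le : P ≤ S
  pp : Pp {q} P
  ndvd : ∀ W : Subgroup G, IsOpen (W : Set G) → Nm S W → ¬ q ∣ (P ⊔ (W ⊓ S)).relIndex S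

variable [IsTopologicalGroup G] [T2Space G]

private theorem SyB_chain {S : Subgroup G} (hS : IsCompact (S : Set G)) {q : ℕ} (c : Set (Subgroup G))
    (hc : ∀ P ∈ c, IsClosed (P : Set G) ∧ P ≤ S ∧
      ∀ W : Subgroup G, IsOpen (W : Set G) → Nm S W → ¬ q ∣ (P ⊔ (W ⊓ S)).relIndex S)
    (hch : ∀ P ∈ c, ∀ P' ∈ c, P ≤ P' ∨ P' ≤ P) (P1 : Subgroup G) (hP1 : P1 ∈ c) :
    IsClosed ((sInf c : Subgroup G) : Set G) ∧ sInf c ≤ S ∧
      ∀ W : Subgroup G, IsOpen (W : Set G) → Nm S W → ¬ q ∣ (sInf c ⊔ (W ⊓ S)).relIndex S := by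
  refine ⟨?_, sInf_le_of_le hP1 (hc P1 hP1).2.1, ?_⟩
  · rw [Subgroup.coe_sInf]
    exact isClosed_biInter (fun P hP => (hc P hP).1)
  · intro W hW hn
    have hne : (W ⊓ S).relIndex S ≠ 0 := by
      have h1 : (W ⊓ S).relIndex S = W.relIndex S := Subgroup.inf_relIndex_right W S
      rw [h1]; exact relIndex_ne hS hW
    have hmax : ∃ P ∈ c, ∀ P' ∈ c, (P' ⊔ (W ⊓ S)).relIndex S ≤ (P ⊔ (W ⊓ S)).relIndex S := by
      by_contra hcon
      push Not at hcon
      have hb : ∀ n : ℕ, ∃ P ∈ c, n ≤ (P ⊔ (W ⊓ S)).relIndex S := by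
        intro n
        induction n with
        | zero => exact ⟨P1, hP1, Nat.zero_le _⟩
        | succ n ih =>
          obtain ⟨P, hP, h1⟩ := ih
          obtain ⟨P', hP', h2⟩ := hcon P hP
          exact ⟨P', hP', by omega⟩
      obtain ⟨P, hP, h1⟩ := hb ((W ⊓ S).relIndex S + 1)
      have h2 : (P ⊔ (W ⊓ S)).relIndex S ≤ (W ⊓ S).relIndex S :=
        Nat.le_of_dvd (Nat.pos_of_ne_zero hne) (Subgroup.relIndex_dvd_of_le_left S le_sup_right)
      omega
    obtain ⟨P, hP, hPm⟩ := hmax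
    have hle : ∀ P' ∈ c, P ⊔ (W ⊓ S) ≤ P' ⊔ (W ⊓ S) := by
      intro P' hP'
      rcases hch P hP P' hP' with h1 | h1
      · exact sup_le_sup_right h1 _
      · have h2 : P' ⊔ (W ⊓ S) ≤ P ⊔ (W ⊓ S) := sup_le_sup_right h1 _
        have h3 : P ⊔ (W ⊓ S) ≤ S := sup_le (hc P hP).2.1 inf_le_right
        have h4 := Subgroup.relIndex_mul_relIndex _ _ _ h2 h3
        have h5 := hPm P' hP'
        have h6 : (P ⊔ (W ⊓ S)).relIndex S ≠ 0 := by
          intro h0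
          apply hne
          have := Subgroup.relIndex_dvd_of_le_left S (le_sup_right : W ⊓ S ≤ P ⊔ (W ⊓ S))
          rw [h0] at this
          exact Nat.eq_zero_of_zero_dvd this
        have h7 : (P' ⊔ (W ⊓ S)).relIndex (P ⊔ (W ⊓ S)) ≠ 0 := by
          intro h0
          rw [h0, zero_mul] at h4
          apply hne
          have := Subgroup.relIndex_dvd_of_le_left S (le_sup_right : W ⊓ S ≤ P' ⊔ (W ⊓ S))
          rw [← h4] at this
          exact Nat.eq_zero_of_zero_dvd this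
        have h8 : (P' ⊔ (W ⊓ S)).relIndex (P ⊔ (W ⊓ S)) = 1 := by
          have h9 : 0 < (P ⊔ (W ⊓ S)).relIndex S := Nat.pos_of_ne_zero h6
          have h10 : 0 < (P' ⊔ (W ⊓ S)).relIndex (P ⊔ (W ⊓ S)) := Nat.pos_of_ne_zero h7
          rw [← h4] at h5
          nlinarith
        exact Subgroup.relIndex_eq_one.1 h8
    have hkey : P ⊔ (W ⊓ S) ≤ sInf c ⊔ (W ⊓ S) := by
      intro x hx
      have hxS : x ∈ S := (sup_le (hc P hP).2.1 inf_le_right : P ⊔ (W ⊓ S) ≤ S) hx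
      have hWc : IsClosed (W : Set G) := W.isClosed_of_isOpen hW
      have hcont : Continuous (fun p : G => p⁻¹ * x) := by fun_prop
      obtain ⟨b, hbS, hb⟩ := fam_inter' (C := (S : Set G)) hS
        {Z | ∃ P' ∈ c, Z = (P' : Set G) ∩ {p | p⁻¹ * x ∈ W}} ⟨_, P, hP, rfl⟩
        (by
          rintro Z ⟨P', hP', rfl⟩
          exact (hc P' hP').1.inter (hWc.preimage hcont))
        (by
          rintro Z ⟨P', hP', rfl⟩
          have h1 : x ∈ (W ⊓ S) ⊔ P' := by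
            rw [sup_comm]; exact hle P' hP' hx
          have hnm : Nm P' (W ⊓ S) := nm_mono (hc P' hP').2.1 (nm_inf hn (nm_self S))
          obtain ⟨p, hp, w, hw, h2⟩ := (mem_sup_nm' hnm).1 h1
          refine ⟨p, ⟨hp, ?_⟩, (hc P' hP').2.1 hp⟩
          change p⁻¹ * x ∈ W
          rw [h2, inv_mul_cancel_left]
          exact hw.1)
        (by
          rintro Z ⟨P', hP', rfl⟩ Z' ⟨P'', hP'', rfl⟩
          rcases hch P' hP' P'' hP'' with h1 | h1
          · refine ⟨_, ⟨P', hP', rfl⟩, ?_⟩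
            rintro y ⟨hy1, hy2⟩
            exact ⟨⟨hy1, hy2⟩, ⟨h1 hy1, hy2⟩⟩
          · refine ⟨_, ⟨P'', hP'', rfl⟩, ?_⟩
            rintro y ⟨hy1, hy2⟩
            exact ⟨⟨h1 hy1, hy2⟩, ⟨hy1, hy2⟩⟩)
      have hb1 : b ∈ sInf c := by
        rw [Subgroup.mem_sInf]
        intro P' hP'
        exact (hb _ ⟨P', hP', rfl⟩).1
      have hb2 : b⁻¹ * x ∈ W := (hb _ ⟨P, hP, rfl⟩).2
      have hb3 : b⁻¹ * x ∈ W ⊓ S := ⟨hb2, S.mul_mem (S.inv_mem hbS) hxS⟩
      have h3 : x = b * (b⁻¹ * x) := by group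
      rw [h3]
      exact Subgroup.mul_mem _ (Subgroup.mem_sup_left hb1) (Subgroup.mem_sup_right hb3)
    have heq : sInf c ⊔ (W ⊓ S) = P ⊔ (W ⊓ S) :=
      le_antisymm (sup_le_sup_right (sInf_le hP) _) hkey
    rw [heq]
    exact (hc P hP).2.2 W hW hn

/-- size 2.  PROOF.  Zorn (minimal elements) for the set `F` of the closed subgroups `P ≤ S` with `¬ q ∣ (P ⊔ (W ⊓ S)).relIndex S` for all open `W` normalised by `S`; `S ∈ F`.  Chains: `P₀ = sInf c` for a nonempty chain `c ⊆ F`.  Given `W`: claim `P₀ ⊔ (W ⊓ S) = P ⊔ (W ⊓ S)` for some `P ∈ c`: the subgroups `P ⊔ (W ⊓ S)`,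
`P ∈ c`, lie between `W ⊓ S` and `S` with `W ⊓ S` of finite index, so one of them, `P₁ ⊔ (W ⊓ S)`, is minimal, and so contained in all the others (chain); if `x ∈ P₁ ⊔ (W ⊓ S)`, then for every `P ∈ c` the closed set `P ∩ x W` (`W` normal) is nonempty; by compactness (`fam_inter'`, the sets `P ∩ x W` are directed)
there is a point in `P₀ ∩ x W`: `x ∈ P₀ ⊔ (W ⊓ S)`. -/
theorem exists_syl_min {S : Subgroup G} (hS : IsCompact (S : Set G)) {q : ℕ} (hq : q.Prime) :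
    ∃ P : Subgroup G, Minimal (fun P : Subgroup G => IsClosed (P : Set G) ∧ P ≤ S ∧
      ∀ W : Subgroup G, IsOpen (W : Set G) → Nm S W → ¬ q ∣ (P ⊔ (W ⊓ S)).relIndex S) P := by
  classical
  have hz := zorn_le_nonempty₀ (α := (Subgroup G)ᵒᵈ)
    {P : (Subgroup G)ᵒᵈ | IsClosed ((OrderDual.ofDual P : Subgroup G) : Set G) ∧ OrderDual.ofDual P ≤ S ∧
      ∀ W : Subgroup G, IsOpen (W : Set G) → Nm S W → ¬ q ∣ (OrderDual.ofDual P ⊔ (W ⊓ S)).relIndex S} ?_
    (OrderDual.toDual S) ?_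
  · obtain ⟨m, -, hm⟩ := hz
    refine ⟨OrderDual.ofDual m, hm.1, ?_⟩
    intro P hP hle
    exact hm.2 (y := OrderDual.toDual P) hP hle
  · intro c hc hch y hy
    have hch' : ∀ P ∈ (OrderDual.ofDual '' c : Set (Subgroup G)), ∀ P' ∈ (OrderDual.ofDual '' c : Set (Subgroup G)),
        P ≤ P' ∨ P' ≤ P := by
      rintro P ⟨A, hA, rfl⟩ P' ⟨B, hB, rfl⟩
      rcases hch.total hA hB with h | h
      · exact Or.inr h
      · exact Or.inl h
    have h1 := SyB_chain hS (q := q) (OrderDual.ofDual '' c : Set (Subgroup G))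
      (by rintro P ⟨A, hA, rfl⟩; exact hc hA) hch' (OrderDual.ofDual y) ⟨y, hy, rfl⟩
    refine ⟨OrderDual.toDual (sInf (OrderDual.ofDual '' c : Set (Subgroup G))), h1, ?_⟩
    intro z hz
    have h2 : sInf (OrderDual.ofDual '' c : Set (Subgroup G)) ≤ OrderDual.ofDual z := sInf_le ⟨z, hz, rfl⟩
    exact h2
  · refine ⟨hS.isClosed, le_refl S, ?_⟩
    intro W hW hn
    have h1 : (OrderDual.ofDual (OrderDual.toDual S) ⊔ (W ⊓ S)) = S := by
      rw [OrderDual.ofDual_toDual]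
      exact sup_eq_left.2 inf_le_right
    rw [h1, Subgroup.relIndex_self]
    exact fun h => hq.one_lt.ne' (Nat.dvd_one.1 h)

/-- size 2.  For any open `W` and `Δ` with `P ≤ Δ`, `W ⊓ S ≤ Δ ≤ S`, `Nm S W`: `[S : Δ]` is prime to `q` (it divides `[S : P (W ⊓ S)]`). -/
theorem IsSyl.ndvd' {q : ℕ} {S P : Subgroup G} (h : IsSyl q S P) {W Δ : Subgroup G} (hW : IsOpen (W : Set G))
    (hn : Nm S W) (h1 : P ≤ Δ) (h2 : W ⊓ S ≤ Δ) : ¬ q ∣ Δ.relIndex S := by
  intro hd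
  exact h.ndvd W hW hn (hd.trans (Subgroup.relIndex_dvd_of_le_left S (sup_le h1 h2)))

end Pool.Agent.CTM
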