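import Pool.Agent.CTM.SyB
import Pool.Agent.CTM.SyF

/-!
# CTM: Sylow theory: conjugacy
-/

set_option autoImplicit false

namespace Pool.Agent.CTM

universe u

variable {G : Type u} [Group G] [TopologicalSpace G] [IsTopologicalGroup G] [T2Space G]

private theorem fp2_aux {S P Q : Subgroup G} (hS : IsCompact (S : Set G)) {q : ℕ} (hq : q.Prime)
    (hP : IsSyl q S P) (hQS : Q ≤ S) (hQ : Pp {q} Q) {W : Subgroup G} (hW : IsOpen (W : Set G))
    (hn : Nm S W) : ∃ s ∈ S, ∀ x ∈ Q, cj x s ∈ P ⊔ (W ⊓ S) := by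
  set B : Subgroup G := P ⊔ (W ⊓ S) with hB
  letI act : MulAction ↥Q (↥S ⧸ B.subgroupOf S) :=
    MulAction.compHom (↥S ⧸ B.subgroupOf S) (Subgroup.inclusion hQS)
  have hsm : ∀ (x : ↥Q) (s : ↥S), x • (QuotientGroup.mk s : ↥S ⧸ B.subgroupOf S) =
      QuotientGroup.mk (Subgroup.inclusion hQS x * s) := fun x s => rfl
  have hWB : W.subgroupOf S ≤ B.subgroupOf S := by
    intro y hy
    rw [Subgroup.mem_subgroupOf] at hy ⊢
    exact Subgroup.mem_sup_right ⟨hy, y.2⟩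
  have hfW : (W.subgroupOf S).index ≠ 0 := relIndex_ne hS hW
  have hfB : (B.subgroupOf S).index ≠ 0 := fun h0 => hfW (by
    have := Subgroup.index_dvd_of_le hWB
    rw [h0] at this
    exact Nat.eq_zero_of_zero_dvd this)
  haveI : (B.subgroupOf S).FiniteIndex := ⟨hfB⟩
  haveI : Finite (↥S ⧸ B.subgroupOf S) := Subgroup.finite_quotient_of_finiteIndex
  have hcard : ¬ q ∣ Nat.card (↥S ⧸ B.subgroupOf S) := hP.ndvd W hW hn
  have hst : ∀ a : (↥S ⧸ B.subgroupOf S), ∃ e : ℕ, (MulAction.stabilizer ↥Q a).index = q ^ e := by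
    intro a
    obtain ⟨s, rfl⟩ := QuotientGroup.mk_surjective a
    obtain ⟨e, he⟩ := hQ.relIndex_eq hW
    have hle : W.subgroupOf Q ≤ MulAction.stabilizer ↥Q (QuotientGroup.mk s : ↥S ⧸ B.subgroupOf S) := by
      intro x hx
      rw [MulAction.mem_stabilizer_iff, hsm, eq_comm, QuotientGroup.eq, Subgroup.mem_subgroupOf]
      have hx' : (x : G) ∈ W := hx
      have h1 : cj (x : G) (s : G) ∈ W := hn _ s.2 _ hx'
      have h2 : ((s⁻¹ * (Subgroup.inclusion hQS x * s) : ↥S) : G) = cj (x : G) (s : G) := by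
        simp [cj, mul_assoc]
      rw [h2]
      refine Subgroup.mem_sup_right ⟨h1, ?_⟩
      rw [← h2]
      exact SetLike.coe_mem _
    have hd := Subgroup.index_dvd_of_le hle
    have he' : (W.subgroupOf Q).index = q ^ e := he
    rw [he'] at hd
    obtain ⟨k, -, hk⟩ := (Nat.dvd_prime_pow hq).1 hd
    exact ⟨k, hk⟩
  obtain ⟨a, ha⟩ := fixed_of_stab hq hst hcard
  obtain ⟨s, rfl⟩ := QuotientGroup.mk_surjective a
  refine ⟨s, s.2, fun x hx => ?_⟩
  have h1 := ha ⟨x, hx⟩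
  rw [hsm, eq_comm, QuotientGroup.eq, Subgroup.mem_subgroupOf] at h1
  have h2 : ((s⁻¹ * (Subgroup.inclusion hQS ⟨x, hx⟩ * s) : ↥S) : G) = cj x (s : G) := by
    simp [cj, mul_assoc]
  rw [h2] at h1
  exact h1

/-- size 4.  PROOF.  Let `W` be open normalised by `S`, `B := P ⊔ (W ⊓ S)` (products `p * w`).  `Q` acts on the finite set `α = ↥S ⧸ B.subgroupOf S` (left cosets `s B`) by left multiplication (via the inclusion `Q → S`), of cardinality `B.relIndex S` prime to `q`; the stabiliser of `s B` in `Q` contains `W ⊓ Q` (`W` is normalised by `S`), so its index divides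
`W.relIndex Q`, a power of `q` (`Pp.relIndex_eq`), so is a power of `q` (`Nat.dvd_prime_pow`).  `fixed_of_stab`: there is `s ∈ S` with `x s B = s B`, i.e. `cj x s ∈ B` for all `x ∈ Q`.  So for every open `V`, with `W ≤ V` open normalised by `S` (`core_exists`): the set
`S V := {s ∈ S | ∀ x ∈ Q, ∃ p ∈ P, p⁻¹ * cj x s ∈ V}` is not empty; closed (for fixed `x` the condition `cj x s ∈ P V`, a union of left cosets of `V`, is closed); decreasing.  `fam_inter`: some `s ∈ S` is in all of them: `cj x s ∈ ⋂ P V = P` (closed, as `Hyp.mem_closure`). -/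
theorem fp2 (H : Hyp G) {S P Q : Subgroup G} (hS : IsCompact (S : Set G)) {q : ℕ} (hq : q.Prime)
    (hP : IsSyl q S P) (hQS : Q ≤ S) (hQ : Pp {q} Q) : ∃ s ∈ S, ∀ x ∈ Q, cj x s ∈ P := by
  have hcl : ∀ V : Subgroup G, IsOpen (V : Set G) →
      IsClosed {s : G | ∀ x ∈ Q, ∃ p ∈ P, p⁻¹ * cj x s ∈ V} := by
    intro V hV
    have hU : IsClosed {y : G | ∃ p ∈ P, p⁻¹ * y ∈ V} := by
      refine (clopen_of_coset hV ?_).1
      rintro y ⟨p, hp, hpy⟩ v hv
      exact ⟨p, hp, by rw [← mul_assoc]; exact V.mul_mem hpy hv⟩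
    have : {s : G | ∀ x ∈ Q, ∃ p ∈ P, p⁻¹ * cj x s ∈ V} =
        ⋂ x ∈ Q, (fun s => cj x s) ⁻¹' {y : G | ∃ p ∈ P, p⁻¹ * y ∈ V} := by
      ext s; simp
    rw [this]
    refine isClosed_biInter fun x _ => hU.preimage ?_
    unfold cj
    fun_prop
  have hne : ∀ V : Subgroup G, IsOpen (V : Set G) →
      ({s : G | ∀ x ∈ Q, ∃ p ∈ P, p⁻¹ * cj x s ∈ V} ∩ (S : Set G)).Nonempty := by
    intro V hV
    obtain ⟨W, hW, hWV, hn⟩ := core_exists hS hV
    obtain ⟨s, hs, h⟩ := fp2_aux hS hq hP hQS hQ hW hn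
    refine ⟨s, fun x hx => ?_, hs⟩
    have h1 := h x hx
    have hnP : Nm P (W ⊓ S) := nm_inf (nm_mono hP.le hn) (nm_mono hP.le (nm_self S))
    rw [sup_comm, mem_sup_nm' hnP] at h1
    obtain ⟨p, hp, w, hw, e⟩ := h1
    refine ⟨p, hp, hWV ?_⟩
    rw [e, inv_mul_cancel_left]
    exact hw.1
  obtain ⟨s, hs, h⟩ := fam_inter hS (fun V => {s : G | ∀ x ∈ Q, ∃ p ∈ P, p⁻¹ * cj x s ∈ V}) hcl hne (by
    intro V V' _ _ hVV s hs x hx
    obtain ⟨p, hp, h1⟩ := hs x hx
    exact ⟨p, hp, hVV h1⟩)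
  refine ⟨s, hs, fun x hx => ?_⟩
  have hPc : IsClosed (P : Set G) := hP.pp.1.isClosed
  have : cj x s ∈ closure (P : Set G) := by
    rw [H.mem_closure]
    intro V hV
    obtain ⟨p, hp, h1⟩ := h V hV x hx
    refine ⟨p, hp, ?_⟩
    have := V.inv_mem h1
    simpa [mul_inv_rev] using this
  rwa [hPc.closure_eq] at this

end Pool.Agent.CTM
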