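import Pool.Agent.CTM.SyA
import Pool.Agent.CTM.SyF

/-!
# CTM, Sylow theory D: coprime fixed points
-/

set_option autoImplicit false

namespace Pool.Agent.CTM

universe u

variable {G : Type u} [Group G] [TopologicalSpace G] [IsTopologicalGroup G] [T2Space G]

section aux

variable {G : Type u} [Group G]

private def tw (u m x : G) : G := u⁻¹ * (m * (u * x) * m⁻¹)

private theorem tw_mem {M X : Subgroup G} (hn : Nm M X) {u : G} (hu : ∀ m ∈ M, cm u m ∈ X) {m x : G}
    (hm : m ∈ M) (hx : x ∈ X) : tw u m x ∈ X := by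
  have h1 : tw u m x = cm u m⁻¹ * cj x m⁻¹ := by unfold tw cm cj; group
  rw [h1]
  exact X.mul_mem (hu _ (M.inv_mem hm)) (hn _ (M.inv_mem hm) _ hx)

private theorem tw_one (u x : G) : tw u 1 x = x := by unfold tw; group

private theorem tw_mul (u m m' x : G) : tw u (m * m') x = tw u m (tw u m' x) := by unfold tw; group

private theorem tw_rel (u m x y : G) : (tw u m x)⁻¹ * tw u m y = cj (x⁻¹ * y) m⁻¹ := by
  unfold tw cj; group

private def twAct {M X W : Subgroup G} (hn : Nm M X) (hW : Nm M W) {u : G} (hu : ∀ m ∈ M, cm u m ∈ X) :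
    MulAction ↥M (↥X ⧸ W.subgroupOf X) where
  smul m a := Quotient.map' (fun x : ↥X => (⟨tw u m x, tw_mem hn hu m.2 x.2⟩ : ↥X)) (by
    intro x y hxy
    rw [QuotientGroup.leftRel_apply, Subgroup.mem_subgroupOf] at hxy ⊢
    have h1 : ((x⁻¹ * y : ↥X) : G) = (x : G)⁻¹ * y := rfl
    rw [h1] at hxy
    have h2 := hW _ (M.inv_mem m.2) _ hxy
    rw [← tw_rel u] at h2
    exact h2) a
  one_smul a := by
    induction a using QuotientGroup.induction_on with
    | H x =>
      change (QuotientGroup.mk (⟨tw u 1 x, _⟩ : ↥X) : ↥X ⧸ W.subgroupOf X) = QuotientGroup.mk x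
      congr 1
      exact Subtype.ext (tw_one u x)
  mul_smul m m' a := by
    induction a using QuotientGroup.induction_on with
    | H x =>
      change (QuotientGroup.mk (⟨tw u (m * m') x, _⟩ : ↥X) : ↥X ⧸ W.subgroupOf X) =
        QuotientGroup.mk (⟨tw u m (tw u m' x), _⟩ : ↥X)
      congr 1
      exact Subtype.ext (tw_mul u m m' x)

end aux

private theorem fp_aux {M X W : Subgroup G} {q : ℕ} (hq : q.Prime) (hM : Pp {q} M) (hX : Pp {r | r ≠ q} X)
    (hn : Nm M X) {u : G} (hu : ∀ m ∈ M, cm u m ∈ X) (hWo : IsOpen (W : Set G)) (hW : Nm M W) :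
    ∃ x ∈ X, ∀ m ∈ M, cm (u * x) m ∈ W := by
  let act : MulAction ↥M (↥X ⧸ W.subgroupOf X) := twAct hn hW hu
  have hsm : ∀ (m : ↥M) (x : ↥X), m • (QuotientGroup.mk x : ↥X ⧸ W.subgroupOf X) =
      QuotientGroup.mk (⟨tw u m x, tw_mem hn hu m.2 x.2⟩ : ↥X) := fun m x => rfl
  have hfW : (W.subgroupOf X).index ≠ 0 := relIndex_ne hX.1 hWo
  have : (W.subgroupOf X).FiniteIndex := ⟨hfW⟩
  have : Finite (↥X ⧸ W.subgroupOf X) := Subgroup.finite_quotient_of_finiteIndex
  have hcard : ¬ q ∣ Nat.card (↥X ⧸ W.subgroupOf X) := fun h => hX.2 W hWo q hq h rfl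
  have hfix : ∀ (m : ↥M) (x : ↥X), m • (QuotientGroup.mk x : ↥X ⧸ W.subgroupOf X) = QuotientGroup.mk x ↔
      (u * x : G)⁻¹ * cj (u * x) (m : G)⁻¹ ∈ W := by
    intro m x
    rw [hsm, eq_comm, QuotientGroup.eq, Subgroup.mem_subgroupOf]
    have h1 : ((x⁻¹ * (⟨tw u m x, tw_mem hn hu m.2 x.2⟩ : ↥X) : ↥X) : G) =
        (u * x : G)⁻¹ * cj (u * x) (m : G)⁻¹ := by
      change (x : G)⁻¹ * tw u m x = _
      unfold tw cj; group
    rw [h1]
  have hst : ∀ a : (↥X ⧸ W.subgroupOf X), ∃ e : ℕ, (MulAction.stabilizer ↥M a).index = q ^ e := by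
    intro a
    obtain ⟨x, rfl⟩ := QuotientGroup.mk_surjective a
    obtain ⟨V', hV', hVW, h⟩ := small_cj hWo (u * (x : G))
    obtain ⟨e, he⟩ := hM.relIndex_eq hV'
    have hle : V'.subgroupOf M ≤ MulAction.stabilizer ↥M (QuotientGroup.mk x : ↥X ⧸ W.subgroupOf X) := by
      intro m hm
      rw [MulAction.mem_stabilizer_iff, hfix]
      have hm' : (m : G) ∈ V' := hm
      have h2 : (u * x : G)⁻¹ * cj (u * x) (m : G)⁻¹ = cj (m : G) (u * x) * (m : G)⁻¹ := by
        unfold cj; group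
      rw [h2]
      exact W.mul_mem (h _ hm') (W.inv_mem (hVW hm'))
    have hd := Subgroup.index_dvd_of_le hle
    have he' : (V'.subgroupOf M).index = q ^ e := he
    rw [he'] at hd
    obtain ⟨k, -, hk⟩ := (Nat.dvd_prime_pow hq).1 hd
    exact ⟨k, hk⟩
  obtain ⟨a, ha⟩ := fixed_of_stab hq hst hcard
  obtain ⟨x, rfl⟩ := QuotientGroup.mk_surjective a
  refine ⟨x, x.2, fun m hm => ?_⟩
  have h1 := (hfix ⟨m⁻¹, M.inv_mem hm⟩ x).1 (ha _)
  simp only [inv_inv] at h1
  rw [cm_eq]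
  exact h1

/-- size 4.  FP.  PROOF.  `M` acts on the coset `u X` by conjugation: for `x ∈ X`, `m ∈ M`: `cj (u * x) m = cj u m * cj x m = u * (cm u m * cj x m) ∈ u X`.  Let `V` be open; let `W ≤ V` be open, normalised by the compact group `X ⊔ M` (`cpt_sup`, `core_exists`).  The finite set `α = ↥X ⧸ W.subgroupOf X` (cardinality `W.relIndex X`, prime to `q`) has the `M`-action
`m • (x W) = (cm u m⁻¹ * cj x m⁻¹) W` (i.e. `m • (u x W) = m (u x W) m⁻¹`): well defined as `W` is normalised by `M` and `X`.  The stabilisers contain `M ⊓ W` intersected with the open subgroup of the `m` with `cm u m ∈ W`-like condition: precisely, for fixed `x` the set of `m ∈ M` with `cj (u x) m ∈ u x W` is a subgroup of `M` (stabiliser), it contains a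
neighbourhood of `1` (continuity), so it contains `M ⊓ W'` with `W'` an open subgroup, so its index divides a power of `q` (`Pp.relIndex_eq`).  `fixed_of_stab`: some `x ∈ X` with `cj (u x) m ∈ u x W` for all `m ∈ M`.  So the closed sets `S V := {x ∈ X | ∀ m ∈ M, (u * x)⁻¹ * cj (u * x) m ∈ V}` are nonempty, decreasing: `fam_inter`: some `x ∈ X` is in all
of them: `cm (u * x) m ∈ V` for all `V`, so `= 1` (`Hyp.eq_one`). -/
theorem fp_lift (H : Hyp G) {M X : Subgroup G} {q : ℕ} (hq : q.Prime) (hM : Pp {q} M) (hX : Pp {r | r ≠ q} X)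
    (hn : Nm M X) {u : G} (hu : ∀ m ∈ M, cm u m ∈ X) : ∃ x ∈ X, ∀ m ∈ M, cm (u * x) m = 1 := by
  have hcl : ∀ V : Subgroup G, IsOpen (V : Set G) → IsClosed {x : G | ∀ m ∈ M, cm (u * x) m ∈ V} := by
    intro V hV
    have hU : IsClosed (V : Set G) := (clopen_of_coset (S := (V : Set G)) hV
      (fun x hx v hv => V.mul_mem hx hv)).1
    have : {x : G | ∀ m ∈ M, cm (u * x) m ∈ V} = ⋂ m ∈ M, (fun x => cm (u * x) m) ⁻¹' (V : Set G) := by
      ext s; simp
    rw [this]
    refine isClosed_biInter fun x _ => hU.preimage ?_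
    unfold cm
    fun_prop
  have hne : ∀ V : Subgroup G, IsOpen (V : Set G) →
      ({x : G | ∀ m ∈ M, cm (u * x) m ∈ V} ∩ (X : Set G)).Nonempty := by
    intro V hV
    obtain ⟨W, hW, hWV, hnW⟩ := core_exists (cpt_sup hX.1 hM.1 hn) hV
    obtain ⟨x, hx, h⟩ := fp_aux hq hM hX hn hu hW (nm_mono le_sup_right hnW)
    exact ⟨x, fun m hm => hWV (h m hm), hx⟩
  obtain ⟨x, hx, h⟩ := fam_inter hX.1 (fun V => {x : G | ∀ m ∈ M, cm (u * x) m ∈ V}) hcl hne
    (fun V V' _ _ hVV s hs m hm => hVV (hs m hm))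
  exact ⟨x, hx, fun m hm => H.eq_one (fun V hV => h V hV m hm)⟩

end Pool.Agent.CTM
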