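import Pool.Agent.CTM.SyC
import Pool.Agent.CTM.SyG
import Pool.Agent.CTM.SyH

/-!
# CTM: Sylow theory: the Frattini argument
-/

set_option autoImplicit false

namespace Pool.Agent.CTM

universe u

variable {G : Type u} [Group G] [TopologicalSpace G] [IsTopologicalGroup G] [T2Space G]

omit [TopologicalSpace G] [IsTopologicalGroup G] [T2Space G] in
private theorem aux_relIndex {S P W : Subgroup G} {y : G} (hy : ∀ x ∈ S, cj x y ∈ S ∧ cj x y⁻¹ ∈ S) :
    (cjS P y ⊔ (W ⊓ S)).relIndex S = (P ⊔ (cjS W y⁻¹ ⊓ S)).relIndex S := by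
  have hS : cjS S y = S := by
    ext x
    rw [mem_cjS']
    constructor
    · intro h
      have := (hy _ h).1
      rwa [cj_inv_cj] at this
    · intro h
      exact (hy x h).2
  have hW : cjS (cjS W y⁻¹) y = W := by
    ext x
    rw [mem_cjS', mem_cjS', inv_inv, cj_inv_cj]
  have hmap : S.map (MulAut.conj y).toMonoidHom = S := by
    have h1 : (cjS S y).map (MulAut.conj y).toMonoidHom = S := by
      unfold cjS
      exact Subgroup.map_comap_eq_self_of_surjective (MulAut.conj y).surjective S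
    rwa [hS] at h1
  have hsup : cjS P y ⊔ (W ⊓ S) = (P ⊔ (cjS W y⁻¹ ⊓ S)).comap (MulAut.conj y).toMonoidHom := by
    rw [← Subgroup.comap_sup_eq _ _ _ (MulAut.conj y).surjective, Subgroup.comap_inf]
    change _ = cjS P y ⊔ (cjS (cjS W y⁻¹) y ⊓ cjS S y)
    rw [hW, hS]
  rw [hsup, Subgroup.relIndex_comap, hmap]

/-- size 2.  Conjugates by `y` with `y⁻¹ S y = S`.  PROOF.  For `W` open normalised by `S`: `cjS P y ⊔ (W ⊓ S) = cjS (P ⊔ (cjS W y⁻¹ ⊓ S)) y`, `cjS W y⁻¹` is open and normalised by `S`, and relative indices are invariant under the automorphism `x ↦ cj x y`, which maps `S` onto `S`. -/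
theorem IsSyl.cj {S P : Subgroup G} {q : ℕ} (hP : IsSyl q S P) {y : G} (hy : ∀ x ∈ S, cj x y ∈ S ∧ cj x y⁻¹ ∈ S) :
    IsSyl q S (cjS P y) := by
  refine ⟨?_, hP.pp.cj y, ?_⟩
  · intro x hx
    rw [mem_cjS'] at hx
    have := (hy _ (hP.le hx)).1
    rwa [cj_inv_cj] at this
  · intro W hW hn
    rw [aux_relIndex hy]
    refine hP.ndvd _ (cjS_open hW _) ?_
    intro a ha w hw
    rw [mem_cjS', inv_inv] at hw ⊢
    have h1 : Pool.Agent.CTM.cj (Pool.Agent.CTM.cj w a) y =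
        Pool.Agent.CTM.cj (Pool.Agent.CTM.cj w y) (Pool.Agent.CTM.cj a y) := by
      unfold Pool.Agent.CTM.cj; group
    rw [h1]
    exact hn _ (hy a ha).1 _ hw

omit [TopologicalSpace G] [IsTopologicalGroup G] [T2Space G] in
private theorem aux_S {S : Subgroup G} {s : G} (hs : s ∈ S) : ∀ x ∈ S, cj x s ∈ S ∧ cj x s⁻¹ ∈ S :=
  fun x hx => ⟨nm_self S s hs x hx, nm_self S s⁻¹ (S.inv_mem hs) x hx⟩

/-- size 2.  If `P' ≤ P` are both Sylow `q`-subgroups of `S` then `P' = P`.  PROOF.  For `W` open normalised by `S`: `[P (W ⊓ S) : P' (W ⊓ S)]` divides `[S : P' (W ⊓ S)]`, prime to `q`, and divides `[P : P ∩ P' W]`, which divides `[P : P ∩ W]`, a power of `q`; so `P ≤ P' (W ⊓ S)`.  For `x ∈ P` and every open `V` there is such a `W ≤ V`: `x ∈ P' V` for all `V`;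
`P'` closed: `x ∈ P'`. -/
theorem IsSyl.eq_of_le (H : Hyp G) {S P P' : Subgroup G} (hS : IsCompact (S : Set G)) {q : ℕ} (hq : q.Prime)
    (hP : IsSyl q S P) (hP' : IsSyl q S P') (h : P' ≤ P) : P' = P := by
  refine le_antisymm h ?_
  obtain ⟨s, hs, hsP⟩ := fp2 H hS hq hP' hP.le hP.pp
  -- `cjS P s ≤ P'`
  have hle : cjS P s ≤ P' := by
    intro x hx
    rw [mem_cjS'] at hx
    have := hsP _ hx
    rwa [cj_inv_cj] at this
  have key : ∀ W : Subgroup G, IsOpen (W : Set G) → Nm S W → P ≤ P' ⊔ (W ⊓ S) := by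
    intro W hW hn
    have hWs : cjS W s⁻¹ = W := by
      ext x
      rw [mem_cjS', inv_inv]
      constructor
      · intro hx
        have := hn _ (S.inv_mem hs) _ hx
        rwa [cj_cj_inv] at this
      · intro hx
        exact hn _ hs _ hx
    have e1 : (cjS P s ⊔ (W ⊓ S)).relIndex S = (P ⊔ (W ⊓ S)).relIndex S := by
      rw [aux_relIndex (aux_S hs), hWs]
    have l1 : cjS P s ⊔ (W ⊓ S) ≤ P' ⊔ (W ⊓ S) := sup_le_sup_right hle _
    have l2 : P' ⊔ (W ⊓ S) ≤ P ⊔ (W ⊓ S) := sup_le_sup_right h _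
    have l3 : P ⊔ (W ⊓ S) ≤ S := sup_le hP.le inf_le_right
    have m1 := Subgroup.relIndex_mul_relIndex _ _ _ l1 (l2.trans l3)
    have m2 := Subgroup.relIndex_mul_relIndex _ _ _ l2 l3
    have hne : (P ⊔ (W ⊓ S)).relIndex S ≠ 0 := by
      intro h0
      have : (W ⊓ S).relIndex S ≠ 0 := by
        rw [Subgroup.inf_relIndex_right]
        exact relIndex_ne hS hW
      apply this
      have m3 := Subgroup.relIndex_mul_relIndex _ _ _ (le_sup_right : W ⊓ S ≤ P ⊔ (W ⊓ S)) l3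
      rw [← m3, h0, mul_zero]
    rw [← m2, e1] at m1
    -- a * (b * c) = c
    have hb : (P' ⊔ (W ⊓ S)).relIndex (P ⊔ (W ⊓ S)) = 1 := by
      have h5 : ((cjS P s ⊔ (W ⊓ S)).relIndex (P' ⊔ (W ⊓ S)) * (P' ⊔ (W ⊓ S)).relIndex (P ⊔ (W ⊓ S))) *
          (P ⊔ (W ⊓ S)).relIndex S = 1 * (P ⊔ (W ⊓ S)).relIndex S := by
        rw [mul_assoc, m1, one_mul]
      have h6 := Nat.eq_of_mul_eq_mul_right (Nat.pos_of_ne_zero hne) h5
      exact Nat.eq_one_of_mul_eq_one_left h6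
    rw [Subgroup.relIndex_eq_one] at hb
    exact le_sup_left.trans hb
  intro x hx
  by_contra hxn
  have hcl : IsClosed (P' : Set G) := hP'.pp.1.isClosed
  obtain ⟨V, hVo, -, hV⟩ := H.small hcl hxn
  obtain ⟨W, hWo, hWV, hWn⟩ := core_exists hS hVo
  have h1 : x ∈ (W ⊓ S) ⊔ P' := by
    rw [sup_comm]; exact key W hWo hWn hx
  have hnm : Nm P' (W ⊓ S) := nm_mono hP'.le (nm_inf hWn (nm_self S))
  obtain ⟨b, hb, a, ha, hab⟩ := (mem_sup_nm' hnm).1 h1
  apply hV a⁻¹ (V.inv_mem (hWV ha.1))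
  rw [hab, mul_inv_cancel_right]
  exact hb

/-- size 1.  A Sylow subgroup containing `Q`: `cjS P s⁻¹` with `s` from `fp2` (`exists_syl`, `IsSyl.cj`). -/
theorem exists_syl_ge (H : Hyp G) {S Q : Subgroup G} (hS : IsCompact (S : Set G)) {q : ℕ} (hq : q.Prime)
    (hQS : Q ≤ S) (hQ : Pp {q} Q) : ∃ P : Subgroup G, IsSyl q S P ∧ Q ≤ P := by
  obtain ⟨P, hP⟩ := exists_syl hS hq
  obtain ⟨s, hs, hsQ⟩ := fp2 H hS hq hP hQS hQ
  refine ⟨cjS P s⁻¹, hP.cj (aux_S (S.inv_mem hs)), ?_⟩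
  intro x hx
  rw [mem_cjS', inv_inv]
  exact hsQ x hx

/-- size 2.  FRATTINI ARGUMENT.  PROOF.  `y ∈ Y`; `P₁ := cjS P y` is a Sylow subgroup of `S` (`IsSyl.cj`), so by `fp2` there is `s ∈ S` with `cj x s ∈ P` for `x ∈ P₁`, i.e. `cjS P (y * s) ≤ P`; by `IsSyl.cj`, `eq_of_le` equality: so `y * s` normalises `P` on both sides. -/
theorem frattini_arg (H : Hyp G) {S P : Subgroup G} (hS : IsCompact (S : Set G)) {q : ℕ} (hq : q.Prime)
    (hP : IsSyl q S P) {y : G} (hy : ∀ x ∈ S, cj x y ∈ S ∧ cj x y⁻¹ ∈ S) :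
    ∃ s ∈ S, ∀ x ∈ P, cj x (y * s) ∈ P ∧ cj x (y * s)⁻¹ ∈ P := by
  have hP₁ := hP.cj hy
  obtain ⟨s, hs, hsP⟩ := fp2 H hS hq hP hP₁.le hP₁.pp
  have hle : cjS P (y * s) ≤ P := by
    intro x hx
    rw [mem_cjS'] at hx
    have h1 : cj x s⁻¹ ∈ cjS P y := by
      rw [mem_cjS', cj_cj]
      rwa [mul_inv_rev] at hx
    have h2 := hsP _ h1
    rwa [cj_inv_cj] at h2
  have hys : ∀ x ∈ S, cj x (y * s) ∈ S ∧ cj x (y * s)⁻¹ ∈ S := by
    intro x hx
    constructor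
    · rw [← cj_cj]
      exact (aux_S hs _ (hy x hx).1).1
    · rw [mul_inv_rev, ← cj_cj]
      exact (hy _ (aux_S hs x hx).2).2
  have heq : cjS P (y * s) = P := IsSyl.eq_of_le H hS hq hP (hP.cj hys) hle
  refine ⟨s, hs, fun x hx => ⟨?_, ?_⟩⟩
  · have := cj_mem_cjS (g := y * s) hx
    rwa [heq] at this
  · have : x ∈ cjS P (y * s) := by rwa [heq]
    rwa [mem_cjS'] at this

end Pool.Agent.CTM
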