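import Pool.Agent.CTM.Far
import Pool.Agent.CTM.SyE

/-!
# CTM: the reversed tower, one step
-/

set_option autoImplicit false

namespace Pool.Agent.CTM

universe u

variable {G : Type u} [Group G] [TopologicalSpace G] [IsTopologicalGroup G] [T2Space G]

/-- size 4.  PROOF.  `far_q`: `q ∉ F` and `Q ≤ Y` pro-`q`, `¬ Q ≤ K m`.  `S := cl (⨆ Q' ≤ Y pro-q, Q') ≤ Y`; `S ≤ K m'` (`Bd.le`), so `S` is compact; `Y` normalises `S`: conjugates by `y ∈ Y` of pro-`q` subgroups of `Y` are such (`Pp.cj`).  `P` a Sylow `q`-subgroup of `S` containing `Q` (`exists_syl_ge`).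
`Y' := {y ∈ Y | ∀ x ∈ P, cj x y ∈ P ∧ cj x y⁻¹ ∈ P}`, a closed subgroup, `Nm Y' P`, `P ≤ Y'`.  `Y ⊆ Y' * S` (`frattini_arg`: `y * s ∈ Y'`); if `Y'` were compact then `Y`, a closed subset of the compact `Y' * S`, would be compact. -/
theorem tow_step {K : ℕ → Subgroup G} (T : Tow K) {N Y : Subgroup G} (h : Bd K N) (hYN : Y ≤ N)
    (hY : IsClosed (Y : Set G)) (hnc : ¬ IsCompact (Y : Set G)) (F : Finset ℕ) (m : ℕ) :
    ∃ q : ℕ, q.Prime ∧ q ∉ F ∧ ∃ P Y' : Subgroup G, P ≤ Y ∧ Pp {q} P ∧ ¬ P ≤ K m ∧ Y' ≤ Y ∧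
      IsClosed (Y' : Set G) ∧ ¬ IsCompact (Y' : Set G) ∧ Nm Y' P := by
  obtain ⟨q, hq, hqF, Q, hQY, hQ, hQK⟩ := far_q T h hYN hY hnc F m
  obtain ⟨m', hm'⟩ := Bd.le T h hq
  let SS : Set (Subgroup G) := {Q' | Q' ≤ Y ∧ Pp {q} Q'}
  let S₀ : Subgroup G := sSup SS
  let S : Subgroup G := S₀.topologicalClosure
  have hS₀K : S₀ ≤ K m' := sSup_le fun Q' hQ' => hm' Q' (hQ'.1.trans hYN) hQ'.2
  have hS₀Y : S₀ ≤ Y := sSup_le fun Q' hQ' => hQ'.1
  have hSK : S ≤ K m' := Subgroup.topologicalClosure_minimal _ hS₀K (T.cpt m').isClosed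
  have hSY : S ≤ Y := Subgroup.topologicalClosure_minimal _ hS₀Y hY
  have hScl : IsClosed (S : Set G) := Subgroup.isClosed_topologicalClosure _
  have hScpt : IsCompact (S : Set G) := T.cpt_of hScl (n := m') hSK
  have hnm₀ : Nm Y S₀ := by
    intro y hy x hx
    have h1 : S₀ ≤ cjS S₀ y⁻¹ := by
      refine sSup_le fun Q' hQ' x hx => ?_
      rw [mem_cjS', inv_inv]
      have h2 : cjS Q' y ∈ SS := by
        refine ⟨fun w hw => ?_, hQ'.2.cj y⟩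
        have h3 : y * w * y⁻¹ ∈ Y := hQ'.1 (mem_cjS.1 hw)
        have h4 := Y.mul_mem (Y.mul_mem (Y.inv_mem hy) h3) hy
        have h5 : y⁻¹ * (y * w * y⁻¹) * y = w := by group
        rwa [h5] at h4
      exact (le_sSup h2) (cj_mem_cjS hx)
    have h6 := h1 hx
    rwa [mem_cjS', inv_inv] at h6
  have hnm : Nm Y S := nm_topClosure_right hnm₀
  have hQS : Q ≤ S := le_trans (le_sSup (show Q ∈ SS from ⟨hQY, hQ⟩)) (Subgroup.le_topologicalClosure _)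
  obtain ⟨P, hP, hQP⟩ := exists_syl_ge T.hyp hScpt hq hQS hQ
  have hPcl : IsClosed (P : Set G) := hP.pp.1.isClosed
  let Y' : Subgroup G :=
    { carrier := {y | y ∈ Y ∧ ∀ x ∈ P, cj x y ∈ P ∧ cj x y⁻¹ ∈ P}
      mul_mem' := by
        rintro a b ⟨ha, ha'⟩ ⟨hb, hb'⟩
        refine ⟨Y.mul_mem ha hb, fun x hx => ⟨?_, ?_⟩⟩
        · rw [← cj_cj]; exact (hb' _ (ha' x hx).1).1
        · rw [mul_inv_rev, ← cj_cj]; exact (ha' _ (hb' x hx).2).2
      one_mem' := ⟨Y.one_mem, fun x hx => by rw [inv_one, cj_one]; exact ⟨hx, hx⟩⟩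
      inv_mem' := by
        rintro a ⟨ha, ha'⟩
        refine ⟨Y.inv_mem ha, fun x hx => ?_⟩
        rw [inv_inv]
        exact ⟨(ha' x hx).2, (ha' x hx).1⟩ }
  have hY'cl : IsClosed (Y' : Set G) := by
    have h1 : (Y' : Set G) = (Y : Set G) ∩ ⋂ x ∈ P, ((fun y => cj x y) ⁻¹' (P : Set G) ∩ (fun y => cj x y⁻¹) ⁻¹' (P : Set G)) := by
      ext y
      simp only [Set.mem_inter_iff, Set.mem_iInter, Set.mem_preimage, SetLike.mem_coe]
      exact Iff.rfl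
    rw [h1]
    refine hY.inter (isClosed_biInter fun x _ => (hPcl.preimage ?_).inter (hPcl.preimage ?_))
    · unfold cj; fun_prop
    · unfold cj; fun_prop
  refine ⟨q, hq, hqF, P, Y', hP.le.trans hSY, hP.pp, fun hle => hQK (hQP.trans hle), fun y hy => hy.1, hY'cl, ?_,
    fun a ha y hy => (ha.2 y hy).1⟩
  intro hc
  refine hnc ((hc.mul hScpt).of_isClosed_subset hY fun y hy => ?_)
  obtain ⟨s, hs, hs'⟩ := frattini_arg T.hyp hScpt hq hP (y := y)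
    (fun x hx => ⟨hnm y hy x hx, hnm y⁻¹ (Y.inv_mem hy) x hx⟩)
  refine Set.mem_mul.2 ⟨y * s, ⟨Y.mul_mem hy (hSY hs), hs'⟩, s⁻¹, S.inv_mem hs, ?_⟩
  group

end Pool.Agent.CTM
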