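import Pool.Agent.CTM.TwF

/-!
# CTM: indices in the tower
-/

set_option autoImplicit false

namespace Pool.Agent.CTM

universe u

variable {G : Type u} [Group G] [TopologicalSpace G] [IsTopologicalGroup G] [T2Space G]

private theorem twc_nrm {D W : Subgroup G} (h : Nm D W) : (W.subgroupOf D).Normal := by
  refine ⟨fun n hn g => ?_⟩
  rw [Subgroup.mem_subgroupOf] at hn ⊢
  have h1 := h _ (D.inv_mem g.2) _ hn
  simpa [cj] using h1

private theorem twc_dvd {R R' C E : Subgroup G} (hRC : R ≤ C) (hn : Nm C R) (hn' : Nm E R')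
    (hcov : ∀ x ∈ C, ∃ y ∈ E, y ∈ C ∧ y⁻¹ * x ∈ R) (hle : ∀ x ∈ R', x ∈ C → x ∈ R) :
    R.relIndex C ∣ R'.relIndex E := by
  have n1 : (R.subgroupOf C).Normal := twc_nrm hn
  have n2 : (R'.subgroupOf E).Normal := twc_nrm hn'
  have hCE : C ⊓ E ≤ C := inf_le_left
  have hEE : C ⊓ E ≤ E := inf_le_right
  have htop : R.subgroupOf C ⊔ (C ⊓ E).subgroupOf C = ⊤ := by
    rw [eq_top_iff]
    intro x _
    obtain ⟨y, hyE, hyC, hr⟩ := hcov x x.2
    have hrC : y⁻¹ * (x : G) ∈ C := C.mul_mem (C.inv_mem hyC) x.2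
    have e : x = (⟨y, hyC⟩ : ↥C) * ⟨y⁻¹ * (x : G), hrC⟩ := by
      apply Subtype.ext
      simp
    rw [e]
    refine Subgroup.mul_mem _ (Subgroup.mem_sup_right ?_) (Subgroup.mem_sup_left ?_)
    · rw [Subgroup.mem_subgroupOf]; exact ⟨hyC, hyE⟩
    · rw [Subgroup.mem_subgroupOf]; exact hr
  have e1 : R.relIndex C = R.relIndex (C ⊓ E) := by
    have e0 : R.relIndex C = (R.subgroupOf C).index := rfl
    rw [e0, ← Subgroup.relIndex_top_right, ← htop, Subgroup.relIndex_sup_left,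
      Subgroup.relIndex_subgroupOf hCE]
  have d1 : R.relIndex (C ⊓ E) ∣ R'.relIndex (C ⊓ E) := by
    have h1 : R' ⊓ (C ⊓ E) ≤ R := fun x hx => hle x hx.1 hx.2.1
    have h2 := Subgroup.relIndex_dvd_of_le_left (C ⊓ E) h1
    rwa [Subgroup.inf_relIndex_right] at h2
  have d2 : R'.relIndex (C ⊓ E) ∣ R'.relIndex E := by
    have h1 := Subgroup.relIndex_dvd_index_of_normal (R'.subgroupOf E) ((C ⊓ E).subgroupOf E)
    rwa [Subgroup.relIndex_subgroupOf hEE] at h1
  rw [e1]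
  exact d1.trans d2

/-- size 4.  PROOF.  Write `B := Hs P (i+1)`.  Induction on `k ≥ i + 1` (for all `W`).  `k = i + 1`: `B ⊔ (W ⊓ B) = B`, relative index `1`.  Step: `W` open, normalised by `Hs P (k+1) = Hs P k ⊔ P k` (products `h * y`: `P k` normalises `Hs P k`).  `R := B ⊔ (W ⊓ Hs P (k+1))`, `R' := Hs P k ⊔ R = Hs P k ⊔ (W ⊓ Hs P (k+1))`.
`R.relIndex (Hs P (k+1)) = R.relIndex R' * R'.relIndex (Hs P (k+1))` (`Subgroup.relIndex_mul_relIndex`).  `R'.relIndex (Hs P (k+1))`: `Hs P (k+1) = Hs P k * P k` and `Hs P k ≤ R'`: it is `R'.relIndex (P k)`, which divides `W.relIndex (P k)` (`W ⊓ P k ≤ R'`), whose prime divisors are `p k` (`hP k`).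
`R.relIndex R'`: `R' = Hs P k * R` (`R` normalises `Hs P k`): it is `R.relIndex (Hs P k)`, which divides `(B ⊔ (W ⊓ Hs P k)).relIndex (Hs P k)` (as `B ⊔ (W ⊓ Hs P k) ≤ R`): induction. -/
theorem hs_index {p : ℕ → ℕ} {P : ℕ → Subgroup G} (hP : ∀ i, Pp {p i} (P i)) (hn : ∀ i j, i < j → Nm (P j) (P i))
    (i k : ℕ) (hk : i + 1 ≤ k) {W : Subgroup G} (hW : IsOpen (W : Set G)) (hWn : Nm (Hs P k) W) {r : ℕ} (hr : r.Prime)
    (hd : r ∣ (Hs P (i + 1) ⊔ (W ⊓ Hs P k)).relIndex (Hs P k)) : ∃ j, i < j ∧ j < k ∧ r = p j := by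
  obtain ⟨hmono, hpr⟩ := hs_props hP hn
  have hnm : ∀ a b, Nm (Hs P a) (Hs P b) := fun a b => nm_mono (hpr a).2.1 (hpr b).2.2.1
  induction k, hk using Nat.le_induction generalizing W with
  | base =>
    exfalso
    have h1 : (Hs P (i + 1) ⊔ (W ⊓ Hs P (i + 1))).relIndex (Hs P (i + 1)) = 1 :=
      Subgroup.relIndex_eq_one.mpr le_sup_left
    rw [h1] at hd
    exact hr.one_lt.ne' (Nat.dvd_one.mp hd)
  | succ k hk ih =>
    set B : Subgroup G := Hs P (i + 1) with hB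
    set C : Subgroup G := Hs P (k + 1) with hC
    set A : Subgroup G := Hs P k with hA
    have hCe : C = A ⊔ P k := rfl
    have hBA : B ≤ A := hmono hk
    have hAC : A ≤ C := le_sup_left
    have hPC : P k ≤ C := le_sup_right
    have hWA : Nm A W := nm_mono hAC hWn
    have hWP : Nm (P k) W := nm_mono hPC hWn
    have hnPA : Nm (P k) A := (hpr k).2.2.2.2
    have hnCA : Nm C A := hnm (k + 1) k
    have hnCB : Nm C B := hnm (k + 1) (i + 1)
    set R : Subgroup G := B ⊔ (W ⊓ C) with hR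
    have hRC : R ≤ C := sup_le (hBA.trans hAC) inf_le_right
    have hnCR : Nm C R := nm_sup hnCB (nm_inf hWn (nm_self C))
    set R' : Subgroup G := A ⊔ R with hR'
    have hRR' : R ≤ R' := le_sup_right
    have hR'C : R' ≤ C := sup_le hAC hRC
    have hnCR' : Nm C R' := nm_sup hnCA hnCR
    rw [← Subgroup.relIndex_mul_relIndex R R' C hRR' hR'C, hr.dvd_mul] at hd
    rcases hd with hd | hd
    · have h1 : R.relIndex R' ∣ (B ⊔ (W ⊓ A)).relIndex A := by
        refine twc_dvd hRR' (nm_mono hR'C hnCR) (nm_sup (nm_mono hAC hnCB) (nm_inf hWA (nm_self A))) ?_ ?_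
        · intro x hx
          obtain ⟨a, ha, r, hr, rfl⟩ := (mem_sup_nm (nm_mono hRC hnCA)).mp hx
          exact ⟨a, ha, Subgroup.mem_sup_left ha, by simpa using hr⟩
        · intro x hx _
          have h2 : B ⊔ (W ⊓ A) ≤ R := sup_le_sup_left (inf_le_inf_left W hAC) B
          exact h2 hx
      obtain ⟨j, h2, h3, h4⟩ := ih hW hWA (hd.trans h1)
      exact ⟨j, h2, by omega, h4⟩
    · have h1 : R'.relIndex C ∣ W.relIndex (P k) := by
        refine twc_dvd hR'C hnCR' hWP ?_ ?_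
        · intro x hx
          rw [hCe] at hx
          obtain ⟨y, hy, a, ha, rfl⟩ := (mem_sup_nm' hnPA).mp hx
          exact ⟨y, hy, hPC hy, by simpa using Subgroup.mem_sup_left ha⟩
        · intro x hx hxC
          exact Subgroup.mem_sup_right (Subgroup.mem_sup_right ⟨hx, hxC⟩)
      have h2 := (hP k).2 W hW r hr (hd.trans h1)
      exact ⟨k, by omega, by omega, h2⟩

end Pool.Agent.CTM
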