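import Pool.Agent.CTM.TwF

/-!
# CTM: the tower group is CND
-/

set_option autoImplicit false

namespace Pool.Agent.CTM

universe u

variable {G : Type u} [Group G] [TopologicalSpace G] [IsTopologicalGroup G] [T2Space G]

/-- size 2.  PROOF.  `H := cl (⨆ j, P j)` closed; not compact: otherwise `H ≤ K m` (`Tow.bdd`), but `¬ P m ≤ K m`.  Dense union: `⨆ j, P j` is the union of the `Hs P k` (monotone), which are compact, `≤ H`, normalised by `H` (`hs_props`). -/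
theorem tow_cnd {K : ℕ → Subgroup G} (T : Tow K) {p : ℕ → ℕ} {P : ℕ → Subgroup G} (hP : ∀ i, Pp {p i} (P i))
    (hn : ∀ i j, i < j → Nm (P j) (P i)) (hK : ∀ i, ¬ P i ≤ K i) :
    CND (⨆ j, P j : Subgroup G).topologicalClosure ∧
    ∀ x ∈ (⨆ j, P j : Subgroup G).topologicalClosure, ∀ V : Subgroup G, IsOpen (V : Set G) →
      ∃ k, ∃ y ∈ Hs P k, x⁻¹ * y ∈ V := by
  obtain ⟨hmono, hpr⟩ := hs_props hP hn
  have hle : (⨆ j, P j : Subgroup G) ≤ ⨆ k, Hs P k :=
    iSup_le fun j => le_trans (show P j ≤ Hs P (j + 1) from le_sup_right) (le_iSup (Hs P) (j + 1))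
  have h2 : ∀ x ∈ (⨆ j, P j : Subgroup G).topologicalClosure, ∀ V : Subgroup G, IsOpen (V : Set G) →
      ∃ k, ∃ y ∈ Hs P k, x⁻¹ * y ∈ V := by
    intro x hx V hV
    have hx' : x ∈ closure ((⨆ j, P j : Subgroup G) : Set G) := hx
    obtain ⟨s, hs, hsV⟩ := T.hyp.mem_closure.1 hx' V hV
    have hs' : s ∈ (⨆ k, Hs P k : Subgroup G) := hle hs
    rw [Subgroup.mem_iSup_of_directed hmono.directed_le] at hs'
    obtain ⟨k, hk⟩ := hs'
    exact ⟨k, s, hk, hsV⟩
  refine ⟨⟨Subgroup.isClosed_topologicalClosure _, ?_, ?_⟩, h2⟩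
  · intro hc
    obtain ⟨m, hm⟩ := T.bdd hc
    apply hK m
    intro x hx
    exact hm (Subgroup.le_topologicalClosure _ ((le_iSup P m) hx))
  · intro a ha V hV
    obtain ⟨k, y, hy, hyV⟩ := h2 a ha V hV
    exact ⟨Hs P k, (hpr k).1, (hpr k).2.1, (hpr k).2.2.1, y, hy, hyV⟩

end Pool.Agent.CTM
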