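import Pool.Agent.CTM.TwC
import Pool.Agent.CTM.TwG

/-!
# CTM: indices in the tower, part 2
-/

set_option autoImplicit false

namespace Pool.Agent.CTM

universe u

variable {G : Type u} [Group G] [TopologicalSpace G] [IsTopologicalGroup G] [T2Space G]

private theorem twd_nrm {D W : Subgroup G} (h : Nm D W) : (W.subgroupOf D).Normal := by
  refine ⟨fun n hn g => ?_⟩
  rw [Subgroup.mem_subgroupOf] at hn ⊢
  have h1 := h _ (D.inv_mem g.2) _ hn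
  simpa [cj] using h1

private theorem twd_dvd {R R' C E : Subgroup G} (hRC : R ≤ C) (hn : Nm C R) (hn' : Nm E R')
    (hcov : ∀ x ∈ C, ∃ y ∈ E, y ∈ C ∧ y⁻¹ * x ∈ R) (hle : ∀ x ∈ R', x ∈ C → x ∈ R) :
    R.relIndex C ∣ R'.relIndex E := by
  have n1 : (R.subgroupOf C).Normal := twd_nrm hn
  have n2 : (R'.subgroupOf E).Normal := twd_nrm hn'
  have hCE : C ⊓ E ≤ C := inf_le_left
  have hEE : C ⊓ E ≤ E := inf_le_right
  have htop : R.subgroupOf C ⊔ (C ⊓ E).subgroupOf C = ⊤ := by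
    rw [eq_top_iff]
    intro x _
    obtain ⟨y, hyE, hyC, hr⟩ := hcov x x.2
    have hrC : y⁻¹ * (x : G) ∈ C := C.mul_mem (C.inv_mem hyC) x.2
    have e : x = (⟨y, hyC⟩ : ↥C) * ⟨y⁻¹ * (x : G), hrC⟩ := by
      apply Subtype.ext
      simp
    rw [e]
    refine Subgroup.mul_mem _ (Subgroup.mem_sup_right ?_) (Subgroup.mem_sup_left ?_)
    · rw [Subgroup.mem_subgroupOf]; exact ⟨hyC, hyE⟩
    · rw [Subgroup.mem_subgroupOf]; exact hr
  have e1 : R.relIndex C = R.relIndex (C ⊓ E) := by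
    have e0 : R.relIndex C = (R.subgroupOf C).index := rfl
    rw [e0, ← Subgroup.relIndex_top_right, ← htop, Subgroup.relIndex_sup_left,
      Subgroup.relIndex_subgroupOf hCE]
  have d1 : R.relIndex (C ⊓ E) ∣ R'.relIndex (C ⊓ E) := by
    have h1 : R' ⊓ (C ⊓ E) ≤ R := fun x hx => hle x hx.1 hx.2.1
    have h2 := Subgroup.relIndex_dvd_of_le_left (C ⊓ E) h1
    rwa [Subgroup.inf_relIndex_right] at h2
  have d2 : R'.relIndex (C ⊓ E) ∣ R'.relIndex E := by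
    have h1 := Subgroup.relIndex_dvd_index_of_normal (R'.subgroupOf E) ((C ⊓ E).subgroupOf E)
    rwa [Subgroup.relIndex_subgroupOf hEE] at h1
  rw [e1]
  exact d1.trans d2

/-- size 4.  PROOF.  Let `H := cl (⨆ j, P j)`, `B := Hs P (i+1)` (compact, normalised by `H`), `R := (W ⊓ C) ⊔ B` (products `w * b`).  `C` is a finite union of cosets `x R` (`x ∈ C`; `finite_cover` with `W`).  Each contains an element of some `Hs P k`: `tow_cnd` for `x` and the open subgroup `W ⊓ U`: `y ∈ Hs P k` with `x⁻¹ * y ∈ W ⊓ U`; `x⁻¹ * y ∈ U ⊓ H ≤ C`, so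
`x⁻¹ * y ∈ W ⊓ C ≤ R`, `y ∈ C`.  By monotonicity there is one `k ≥ i + 1` for all the cosets: `C = (C ⊓ Hs P k) R`.  So `R.relIndex C = R.relIndex (C ⊓ Hs P k)`.  `C ⊔ Hs P k` is compact (`Hs P k` is normalised by `H ≥ C`): let `W' ≤ W` be open, normalised by it (`core_exists`), `R' := B ⊔ (W' ⊓ Hs P k)`, normal in `Hs P k`, with `R' ⊓ C ≤ R`
(`b * w ∈ C`, `b ∈ B ≤ C`, so `w ∈ W' ⊓ C ≤ W ⊓ C`).  So `R.relIndex (C ⊓ Hs P k)` divides `R'.relIndex (C ⊓ Hs P k)`, which divides `R'.relIndex (Hs P k)` (Lagrange, `R'` normal in `Hs P k`), whose prime divisors are `p j`, `i < j < k` (`hs_index`); these are different from `p i`. -/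
theorem tow_index {p : ℕ → ℕ} (hp : ∀ i, (p i).Prime) (hpi : Function.Injective p) {P : ℕ → Subgroup G} {K : ℕ → Subgroup G} (T : Tow K)
    (hP : ∀ i, Pp {p i} (P i)) (hn : ∀ i j, i < j → Nm (P j) (P i)) (hK : ∀ i, ¬ P i ≤ K i) (i : ℕ) {C U W : Subgroup G}
    (hC : IsCompact (C : Set G)) (hCH : C ≤ (⨆ j, P j : Subgroup G).topologicalClosure) (hU : IsOpen (U : Set G))
    (hUC : U ⊓ (⨆ j, P j : Subgroup G).topologicalClosure ≤ C) (hBC : Hs P (i + 1) ≤ C)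
    (hW : IsOpen (W : Set G)) (hWn : Nm C W) : ¬ p i ∣ ((W ⊓ C) ⊔ Hs P (i + 1)).relIndex C := by
  obtain ⟨hmono, hpr⟩ := hs_props hP hn
  obtain ⟨-, hden⟩ := tow_cnd T hP hn hK
  set Hc : Subgroup G := (⨆ j, P j : Subgroup G).topologicalClosure with hHc
  set B : Subgroup G := Hs P (i + 1) with hBdef
  have hnB : Nm Hc B := (hpr (i + 1)).2.2.1
  -- finite cover
  obtain ⟨F, hF, hcov⟩ := finite_cover hC hW
  have hWU : IsOpen ((W ⊓ U : Subgroup G) : Set G) := by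
    rw [Subgroup.coe_inf]; exact hW.inter hU
  have hpt : ∀ t ∈ F, ∃ k, ∃ y ∈ Hs P k, y ∈ C ∧ t⁻¹ * y ∈ W ⊓ C := by
    intro t ht
    obtain ⟨k, y, hy, h⟩ := hden t (hCH (hF t ht)) (W ⊓ U) hWU
    have hyH : y ∈ Hc := (hpr k).2.1 hy
    have h1 : t⁻¹ * y ∈ C := hUC ⟨h.2, Hc.mul_mem (Hc.inv_mem (hCH (hF t ht))) hyH⟩
    have h2 : y ∈ C := by
      have := C.mul_mem (hF t ht) h1
      rwa [mul_inv_cancel_left] at this
    exact ⟨k, y, hy, h2, h.1, h1⟩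
  choose! kf yf hyf using hpt
  obtain ⟨k, hk1, hk2⟩ : ∃ k, i + 1 ≤ k ∧ ∀ t ∈ F, kf t ≤ k :=
    ⟨max (i + 1) (F.sup kf), le_max_left _ _, fun t ht => (Finset.le_sup ht).trans (le_max_right _ _)⟩
  -- the core
  have hnCk : Nm C (Hs P k) := nm_mono hCH (hpr k).2.2.1
  obtain ⟨W', hW', hWW, hnW'⟩ := core_exists (cpt_sup (hpr k).1 hC hnCk) hW
  have hnk : Nm (Hs P k) W' := nm_mono le_sup_left hnW'
  have hnR : Nm C ((W ⊓ C) ⊔ B) := nm_sup (nm_inf hWn (nm_self C)) (nm_mono hCH hnB)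
  have hnR' : Nm (Hs P k) (B ⊔ (W' ⊓ Hs P k)) :=
    nm_sup (nm_mono (hpr k).2.1 hnB) (nm_inf hnk (nm_self _))
  have hRC : (W ⊓ C) ⊔ B ≤ C := sup_le inf_le_right hBC
  intro hdvd
  have hd := twd_dvd (R := (W ⊓ C) ⊔ B) (R' := B ⊔ (W' ⊓ Hs P k)) (C := C) (E := Hs P k) hRC hnR hnR' (by
    intro x hx
    obtain ⟨t, ht, h⟩ := hcov x hx
    obtain ⟨h1, h2, h3⟩ := hyf t ht
    refine ⟨yf t, hmono (hk2 t ht) h1, h2, Subgroup.mem_sup_left ?_⟩
    have e : (yf t)⁻¹ * x = (t⁻¹ * yf t)⁻¹ * (t⁻¹ * x) := by group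
    rw [e]
    exact Subgroup.mul_mem _ (Subgroup.inv_mem _ h3) ⟨h, C.mul_mem (C.inv_mem (hF t ht)) hx⟩) (by
    intro x hx hxC
    have hnb : Nm (W' ⊓ Hs P k) B := nm_mono (inf_le_right.trans (hpr k).2.1) hnB
    rw [mem_sup_nm hnb] at hx
    obtain ⟨b, hb, w, hw, e⟩ := hx
    have hwC : w ∈ C := by
      have : w = b⁻¹ * x := by rw [e]; group
      rw [this]; exact C.mul_mem (C.inv_mem (hBC hb)) hxC
    rw [e]
    exact Subgroup.mul_mem _ (Subgroup.mem_sup_right hb) (Subgroup.mem_sup_left ⟨hWW hw.1, hwC⟩))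
  obtain ⟨j, hij, -, e⟩ := hs_index hP hn i k hk1 hW' hnk (hp i) (hdvd.trans hd)
  exact absurd (hpi e) (Nat.ne_of_lt hij)

end Pool.Agent.CTM
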