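import Pool.Agent.CTM.SyH

/-!
# CTM: the groups `Hs`
-/

set_option autoImplicit false

namespace Pool.Agent.CTM

universe u

variable {G : Type u} [Group G] [TopologicalSpace G] [IsTopologicalGroup G] [T2Space G]

/-- `Hs P k = P 0 ⊔ ... ⊔ P (k-1)` -/
def Hs (P : ℕ → Subgroup G) : ℕ → Subgroup G
  | 0 => ⊥
  | (k + 1) => Hs P k ⊔ P k

/-- size 3.  PROOF.  `Hs k` is normalised by every `P j`: `P j` for `j ≥ k` normalises `P i`, `i < k`; `P j ≤ Hs k` for `j < k`.  So by induction `Hs k` is compact (`cpt_sup`), `Hs k ≤ Hs (k+1)`, and it is normalised by `cl (⨆ j, P j)` (`nm_topClosure_left`).  `Pp`: `Pp.sup`, `Pp.mono_pi`. -/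
theorem hs_props {p : ℕ → ℕ} {P : ℕ → Subgroup G} (hP : ∀ i, Pp {p i} (P i)) (hn : ∀ i j, i < j → Nm (P j) (P i)) :
    Monotone (Hs P) ∧ ∀ k, IsCompact (Hs P k : Set G) ∧ Hs P k ≤ (⨆ j, P j : Subgroup G).topologicalClosure ∧
      Nm (⨆ j, P j : Subgroup G).topologicalClosure (Hs P k) ∧ Pp {r | ∃ j < k, r = p j} (Hs P k) ∧
      Nm (P k) (Hs P k) := by
  have hmono : Monotone (Hs P) := monotone_nat_of_le_succ fun k => le_sup_left
  have hle : ∀ k i, i < k → P i ≤ Hs P k := by
    intro k i hik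
    have h1 : P i ≤ Hs P (i + 1) := le_sup_right
    exact h1.trans (hmono hik)
  have hge : ∀ k j, k ≤ j → Nm (P j) (Hs P k) := by
    intro k
    induction k with
    | zero =>
      intro j _ a _ y hy
      have hy1 : y = 1 := Subgroup.mem_bot.1 hy
      rw [hy1, one_cj]
      exact Subgroup.one_mem _
    | succ k ih =>
      intro j hj
      exact nm_sup (ih j (by omega)) (hn k j (by omega))
  have hnm : ∀ k j, Nm (P j) (Hs P k) := by
    intro k j
    rcases le_or_gt k j with h | h
    · exact hge k j h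
    · exact nm_mono (hle k j h) (nm_self _)
  have hnmS : ∀ k, Nm (⨆ j, P j) (Hs P k) := by
    intro k
    rw [Subgroup.iSup_eq_closure]
    refine nm_closure_of ?_
    intro s hs y hy
    obtain ⟨j, hj⟩ := Set.mem_iUnion.1 hs
    exact ⟨hnm k j s hj y hy, hnm k j s⁻¹ ((P j).inv_mem hj) y hy⟩
  have hcpt : ∀ k, IsCompact (Hs P k : Set G) := by
    intro k
    induction k with
    | zero =>
      show IsCompact ((⊥ : Subgroup G) : Set G)
      rw [Subgroup.coe_bot]
      exact isCompact_singleton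
    | succ k ih => exact cpt_sup ih (hP k).1 (hnm k k)
  have hleS : ∀ k, Hs P k ≤ ⨆ j, P j := by
    intro k
    induction k with
    | zero => exact bot_le
    | succ k ih => exact sup_le ih (le_iSup P k)
  have hPp : ∀ k, Pp {r | ∃ j < k, r = p j} (Hs P k) := by
    intro k
    induction k with
    | zero => exact pp_bot
    | succ k ih =>
      refine Pp.sup (ih.mono_pi ?_) ((hP k).mono_pi ?_) (hnm k k)
      · rintro r ⟨j, hj, rfl⟩
        exact ⟨j, by omega, rfl⟩
      · rintro r hr
        exact ⟨k, by omega, hr⟩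
  exact ⟨hmono, fun k => ⟨hcpt k, (hleS k).trans (Subgroup.le_topologicalClosure _),
    nm_topClosure_left (hcpt k).isClosed (hnmS k), hPp k, hnm k k⟩⟩

end Pool.Agent.CTM
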