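import Pool.Agent.CTM.BasA
import Pool.Agent.CTM.BasB
import Pool.Agent.CTM.BasC

/-!
# CTM: Lemma Z, commutators
-/

set_option autoImplicit false

namespace Pool.Agent.CTM

universe u

variable {G : Type u} [Group G] [TopologicalSpace G] [IsTopologicalGroup G] [T2Space G]

/-- size 3.  PROOF.  `V` is normalised by the compact open `L`; `Γ ≤ L`; `x ^ n ∈ V`, `n ≥ 1`.  (1) For `j < n` the set `{g ∈ L | g⁻¹ * cj g (x ^ j) ∈ V}` is a closed subgroup: for `g, g'` in it `cj (g g') y = g v g' v' = g g' (cj v g') v'`; inverse: `cj g⁻¹ y = (g v)⁻¹ = v⁻¹ g⁻¹ = g⁻¹ (cj v⁻¹ g⁻¹)`; it contains the generators `S`, so the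
closure of `Γ`.  (2) `m ∈ cl ⟨x⟩`: `m = x ^ j * v` with `j < n`, `v ∈ V`: true for integer powers of `x` (`x ^ k = x ^ (k % n) * (x ^ n) ^ (k / n)`), and the finite union of the closed sets `x ^ j * V` is closed.  (3) for `g` as in (1) and `m = x ^ j * v`: `cj g m = cj (cj g (x ^ j)) v = cj (g w) v = g * (cm g v) * (cj w v) ∈ g V` since `cm g v = (cj v g)⁻¹ * v ∈ V`
(`g ∈ L` normalises `V`). -/
theorem zm_comm {L V : Subgroup G} (hLo : IsOpen (L : Set G)) (hVo : IsOpen (V : Set G)) (hVL : V ≤ L) (hn : Nm L V) {S : Set G} (hS : ∀ g ∈ S, g ∈ L) {x : G}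
    {n : ℕ} (hn1 : 1 ≤ n) (hx : x ^ n ∈ V) (hc : ∀ g ∈ S, ∀ j < n, g⁻¹ * cj g (x ^ j) ∈ V) :
    (∀ g ∈ closure (Subgroup.closure S : Set G), ∀ m ∈ closure (Subgroup.zpowers x : Set G), cm g m ∈ V) ∧
    ∀ m ∈ closure (Subgroup.zpowers x : Set G), ∃ j < n, (x ^ j)⁻¹ * m ∈ V := by
  have hLc : IsClosed (L : Set G) := Subgroup.isClosed_of_isOpen L hLo
  have hVc : IsClosed (V : Set G) := Subgroup.isClosed_of_isOpen V hVo
  -- (1)
  have h1 : ∀ j < n, ∀ g ∈ closure (Subgroup.closure S : Set G), g ∈ L ∧ g⁻¹ * cj g (x ^ j) ∈ V := by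
    intro j hj
    let Q : Subgroup G :=
      { carrier := {g | g ∈ L ∧ g⁻¹ * cj g (x ^ j) ∈ V}
        mul_mem' := by
          rintro g g' ⟨hg, hv⟩ ⟨hg', hv'⟩
          refine ⟨L.mul_mem hg hg', ?_⟩
          have e : (g * g')⁻¹ * cj (g * g') (x ^ j) =
              cj (g⁻¹ * cj g (x ^ j)) g' * (g'⁻¹ * cj g' (x ^ j)) := by
            unfold cj; group
          rw [e]
          exact V.mul_mem (hn _ hg' _ hv) hv'
        one_mem' := by
          refine ⟨L.one_mem, ?_⟩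
          rw [one_cj]; simp
        inv_mem' := by
          rintro g ⟨hg, hv⟩
          refine ⟨L.inv_mem hg, ?_⟩
          have e : (g⁻¹)⁻¹ * cj g⁻¹ (x ^ j) = cj (g⁻¹ * cj g (x ^ j))⁻¹ g⁻¹ := by
            unfold cj; group
          rw [e]
          exact hn _ (L.inv_mem hg) _ (V.inv_mem hv) }
    have hQ : IsClosed (Q : Set G) := by
      have hcont : Continuous fun g : G => g⁻¹ * cj g (x ^ j) := by
        unfold cj; fun_prop
      exact hLc.inter (hVc.preimage hcont)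
    have hle : Subgroup.closure S ≤ Q := by
      rw [Subgroup.closure_le]
      exact fun g hg => ⟨hS g hg, hc g hg j hj⟩
    intro g hg
    exact closure_minimal (show (Subgroup.closure S : Set G) ⊆ Q from hle) hQ hg
  -- (2)
  have h2 : ∀ m ∈ closure (Subgroup.zpowers x : Set G), ∃ j < n, (x ^ j)⁻¹ * m ∈ V := by
    have hcl : IsClosed {m : G | ∃ j < n, (x ^ j)⁻¹ * m ∈ V} := by
      refine (clopen_of_coset hVo ?_).1
      rintro m ⟨j, hj, hm⟩ v hv
      refine ⟨j, hj, ?_⟩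
      rw [← mul_assoc]
      exact V.mul_mem hm hv
    have hsub : (Subgroup.zpowers x : Set G) ⊆ {m : G | ∃ j < n, (x ^ j)⁻¹ * m ∈ V} := by
      rintro m ⟨k, rfl⟩
      have hn0 : (0 : ℤ) < n := by exact_mod_cast hn1
      have hr0 := Int.emod_nonneg k hn0.ne'
      have hr1 := Int.emod_lt_of_pos k hn0
      refine ⟨(k % n).toNat, by omega, ?_⟩
      have e1 : x ^ (k % n).toNat = x ^ (k % n) := by
        rw [← zpow_natCast, Int.toNat_of_nonneg hr0]
      have e2 : (x ^ (k % n))⁻¹ * x ^ k = (x ^ n) ^ (k / n) := by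
        rw [← zpow_neg, ← zpow_add, ← zpow_natCast, ← zpow_mul]
        congr 1
        have := Int.emod_add_mul_ediv k n
        linarith
      change (x ^ (k % n).toNat)⁻¹ * x ^ k ∈ V
      rw [e1, e2]
      exact V.zpow_mem hx _
    exact fun m hm => closure_minimal hsub hcl hm
  refine ⟨fun g hg m hm => ?_, h2⟩
  obtain ⟨j, hj, hv⟩ := h2 m hm
  obtain ⟨hgL, hw⟩ := h1 j hj g hg
  have e : cm g m = cm g ((x ^ j)⁻¹ * m) * cj (g⁻¹ * cj g (x ^ j)) ((x ^ j)⁻¹ * m) := by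
    unfold cm cj; group
  rw [e]
  refine V.mul_mem ?_ ?_
  · rw [cm_eq']
    exact V.mul_mem (V.inv_mem (hn _ hgL _ hv)) hv
  · exact nm_self V _ hv _ hw

end Pool.Agent.CTM
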