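import Pool.Agent.CTM.ZmG

/-!
# CTM: Lemma Z: one step
-/

set_option autoImplicit false

namespace Pool.Agent.CTM

universe u

variable {G : Type u} [Group G] [TopologicalSpace G] [IsTopologicalGroup G]

/-- size 3.  ONE STEP.  PROOF.  `W` from `Cz_perturb`; `hs r x _ W (Vc (L r)) _ _ (L r)` gives `z`, `n₀`, `u`.  `x' := fun h => if h < r then u h else z`, `L' := Function.update L (r+1) l'` with `l' ≥ L r` and `z ∈ K l'` (`Tow.top`, `mono`), `n' := Function.update n r n₀`.  For `i < r` use
`Cz_perturb` (for `u`) and `Cz_congr`; for `i = r` by construction. -/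
theorem Cz_step {K : ℕ → Subgroup G} (T : Tow K) {N : Subgroup G} (hs : StarP K N) {Vc : ℕ → Subgroup G}
    (hVc : ∀ l, IsOpen (Vc l : Set G)) {L n : ℕ → ℕ} {r : ℕ} (h : ∃ x : ℕ → G, ∀ i < r, Cz K N Vc L n x i) :
    ∃ L' n' : ℕ → ℕ, (∀ i ≤ r, L' i = L i) ∧ (∀ i < r, n' i = n i) ∧ L r ≤ L' (r + 1) ∧
      ∃ x : ℕ → G, ∀ i < r + 1, Cz K N Vc L' n' x i := by
  obtain ⟨x, hx⟩ := h
  obtain ⟨W, hW, hp⟩ := Cz_perturb T.hyp T.opn hVc hx
  obtain ⟨z, hzN, hzK, n0, hn0, hzn, hmin, u, hu⟩ :=
    hs r x (fun h hh => (hx h hh).1) W (Vc (L r)) hW (hVc (L r)) (L r)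
  obtain ⟨m, hm⟩ := T.top z
  have hCu : ∀ i < r, Cz K N Vc L n u i := hp u (fun i hi => ⟨(hu i hi).1, (hu i hi).2.1⟩)
  refine ⟨Function.update L (r + 1) (max m (L r)), Function.update n r n0, ?_, ?_, ?_,
    (fun h => if h < r then u h else z), ?_⟩
  · intro i hi
    exact Function.update_of_ne (by omega) _ _
  · intro i hi
    exact Function.update_of_ne (by omega) _ _
  · rw [Function.update_self]
    exact le_max_right _ _
  · intro i hi
    rcases Nat.lt_succ_iff_lt_or_eq.mp hi with hi' | hi'
    · refine Cz_congr ?_ ?_ ?_ ?_ (hCu i hi')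
      · intro h hh
        show u h = if h < r then u h else z
        rw [if_pos (by omega)]
      · exact (Function.update_of_ne (by omega) _ _).symm
      · exact (Function.update_of_ne (by omega) _ _).symm
      · exact (Function.update_of_ne (by omega) _ _).symm
    · subst hi'
      have h1 : Function.update L (i + 1) (max m (L i)) i = L i := Function.update_of_ne (by omega) _ _
      have h2 : Function.update L (i + 1) (max m (L i)) (i + 1) = max m (L i) := Function.update_self ..
      have h3 : Function.update n i n0 i = n0 := Function.update_self ..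
      unfold Cz
      simp only [h1, h2, h3, lt_irrefl, if_false]
      refine ⟨hzN, T.mono (le_max_left _ _) hm, hzK, hn0, hzn, hmin, ?_⟩
      intro h hh j hj
      rw [if_pos hh]
      exact (hu h hh).2.2 j hj

end Pool.Agent.CTM
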