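import Pool.Agent.CTM.ZmA

/-!
# CTM: Lemma Z: perturbation
-/

set_option autoImplicit false

namespace Pool.Agent.CTM

universe u

variable {G : Type u} [Group G] [TopologicalSpace G] [IsTopologicalGroup G]

private theorem zmg_nbhd (H : Hyp G) {x : ℕ → G} {S : Set (ℕ → G)} (hS : S ∈ nhds x) :
    ∃ W : Subgroup G, IsOpen (W : Set G) ∧ ∀ u : ℕ → G, (∀ h, (x h)⁻¹ * u h ∈ W) → u ∈ S := by
  have hc : Continuous (fun v : ℕ → G => fun h => x h * v h) :=
    continuous_pi fun h => continuous_const.mul (continuous_apply h)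
  have h1 : (fun v : ℕ → G => fun h => x h * v h) ⁻¹' S ∈ nhds (1 : ℕ → G) := by
    apply hc.continuousAt.preimage_mem_nhds
    have : (fun h => x h * (1 : ℕ → G) h) = x := by
      funext h; simp
    rw [this]; exact hS
  rw [nhds_pi, Filter.mem_pi] at h1
  obtain ⟨I, hI, t, ht, hsub⟩ := h1
  have h2 : (⋂ i ∈ I, t i) ∈ nhds (1 : G) := (Filter.biInter_mem hI).2 fun i _ => ht i
  obtain ⟨W, hWo, _, hWs⟩ := H.base _ h2
  refine ⟨W, hWo, fun u hu => ?_⟩
  have h3 := hsub (show (fun h => (x h)⁻¹ * u h) ∈ I.pi t from fun i hi => by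
    have := hWs (hu i)
    simp only [Set.mem_iInter] at this
    exact this i hi)
  simpa using h3

/-- size 3.  PERTURBATION.  PROOF.  For fixed `i < r` all the conditions of `Cz ... i` except `x i ∈ N` are open and closed conditions on the tuple `(x h)_(h ≤ i)` (finitely many continuous functions of it, membership in open subgroups
or its negation).  So there is an open set of tuples; in `ℕ → G` (product topology) the set of `u` satisfying them for all `i < r` is open and contains `x`; a basic neighbourhood of `x` contains `{u | ∀ h < r, (x h)⁻¹ * u h ∈ W}` for an open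
subgroup `W` (`Hyp.base`, finitely many coordinates; only the coordinates `< r` matter; replace `u` by the function equal to `u` below `r` and to `x` above). -/
theorem Cz_perturb (H : Hyp G) {K : ℕ → Subgroup G} (hK : ∀ n, IsOpen (K n : Set G)) {N : Subgroup G}
    {Vc : ℕ → Subgroup G} (hVc : ∀ l, IsOpen (Vc l : Set G)) {L n : ℕ → ℕ} {x : ℕ → G} {r : ℕ}
    (h : ∀ i < r, Cz K N Vc L n x i) :
    ∃ W : Subgroup G, IsOpen (W : Set G) ∧ ∀ u : ℕ → G, (∀ i < r, u i ∈ N ∧ (x i)⁻¹ * u i ∈ W) →
      ∀ i < r, Cz K N Vc L n u i := by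
  classical
  have hKc : ∀ n, IsClosed (K n : Set G) := fun n => Subgroup.isClosed_of_isOpen _ (hK n)
  have ev : ∀ i ∈ Finset.range r, ∀ᶠ u in nhds x, u i ∈ K (L (i + 1)) ∧ u i ∉ K (L i) ∧
      u i ^ n i ∈ Vc (L i) ∧ (∀ j ∈ Finset.range (n i), 0 < j → u i ^ j ∉ K (L i)) ∧
      ∀ h ∈ Finset.range i, ∀ j ∈ Finset.range (n i), (u h)⁻¹ * cj (u h) (u i ^ j) ∈ Vc (L i) := by
    intro i hi
    obtain ⟨-, h2, h3, -, h5, h6, h7⟩ := h i (Finset.mem_range.1 hi)
    have ci : Continuous (fun u : ℕ → G => u i) := continuous_apply i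
    refine Filter.Eventually.and ?_ (Filter.Eventually.and ?_ (Filter.Eventually.and ?_ (Filter.Eventually.and ?_ ?_)))
    · exact ci.continuousAt.preimage_mem_nhds ((hK _).mem_nhds h2)
    · exact ci.continuousAt.preimage_mem_nhds ((hKc _).isOpen_compl.mem_nhds h3)
    · exact (ci.pow (n i)).continuousAt.preimage_mem_nhds ((hVc _).mem_nhds h5)
    · rw [Filter.eventually_all_finset]
      intro j hj
      by_cases h0 : 0 < j
      · have : ∀ᶠ u : ℕ → G in nhds x, u i ^ j ∈ ((K (L i) : Set G))ᶜ :=
          (ci.pow j).continuousAt.preimage_mem_nhds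
            ((hKc _).isOpen_compl.mem_nhds (h6 j h0 (Finset.mem_range.1 hj)))
        exact this.mono fun u hu _ => hu
      · exact Filter.Eventually.of_forall fun u hu => absurd hu h0
    · rw [Filter.eventually_all_finset]
      intro k hk
      rw [Filter.eventually_all_finset]
      intro j hj
      have ch : Continuous (fun u : ℕ → G => (u k)⁻¹ * cj (u k) (u i ^ j)) := by
        unfold cj
        have ck : Continuous (fun u : ℕ → G => u k) := continuous_apply k
        exact ck.inv.mul (((ci.pow j).inv.mul ck).mul (ci.pow j))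
      exact ch.continuousAt.preimage_mem_nhds
        ((hVc _).mem_nhds (h7 k (Finset.mem_range.1 hk) j (Finset.mem_range.1 hj)))
  have ev' := (Filter.eventually_all_finset (Finset.range r)).2 ev
  obtain ⟨W, hWo, hW⟩ := zmg_nbhd H ev'
  refine ⟨W, hWo, fun u hu i hi => ?_⟩
  have h1 := hW (fun h => if h < r then u h else x h) (fun k => by
    by_cases hk : k < r
    · simp only [hk, if_true]; exact (hu k hk).2
    · simp only [hk, if_false]; rw [inv_mul_cancel]; exact W.one_mem)
  have h2 := h1 i (Finset.mem_range.2 hi)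
  have hn : 1 ≤ n i := (h i hi).2.2.2.1
  have e1 : ∀ k ≤ i, (if k < r then u k else x k) = u k := fun k hk => if_pos (lt_of_le_of_lt hk hi)
  apply Cz_congr (x := fun h => if h < r then u h else x h) (L := L) (n := n) (fun k hk => e1 k hk) rfl rfl rfl
  obtain ⟨a1, a2, a3, a4, a5⟩ := h2
  refine ⟨?_, a1, a2, hn, a3, fun j h0 hj => a4 j (Finset.mem_range.2 hj) h0,
    fun k hk j hj => a5 k (Finset.mem_range.2 hk) j (Finset.mem_range.2 hj)⟩
  show (if i < r then u i else x i) ∈ N
  rw [if_pos hi]
  exact (hu i hi).1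

end Pool.Agent.CTM
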